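import Pool.Agent.Lib.MP_5c4da9_an.Defs

set_option autoImplicit false

open Set Filter Topology Module

noncomputable section

namespace Pool.Agent.Lib.MP_5c4da9_an

/-! ### Norm functions -/

section NormFun

variable {V : Type*}

theorem IsNorm.zero [AddCommGroup V] [Module ℝ V] {N : V → ℝ} (h : IsNorm N) : N 0 = 0 := by
  have := h.smul 0 0
  simpa using this

theorem IsNorm.neg [AddCommGroup V] [Module ℝ V] {N : V → ℝ} (h : IsNorm N) (x : V) :
    N (-x) = N x := by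
  have := h.smul (-1) x
  simpa using this

theorem IsNorm.nonneg [AddCommGroup V] [Module ℝ V] {N : V → ℝ} (h : IsNorm N) (x : V) :
    0 ≤ N x := by
  by_cases hx : x = 0
  · rw [hx, h.zero]
  · exact (h.pos x hx).le

theorem IsNorm.eq_zero [AddCommGroup V] [Module ℝ V] {N : V → ℝ} (h : IsNorm N) {x : V}
    (hx : N x = 0) : x = 0 := by
  by_contra hne
  exact (h.pos x hne).ne' hx

theorem IsNorm.convexOn [AddCommGroup V] [Module ℝ V] {N : V → ℝ} (h : IsNorm N) :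
    ConvexOn ℝ univ N := by
  refine ⟨convex_univ, fun x _ y _ a b ha hb _ => ?_⟩
  refine (h.add _ _).trans ?_
  rw [h.smul, h.smul, abs_of_nonneg ha, abs_of_nonneg hb]
  rfl

variable [NormedAddCommGroup V] [NormedSpace ℝ V] [FiniteDimensional ℝ V]

theorem IsNorm.continuous {N : V → ℝ} (h : IsNorm N) : Continuous N := by
  rw [← continuousOn_univ]
  exact h.convexOn.continuousOn isOpen_univ

/-- Comparison with the ambient norm. -/
theorem IsNorm.bounds {N : V → ℝ} (h : IsNorm N) : ∃ c C : ℝ, 0 < c ∧ 0 < C ∧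
    ∀ x, c * ‖x‖ ≤ N x ∧ N x ≤ C * ‖x‖ := by
  have hcont := h.continuous
  by_cases hV : ∃ x : V, x ≠ 0
  · obtain ⟨x₀, hx₀⟩ := hV
    have hne : (Metric.sphere (0 : V) 1).Nonempty :=
      ⟨‖x₀‖⁻¹ • x₀, by
        rw [mem_sphere_zero_iff_norm, norm_smul, norm_inv, norm_norm,
          inv_mul_cancel₀ (norm_ne_zero_iff.2 hx₀)]⟩
    obtain ⟨a, ha, hmin⟩ := (isCompact_sphere (0 : V) 1).exists_isMinOn hne hcont.continuousOn
    obtain ⟨b, hb, hmax⟩ := (isCompact_sphere (0 : V) 1).exists_isMaxOn hne hcont.continuousOn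
    have ha0 : a ≠ 0 := by
      rintro rfl
      simp at ha
    have hb0 : b ≠ 0 := by
      rintro rfl
      simp at hb
    refine ⟨N a, N b, h.pos a ha0, h.pos b hb0, fun x => ?_⟩
    by_cases hx : x = 0
    · rw [hx, h.zero, norm_zero, mul_zero, mul_zero]
      exact ⟨le_rfl, le_rfl⟩
    · have hxn : 0 < ‖x‖ := norm_pos_iff.2 hx
      have hmem : ‖x‖⁻¹ • x ∈ Metric.sphere (0 : V) 1 := by
        rw [mem_sphere_zero_iff_norm, norm_smul, norm_inv, norm_norm, inv_mul_cancel₀ hxn.ne']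
      have hsc : N (‖x‖⁻¹ • x) = ‖x‖⁻¹ * N x := by
        rw [h.smul, abs_of_pos (inv_pos.2 hxn)]
      have h1 : N a ≤ N (‖x‖⁻¹ • x) := hmin hmem
      have h2 : N (‖x‖⁻¹ • x) ≤ N b := hmax hmem
      rw [hsc] at h1 h2
      constructor
      · calc N a * ‖x‖ ≤ (‖x‖⁻¹ * N x) * ‖x‖ := mul_le_mul_of_nonneg_right h1 hxn.le
          _ = N x := by field_simp
      · calc N x = (‖x‖⁻¹ * N x) * ‖x‖ := by field_simp
          _ ≤ N b * ‖x‖ := mul_le_mul_of_nonneg_right h2 hxn.le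
  · push Not at hV
    refine ⟨1, 1, one_pos, one_pos, fun x => ?_⟩
    rw [hV x, h.zero, norm_zero, mul_zero]
    exact ⟨le_rfl, le_rfl⟩

end NormFun

/-! ### The reflections -/

section Refl

variable {m : ℕ}

theorem continuous_rfl' : Continuous fun p : F m × F m => rfl' p.1 p.2 := by
  unfold rfl'
  fun_prop

theorem norm_rfl' {v : F m} (hv : ‖v‖ = 1) (x : F m) : ‖rfl' v x‖ = ‖x‖ := by
  have h : ‖rfl' v x‖ ^ 2 = ‖x‖ ^ 2 := by
    unfold rfl'
    rw [norm_sub_sq_real, norm_smul, inner_smul_right, hv, real_inner_comm x v, Real.norm_eq_abs,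
      mul_one, sq_abs]
    ring
  exact (sq_eq_sq₀ (norm_nonneg _) (norm_nonneg _)).1 h

theorem inner_rfl' {v : F m} (hv : ‖v‖ = 1) (x : F m) : inner ℝ v (rfl' v x) = -inner ℝ v x := by
  unfold rfl'
  rw [inner_sub_right, inner_smul_right, real_inner_self_eq_norm_sq, hv]
  ring

theorem rfl'_rfl' {v : F m} (hv : ‖v‖ = 1) (x : F m) : rfl' v (rfl' v x) = x := by
  have h := inner_rfl' hv x
  have h2 : rfl' v (rfl' v x) = rfl' v x - (2 * inner ℝ v (rfl' v x)) • v := rfl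
  rw [h2, h]
  unfold rfl'
  module

theorem rfl'_neg (v x : F m) : rfl' (-v) x = rfl' v x := by
  unfold rfl'
  rw [inner_neg_left]
  module

/-- The reflection with axis `r_v w` is the conjugate by `r_v`. -/
theorem rfl'_conj {v : F m} (hv : ‖v‖ = 1) (w x : F m) :
    rfl' (rfl' v w) x = rfl' v (rfl' w (rfl' v x)) := by
  have hiso : inner ℝ (rfl' v w) x = inner ℝ w (rfl' v x) := by
    unfold rfl'
    rw [inner_sub_left, inner_sub_right, inner_smul_left, inner_smul_right, real_inner_comm v w]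
    simp only [conj_trivial]
    ring
  have e1 : rfl' (rfl' v w) x = x - (2 * inner ℝ (rfl' v w) x) • rfl' v w := rfl
  have e2 : rfl' w (rfl' v x) = rfl' v x - (2 * inner ℝ w (rfl' v x)) • w := rfl
  have e3 : ∀ (a : ℝ) (y z : F m), rfl' v (y - a • z) = rfl' v y - a • rfl' v z := by
    intro a y z
    unfold rfl'
    rw [inner_sub_right, inner_smul_right]
    module
  rw [e1, e2, e3, rfl'_rfl' hv, hiso]

/-- A linear isometry conjugates reflections. -/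
theorem map_rfl' (g : F m ≃ₗᵢ[ℝ] F m) (v x : F m) : g (rfl' v x) = rfl' (g v) (g x) := by
  unfold rfl'
  rw [map_sub, map_smul, g.inner_map_map]

end Refl

/-! ### The data -/

section DataFacts

variable {m : ℕ} {N : ℝ × F m → ℝ} {N₀ : F m → ℝ}

theorem mem_RS_iff {v : F m} : v ∈ RS N₀ ↔ ‖v‖ = 1 ∧ ∀ x, N₀ (rfl' v x) = N₀ x := Iff.rfl

theorem rs_isReflSet (h : Data m N N₀) : IsReflSet (RS N₀) := by
  refine ⟨?_, fun v hv => hv.1, ?_, ?_⟩
  · have hc := h.norm₀.continuous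
    have : RS N₀ = {v | ‖v‖ = 1} ∩ ⋂ x, {v | N₀ (rfl' v x) = N₀ x} := by
      ext v
      simp [RS]
    rw [this]
    refine (isClosed_eq continuous_norm continuous_const).inter (isClosed_iInter fun x => ?_)
    refine isClosed_eq (hc.comp ?_) continuous_const
    exact continuous_rfl'.comp (by fun_prop : Continuous fun v : F m => (v, x))
  · intro v hv
    refine ⟨by rw [norm_neg]; exact hv.1, fun x => ?_⟩
    rw [rfl'_neg]
    exact hv.2 x
  · intro v hv w hw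
    refine ⟨by rw [norm_rfl' hv.1]; exact hw.1, fun x => ?_⟩
    rw [rfl'_conj hv.1, hv.2, hw.2, hv.2]

/-- A linear isometry of `N₀` is an orthogonal transformation. -/
theorem Data.isom (h : Data m N N₀) (g : F m →L[ℝ] F m) (hg : ∀ x, N₀ (g x) = N₀ x) :
    ∃ G : F m ≃ₗᵢ[ℝ] F m, ∀ x, G x = g x := by
  have h1 := h.orth g hg
  let L : F m →ₗᵢ[ℝ] F m := ⟨g.toLinearMap, h1⟩
  exact ⟨L.toLinearIsometryEquiv rfl, fun x => rfl⟩

theorem RS_map (G : F m ≃ₗᵢ[ℝ] F m) (hG : ∀ x, N₀ (G x) = N₀ x) {v : F m} :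
    G v ∈ RS N₀ ↔ v ∈ RS N₀ := by
  have key : ∀ x, N₀ (rfl' (G v) (G x)) = N₀ (rfl' v x) := by
    intro x
    rw [← map_rfl', hG]
  constructor
  · intro hv
    refine ⟨by rw [← hv.1, G.norm_map], fun x => ?_⟩
    rw [← key, hv.2, hG]
  · intro hv
    refine ⟨by rw [G.norm_map]; exact hv.1, fun y => ?_⟩
    obtain ⟨x, rfl⟩ := G.surjective y
    rw [key, hv.2, hG]

theorem full_map (G : F m ≃ₗᵢ[ℝ] F m) (hG : ∀ x, N₀ (G x) = N₀ x) {W : Submodule ℝ (F m)}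
    (hW : Full (RS N₀) W) : Full (RS N₀) (W.map (G.toLinearEquiv : F m →ₗ[ℝ] F m)) := by
  rintro _ ⟨v, hv, rfl⟩ hn
  have hn' : ‖v‖ = 1 := by
    rw [← hn]
    exact (G.norm_map v).symm
  exact (RS_map G hG).2 (hW v hv hn')

theorem maxSub_map (G : F m ≃ₗᵢ[ℝ] F m) (hG : ∀ x, N₀ (G x) = N₀ x) {W : Submodule ℝ (F m)}
    (hW : W ∈ MaxSub (RS N₀)) :
    W.map (G.toLinearEquiv : F m →ₗ[ℝ] F m) ∈ MaxSub (RS N₀) := by
  have hG' : ∀ x, N₀ (G.symm x) = N₀ x := by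
    intro x
    rw [← hG, G.apply_symm_apply]
  refine ⟨?_, full_map G hG hW.2.1, ?_⟩
  · intro h0
    apply hW.1
    rw [Submodule.eq_bot_iff] at h0 ⊢
    intro x hx
    have := h0 (G x) ⟨x, hx, rfl⟩
    exact (map_eq_zero_iff G G.injective).1 this
  · intro W' hW' hle
    have h1 := full_map G.symm hG' hW'
    have h2 : W ≤ W'.map (G.symm.toLinearEquiv : F m →ₗ[ℝ] F m) := by
      intro x hx
      exact ⟨G x, hle ⟨x, hx, rfl⟩, G.symm_apply_apply x⟩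
    have h3 := hW.2.2 _ h1 h2
    rw [← h3]
    ext y
    constructor
    · intro hy
      exact ⟨G.symm y, ⟨y, hy, rfl⟩, G.apply_symm_apply y⟩
    · rintro ⟨x, ⟨z, hz, rfl⟩, rfl⟩
      have : G (G.symm z) = z := G.apply_symm_apply z
      change G (G.symm z) ∈ W'
      rw [this]
      exact hz

theorem starProjection_map (G : F m ≃ₗᵢ[ℝ] F m) (W : Submodule ℝ (F m)) (x : F m) :
    (W.map (G.toLinearEquiv : F m →ₗ[ℝ] F m)).starProjection (G x) = G (W.starProjection x) := by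
  have := Submodule.starProjection_map_apply G W (G x)
  rw [G.symm_apply_apply] at this
  exact this

/-- Elements of `isoSet` are invertible, with bounds that are uniform for bounded `ω`. -/
theorem isoSet_bounds (h : Data m N N₀) (ρ : ℝ) : ∃ c C : ℝ, 0 < c ∧ 0 < C ∧
    ∀ ω : F m, ‖ω‖ ≤ ρ → ∀ S ∈ isoSet N N₀ ω, ∀ x, c * ‖x‖ ≤ ‖S x‖ ∧ ‖S x‖ ≤ C * ‖x‖ := by
  obtain ⟨c₁, C₁, hc₁, hC₁, hb₁⟩ := h.norm.bounds
  obtain ⟨c₂, C₂, hc₂, hC₂, hb₂⟩ := h.norm₀.bounds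
  refine ⟨c₂ / (C₁ * (1 + |ρ|)), C₂ / c₁, by positivity, by positivity, fun ω hω S hS x => ?_⟩
  have hSx := hS x
  constructor
  · have h1 : c₂ * ‖x‖ ≤ C₁ * ‖((-(inner ℝ ω (S x)), S x) : ℝ × F m)‖ :=
      ((hb₂ x).1.trans (le_of_eq hSx.symm)).trans (hb₁ _).2
    have h2 : ‖((-(inner ℝ ω (S x)), S x) : ℝ × F m)‖ ≤ (1 + |ρ|) * ‖S x‖ := by
      rw [Prod.norm_def]
      apply max_le
      · simp only [norm_neg]
        calc ‖inner ℝ ω (S x)‖ ≤ ‖ω‖ * ‖S x‖ := norm_inner_le_norm _ _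
          _ ≤ (1 + |ρ|) * ‖S x‖ := by
            apply mul_le_mul_of_nonneg_right _ (norm_nonneg _)
            have := le_abs_self ρ
            linarith
      · have := abs_nonneg ρ
        have := norm_nonneg (S x)
        nlinarith
    have h3 : c₂ * ‖x‖ ≤ C₁ * ((1 + |ρ|) * ‖S x‖) :=
      h1.trans (mul_le_mul_of_nonneg_left h2 hC₁.le)
    rw [div_mul_eq_mul_div, div_le_iff₀ (by positivity)]
    calc c₂ * ‖x‖ ≤ C₁ * ((1 + |ρ|) * ‖S x‖) := h3
      _ = ‖S x‖ * (C₁ * (1 + |ρ|)) := by ring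
  · have h1 : c₁ * ‖((-(inner ℝ ω (S x)), S x) : ℝ × F m)‖ ≤ C₂ * ‖x‖ :=
      ((hb₁ _).1.trans (le_of_eq hSx)).trans (hb₂ x).2
    have h2 : ‖S x‖ ≤ ‖((-(inner ℝ ω (S x)), S x) : ℝ × F m)‖ :=
      norm_snd_le ((-(inner ℝ ω (S x)), S x) : ℝ × F m)
    rw [div_mul_eq_mul_div, le_div_iff₀ hc₁]
    calc ‖S x‖ * c₁ = c₁ * ‖S x‖ := mul_comm _ _
      _ ≤ c₁ * ‖((-(inner ℝ ω (S x)), S x) : ℝ × F m)‖ := mul_le_mul_of_nonneg_left h2 hc₁.le
      _ ≤ C₂ * ‖x‖ := h1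

/-- Uniform bounds for all `ω`. -/
theorem isoSet_bounds' (h : Data m N N₀) : ∃ C : ℝ, 0 < C ∧
    ∀ ω : F m, ∀ S ∈ isoSet N N₀ ω, ∀ x, |inner ℝ ω (S x)| ≤ C * ‖x‖ ∧ ‖S x‖ ≤ C * ‖x‖ := by
  obtain ⟨c₁, C₁, hc₁, hC₁, hb₁⟩ := h.norm.bounds
  obtain ⟨c₂, C₂, hc₂, hC₂, hb₂⟩ := h.norm₀.bounds
  refine ⟨C₂ / c₁, by positivity, fun ω S hS x => ?_⟩
  have h1 : c₁ * ‖((-(inner ℝ ω (S x)), S x) : ℝ × F m)‖ ≤ C₂ * ‖x‖ :=
    ((hb₁ _).1.trans (le_of_eq (hS x))).trans (hb₂ x).2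
  have h4 : ‖((-(inner ℝ ω (S x)), S x) : ℝ × F m)‖ ≤ C₂ / c₁ * ‖x‖ := by
    rw [div_mul_eq_mul_div, le_div_iff₀ hc₁, mul_comm]
    exact h1
  constructor
  · have h2 := (norm_fst_le ((-(inner ℝ ω (S x)), S x) : ℝ × F m)).trans h4
    simpa using h2
  · exact (norm_snd_le ((-(inner ℝ ω (S x)), S x) : ℝ × F m)).trans h4

theorem isoSet_injective (h : Data m N N₀) {ω : F m} {S : F m →L[ℝ] F m}
    (hS : S ∈ isoSet N N₀ ω) : Function.Injective S := by
  rw [injective_iff_map_eq_zero]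
  intro x hx
  apply h.norm₀.eq_zero
  rw [← hS x, hx, inner_zero_right, neg_zero]
  exact h.norm.zero

theorem isoSet_equiv (h : Data m N N₀) {ω : F m} {S : F m →L[ℝ] F m}
    (hS : S ∈ isoSet N N₀ ω) : ∃ e : F m ≃L[ℝ] F m, (e : F m →L[ℝ] F m) = S := by
  have h1 := isoSet_injective h hS
  refine ⟨(LinearEquiv.ofInjectiveEndo S.toLinearMap h1).toContinuousLinearEquiv, ?_⟩
  ext x : 1
  rfl

theorem isoSet_comp {ω : F m} {S g : F m →L[ℝ] F m} (hS : S ∈ isoSet N N₀ ω)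
    (hg : ∀ x, N₀ (g x) = N₀ x) : S.comp g ∈ isoSet N N₀ ω := by
  intro x
  have := hS (g x)
  rw [hg] at this
  exact this

/-- Two parametrizations of the same hyperplane differ by an isometry of `N₀`. -/
theorem isoSet_trans (h : Data m N N₀) {ω : F m} {S S' : F m →L[ℝ] F m}
    (hS : S ∈ isoSet N N₀ ω) (hS' : S' ∈ isoSet N N₀ ω) :
    ∃ G : F m ≃ₗᵢ[ℝ] F m, (∀ x, N₀ (G x) = N₀ x) ∧ ∀ x, S' x = S (G x) := by
  obtain ⟨e, he⟩ := isoSet_equiv h hS
  have hg : ∀ x, N₀ (((e.symm : F m →L[ℝ] F m).comp S') x) = N₀ x := by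
    intro x
    have h1 := hS (e.symm (S' x))
    have h2 : S (e.symm (S' x)) = S' x := by
      rw [← he]
      exact e.apply_symm_apply _
    rw [h2, hS' x] at h1
    exact h1.symm
  obtain ⟨G, hG⟩ := h.isom _ hg
  refine ⟨G, fun x => by rw [hG]; exact hg x, fun x => ?_⟩
  rw [hG, ← he]
  exact (e.apply_symm_apply _).symm

/-- Limits of parametrizations. -/
theorem isoSet_lim (h : Data m N N₀) {ω : ℕ → F m} {S : ℕ → F m →L[ℝ] F m} {ω₀ : F m}
    {S₀ : F m →L[ℝ] F m} (hS : ∀ n, S n ∈ isoSet N N₀ (ω n)) (hω : Tendsto ω atTop (𝓝 ω₀))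
    (hlim : Tendsto S atTop (𝓝 S₀)) : S₀ ∈ isoSet N N₀ ω₀ := by
  intro x
  have h1 : Tendsto (fun n => S n x) atTop (𝓝 (S₀ x)) :=
    ((ContinuousLinearMap.apply ℝ (F m) x).continuous.tendsto S₀).comp hlim
  have h2 : Tendsto (fun n => N (-(inner ℝ (ω n) (S n x)), S n x)) atTop
      (𝓝 (N (-(inner ℝ ω₀ (S₀ x)), S₀ x))) := by
    apply (h.norm.continuous.tendsto _).comp
    exact ((hω.inner h1).neg).prodMk_nhds h1
  have h3 : ∀ n, N (-(inner ℝ (ω n) (S n x)), S n x) = N₀ x := fun n => hS n x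
  simp only [h3] at h2
  exact tendsto_nhds_unique h2 tendsto_const_nhds

/-- Existence of the projections. -/
theorem exists_QQ (h : Data m N N₀) {ω : F m} {S : F m →L[ℝ] F m} (hS : S ∈ isoSet N N₀ ω)
    {W : Submodule ℝ (F m)} (hW : W ∈ MaxSub (RS N₀)) :
    ∃ q ∈ QQ N N₀ ω, q.comp S = S.comp W.starProjection := by
  obtain ⟨e, he⟩ := isoSet_equiv h hS
  refine ⟨(S.comp W.starProjection).comp (e.symm : F m →L[ℝ] F m), ?_, ?_⟩
  · refine ⟨S, hS, W, hW, ?_⟩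
    ext x : 1
    rw [← he]
    simp
  · ext x : 1
    rw [← he]
    simp

end DataFacts

end Pool.Agent.Lib.MP_5c4da9_an
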