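import Pool.Agent.Lib.MP_5c4da9_an.UDefs

/-!
# MP_5c4da9_an, U16: the theorem of Blaschke and Kakutani
-/

set_option autoImplicit false

open Module

noncomputable section

namespace Pool.Agent.Lib.MP_5c4da9_an

theorem blaschkeStmt (h11 : GradStmt) (h12 : PlaneJStmt) (h13 : DiffStmt) (h14 : CollinStmt)
    (h15 : ExactStmt) : BlaschkeStmt := by
  intro Z _ _ _ c C hZ hc hC hU hP
  obtain ⟨J, hJ⟩ := h11 Z c C hc hC hU
  have hplane := h12 Z c J hJ hP
  obtain ⟨x₀, hx₀, A, hA₀, hA⟩ := h13 Z c J (by omega) hJ hplane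
  obtain ⟨K₀, hK₀⟩ := hJ.lip
  let K : Z → Z := fun v => A.symm (J v)
  have hKA : ∀ v, A (K v) = J v := fun v => A.apply_symm_apply _
  have hmap : ∀ (u v : Z) (w : Z →L[ℝ] ℝ), w ∈ Submodule.span ℝ {A u, A v} →
      A.symm w ∈ Submodule.span ℝ {u, v} := by
    intro u v w hw
    rw [Submodule.mem_span_pair] at hw ⊢
    obtain ⟨s, t, hst⟩ := hw
    refine ⟨s, t, ?_⟩
    apply A.injective
    rw [map_add, map_smul, map_smul, A.apply_symm_apply, hst]
  have hKind : ∀ x x' : Z, LinearIndependent ℝ ![x, x'] → LinearIndependent ℝ ![K x, K x'] := by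
    intro x x' hind
    rw [LinearIndependent.pair_iff] at hind ⊢
    intro s t hst
    have h1 : s • J x + t • J x' = 0 := by
      have h2 := congrArg A hst
      rw [map_add, map_smul, map_smul, map_zero, hKA, hKA] at h2
      exact h2
    have hdep : ∀ u v : Z, (∀ a b : ℝ, a • u + b • v = 0 → a = 0 ∧ b = 0) → ∀ a b : ℝ,
        a • J u + b • J v = 0 → b = 0 := by
      intro u v huv a b hab
      by_contra hb
      have h2 : J v = J ((-(b⁻¹ * a)) • u) := by
        rw [hJ.smul]
        have h3 : b • J v = -(a • J u) := eq_neg_of_add_eq_zero_right hab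
        calc J v = b⁻¹ • (b • J v) := by rw [smul_smul, inv_mul_cancel₀ hb, one_smul]
          _ = (-(b⁻¹ * a)) • J u := by rw [h3]; module
      have h3 := hJ.mono v ((-(b⁻¹ * a)) • u)
      rw [h2, sub_self, zero_apply] at h3
      have h4 : ‖v - (-(b⁻¹ * a)) • u‖ ^ 2 ≤ 0 := by
        have := hJ.hc
        by_contra hcon
        push Not at hcon
        have := mul_pos hJ.hc hcon
        linarith
      have h5 : v - (-(b⁻¹ * a)) • u = 0 := by
        have : ‖v - (-(b⁻¹ * a)) • u‖ = 0 := by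
          have h6 := sq_nonneg ‖v - (-(b⁻¹ * a)) • u‖
          exact pow_eq_zero_iff (two_ne_zero) |>.1 (le_antisymm h4 h6)
        exact norm_eq_zero.1 this
      have h6 := huv (b⁻¹ * a) 1 (by
        rw [one_smul]
        have : v - (-(b⁻¹ * a)) • u = (b⁻¹ * a) • u + v := by module
        rw [← this]
        exact h5)
      exact one_ne_zero h6.2
    have ht := hdep x x' hind s t h1
    refine ⟨?_, ht⟩
    apply hdep x' x (fun a b hab => (hind b a (by rw [add_comm]; exact hab)).symm) t s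
    rw [add_comm]
    exact h1
  obtain ⟨L, a, hL⟩ := h14 Z K x₀ hZ (A.symm.continuous.comp hK₀.continuous)
    (fun t x => by simp only [K]; rw [hJ.smul, map_smul]) hx₀
    (by simp only [K]; rw [hA₀, A.symm_apply_apply])
    (fun v => hmap x₀ v _ (hA v))
    (fun x x' => hmap _ _ _ (by rw [hKA, hKA]; exact hplane x x'))
    hKind
  refine h15 Z J ((ContinuousLinearMap.coeLM ℝ).comp ((A : Z →L[ℝ] (Z →L[ℝ] ℝ)).toLinearMap.comp L))
    a (by omega) hJ.deriv hJ.self ?_
  intro x h
  rw [← hKA x, hL x, map_smul]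
  rfl

end Pool.Agent.Lib.MP_5c4da9_an
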