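import Pool.Agent.Lib.MP_5c4da9_an.VDefs

set_option autoImplicit false

open Set Filter Topology Module

noncomputable section

namespace Pool.Agent.Lib.MP_5c4da9_an

section CTwo

variable {Z : Type} [NormedAddCommGroup Z] [NormedSpace ℝ Z]

/-- first order expansion with a quadratic error -/
lemma cTwo_first {J : Z → (Z →L[ℝ] ℝ)} {L : ℝ} (hL : 0 ≤ L)
    (hd : ∀ x, HasFDerivAt (fun z : Z => ‖z‖ ^ 2) ((2 : ℝ) • J x) x)
    (hJ : ∀ x y, ‖J x - J y‖ ≤ L * ‖x - y‖) (z k : Z) :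
    |‖z + k‖ ^ 2 - ‖z‖ ^ 2 - 2 * J z k| ≤ 2 * L * ‖k‖ ^ 2 := by
  have h1 : ∀ w ∈ Metric.closedBall z ‖k‖, HasFDerivWithinAt (fun w : Z => ‖w‖ ^ 2 - 2 * J z w)
      ((2 : ℝ) • J w - (2 : ℝ) • J z) (Metric.closedBall z ‖k‖) w := by
    intro w _
    exact ((hd w).sub ((J z).hasFDerivAt.const_mul 2)).hasFDerivWithinAt
  have h2 : ∀ w ∈ Metric.closedBall z ‖k‖, ‖(2 : ℝ) • J w - (2 : ℝ) • J z‖ ≤ 2 * L * ‖k‖ := by
    intro w hw
    have h0 : (2 : ℝ) • J w - (2 : ℝ) • J z = (2 : ℝ) • (J w - J z) := (smul_sub _ _ _).symm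
    rw [h0, norm_smul]
    have h3 := hJ w z
    have h4 : ‖w - z‖ ≤ ‖k‖ := by rwa [← dist_eq_norm, ← Metric.mem_closedBall]
    have h5 : L * ‖w - z‖ ≤ L * ‖k‖ := mul_le_mul_of_nonneg_left h4 hL
    have h6 : ‖(2 : ℝ)‖ = 2 := by norm_num
    rw [h6]
    linarith
  have h3 := (convex_closedBall z ‖k‖).norm_image_sub_le_of_norm_hasFDerivWithin_le h1 h2
    (Metric.mem_closedBall_self (norm_nonneg k)) (y := z + k)
    (by rw [Metric.mem_closedBall, dist_eq_norm, add_sub_cancel_left])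
  rw [add_sub_cancel_left, Real.norm_eq_abs] at h3
  have h4 : ‖z + k‖ ^ 2 - 2 * J z (z + k) - (‖z‖ ^ 2 - 2 * J z z) =
      ‖z + k‖ ^ 2 - ‖z‖ ^ 2 - 2 * J z k := by
    rw [map_add]; ring
  rw [h4] at h3
  refine h3.trans (le_of_eq ?_)
  ring

/-- the key estimate -/
lemma cTwo_key {J : Z → (Z →L[ℝ] ℝ)} {L K : ℝ} (hL : 0 ≤ L)
    (hd : ∀ x, HasFDerivAt (fun z : Z => ‖z‖ ^ 2) ((2 : ℝ) • J x) x)
    (hJ : ∀ x y, ‖J x - J y‖ ≤ L * ‖x - y‖) {δ : ℝ → ℝ} {y : Z} {A : Z →L[ℝ] Z →L[ℝ] ℝ}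
    (hA : TaylorAt J K δ y A) {s : ℝ} (hs : 0 < s) (hs1 : s ≤ 1) {h : Z}
    (hh : 2 * ‖h‖ < δ (s ^ 2)) : ‖J (y + h) - J y - A h‖ ≤ (L + |K| + 3) * s * ‖h‖ := by
  obtain ⟨hsym, hK, hT⟩ := hA
  rcases eq_or_ne h 0 with rfl | hne
  · simp
  have hpos : 0 < ‖h‖ := norm_pos_iff.2 hne
  have hs2 : 0 < s ^ 2 := by positivity
  have hk : ∀ k : Z, ‖k‖ ≤ ‖h‖ →
      |2 * (J (y + h) - J y - A h) k| ≤ (2 * L + |K|) * ‖k‖ ^ 2 + 5 * s ^ 2 * ‖h‖ ^ 2 := by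
    intro k hk
    have e1 := cTwo_first hL hd hJ (y + h) k
    have e2 := hT (s ^ 2) hs2 h (by linarith)
    have e3 := hT (s ^ 2) hs2 (h + k) (by
      have := norm_add_le h k
      linarith)
    have e4 : |A k k| ≤ |K| * ‖k‖ ^ 2 :=
      (hK k).trans (mul_le_mul_of_nonneg_right (le_abs_self K) (by positivity))
    have e5 : A (h + k) (h + k) = A h h + 2 * A h k + A k k := by
      simp only [map_add, add_apply]
      rw [hsym k h]; ring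
    have e6 : ‖h + k‖ ^ 2 ≤ 4 * ‖h‖ ^ 2 := by
      have h7 := norm_add_le h k
      have h8 : ‖h + k‖ ≤ 2 * ‖h‖ := by linarith
      have h9 : ‖h + k‖ ^ 2 ≤ (2 * ‖h‖) ^ 2 := pow_le_pow_left₀ (norm_nonneg _) h8 2
      linarith [h9, (by ring : (2 * ‖h‖) ^ 2 = 4 * ‖h‖ ^ 2)]
    have e7 : s ^ 2 * ‖h + k‖ ^ 2 ≤ s ^ 2 * (4 * ‖h‖ ^ 2) := mul_le_mul_of_nonneg_left e6 hs2.le
    have e8 : J y (h + k) = J y h + J y k := map_add _ _ _
    rw [← add_assoc, e5, e8] at e3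
    rw [abs_le] at e1 e2 e3 e4 ⊢
    have e9 : 2 * (J (y + h) - J y - A h) k = 2 * J (y + h) k - 2 * J y k - 2 * A h k := by
      simp only [sub_apply]; ring
    rw [e9]
    constructor
    · nlinarith [e1.1, e1.2, e2.1, e2.2, e3.1, e3.2, e4.1, e4.2]
    · nlinarith [e1.1, e1.2, e2.1, e2.2, e3.1, e3.2, e4.1, e4.2]
  apply ContinuousLinearMap.opNorm_le_bound _ (by positivity)
  intro v
  rcases eq_or_ne v 0 with rfl | hv
  · simp
  have hvp : 0 < ‖v‖ := norm_pos_iff.2 hv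
  have hc : 0 < s * ‖h‖ / ‖v‖ := by positivity
  have hkn : ‖(s * ‖h‖ / ‖v‖) • v‖ = s * ‖h‖ := by
    rw [norm_smul, Real.norm_of_nonneg hc.le]; field_simp
  have h1 := hk ((s * ‖h‖ / ‖v‖) • v) (by
    rw [hkn]; nlinarith)
  rw [hkn, map_smul, smul_eq_mul, abs_mul, abs_mul, abs_of_pos hc, abs_two] at h1
  rw [Real.norm_eq_abs]
  have h2 : s * ‖h‖ / ‖v‖ * (2 * |(J (y + h) - J y - A h) v|) ≤
      s * ‖h‖ / ‖v‖ * (2 * ((L + |K| + 3) * s * ‖h‖ * ‖v‖)) := by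
    have h3 : s * ‖h‖ / ‖v‖ * (2 * ((L + |K| + 3) * s * ‖h‖ * ‖v‖)) =
        (2 * L + 2 * |K| + 6) * (s ^ 2 * ‖h‖ ^ 2) := by
      field_simp
      ring
    rw [h3]
    have h4 : 0 ≤ |K| * (s ^ 2 * ‖h‖ ^ 2) := by positivity
    have h5 : 0 ≤ s ^ 2 * ‖h‖ ^ 2 := by positivity
    have h6 : (s * ‖h‖) ^ 2 = s ^ 2 * ‖h‖ ^ 2 := by ring
    rw [h6] at h1
    have h7 : s * ‖h‖ / ‖v‖ * (2 * |(J (y + h) - J y - A h) v|) =
        2 * (s * ‖h‖ / ‖v‖ * |(J (y + h) - J y - A h) v|) := by ring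
    rw [h7]
    linarith
  have h8 := le_of_mul_le_mul_left h2 hc
  linarith

/-- uniform differentiability -/
lemma cTwo_unif {J : Z → (Z →L[ℝ] ℝ)} {L K : ℝ} (hL : 0 ≤ L)
    (hd : ∀ x, HasFDerivAt (fun z : Z => ‖z‖ ^ 2) ((2 : ℝ) • J x) x)
    (hJ : ∀ x y, ‖J x - J y‖ ≤ L * ‖x - y‖) {δ : ℝ → ℝ} (hδ : ∀ ε : ℝ, 0 < ε → 0 < δ ε)
    {e : ℝ} (he : 0 < e) : ∃ d : ℝ, 0 < d ∧ ∀ (y : Z) (A : Z →L[ℝ] Z →L[ℝ] ℝ),
      TaylorAt J K δ y A → ∀ h : Z, ‖h‖ < d → ‖J (y + h) - J y - A h‖ ≤ e * ‖h‖ := by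
  have hC : 0 < L + |K| + 3 := by positivity
  set s : ℝ := min 1 (e / (L + |K| + 3)) with hs
  have hs0 : 0 < s := lt_min one_pos (by positivity)
  have hs1 : s ≤ 1 := min_le_left _ _
  have hs2 : (L + |K| + 3) * s ≤ e := by
    have : s ≤ e / (L + |K| + 3) := min_le_right _ _
    rwa [le_div_iff₀ hC, mul_comm] at this
  refine ⟨δ (s ^ 2) / 2, by have := hδ (s ^ 2) (by positivity); positivity, ?_⟩
  intro y A hA h hh
  refine (cTwo_key hL hd hJ hA hs0 hs1 (by linarith)).trans ?_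
  exact mul_le_mul_of_nonneg_right hs2 (norm_nonneg h)

end CTwo

theorem cTwoStmt : CTwoStmt := by
  intro Z _ _ _ c J hG K δ hδ hT x₀ hx₀
  obtain ⟨L, hL'⟩ := hG.lip
  have hL : (0 : ℝ) ≤ L := L.2
  have hJ : ∀ x y, ‖J x - J y‖ ≤ (L : ℝ) * ‖x - y‖ := fun x y => by
    simpa [dist_eq_norm] using hL'.dist_le_mul x y
  have hd := hG.deriv
  choose! A hA using hT
  -- the derivative of `J`
  set D : Z → (Z →L[ℝ] Z →L[ℝ] ℝ) := fun x => A (‖x‖⁻¹ • x) with hD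
  have hunit : ∀ x : Z, x ≠ 0 → ‖‖x‖⁻¹ • x‖ = 1 := fun x hx => by
    rw [norm_smul, norm_inv, norm_norm, inv_mul_cancel₀ (norm_ne_zero_iff.2 hx)]
  have hder : ∀ x : Z, x ≠ 0 → HasFDerivAt J (D x) x := by
    intro x hx
    have hxp : 0 < ‖x‖ := norm_pos_iff.2 hx
    rw [hasFDerivAt_iff_isLittleO_nhds_zero, Asymptotics.isLittleO_iff]
    intro e he
    obtain ⟨d, hd0, hdd⟩ := cTwo_unif (K := K) hL hd hJ hδ he
    have hev : ∀ᶠ h : Z in 𝓝 0, ‖h‖ < d * ‖x‖ := by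
      have := Metric.ball_mem_nhds (0 : Z) (by positivity : 0 < d * ‖x‖)
      filter_upwards [this] with h hh
      simpa using hh
    filter_upwards [hev] with h hh
    have h1 := hdd (‖x‖⁻¹ • x) (D x) (hA _ (hunit x hx)) (‖x‖⁻¹ • h) (by
      rw [norm_smul, norm_inv, norm_norm, inv_mul_lt_iff₀ hxp]
      linarith)
    have h2 : J (x + h) - J x - D x h =
        ‖x‖ • (J (‖x‖⁻¹ • x + ‖x‖⁻¹ • h) - J (‖x‖⁻¹ • x) - D x (‖x‖⁻¹ • h)) := by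
      rw [smul_sub, smul_sub, ← smul_add, hG.smul, hG.smul, map_smul, smul_smul, smul_smul,
        smul_smul, mul_inv_cancel₀ hxp.ne', one_smul, one_smul, one_smul]
    rw [h2, norm_smul, norm_norm]
    rw [norm_smul, norm_inv, norm_norm] at h1
    calc ‖x‖ * ‖J (‖x‖⁻¹ • x + ‖x‖⁻¹ • h) - J (‖x‖⁻¹ • x) - D x (‖x‖⁻¹ • h)‖
        ≤ ‖x‖ * (e * (‖x‖⁻¹ * ‖h‖)) := mul_le_mul_of_nonneg_left h1 hxp.le
      _ = e * ‖h‖ := by field_simp
  -- continuity of the derivative on the sphere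
  have hcont : ∀ e : ℝ, 0 < e → ∃ η : ℝ, 0 < η ∧ ∀ y y' : Z, ‖y‖ = 1 → ‖y'‖ = 1 → ‖y - y'‖ < η →
      ‖A y - A y'‖ ≤ e := by
    intro e he
    obtain ⟨d, hd0, hdd⟩ := cTwo_unif (K := K) hL hd hJ hδ (e := e / 4) (by positivity)
    set s : ℝ := d / 2 with hs
    have hs0 : 0 < s := by positivity
    refine ⟨s * e / (4 * (L + 1)), by positivity, ?_⟩
    intro y y' hy hy' hyy
    apply ContinuousLinearMap.opNorm_le_bound _ he.le
    intro v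
    rcases eq_or_ne v 0 with rfl | hv
    · simp
    have hvp : 0 < ‖v‖ := norm_pos_iff.2 hv
    have hc : 0 < s / ‖v‖ := by positivity
    set h : Z := (s / ‖v‖) • v with hh
    have hhn : ‖h‖ = s := by
      rw [hh, norm_smul, Real.norm_of_nonneg hc.le]; field_simp
    have h1 := hdd y (A y) (hA y hy) h (by rw [hhn, hs]; linarith)
    have h2 := hdd y' (A y') (hA y' hy') h (by rw [hhn, hs]; linarith)
    have h3 := hJ (y + h) (y' + h)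
    have h4 := hJ y y'
    rw [add_sub_add_right_eq_sub] at h3
    have h5 : (A y - A y') h = (J (y' + h) - J y' - A y' h) - (J (y + h) - J y - A y h) +
        (J (y + h) - J (y' + h)) - (J y - J y') := by
      rw [sub_apply]; abel
    have h6 : ‖(A y - A y') h‖ ≤ e * s := by
      rw [h5]
      refine (norm_sub_le _ _).trans ?_
      refine (add_le_add_left (norm_add_le _ _) _).trans ?_
      refine (add_le_add_left (add_le_add_left (norm_sub_le _ _) _) _).trans ?_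
      rw [hhn] at h1 h2
      have h7 : (L : ℝ) * ‖y - y'‖ ≤ s * e / 4 := by
        have h8 : (L : ℝ) * ‖y - y'‖ ≤ (L + 1) * (s * e / (4 * (L + 1))) := by
          apply mul_le_mul (by linarith) hyy.le (norm_nonneg _) (by positivity)
        refine h8.trans (le_of_eq ?_)
        field_simp
      linarith
    have h7 : (A y - A y') h = (s / ‖v‖) • (A y - A y') v := by rw [hh, map_smul]
    rw [h7, norm_smul, Real.norm_of_nonneg hc.le] at h6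
    have h8 : s / ‖v‖ * ‖(A y - A y') v‖ ≤ s / ‖v‖ * (e * ‖v‖) := by
      refine h6.trans (le_of_eq ?_)
      field_simp
    exact le_of_mul_le_mul_left h8 hc
  have hDc : ∀ x : Z, x ≠ 0 → ContinuousAt D x := by
    intro x hx
    suffices hnorm : ∀ e > 0, ∀ᶠ z in 𝓝 x, dist (D z) (D x) < e from Metric.tendsto_nhds.2 hnorm
    intro e he
    obtain ⟨η, hη, hηη⟩ := hcont (e / 2) (by positivity)
    have h1 : ContinuousAt (fun x : Z => ‖x‖⁻¹ • x) x :=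
      (continuousAt_id.norm.inv₀ (norm_ne_zero_iff.2 hx)).smul continuousAt_id
    have h2 := Metric.continuousAt_iff'.1 h1 η hη
    filter_upwards [h2, isOpen_ne.mem_nhds hx] with z hz hz0
    rw [dist_eq_norm] at hz
    have h3 := hηη _ _ (hunit z hz0) (hunit x hx) hz
    have h4 : dist (D z) (D x) = ‖A (‖z‖⁻¹ • z) - A (‖x‖⁻¹ • x)‖ :=
      dist_eq_norm (E := Z →L[ℝ] Z →L[ℝ] ℝ) (D z) (D x)
    linarith
  have hJ1 : ContDiffAt ℝ 1 J x₀ := by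
    have h1 : ContDiffAt ℝ ((0 : ℕ) + 1) J x₀ := by
      rw [contDiffAt_succ_iff_hasFDerivAt]
      refine ⟨D, ⟨{x | x ≠ 0}, isOpen_ne.mem_nhds hx₀, fun x hx => hder x hx⟩, ?_⟩
      change ContDiffAt ℝ ((0 : ℕ) : WithTop ℕ∞) D x₀
      rw [Nat.cast_zero, contDiffAt_zero]
      exact ⟨{x | x ≠ 0}, isOpen_ne.mem_nhds hx₀, fun x hx => (hDc x hx).continuousWithinAt⟩
    simpa using h1
  have hf2 : ContDiffAt ℝ 2 (fun z : Z => ‖z‖ ^ 2) x₀ := by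
    have h1 : ContDiffAt ℝ ((1 : ℕ) + 1) (fun z : Z => ‖z‖ ^ 2) x₀ := by
      rw [contDiffAt_succ_iff_hasFDerivAt]
      refine ⟨fun x => (2 : ℝ) • J x, ⟨univ, univ_mem, fun x _ => hd x⟩, ?_⟩
      have h2 : ContDiffAt ℝ 1 (fun x => (2 : ℝ) • J x) x₀ := hJ1.const_smul (2 : ℝ)
      exact_mod_cast h2
    have h3 : (((1 : ℕ) : WithTop ℕ∞) + 1) = 2 := by norm_num
    rw [h3] at h1
    exact h1
  have h := hf2.sqrt (by have := norm_pos_iff.2 hx₀; positivity)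
  have h2 : (fun z : Z => Real.sqrt (‖z‖ ^ 2)) = fun z => ‖z‖ := by
    funext z; rw [Real.sqrt_sq (norm_nonneg z)]
  rwa [h2] at h

end Pool.Agent.Lib.MP_5c4da9_an
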