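import Pool.Agent.Lib.MP_5c4da9_an.UDefs

set_option autoImplicit false

open Set Filter Topology Module

noncomputable section

namespace Pool.Agent.Lib.MP_5c4da9_an

/-- The quadratic estimate for the exponential. -/
theorem cartan_exp_quad {A : Type*} [NormedRing A] [NormedAlgebra ℝ A] [CompleteSpace A]
    (X : A) (hX : ‖X‖ ≤ 1) : ‖NormedSpace.exp X - 1 - X‖ ≤ ‖X‖ ^ 2 := by
  have h0 : HasSum (fun n : ℕ => ((n.factorial : ℝ)⁻¹) • X ^ n) (NormedSpace.exp X) :=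
    NormedSpace.exp_series_hasSum_exp' (𝕂 := ℝ) X
  have h1 := (hasSum_nat_add_iff' 2).mpr h0
  have e : NormedSpace.exp X - ∑ i ∈ Finset.range 2, ((i.factorial : ℝ)⁻¹) • X ^ i =
      NormedSpace.exp X - 1 - X := by
    rw [Finset.sum_range_succ, Finset.sum_range_one]
    simp [sub_sub]
  rw [e] at h1
  have hg : HasSum (fun n : ℕ => ‖X‖ ^ 2 * (1 / 2 * (1 / 2 : ℝ) ^ n)) (‖X‖ ^ 2 * (1 / 2 * 2)) :=
    (hasSum_geometric_two.mul_left (1 / 2 : ℝ)).mul_left (‖X‖ ^ 2)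
  have hb : ∀ n : ℕ, ‖(((n + 2).factorial : ℝ)⁻¹) • X ^ (n + 2)‖ ≤
      ‖X‖ ^ 2 * (1 / 2 * (1 / 2 : ℝ) ^ n) := by
    intro n
    have hf : (2 : ℝ) ^ (n + 1) ≤ ((n + 2).factorial : ℝ) := by
      have h5 := @Nat.factorial_mul_pow_le_factorial 1 (n + 1)
      rw [Nat.factorial_one, one_mul, show 1 + (n + 1) = n + 2 by ring] at h5
      exact_mod_cast h5
    have h2 : ‖X ^ (n + 2)‖ ≤ ‖X‖ ^ 2 := by
      calc ‖X ^ (n + 2)‖ ≤ ‖X‖ ^ (n + 2) := norm_pow_le' X (by omega)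
        _ ≤ ‖X‖ ^ 2 := pow_le_pow_of_le_one (norm_nonneg X) hX (by omega)
    have h3 : ((n + 2).factorial : ℝ)⁻¹ ≤ 1 / 2 * (1 / 2 : ℝ) ^ n := by
      have e2 : 1 / 2 * (1 / 2 : ℝ) ^ n = ((2 : ℝ) ^ (n + 1))⁻¹ := by
        rw [pow_succ, mul_inv, one_div, inv_pow]
        ring
      rw [e2]
      exact inv_anti₀ (by positivity) hf
    rw [norm_smul, Real.norm_of_nonneg (by positivity), mul_comm]
    exact mul_le_mul h2 h3 (by positivity) (by positivity)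
  have h4 := tsum_of_norm_bounded hg hb
  rw [h1.tsum_eq] at h4
  linarith

/-- U3. -/
theorem cartanStmt (h2 : ExpStmt) : CartanStmt := by
  intro m G hG
  obtain ⟨δ, hδ, H⟩ := h2 m G hG (1 / 4) (by norm_num)
  refine ⟨δ, 4, hδ, by norm_num, fun h hh hlt => ?_⟩
  obtain ⟨X, hXG, hX, hXh⟩ := H h hh hlt
  refine ⟨NormedSpace.exp ((1 / 2 : ℝ) • X), hXG _, ?_⟩
  have hXn := norm_nonneg X
  have q1 := cartan_exp_quad X (by linarith)
  have hn : ‖(1 / 2 : ℝ) • X‖ = 1 / 2 * ‖X‖ := by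
    rw [norm_smul, Real.norm_of_nonneg (by norm_num)]
  have q2 := cartan_exp_quad ((1 / 2 : ℝ) • X) (by rw [hn]; linarith)
  rw [hXh] at q1
  rw [hn] at q2
  have h3 : ‖X‖ ≤ 2 * ‖h - 1‖ := by
    have h5 : ‖X‖ ≤ ‖h - 1‖ + ‖h - 1 - X‖ := by
      have h6 := norm_sub_le (h - 1) (h - 1 - X)
      rwa [sub_sub_cancel] at h6
    nlinarith
  have e : NormedSpace.exp ((1 / 2 : ℝ) • X) - (1 / 2 : ℝ) • (1 + h) =
      (NormedSpace.exp ((1 / 2 : ℝ) • X) - 1 - (1 / 2 : ℝ) • X) - (1 / 2 : ℝ) • (h - 1 - X) := by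
    module
  rw [e]
  have h7 := norm_sub_le (NormedSpace.exp ((1 / 2 : ℝ) • X) - 1 - (1 / 2 : ℝ) • X)
    ((1 / 2 : ℝ) • (h - 1 - X))
  rw [norm_smul, Real.norm_of_nonneg (show (0 : ℝ) ≤ 1 / 2 by norm_num)] at h7
  nlinarith [norm_nonneg (h - 1)]

end Pool.Agent.Lib.MP_5c4da9_an
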