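import Pool.Agent.Lib.MP_5c4da9_an.UDefs

/-!
# U14: a collineation fixing all lines through a point
-/

set_option autoImplicit false

open Set Filter Topology Module

noncomputable section

namespace Pool.Agent.Lib.MP_5c4da9_an

section

variable {Z : Type} [NormedAddCommGroup Z] [NormedSpace ℝ Z]

private lemma Collin_notMem [FiniteDimensional ℝ Z] (h3 : 3 ≤ finrank ℝ Z) (x y : Z) :
    ∃ w, w ∉ Submodule.span ℝ ({x, y} : Set Z) := by
  by_contra h
  push Not at h
  have h1 : Submodule.span ℝ ({x, y} : Set Z) = ⊤ := by
    rw [eq_top_iff]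
    intro z _
    exact h z
  have h2 := finrank_range_le_card (R := ℝ) (![x, y] : Fin 2 → Z)
  rw [Set.finrank, Matrix.range_cons, Matrix.range_cons, Matrix.range_empty, Set.union_empty,
    Set.singleton_union, h1, finrank_top, Fintype.card_fin] at h2
  omega

private lemma Collin_li2 {x₀ v : Z} (hx : x₀ ≠ 0) (hv : v ∉ Submodule.span ℝ ({x₀} : Set Z))
    {p r : ℝ} (h : r • x₀ + p • v = 0) : p = 0 ∧ r = 0 := by
  have hp : p = 0 := by
    by_contra hp
    apply hv
    rw [Submodule.mem_span_singleton]
    refine ⟨-(p⁻¹ * r), ?_⟩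
    have h1 : p • v = -(r • x₀) := by
      rw [eq_neg_iff_add_eq_zero, add_comm]
      exact h
    have h2 : v = p⁻¹ • (p • v) := by rw [smul_smul, inv_mul_cancel₀ hp, one_smul]
    rw [h2, h1, smul_neg, smul_smul, neg_smul]
  refine ⟨hp, ?_⟩
  rw [hp, zero_smul, add_zero] at h
  exact (smul_eq_zero.1 h).resolve_right hx

private lemma Collin_li3 {x₀ v w : Z} (hx : x₀ ≠ 0)
    (hv : v ∉ Submodule.span ℝ ({x₀} : Set Z)) (hw : w ∉ Submodule.span ℝ ({x₀, v} : Set Z))
    {p q r : ℝ} (h : r • x₀ + p • v + q • w = 0) : p = 0 ∧ q = 0 ∧ r = 0 := by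
  have hq : q = 0 := by
    by_contra hq
    apply hw
    rw [Submodule.mem_span_pair]
    refine ⟨-(q⁻¹ * r), -(q⁻¹ * p), ?_⟩
    have h1 : q • w = -(r • x₀ + p • v) := by
      rw [eq_neg_iff_add_eq_zero, add_comm]
      exact h
    have h2 : w = q⁻¹ • (q • w) := by rw [smul_smul, inv_mul_cancel₀ hq, one_smul]
    rw [h2, h1]
    module
  rw [hq, zero_smul, add_zero] at h
  obtain ⟨h1, h2⟩ := Collin_li2 hx hv h
  exact ⟨h1, hq, h2⟩

private lemma Collin_mem1 {x₀ v w : Z} (h : w ∈ Submodule.span ℝ ({x₀} : Set Z)) :
    w ∈ Submodule.span ℝ ({x₀, v} : Set Z) :=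
  Submodule.span_mono (by simp) h

end

theorem collinStmt : CollinStmt := by
  intro Z _ _ _ K x₀ h3 hcont hsmul hx₀ hKx hspan hplane hLI
  set Z₀ := Submodule.span ℝ ({x₀} : Set Z) with hZ₀
  have hxZ : x₀ ∈ Z₀ := Submodule.mem_span_singleton_self x₀
  choose b a hba using fun v => Submodule.mem_span_pair.1 (hspan v)
  have ha : ∀ v, v ∉ Z₀ → a v ≠ 0 := by
    intro v hv h0
    have h1 : LinearIndependent ℝ ![x₀, v] := by
      rw [LinearIndependent.pair_iff' hx₀]
      intro s hs
      exact hv (Submodule.mem_span_singleton.2 ⟨s, hs⟩)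
    have h2 := LinearIndependent.pair_iff.1 (hLI x₀ v h1) (b v) (-1) (by
      rw [hKx, ← hba v, h0]
      module)
    exact absurd h2.2 (by norm_num)
  set f : Z → ℝ := fun v => b v / a v with hf
  have hK : ∀ v, v ∉ Z₀ → K v = a v • (v + f v • x₀) := by
    intro v hv
    rw [← hba v, smul_add, smul_smul]
    have : a v * f v = b v := by
      simp only [hf]
      field_simp [ha v hv]
    rw [this, add_comm]
  have hU : ∀ v, v ∉ Z₀ → ∀ α s : ℝ, K v = α • (v + s • x₀) → s = f v := by
    intro v hv α s h
    have h1 : (α * s - b v) • x₀ + (α - a v) • v = 0 := by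
      have h2 : b v • x₀ + a v • v = α • (v + s • x₀) := (hba v).trans h
      have h4 : (α * s - b v) • x₀ + (α - a v) • v =
          α • (v + s • x₀) - (b v • x₀ + a v • v) := by module
      rw [h4, h2, sub_self]
    obtain ⟨h5, h6⟩ := Collin_li2 hx₀ hv h1
    have h7 : α = a v := by linarith
    have h8 : a v * s = b v := by rw [← h7]; linarith
    simp only [hf]
    rw [← h8, mul_div_cancel_left₀ _ (ha v hv)]
  -- additivity in general position
  have hadd : ∀ v w, v ∉ Z₀ → w ∉ Submodule.span ℝ ({x₀, v} : Set Z) →
      f (v + w) = f v + f w := by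
    intro v w hv hw
    have hw0 : w ∉ Z₀ := fun h => hw (Collin_mem1 h)
    have hvw : v + w ∉ Z₀ := by
      intro h
      apply hw
      have h1 : w = (v + w) - v := by abel
      rw [h1]
      exact Submodule.sub_mem _ (Collin_mem1 h) (Submodule.subset_span (by simp))
    obtain ⟨p, q, hpq⟩ := Submodule.mem_span_pair.1 (hplane v w)
    rw [hK v hv, hK w hw0, hK _ hvw] at hpq
    have h1 : (p * a v * f v + q * a w * f w - a (v + w) * f (v + w)) • x₀ +
        (p * a v - a (v + w)) • v + (q * a w - a (v + w)) • w = 0 := by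
      have h4 : (p * a v * f v + q * a w * f w - a (v + w) * f (v + w)) • x₀ +
        (p * a v - a (v + w)) • v + (q * a w - a (v + w)) • w =
          (p • a v • (v + f v • x₀) + q • a w • (w + f w • x₀)) -
            a (v + w) • (v + w + f (v + w) • x₀) := by module
      rw [h4, hpq, sub_self]
    obtain ⟨e1, e2, e3⟩ := Collin_li3 hx₀ hv hw h1
    have hne := ha _ hvw
    have e4 : p * a v = a (v + w) := by linarith
    have e5 : q * a w = a (v + w) := by linarith
    rw [e4, e5] at e3
    have e6 : a (v + w) * (f v + f w - f (v + w)) = 0 := by linarith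
    have e7 := (mul_eq_zero.1 e6).resolve_left hne
    linarith
  have hfs : ∀ v, v ∉ Z₀ → ∀ t : ℝ, t ≠ 0 → f (t • v) = t * f v := by
    intro v hv t ht
    have h1 : t • v ∉ Z₀ := by
      intro h
      exact hv ((Submodule.smul_mem_iff _ ht).1 h)
    symm
    apply hU _ h1 (a v)
    rw [hsmul, hK v hv]
    module
  have hex : ∀ v, ∃ w, w ∉ Submodule.span ℝ ({x₀, v} : Set Z) := Collin_notMem h3 x₀
  choose wt hwt using hex
  set g : Z → ℝ := fun v => f (v + wt v) - f (wt v) with hg
  -- the key relation
  have hg1 : ∀ v w, w ∉ Submodule.span ℝ ({x₀, v} : Set Z) → f (v + w) = g v + f w := by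
    intro v w hw
    by_cases hv : v ∈ Z₀
    · -- independence of the choice of `w`
      have hpair : ∀ w w', w ∉ Z₀ → w' ∉ Submodule.span ℝ ({x₀, w} : Set Z) →
          f (v + w) - f w = f (v + w') - f w' := by
        intro w w' h1 h2
        have h1' : v + w ∉ Z₀ := by
          intro h
          apply h1
          have : w = (v + w) - v := by abel
          rw [this]
          exact Submodule.sub_mem _ h hv
        have h2' : w' ∉ Z₀ := fun h => h2 (Collin_mem1 h)
        have h3' : w' ∉ Submodule.span ℝ ({x₀, v + w} : Set Z) := by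
          intro h
          apply h2
          refine Submodule.span_le.2 ?_ h
          rintro y (rfl | rfl)
          · exact Submodule.subset_span (by simp)
          · exact Submodule.add_mem _ (Collin_mem1 hv) (Submodule.subset_span (by simp))
        have h4' : v + w' ∉ Submodule.span ℝ ({x₀, w} : Set Z) := by
          intro h
          apply h2
          have : w' = (v + w') - v := by abel
          rw [this]
          exact Submodule.sub_mem _ h (Collin_mem1 hv)
        have e1 := hadd (v + w) w' h1' h3'
        have e2 := hadd w (v + w') h1 h4'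
        have e3 : v + w + w' = w + (v + w') := by abel
        rw [e3, e2] at e1
        linarith
      have hw0 : w ∉ Z₀ := fun h => hw (Collin_mem1 h)
      have hwt0 : wt v ∉ Z₀ := fun h => hwt v (Collin_mem1 h)
      have key : f (v + w) - f w = f (v + wt v) - f (wt v) := by
        by_cases hcase : wt v ∈ Submodule.span ℝ ({x₀, w} : Set Z)
        · have h1 := hpair w (wt w) hw0 (hwt w)
          have h2 : wt w ∉ Submodule.span ℝ ({x₀, wt v} : Set Z) := by
            intro h
            apply hwt w
            refine Submodule.span_le.2 ?_ h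
            rintro y (rfl | rfl)
            · exact Submodule.subset_span (by simp)
            · exact hcase
          have h3 := hpair (wt v) (wt w) hwt0 h2
          rw [h1, h3]
        · exact hpair w (wt v) hw0 hcase
      simp only [hg]
      linarith
    · have e1 := hadd v w hv hw
      have e2 := hadd v (wt v) hv (hwt v)
      simp only [hg]
      linarith
  have hg0 : ∀ v, v ∉ Z₀ → g v = f v := by
    intro v hv
    have e2 := hadd v (wt v) hv (hwt v)
    simp only [hg]
    linarith
  have hM : ∀ (M : Submodule ℝ Z) (u v w : Z), x₀ ∈ M → u ∈ M → v ∈ M → w ∉ M →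
      g (u + v) = g u + g v := by
    intro M u v w hx hu hv hw
    have hsub : ∀ y ∈ M, Submodule.span ℝ ({x₀, y} : Set Z) ≤ M := by
      intro y hy
      rw [Submodule.span_le]
      rintro z (rfl | rfl)
      · exact hx
      · exact hy
    have e1 := hg1 (u + v) w (fun h => hw (hsub _ (M.add_mem hu hv) h))
    have hvw : v + w ∉ M := by
      intro h
      apply hw
      have : w = (v + w) - v := by abel
      rw [this]
      exact M.sub_mem h hv
    have e2 := hg1 u (v + w) (fun h => hvw (hsub _ hu h))
    have e3 := hg1 v w (fun h => hw (hsub _ hv h))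
    have e4 : u + v + w = u + (v + w) := by abel
    rw [e4, e2, e3] at e1
    linarith
  have hgadd : ∀ u v, g (u + v) = g u + g v := by
    intro u v
    by_cases hu : u ∈ Z₀
    · exact hM (Submodule.span ℝ {x₀, v}) u v (wt v) (Submodule.subset_span (by simp))
        (Collin_mem1 hu) (Submodule.subset_span (by simp)) (hwt v)
    · by_cases hv : v ∈ Submodule.span ℝ ({x₀, u} : Set Z)
      · exact hM (Submodule.span ℝ {x₀, u}) u v (wt u) (Submodule.subset_span (by simp))
          (Submodule.subset_span (by simp)) hv (hwt u)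
      · have hv0 : v ∉ Z₀ := fun h => hv (Collin_mem1 h)
        have e1 := hg1 u v hv
        have huv : u + v ∉ Z₀ := by
          intro h
          apply hv
          have : v = (u + v) - u := by abel
          rw [this]
          exact Submodule.sub_mem _ (Collin_mem1 h) (Submodule.subset_span (by simp))
        rw [hg0 _ huv, hg0 _ hv0, e1]
  have hgz : g 0 = 0 := by
    have := hgadd 0 0
    rw [add_zero] at this
    linarith
  have hgsmul : ∀ (t : ℝ) v, g (t • v) = t * g v := by
    intro t v
    by_cases ht : t = 0
    · rw [ht, zero_smul, hgz, zero_mul]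
    · have hw0 : wt v ∉ Z₀ := fun h => hwt v (Collin_mem1 h)
      have h1 : t • wt v ∉ Submodule.span ℝ ({x₀, t • v} : Set Z) := by
        intro h
        apply hwt v
        have h2 : Submodule.span ℝ ({x₀, t • v} : Set Z) ≤ Submodule.span ℝ ({x₀, v} : Set Z) := by
          rw [Submodule.span_le]
          rintro z (rfl | rfl)
          · exact Submodule.subset_span (by simp)
          · exact Submodule.smul_mem _ _ (Submodule.subset_span (by simp))
        exact (Submodule.smul_mem_iff _ ht).1 (h2 h)
      have e1 := hg1 (t • v) (t • wt v) h1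
      have e2 := hg1 v (wt v) (hwt v)
      have h3 : v + wt v ∉ Z₀ := by
        intro h
        apply hwt v
        have : wt v = (v + wt v) - v := by abel
        rw [this]
        exact Submodule.sub_mem _ (Collin_mem1 h) (Submodule.subset_span (by simp))
      rw [← smul_add, hfs _ h3 t ht, hfs _ hw0 t ht, e2] at e1
      linarith
  set L : Z →ₗ[ℝ] Z :=
    { toFun := fun v => v + g v • x₀
      map_add' := by
        intro u v
        rw [hgadd]
        module
      map_smul' := by
        intro t v
        simp only [hgsmul, RingHom.id_apply]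
        module } with hL
  have hLv : ∀ v, L v = v + g v • x₀ := fun v => rfl
  have hKL : ∀ v, v ∉ Z₀ → K v = a v • L v := by
    intro v hv
    rw [hLv, hg0 v hv]
    exact hK v hv
  have hone : 1 + g x₀ ≠ 0 := by
    intro h0
    obtain ⟨w, hw⟩ := Collin_notMem h3 x₀ x₀
    have hw0 : w ∉ Z₀ := fun h => hw (Collin_mem1 h)
    have hLx : L x₀ = 0 := by
      rw [hLv]
      have : x₀ + g x₀ • x₀ = (1 + g x₀) • x₀ := by module
      rw [this, h0, zero_smul]
    have hlim : Tendsto (fun e : ℝ => K (x₀ + e • w)) (𝓝[≠] 0) (𝓝 x₀) := by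
      have h1 : Continuous fun e : ℝ => K (x₀ + e • w) :=
        hcont.comp (continuous_const.add (continuous_id.smul continuous_const))
      have h2 := h1.tendsto 0
      rw [zero_smul, add_zero, hKx] at h2
      exact h2.mono_left nhdsWithin_le_nhds
    have hcl : IsClosed (Submodule.span ℝ {L w} : Set Z) :=
      Submodule.closed_of_finiteDimensional _
    have hmem : x₀ ∈ Submodule.span ℝ {L w} := by
      refine hcl.mem_of_tendsto hlim ?_
      filter_upwards [self_mem_nhdsWithin] with e he
      have he' : e ≠ 0 := he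
      have h1 : x₀ + e • w ∉ Z₀ := by
        intro h
        apply hw0
        have h2 : e • w = (x₀ + e • w) - x₀ := by abel
        have h4 : e • w ∈ Z₀ := by
          rw [h2]
          exact Submodule.sub_mem _ h hxZ
        exact (Submodule.smul_mem_iff _ he').1 h4
      have h5 : K (x₀ + e • w) = (a (x₀ + e • w) * e) • L w := by
        rw [hKL _ h1, map_add, hLx, zero_add, map_smul, smul_smul]
      rw [SetLike.mem_coe, h5]
      exact Submodule.smul_mem _ _ (Submodule.mem_span_singleton_self _)
    obtain ⟨s, hs⟩ := Submodule.mem_span_singleton.1 hmem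
    rw [hLv] at hs
    have h6 : (s * g w - 1) • x₀ + s • w = 0 := by
      have : (s * g w - 1) • x₀ + s • w = s • (w + g w • x₀) - x₀ := by module
      rw [this, hs, sub_self]
    obtain ⟨h7, h8⟩ := Collin_li2 hx₀ hw0 h6
    rw [h7] at h8
    norm_num at h8
  classical
  refine ⟨L, fun v => if v ∈ Z₀ then (1 + g x₀)⁻¹ else a v, fun v => ?_⟩
  by_cases hv : v ∈ Z₀
  · simp only [if_pos hv]
    obtain ⟨s, rfl⟩ := Submodule.mem_span_singleton.1 hv
    rw [hsmul, hKx, map_smul, hLv]
    have : x₀ + g x₀ • x₀ = (1 + g x₀) • x₀ := by module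
    rw [this, smul_smul, smul_smul]
    congr 1
    field_simp
  · simp only [if_neg hv]
    exact hKL v hv

end Pool.Agent.Lib.MP_5c4da9_an
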