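import Pool.Agent.Lib.MP_5c4da9_an.UDefs

/-!
# MP_5c4da9_an, U17: spaces with a contractive hyperplane projection
-/

set_option autoImplicit false

open Module

noncomputable section

namespace Pool.Agent.Lib.MP_5c4da9_an

/-- Two vectors lie in a common hyperplane. -/
theorem exists_hyperplane {n : ℕ} (hn : 3 ≤ n) {E : Type} [NormedAddCommGroup E]
    [NormedSpace ℝ E] (hE : finrank ℝ E = n) (x y : E) :
    ∃ V : Submodule ℝ E, finrank ℝ V = n - 1 ∧ x ∈ V ∧ y ∈ V := by
  have hfd : FiniteDimensional ℝ E := FiniteDimensional.of_finrank_pos (by omega)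
  have hlt : Submodule.span ℝ {x, y} < (⊤ : Submodule ℝ E) := by
    refine Submodule.lt_top_of_finrank_lt_finrank ?_
    have h1 : finrank ℝ (Submodule.span ℝ ({x, y} : Set E)) ≤ 2 := by
      classical
      have h2 : (({x, y} : Finset E) : Set E) = {x, y} := by simp
      rw [← h2]
      exact (finrank_span_finset_le_card _).trans Finset.card_le_two
    omega
  obtain ⟨f, hf0, hf⟩ := Submodule.exists_le_ker_of_lt_top _ hlt
  have hr : finrank ℝ (LinearMap.range f) = 1 := by
    rw [LinearMap.range_eq_top.2 (LinearMap.surjective hf0), finrank_top]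
    exact Module.finrank_self ℝ
  have hk : finrank ℝ (LinearMap.ker f) = n - 1 := by
    have := LinearMap.finrank_range_add_finrank_ker f
    omega
  exact ⟨LinearMap.ker f, hk, hf (Submodule.subset_span (by simp)),
    hf (Submodule.subset_span (by simp))⟩

theorem nonempty_of_para {n : ℕ} (hn : 1 ≤ n) {E : Type} [NormedAddCommGroup E]
    [NormedSpace ℝ E] (hE : finrank ℝ E = n) (hP : Para E) : Nonempty (E ≃ₗᵢ[ℝ] F n) := by
  have hfd : FiniteDimensional ℝ E := FiniteDimensional.of_finrank_pos (by omega)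
  have hpar : ∀ x y : E, ‖x + y‖ * ‖x + y‖ + ‖x - y‖ * ‖x - y‖ =
      2 * (‖x‖ * ‖x‖ + ‖y‖ * ‖y‖) := by
    intro x y
    linarith [hP x y, sq ‖x + y‖, sq ‖x - y‖, sq ‖x‖, sq ‖y‖]
  subst hE
  let _ := InnerProductSpace.ofNorm ℝ hpar
  exact ⟨(stdOrthonormalBasis ℝ E).repr⟩

theorem complStmt (h9 : UnivStmt) (h10 : UniformStmt) (h16 : BlaschkeStmt) : ComplStmt := by
  intro n hn E _ _ hE hiso P hPP hP1 hPr
  have hfd : FiniteDimensional ℝ E := FiniteDimensional.of_finrank_pos (by omega)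
  obtain ⟨c, C, hc, hC, hU⟩ := h10 n (by omega) E hE hiso
  -- the kernel
  have hker : finrank ℝ (LinearMap.ker P) = 1 := by
    have := LinearMap.finrank_range_add_finrank_ker P
    omega
  obtain ⟨⟨p, hp⟩, hp0, hspan⟩ := finrank_eq_one_iff'.1 hker
  have hp0' : p ≠ 0 := fun h => hp0 (Subtype.ext h)
  have hPp : P p = 0 := hp
  have hdiff : ∀ z, ∃ t : ℝ, z - P z = t • p := by
    intro z
    have hz : z - P z ∈ LinearMap.ker P := by
      rw [LinearMap.mem_ker, map_sub, hPP, sub_self]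
    obtain ⟨t, ht⟩ := hspan ⟨z - P z, hz⟩
    exact ⟨t, (congrArg Subtype.val ht).symm⟩
  have hpn : 0 < ‖p‖ := norm_pos_iff.2 hp0'
  -- the parallelogram law in hyperplanes
  have hV : ∀ V : Submodule ℝ E, finrank ℝ V = n - 1 → Para V := by
    intro V hVr
    refine h16 V c C (by omega) hc hC (fun x y => hU x y) ?_
    intro y hy
    have hyn : 0 < ‖y‖ := norm_pos_iff.2 hy
    obtain ⟨T, hT⟩ := h9 n (by omega) E hE hiso V hVr y ((‖y‖ / ‖p‖) • p) (by
      rw [norm_smul, Real.norm_eq_abs, abs_of_pos (div_pos hyn hpn)]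
      field_simp)
    have hpT : p = T ((‖y‖ / ‖p‖)⁻¹ • y) := by
      rw [map_smul, hT, smul_smul, inv_mul_cancel₀ (div_pos hyn hpn).ne', one_smul]
    have hPT : ∀ x : V, P (T x) ∈ LinearMap.range T.toLinearMap := by
      intro x
      obtain ⟨t, ht⟩ := hdiff (T x)
      refine ⟨x - t • ((‖y‖ / ‖p‖)⁻¹ • y), ?_⟩
      have : P (T x) = T x - t • p := by rw [← ht]; abel
      rw [this]
      conv_rhs => rw [hpT]
      rw [LinearIsometry.coe_toLinearMap, map_sub, map_smul]
    let e := LinearEquiv.ofInjective T.toLinearMap T.injective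
    let Q : V →ₗ[ℝ] V := (e.symm : LinearMap.range T.toLinearMap →ₗ[ℝ] V).comp
      ((P.comp T.toLinearMap).codRestrict _ hPT)
    have hTQ : ∀ x, T (Q x) = P (T x) := by
      intro x
      have h1 : e (Q x) = (P.comp T.toLinearMap).codRestrict _ hPT x := e.apply_symm_apply _
      exact congrArg Subtype.val h1
    refine ⟨Q, ?_, ?_, ?_⟩
    · intro x
      rw [← T.norm_map, hTQ, ← T.norm_map x]
      exact hP1 _
    · apply T.injective
      rw [hTQ, hT, map_smul, hPp, smul_zero, map_zero]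
    · intro x
      obtain ⟨t, ht⟩ := hdiff (T x)
      refine ⟨t * (‖y‖ / ‖p‖)⁻¹, ?_⟩
      apply T.injective
      rw [map_sub, hTQ, ht, mul_smul, map_smul, ← hpT]
  refine nonempty_of_para (by omega) hE ?_
  intro x y
  obtain ⟨V, hVr, hx, hy⟩ := exists_hyperplane (by omega) hE x y
  exact hV V hVr ⟨x, hx⟩ ⟨y, hy⟩

end Pool.Agent.Lib.MP_5c4da9_an
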