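import Pool.Agent.Lib.MP_5c4da9_an.Compl

/-!
# MP_5c4da9_an: third order contact with an ellipsoid at one point
-/

set_option autoImplicit false

open Module Filter Topology

noncomputable section

namespace Pool.Agent.Lib.MP_5c4da9_an

section Lemma

variable {Z : Type} [NormedAddCommGroup Z] [NormedSpace ℝ Z]

/-- Third order contact with a quadratic form, with a given modulus. -/
def ContactAt (δ : ℝ → ℝ) (y : Z) (B : Z →ₗ[ℝ] Z →ₗ[ℝ] ℝ) : Prop :=
  ∀ ε : ℝ, 0 < ε → ∀ h : Z, ‖h‖ < δ ε → |‖y + h‖ ^ 2 - B (y + h) (y + h)| ≤ ε * ‖h‖ ^ 3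

/-- Comparison of the quadratic forms at two nearby points. -/
theorem contact_compare {δ : ℝ → ℝ} {y y' : Z} {B B' : Z →ₗ[ℝ] Z →ₗ[ℝ] ℝ}
    (hB : ContactAt δ y B) (hB' : ContactAt δ y' B') {ε : ℝ} (hε : 0 < ε)
    (hyy : 2 * ‖y' - y‖ < δ ε) (h : Z) :
    |B' h h - B h h| ≤ 18 * ε * ‖y' - y‖ * ‖h‖ ^ 2 := by
  rcases eq_or_ne y' y with rfl | hne
  · -- the same point: the forms agree
    have hδ : 0 < δ ε := by simpa using hyy
    rw [sub_self, norm_zero, mul_zero, zero_mul]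
    -- use smaller and smaller vectors
    by_cases hh : h = 0
    · rw [hh]; simp
    have hhn : 0 < ‖h‖ := norm_pos_iff.2 hh
    have key : ∀ s : ℝ, 0 < s → s * ‖h‖ < δ ε →
        |B' h h - B h h| ≤ s * (4 * ε * ‖h‖ ^ 3) := by
      intro s hs hsδ
      have e1 := hB ε hε (s • h) (by rw [norm_smul, Real.norm_eq_abs, abs_of_pos hs]; exact hsδ)
      have e2 := hB' ε hε (s • h) (by rw [norm_smul, Real.norm_eq_abs, abs_of_pos hs]; exact hsδ)
      have e3 := hB ε hε (-(s • h)) (by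
        rw [norm_neg, norm_smul, Real.norm_eq_abs, abs_of_pos hs]; exact hsδ)
      have e4 := hB' ε hε (-(s • h)) (by
        rw [norm_neg, norm_smul, Real.norm_eq_abs, abs_of_pos hs]; exact hsδ)
      have e5 := hB ε hε 0 (by rw [norm_zero]; exact hδ)
      have e6 := hB' ε hε 0 (by rw [norm_zero]; exact hδ)
      rw [norm_zero, zero_pow three_ne_zero, mul_zero] at e5 e6
      have e5' := abs_nonpos_iff.1 e5
      have e6' := abs_nonpos_iff.1 e6
      rw [add_zero] at e5' e6'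
      rw [norm_neg] at e3 e4
      rw [norm_smul, Real.norm_eq_abs, abs_of_pos hs] at e1 e2 e3 e4
      have hd : 2 * s ^ 2 * (B' h h - B h h) =
          (B' (y' + s • h) (y' + s • h) - B (y' + s • h) (y' + s • h)) +
          (B' (y' + -(s • h)) (y' + -(s • h)) - B (y' + -(s • h)) (y' + -(s • h))) -
          2 * (B' y' y' - B y' y') := by
        simp only [map_add, map_neg, map_smul, LinearMap.add_apply, LinearMap.neg_apply,
          LinearMap.smul_apply, smul_eq_mul]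
        ring
      have h3 : |2 * s ^ 2 * (B' h h - B h h)| ≤ 4 * (ε * (s * ‖h‖) ^ 3) := by
        rw [hd, abs_le]
        rw [abs_le] at e1 e2 e3 e4
        constructor <;> linarith [e1.1, e1.2, e2.1, e2.2, e3.1, e3.2, e4.1, e4.2]
      rw [abs_mul, abs_of_pos (by positivity : (0 : ℝ) < 2 * s ^ 2)] at h3
      have h4 : 2 * s ^ 2 * |B' h h - B h h| ≤ 2 * s ^ 2 * (s * (4 * ε * ‖h‖ ^ 3)) := by
        refine h3.trans ?_
        have : 0 ≤ ε * s ^ 3 * ‖h‖ ^ 3 := by positivity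
        nlinarith
      exact le_of_mul_le_mul_left h4 (by positivity)
    have hlim : Tendsto (fun s : ℝ => s * (4 * ε * ‖h‖ ^ 3)) (𝓝[>] 0) (𝓝 0) := by
      have : Tendsto (fun s : ℝ => s * (4 * ε * ‖h‖ ^ 3)) (𝓝 0) (𝓝 (0 * (4 * ε * ‖h‖ ^ 3))) :=
        tendsto_id.mul_const _
      rw [zero_mul] at this
      exact this.mono_left nhdsWithin_le_nhds
    refine ge_of_tendsto hlim ?_
    have h5 : ∀ᶠ s : ℝ in 𝓝[>] 0, s * ‖h‖ < δ ε := by
      have : Tendsto (fun s : ℝ => s * ‖h‖) (𝓝 0) (𝓝 (0 * ‖h‖)) := tendsto_id.mul_const _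
      rw [zero_mul] at this
      exact (this.mono_left nhdsWithin_le_nhds).eventually (gt_mem_nhds hδ)
    filter_upwards [h5, self_mem_nhdsWithin] with s hs1 hs2
    exact key s hs2 hs1
  · set k : Z := y' - y with hk
    have hk0 : 0 < ‖k‖ := norm_pos_iff.2 (sub_ne_zero.2 hne)
    have hy' : y' = y + k := by rw [hk]; abel
    -- the bound for vectors of norm at most `‖k‖`
    have hsmall : ∀ g : Z, ‖g‖ ≤ ‖k‖ →
        |B' (y' + g) (y' + g) - B (y' + g) (y' + g)| ≤ 9 * ε * ‖k‖ ^ 3 := by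
      intro g hg
      have e1 := hB' ε hε g (by linarith)
      have hkg : ‖k + g‖ ≤ 2 * ‖k‖ := (norm_add_le _ _).trans (by linarith)
      have e2 := hB ε hε (k + g) (by linarith)
      rw [← add_assoc, ← hy'] at e2
      have h3 : ε * ‖g‖ ^ 3 ≤ ε * ‖k‖ ^ 3 :=
        mul_le_mul_of_nonneg_left (pow_le_pow_left₀ (norm_nonneg _) hg 3) hε.le
      have h4 : ε * ‖k + g‖ ^ 3 ≤ ε * (2 * ‖k‖) ^ 3 :=
        mul_le_mul_of_nonneg_left (pow_le_pow_left₀ (norm_nonneg _) hkg 3) hε.le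
      have h5 : (2 * ‖k‖) ^ 3 = 8 * ‖k‖ ^ 3 := by ring
      rw [h5] at h4
      rw [abs_le] at e1 e2 ⊢
      constructor <;> nlinarith [e1.1, e1.2, e2.1, e2.2]
    have hkey : ∀ g : Z, ‖g‖ ≤ ‖k‖ → |B' g g - B g g| ≤ 18 * ε * ‖k‖ ^ 3 := by
      intro g hg
      have e1 := hsmall g hg
      have e2 := hsmall (-g) (by rw [norm_neg]; exact hg)
      have e3 := hsmall 0 (by rw [norm_zero]; exact hk0.le)
      have hd : 2 * (B' g g - B g g) =
          (B' (y' + g) (y' + g) - B (y' + g) (y' + g)) +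
          (B' (y' + -g) (y' + -g) - B (y' + -g) (y' + -g)) -
          2 * (B' (y' + 0) (y' + 0) - B (y' + 0) (y' + 0)) := by
        simp only [map_add, map_neg, LinearMap.add_apply, LinearMap.neg_apply, add_zero]
        ring
      rw [abs_le] at e1 e2 e3 ⊢
      constructor <;> linarith [e1.1, e1.2, e2.1, e2.2, e3.1, e3.2]
    by_cases hh : h = 0
    · rw [hh]; simp
    have hhn : 0 < ‖h‖ := norm_pos_iff.2 hh
    have h1 := hkey ((‖k‖ / ‖h‖) • h) (by
      rw [norm_smul, Real.norm_eq_abs, abs_of_pos (div_pos hk0 hhn)]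
      apply le_of_eq
      field_simp)
    have h2 : B' ((‖k‖ / ‖h‖) • h) ((‖k‖ / ‖h‖) • h) - B ((‖k‖ / ‖h‖) • h) ((‖k‖ / ‖h‖) • h) =
        (‖k‖ / ‖h‖) ^ 2 * (B' h h - B h h) := by
      simp only [map_smul, LinearMap.smul_apply, smul_eq_mul]
      ring
    rw [h2, abs_mul, abs_of_pos (by positivity : (0 : ℝ) < (‖k‖ / ‖h‖) ^ 2)] at h1
    have h3 : (‖k‖ / ‖h‖) ^ 2 * |B' h h - B h h| ≤
        (‖k‖ / ‖h‖) ^ 2 * (18 * ε * ‖k‖ * ‖h‖ ^ 2) := by
      refine h1.trans (le_of_eq ?_)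
      field_simp
    exact le_of_mul_le_mul_left h3 (by positivity)

/-- The quadratic forms agree at two points of the unit sphere that are not antipodal. -/
theorem contact_segment {δ : ℝ → ℝ} (hδ : ∀ ε, 0 < ε → 0 < δ ε)
    {B : Z → (Z →ₗ[ℝ] Z →ₗ[ℝ] ℝ)} (hB : ∀ y, ‖y‖ = 1 → ContactAt δ y (B y)) {a b : Z}
    (ha : ‖a‖ = 1) (hb : ‖b‖ = 1) (hab : ∀ t ∈ Set.Icc (0 : ℝ) 1, (1 - t) • a + t • b ≠ 0)
    (h : Z) : B a h h = B b h h := by
  -- the path
  let σ : ℝ → Z := fun t => (1 - t) • a + t • b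
  have hσc : Continuous σ := by fun_prop
  obtain ⟨t₀, ht₀, hmin⟩ := isCompact_Icc.exists_isMinOn (Set.nonempty_Icc.2 zero_le_one)
    (hσc.norm.continuousOn (s := Set.Icc (0 : ℝ) 1))
  set μ : ℝ := ‖σ t₀‖ with hμ
  have hμ0 : 0 < μ := norm_pos_iff.2 (hab t₀ ht₀)
  have hμle : ∀ t ∈ Set.Icc (0 : ℝ) 1, μ ≤ ‖σ t‖ := fun t ht => hmin ht
  let γ : ℝ → Z := fun t => ‖σ t‖⁻¹ • σ t
  have hγn : ∀ t ∈ Set.Icc (0 : ℝ) 1, ‖γ t‖ = 1 := by
    intro t ht
    have := hμ0.trans_le (hμle t ht)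
    simp only [γ, norm_smul, norm_inv, norm_norm]
    exact inv_mul_cancel₀ this.ne'
  -- Lipschitz
  set Λ : ℝ := 2 * ‖b - a‖ / μ with hΛ
  have hΛ0 : 0 ≤ Λ := by positivity
  have hlip : ∀ s ∈ Set.Icc (0 : ℝ) 1, ∀ t ∈ Set.Icc (0 : ℝ) 1,
      ‖γ t - γ s‖ ≤ Λ * |t - s| := by
    intro s hs t ht
    have hs0 := hμ0.trans_le (hμle s hs)
    have ht0 := hμ0.trans_le (hμle t ht)
    have hd : σ t - σ s = (t - s) • (b - a) := by simp only [σ]; module
    have hdn : ‖σ t - σ s‖ = |t - s| * ‖b - a‖ := by rw [hd, norm_smul, Real.norm_eq_abs]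
    have h1 : γ t - γ s = ‖σ t‖⁻¹ • (σ t - σ s) + (‖σ t‖⁻¹ - ‖σ s‖⁻¹) • σ s := by
      simp only [γ]; module
    have h2 : ‖(‖σ t‖⁻¹ - ‖σ s‖⁻¹) • σ s‖ ≤ ‖σ t‖⁻¹ * ‖σ t - σ s‖ := by
      rw [norm_smul, Real.norm_eq_abs]
      have h3 : ‖σ t‖⁻¹ - ‖σ s‖⁻¹ = ‖σ t‖⁻¹ * ‖σ s‖⁻¹ * (‖σ s‖ - ‖σ t‖) := by
        field_simp
      rw [h3, abs_mul, abs_of_pos (by positivity : (0 : ℝ) < ‖σ t‖⁻¹ * ‖σ s‖⁻¹)]
      have h4 : |‖σ s‖ - ‖σ t‖| ≤ ‖σ t - σ s‖ := by
        rw [norm_sub_rev]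
        exact abs_norm_sub_norm_le _ _
      calc ‖σ t‖⁻¹ * ‖σ s‖⁻¹ * |‖σ s‖ - ‖σ t‖| * ‖σ s‖
          = ‖σ t‖⁻¹ * |‖σ s‖ - ‖σ t‖| := by field_simp
        _ ≤ ‖σ t‖⁻¹ * ‖σ t - σ s‖ := mul_le_mul_of_nonneg_left h4 (by positivity)
    have h5 : ‖σ t‖⁻¹ ≤ μ⁻¹ := inv_anti₀ hμ0 (hμle t ht)
    calc ‖γ t - γ s‖ ≤ ‖‖σ t‖⁻¹ • (σ t - σ s)‖ + ‖(‖σ t‖⁻¹ - ‖σ s‖⁻¹) • σ s‖ := by
          rw [h1]; exact norm_add_le _ _
      _ ≤ ‖σ t‖⁻¹ * ‖σ t - σ s‖ + ‖σ t‖⁻¹ * ‖σ t - σ s‖ := by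
          refine add_le_add (le_of_eq ?_) h2
          rw [norm_smul, norm_inv, norm_norm]
      _ = 2 * (‖σ t‖⁻¹ * ‖σ t - σ s‖) := by ring
      _ ≤ 2 * (μ⁻¹ * ‖σ t - σ s‖) := by
          have := mul_le_mul_of_nonneg_right h5 (norm_nonneg (σ t - σ s))
          linarith
      _ = Λ * |t - s| := by rw [hdn, hΛ]; ring
  have hγ0 : γ 0 = a := by simp [γ, σ, ha]
  have hγ1 : γ 1 = b := by simp [γ, σ, hb]
  -- the estimate
  have hest : ∀ ε : ℝ, 0 < ε → |B b h h - B a h h| ≤ 18 * ε * Λ * ‖h‖ ^ 2 := by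
    intro ε hε
    obtain ⟨N, hN⟩ := exists_nat_gt (2 * Λ / δ ε)
    have hδε := hδ ε hε
    have hN0 : (0 : ℝ) < N := lt_of_le_of_lt (by positivity) hN
    have hmem : ∀ i : ℕ, i ≤ N → ((i : ℝ) / N) ∈ Set.Icc (0 : ℝ) 1 := by
      intro i hi
      refine ⟨by positivity, ?_⟩
      rw [div_le_one hN0]
      exact_mod_cast hi
    have hstep : ∀ i : ℕ, i ≤ N →
        |B (γ ((i : ℝ) / N)) h h - B (γ 0) h h| ≤ 18 * ε * (Λ * (i / N)) * ‖h‖ ^ 2 := by
      intro i
      induction i with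
      | zero => intro _; simp
      | succ i ih =>
        intro hi
        have hi' := ih (by omega)
        have hd : ‖γ (((i + 1 : ℕ) : ℝ) / N) - γ ((i : ℝ) / N)‖ ≤ Λ * (1 / N) := by
          refine (hlip _ (hmem i (by omega)) _ (hmem (i + 1) hi)).trans (le_of_eq ?_)
          congr 1
          rw [← sub_div]
          push_cast
          rw [add_sub_cancel_left, abs_of_pos (by positivity)]
        have hd2 : 2 * ‖γ (((i + 1 : ℕ) : ℝ) / N) - γ ((i : ℝ) / N)‖ < δ ε := by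
          have : 2 * (Λ * (1 / N)) < δ ε := by
            rw [div_lt_iff₀ hδε] at hN
            rw [show 2 * (Λ * (1 / (N : ℝ))) = 2 * Λ / N by ring, div_lt_iff₀ hN0]
            linarith
          linarith
        have hc := contact_compare (hB _ (hγn _ (hmem i (by omega))))
          (hB _ (hγn _ (hmem (i + 1) hi))) hε hd2 h
        have hc2 : |B (γ (((i + 1 : ℕ) : ℝ) / N)) h h - B (γ ((i : ℝ) / N)) h h| ≤
            18 * ε * (Λ * (1 / N)) * ‖h‖ ^ 2 := by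
          refine hc.trans ?_
          have : 0 ≤ 18 * ε * ‖h‖ ^ 2 := by positivity
          nlinarith [mul_le_mul_of_nonneg_left hd this]
        have htri := abs_sub_le (B (γ (((i + 1 : ℕ) : ℝ) / N)) h h)
          (B (γ ((i : ℝ) / N)) h h) (B (γ 0) h h)
        refine htri.trans ((add_le_add hc2 hi').trans (le_of_eq ?_))
        push_cast
        ring
    have := hstep N le_rfl
    rw [div_self hN0.ne', hγ0, hγ1, mul_one] at this
    exact this
  have hzero : |B b h h - B a h h| ≤ 0 := by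
    have hlim : Tendsto (fun ε : ℝ => 18 * ε * Λ * ‖h‖ ^ 2) (𝓝[>] 0) (𝓝 0) := by
      have : Tendsto (fun ε : ℝ => 18 * ε * Λ * ‖h‖ ^ 2) (𝓝 0) (𝓝 (18 * 0 * Λ * ‖h‖ ^ 2)) :=
        Continuous.tendsto (by fun_prop) 0
      simp only [mul_zero, zero_mul] at this
      exact this.mono_left nhdsWithin_le_nhds
    refine ge_of_tendsto hlim ?_
    filter_upwards [self_mem_nhdsWithin] with ε hε
    exact hest ε hε
  have := abs_nonpos_iff.1 hzero
  linarith

/-- Uniform third order contact with ellipsoids at all points forces the parallelogram law. -/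
theorem para_of_contact [FiniteDimensional ℝ Z] (hZ : 2 ≤ finrank ℝ Z) {δ : ℝ → ℝ}
    (hδ : ∀ ε, 0 < ε → 0 < δ ε)
    (hc : ∀ y : Z, ‖y‖ = 1 → ∃ B : Z →ₗ[ℝ] Z →ₗ[ℝ] ℝ, ContactAt δ y B) : Para Z := by
  classical
  let B : Z → (Z →ₗ[ℝ] Z →ₗ[ℝ] ℝ) := fun y => if hy : ‖y‖ = 1 then (hc y hy).choose else 0
  have hB : ∀ y, ‖y‖ = 1 → ContactAt δ y (B y) := by
    intro y hy
    simp only [B, dif_pos hy]
    exact (hc y hy).choose_spec
  -- independent unit vectors
  have hind : ∀ a b : Z, ‖a‖ = 1 → ‖b‖ = 1 → LinearIndependent ℝ ![a, b] →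
      ∀ h, B a h h = B b h h := by
    intro a b ha hb hab h
    refine contact_segment hδ hB ha hb ?_ h
    intro t _ h0
    rw [LinearIndependent.pair_iff] at hab
    obtain ⟨h1, h2⟩ := hab _ _ h0
    linarith
  have hall : ∀ a b : Z, ‖a‖ = 1 → ‖b‖ = 1 → ∀ h, B a h h = B b h h := by
    intro a b ha hb h
    have ha0 : a ≠ 0 := by rintro rfl; simp at ha
    have hb0 : b ≠ 0 := by rintro rfl; simp at hb
    by_cases hab : LinearIndependent ℝ ![a, b]
    · exact hind a b ha hb hab h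
    · -- choose a third vector
      obtain ⟨c, hc'⟩ : ∃ c : Z, c ∉ Submodule.span ℝ {a} := by
        by_contra hcon
        push Not at hcon
        have htop : Submodule.span ℝ {a} = ⊤ := by
          rw [Submodule.eq_top_iff']
          exact hcon
        have h1 := finrank_span_singleton (K := ℝ) ha0
        rw [htop, finrank_top] at h1
        omega
      have hac : LinearIndependent ℝ ![a, c] := by
        rw [LinearIndependent.pair_iff' ha0]
        intro t ht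
        exact hc' (Submodule.mem_span_singleton.2 ⟨t, ht⟩)
      have hbspan : b ∈ Submodule.span ℝ {a} := by
        rw [LinearIndependent.pair_iff' ha0] at hab
        push Not at hab
        obtain ⟨t, ht⟩ := hab
        exact Submodule.mem_span_singleton.2 ⟨t, ht⟩
      obtain ⟨t, ht⟩ := Submodule.mem_span_singleton.1 hbspan
      have ht0 : t ≠ 0 := by
        rintro rfl
        rw [zero_smul] at ht
        exact hb0 ht.symm
      have hbc : LinearIndependent ℝ ![b, c] := by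
        rw [LinearIndependent.pair_iff' hb0]
        intro s hs
        apply hc'
        rw [← hs, ← ht, smul_smul]
        exact Submodule.mem_span_singleton.2 ⟨_, rfl⟩
      have hcne : c ≠ 0 := by
        rintro rfl
        exact hc' (Submodule.zero_mem _)
      have hcn : 0 < ‖c‖ := norm_pos_iff.2 hcne
      set c' : Z := ‖c‖⁻¹ • c with hc'def
      have hc'n : ‖c'‖ = 1 := by
        rw [hc'def, norm_smul, norm_inv, norm_norm, inv_mul_cancel₀ hcn.ne']
      have hscale : ∀ d : Z, LinearIndependent ℝ ![d, c] → LinearIndependent ℝ ![d, c'] := by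
        intro d hd
        rw [LinearIndependent.pair_iff] at hd ⊢
        intro s u hsu
        have h2 := hd s (u * ‖c‖⁻¹) (by rw [mul_smul, ← hc'def]; exact hsu)
        refine ⟨h2.1, ?_⟩
        rcases mul_eq_zero.1 h2.2 with h3 | h3
        · exact h3
        · exact absurd h3 (inv_pos.2 hcn).ne'
      rw [hind a c' ha hc'n (hscale a hac) h, ← hind b c' hb hc'n (hscale b hbc) h]
  -- the square of the norm is quadratic
  have hnt : ∃ a : Z, ‖a‖ = 1 := by
    have : Nontrivial Z := Module.nontrivial_of_finrank_pos (R := ℝ) (by omega)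
    exact exists_norm_eq Z zero_le_one
  obtain ⟨a, ha⟩ := hnt
  have hq : ∀ z : Z, ‖z‖ ^ 2 = B a z z := by
    intro z
    by_cases hz : z = 0
    · rw [hz]; simp
    have hzn : 0 < ‖z‖ := norm_pos_iff.2 hz
    set y : Z := ‖z‖⁻¹ • z with hy
    have hyn : ‖y‖ = 1 := by
      rw [hy, norm_smul, norm_inv, norm_norm, inv_mul_cancel₀ hzn.ne']
    have h1 := hB y hyn 1 one_pos 0 (by rw [norm_zero]; exact hδ 1 one_pos)
    rw [norm_zero, zero_pow three_ne_zero, mul_zero, add_zero] at h1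
    have h2 := abs_nonpos_iff.1 h1
    rw [hyn, ← hall a y ha hyn y] at h2
    have h3 : B a y y = ‖z‖⁻¹ ^ 2 * B a z z := by
      rw [hy]
      simp only [map_smul, LinearMap.smul_apply, smul_eq_mul]
      ring
    rw [h3] at h2
    field_simp at h2
    linarith
  intro x y
  rw [hq, hq, hq, hq]
  simp only [map_add, map_sub, LinearMap.add_apply, LinearMap.sub_apply]
  ring

end Lemma

/-- Third order contact with a quadratic form at one point of the unit sphere. -/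
theorem contact (h9 : UnivStmt) {n : ℕ} (hn : 3 ≤ n) {E : Type} [NormedAddCommGroup E]
    [NormedSpace ℝ E] (hE : finrank ℝ E = n) (hiso : IsoHyp n E) {p : E} (hp : ‖p‖ = 1)
    {B : E →ₗ[ℝ] E →ₗ[ℝ] ℝ} (hB : ∀ ε : ℝ, 0 < ε → ∃ δ : ℝ, 0 < δ ∧ ∀ h : E, ‖h‖ < δ →
      |‖p + h‖ ^ 2 - B (p + h) (p + h)| ≤ ε * ‖h‖ ^ 3) : Nonempty (E ≃ₗᵢ[ℝ] F n) := by
  classical
  have hfd : FiniteDimensional ℝ E := FiniteDimensional.of_finrank_pos (by omega)
  let δ : ℝ → ℝ := fun ε => if hε : 0 < ε then (hB ε hε).choose else 1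
  have hδ : ∀ ε, 0 < ε → 0 < δ ε := by
    intro ε hε
    simp only [δ, dif_pos hε]
    exact (hB ε hε).choose_spec.1
  have hδ2 : ∀ ε, 0 < ε → ∀ h : E, ‖h‖ < δ ε →
      |‖p + h‖ ^ 2 - B (p + h) (p + h)| ≤ ε * ‖h‖ ^ 3 := by
    intro ε hε
    simp only [δ, dif_pos hε]
    exact (hB ε hε).choose_spec.2
  refine nonempty_of_para (by omega) hE ?_
  intro x y
  obtain ⟨V, hVr, hx, hy⟩ := exists_hyperplane hn hE x y
  have hpara : Para V := by
    refine para_of_contact (by omega) hδ ?_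
    intro z hz
    obtain ⟨T, hT⟩ := h9 n hn E hE hiso V hVr z p (by rw [hp]; exact hz)
    refine ⟨(B.compl₁₂ T.toLinearMap T.toLinearMap), ?_⟩
    intro ε hε h hh
    have h1 := hδ2 ε hε (T h) (by rw [T.norm_map]; exact hh)
    rw [← hT, ← map_add, T.norm_map, T.norm_map] at h1
    exact h1
  exact hpara ⟨x, hx⟩ ⟨y, hy⟩

end Pool.Agent.Lib.MP_5c4da9_an
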