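import Pool.Agent.Lib.MP_5c4da9_an.Defs

set_option autoImplicit false

open Set Filter Topology Module

noncomputable section

namespace Pool.Agent.Lib.MP_5c4da9_an

/-- An isometry fixing a hyperplane pointwise, not the identity, has a vector `e` outside with
`r e = -e`. -/
theorem coord_axis {E : Type} [NormedAddCommGroup E] [NormedSpace ℝ E] [FiniteDimensional ℝ E]
    {n : ℕ} (hn : 3 ≤ n) (hE : finrank ℝ E = n) (r : E ≃ₗᵢ[ℝ] E) (hr : ∃ x, r x ≠ x)
    (P : Submodule ℝ E) (hP : finrank ℝ P = n - 1) (hfix : ∀ x ∈ P, r x = x) :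
    ∃ e : E, e ∉ P ∧ r e = -e := by
  obtain ⟨x0, hx0⟩ := hr
  have hx0P : x0 ∉ P := fun h => hx0 (hfix x0 h)
  -- decomposition
  have hsup : P ⊔ Submodule.span ℝ {x0} = ⊤ := by
    apply Submodule.eq_top_of_finrank_eq
    have h1 : finrank ℝ (P ⊔ Submodule.span ℝ {x0} : Submodule ℝ E) ≤ n := by
      rw [← hE]; exact Submodule.finrank_le _
    have h2 : P < P ⊔ Submodule.span ℝ {x0} := by
      refine lt_of_le_of_ne le_sup_left fun h => hx0P ?_
      rw [h]
      exact (le_sup_right : _ ≤ P ⊔ Submodule.span ℝ {x0}) (Submodule.mem_span_singleton_self x0)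
    have h3 := Submodule.finrank_lt_finrank_of_lt h2
    rw [hE]
    omega
  have hmem : r x0 ∈ P ⊔ Submodule.span ℝ {x0} := by rw [hsup]; exact Submodule.mem_top
  obtain ⟨p, hp, y, hy, hpy⟩ := Submodule.mem_sup.mp hmem
  obtain ⟨al, rfl⟩ := Submodule.mem_span_singleton.mp hy
  -- distance to P
  have hcl : IsClosed (P : Set E) := Submodule.closed_of_finiteDimensional P
  have himg : (r : E → E) '' (P : Set E) = (P : Set E) := by
    ext z
    constructor
    · rintro ⟨w, hw, rfl⟩
      have : r w = w := hfix w hw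
      rw [this]; exact hw
    · intro hz
      exact ⟨z, hz, hfix z hz⟩
  have hd1 : Metric.infDist (r x0) (P : Set E) = Metric.infDist x0 (P : Set E) := by
    have := Metric.infDist_image (x := x0) (t := (P : Set E)) r.isometry
    rw [himg] at this
    exact this
  have hd0 : 0 < Metric.infDist x0 (P : Set E) :=
    (hcl.notMem_iff_infDist_pos ⟨0, P.zero_mem⟩).mp hx0P
  have hd2 : Metric.infDist (r x0) (P : Set E) = |al| * Metric.infDist x0 (P : Set E) := by
    rw [← hpy]
    have hq : ∀ z : E, ‖(Submodule.Quotient.mk z : E ⧸ P)‖ = Metric.infDist z (P : Set E) := by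
      intro z
      exact QuotientAddGroup.norm_mk (S := P.toAddSubgroup) z
    rw [← hq, ← hq]
    have : (Submodule.Quotient.mk (p + al • x0) : E ⧸ P) = al • Submodule.Quotient.mk x0 := by
      rw [Submodule.Quotient.mk_add, Submodule.Quotient.mk_smul,
        (Submodule.Quotient.mk_eq_zero P).mpr hp, zero_add]
    rw [this, norm_smul, Real.norm_eq_abs]
  have hal : |al| = 1 := by
    have : |al| * Metric.infDist x0 (P : Set E) = 1 * Metric.infDist x0 (P : Set E) := by
      rw [← hd2, hd1, one_mul]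
    exact mul_right_cancel₀ hd0.ne' this
  have hal' : al = -1 := by
    rcases (abs_eq (zero_le_one)).mp hal with h | h
    · exfalso
      subst h
      rw [one_smul] at hpy
      have hit : ∀ k : ℕ, ∃ z : E, ‖z‖ = ‖x0‖ ∧ z = x0 + (k : ℝ) • p := by
        intro k
        induction k with
        | zero => exact ⟨x0, rfl, by simp⟩
        | succ k ih =>
          obtain ⟨z, hz, hz'⟩ := ih
          refine ⟨r z, by rw [r.norm_map, hz], ?_⟩
          rw [hz', map_add, map_smul, hfix p hp, ← hpy]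
          push_cast
          rw [add_smul, one_smul]
          abel
      have hp0 : p = 0 := by
        by_contra hne
        have hpos : 0 < ‖p‖ := norm_pos_iff.mpr hne
        obtain ⟨k, hk⟩ := exists_nat_gt (2 * ‖x0‖ / ‖p‖)
        obtain ⟨z, hz, hz'⟩ := hit k
        have h1 : (k : ℝ) • p = z - x0 := by rw [hz']; abel
        have h2 : (k : ℝ) * ‖p‖ ≤ 2 * ‖x0‖ := by
          have h3 : ‖(k : ℝ) • p‖ ≤ ‖z‖ + ‖x0‖ := by rw [h1]; exact norm_sub_le _ _
          rw [norm_smul, Real.norm_eq_abs, Nat.abs_cast, hz] at h3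
          linarith
        rw [div_lt_iff₀ hpos] at hk
        linarith
      apply hx0
      rw [← hpy, hp0, zero_add]
    · exact h
  subst hal'
  refine ⟨x0 - (1 / 2 : ℝ) • p, ?_, ?_⟩
  · intro h
    apply hx0P
    have := P.add_mem h (P.smul_mem (1 / 2 : ℝ) hp)
    simpa using this
  · rw [map_sub, map_smul, hfix p hp, ← hpy]
    module

theorem coordStmt (h9 : InvStmt) : CoordStmt := by
  intro n hn E _ _ hE hiso r hr P hP hfix
  have hfd : FiniteDimensional ℝ E := Module.finite_of_finrank_pos (by omega)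
  obtain ⟨e, heP, hre⟩ := coord_axis hn hE r hr P hP hfix
  have hcast : ∀ m : ℕ, finrank ℝ P = m → ∃ φ : P ≃L[ℝ] F m, ∀ g : P ≃ₗᵢ[ℝ] P, ∀ y,
      ‖φ (g y)‖ = ‖φ y‖ := by
    rintro m rfl
    exact h9 P
  obtain ⟨φ, hφ⟩ := hcast (n - 1) hP
  -- the direct sum
  have hdir : ∀ (t : ℝ) (w : F (n - 1)), t • e + ((φ.symm w : P) : E) = 0 → t = 0 ∧ w = 0 := by
    intro t w h
    have ht : t = 0 := by
      by_contra hne
      apply heP
      have h1 : t • e = -((φ.symm w : P) : E) := eq_neg_of_add_eq_zero_left h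
      have h2 : e = t⁻¹ • (-((φ.symm w : P) : E)) := by
        rw [← h1, smul_smul, inv_mul_cancel₀ hne, one_smul]
      rw [h2]
      exact P.smul_mem _ (P.neg_mem (φ.symm w).2)
    refine ⟨ht, ?_⟩
    rw [ht, zero_smul, zero_add] at h
    have h3 : φ.symm w = 0 := Subtype.ext h
    simpa using h3
  refine ⟨fun z => ‖z.1 • e + ((φ.symm z.2 : P) : E)‖, fun w => ‖φ.symm w‖, φ, ?_, fun x => rfl⟩
  refine ⟨by omega, ⟨?_, ?_, ?_⟩, ⟨?_, ?_, ?_⟩, ?_, ?_, ?_⟩
  · -- add
    intro x y
    have : (x + y).1 • e + ((φ.symm (x + y).2 : P) : E) =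
        (x.1 • e + ((φ.symm x.2 : P) : E)) + (y.1 • e + ((φ.symm y.2 : P) : E)) := by
      rw [Prod.fst_add, Prod.snd_add, map_add, Submodule.coe_add]
      module
    simp only [this]
    exact norm_add_le _ _
  · intro c x
    have : (c • x).1 • e + ((φ.symm (c • x).2 : P) : E) =
        c • (x.1 • e + ((φ.symm x.2 : P) : E)) := by
      rw [Prod.smul_fst, Prod.smul_snd, map_smul, Submodule.coe_smul, smul_eq_mul]
      module
    simp only [this]
    rw [norm_smul, Real.norm_eq_abs]
  · intro x hx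
    refine norm_pos_iff.mpr fun h => hx ?_
    obtain ⟨h1, h2⟩ := hdir x.1 x.2 h
    exact Prod.ext h1 h2
  · intro x y
    simp only [map_add]
    exact norm_add_le _ _
  · intro c x
    simp only [map_smul]
    rw [norm_smul, Real.norm_eq_abs]
  · intro x hx
    refine norm_pos_iff.mpr fun h => hx ?_
    simpa using h
  · -- even
    intro t x
    show ‖(-t) • e + ((φ.symm x : P) : E)‖ = ‖t • e + ((φ.symm x : P) : E)‖
    rw [← r.norm_map (t • e + ((φ.symm x : P) : E)), map_add, map_smul, hre,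
      hfix _ (φ.symm x).2]
    congr 2
    module
  · -- orth
    intro g hg x
    have hg' : ∀ x, ‖φ.symm (g x)‖ = ‖φ.symm x‖ := hg
    let li : P →ₗᵢ[ℝ] P :=
      { toLinearMap := (φ.symm : F (n - 1) →ₗ[ℝ] P) ∘ₗ (g : F (n - 1) →ₗ[ℝ] F (n - 1)) ∘ₗ
          (φ : P →ₗ[ℝ] F (n - 1))
        norm_map' := by
          intro y
          show ‖φ.symm (g (φ y))‖ = ‖y‖
          rw [hg', φ.symm_apply_apply] }
    have h1 := hφ (li.toLinearIsometryEquiv rfl) (φ.symm x)
    have h2 : (li.toLinearIsometryEquiv rfl) (φ.symm x) = φ.symm (g (φ (φ.symm x))) := rfl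
    rw [h2, φ.apply_symm_apply, φ.apply_symm_apply] at h1
    exact h1
  · -- iso
    intro ω
    let κ : F (n - 1) →ₗ[ℝ] E :=
      { toFun := fun w => (-(inner ℝ ω w)) • e + ((φ.symm w : P) : E)
        map_add' := by
          intro x y
          rw [inner_add_right, map_add, Submodule.coe_add]
          module
        map_smul' := by
          intro c x
          rw [inner_smul_right, map_smul, Submodule.coe_smul]
          simp only [RingHom.id_apply]
          module }
    have hκ : Function.Injective κ := by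
      refine (injective_iff_map_eq_zero κ).mpr fun w hw => ?_
      exact (hdir _ w hw).2
    have hfr : finrank ℝ (LinearMap.range κ) = n - 1 := by
      rw [LinearMap.finrank_range_of_inj hκ, finrank_euclideanSpace_fin]
    obtain ⟨T⟩ := hiso P (LinearMap.range κ) hP hfr
    let Sl : F (n - 1) →ₗ[ℝ] F (n - 1) :=
      ((LinearEquiv.ofInjective κ hκ).symm : LinearMap.range κ →ₗ[ℝ] F (n - 1)) ∘ₗ
        (T.toLinearEquiv : P →ₗ[ℝ] LinearMap.range κ) ∘ₗ (φ.symm : F (n - 1) →ₗ[ℝ] P)
    refine ⟨LinearMap.toContinuousLinearMap Sl, fun x => ?_⟩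
    have h1 : κ (Sl x) = ((T (φ.symm x) : LinearMap.range κ) : E) := by
      have h2 : LinearEquiv.ofInjective κ hκ (Sl x) = T (φ.symm x) := by
        show LinearEquiv.ofInjective κ hκ ((LinearEquiv.ofInjective κ hκ).symm (T (φ.symm x))) = _
        rw [LinearEquiv.apply_symm_apply]
      rw [← h2]
      rfl
    show ‖κ (Sl x)‖ = ‖φ.symm x‖
    rw [h1]
    exact T.norm_map (φ.symm x)

end Pool.Agent.Lib.MP_5c4da9_an
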