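import Mathlib

set_option autoImplicit false

open Set Filter Topology Module

noncomputable section

namespace Pool.Agent.Lib.MP_5c4da9_an

/-- Euclidean space. -/
abbrev F (m : ℕ) := EuclideanSpace ℝ (Fin m)

/-- The reflection in the hyperplane orthogonal to the unit vector `v`. -/
def rfl' {m : ℕ} (v x : F m) : F m := x - (2 * inner ℝ v x) • v

/-! ### Sets of reflection axes -/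

/-- A closed set of unit vectors that is stable under the reflections in its elements. -/
structure IsReflSet {m : ℕ} (R : Set (F m)) : Prop where
  closed : IsClosed R
  unit : ∀ v ∈ R, ‖v‖ = 1
  neg : ∀ v ∈ R, -v ∈ R
  refl : ∀ v ∈ R, ∀ w ∈ R, rfl' v w ∈ R

/-- All unit vectors of `W` are in `R`. -/
def Full {m : ℕ} (R : Set (F m)) (W : Submodule ℝ (F m)) : Prop := ∀ v ∈ W, ‖v‖ = 1 → v ∈ R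

/-- The maximal nonzero subspaces all of whose unit vectors are in `R`. -/
def MaxSub {m : ℕ} (R : Set (F m)) : Set (Submodule ℝ (F m)) :=
  {W | W ≠ ⊥ ∧ Full R W ∧ ∀ W' : Submodule ℝ (F m), Full R W' → W ≤ W' → W' = W}

/-- B1. -/
def PlaneStmt : Prop := ∀ (m : ℕ) (R : Set (F m)), IsReflSet R →
  ∀ W : Submodule ℝ (F m), Full R W → 2 ≤ finrank ℝ W → ∀ w ∈ R, w ∉ W →
    (∃ v ∈ W, inner ℝ v w ≠ 0) → Full R (W ⊔ Submodule.span ℝ {w})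

/-- B2. -/
def StructStmt : Prop := ∀ (m : ℕ) (R : Set (F m)), IsReflSet R →
  (MaxSub R).Finite ∧ (∀ W ∈ MaxSub R, ∀ W' ∈ MaxSub R, W ≠ W' → W ⊓ W' = ⊥) ∧
  ∀ v ∈ R, ∃ W ∈ MaxSub R, v ∈ W

/-! ### The coordinate form of the problem -/

/-- `N` is a norm. -/
structure IsNorm {V : Type*} [AddCommGroup V] [Module ℝ V] (N : V → ℝ) : Prop where
  add : ∀ x y, N (x + y) ≤ N x + N y
  smul : ∀ (c : ℝ) x, N (c • x) = |c| * N x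
  pos : ∀ x, x ≠ 0 → 0 < N x

/-- `N` is a norm on `ℝ × ℝ^m` invariant under `(t,x) ↦ (-t,x)`; `N₀` is a norm on `ℝ^m` all of
whose linear isometries are orthogonal; and each hyperplane `{(-⟨ω,x⟩, x)}` with the norm `N` is
isometric to `N₀`. -/
structure Data (m : ℕ) (N : ℝ × F m → ℝ) (N₀ : F m → ℝ) : Prop where
  hm : 2 ≤ m
  norm : IsNorm N
  norm₀ : IsNorm N₀
  even : ∀ t x, N (-t, x) = N (t, x)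
  orth : ∀ g : F m →L[ℝ] F m, (∀ x, N₀ (g x) = N₀ x) → ∀ x, ‖g x‖ = ‖x‖
  iso : ∀ ω : F m, ∃ S : F m →L[ℝ] F m, ∀ x, N (-(inner ℝ ω (S x)), S x) = N₀ x

/-- The parametrizations of the hyperplane `{(-⟨ω,x⟩, x)}`. -/
def isoSet {m : ℕ} (N : ℝ × F m → ℝ) (N₀ : F m → ℝ) (ω : F m) : Set (F m →L[ℝ] F m) :=
  {S | ∀ x, N (-(inner ℝ ω (S x)), S x) = N₀ x}

/-- The unit axes of the reflections that preserve `N₀`. -/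
def RS {m : ℕ} (N₀ : F m → ℝ) : Set (F m) := {v | ‖v‖ = 1 ∧ ∀ x, N₀ (rfl' v x) = N₀ x}

/-- The projections (in the coordinates of the hyperplane `{(-⟨ω,x⟩, x)}`) onto the maximal
subspaces of reflection axes. -/
def QQ {m : ℕ} (N : ℝ × F m → ℝ) (N₀ : F m → ℝ) (ω : F m) : Set (F m →L[ℝ] F m) :=
  {q | ∃ S ∈ isoSet N N₀ ω, ∃ W ∈ MaxSub (RS N₀), q.comp S = S.comp W.starProjection}

/-- B3. -/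
def LocalStmt : Prop := ∀ (m : ℕ) (N : ℝ × F m → ℝ) (N₀ : F m → ℝ), Data m N N₀ →
  (∀ ω, ∀ q ∈ QQ N N₀ ω, q.comp q = q) ∧
  (∀ ρ : ℝ, ∃ δ : ℝ, 0 < δ ∧ ∀ ω : F m, ‖ω‖ ≤ ρ → ∀ q ∈ QQ N N₀ ω, ∀ q' ∈ QQ N N₀ ω, q ≠ q' →
    δ ≤ ‖q - q'‖) ∧
  ∀ ρ ε : ℝ, 0 < ε → ∃ η : ℝ, 0 < η ∧ ∀ ω ω' : F m, ‖ω‖ ≤ ρ → ‖ω'‖ ≤ ρ → ‖ω - ω'‖ < η →
    ∀ q ∈ QQ N N₀ ω, ∃ q' ∈ QQ N N₀ ω', ‖q - q'‖ < ε

/-- B4. -/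
def InfStmt : Prop := ∀ (m : ℕ) (N : ℝ × F m → ℝ) (N₀ : F m → ℝ), Data m N N₀ →
  ∃ c ρ : ℝ, 0 < c ∧ c < 1 / 2 ∧ 0 < ρ ∧ ∀ ω : F m, ρ ≤ ‖ω‖ →
    (∃ q ∈ QQ N N₀ ω, (1 - c) * ‖ω‖ ^ 2 < inner ℝ ω (q ω)) ∧
    ∀ q ∈ QQ N N₀ ω, (1 - c) * ‖ω‖ ^ 2 < inner ℝ ω (q ω) ∨
      inner ℝ ω (q ω) < (1 - 2 * c) * ‖ω‖ ^ 2

/-- B5. -/
def SelStmt : Prop := ∀ (m : ℕ) (Q : F m → Set (F m →L[ℝ] F m)) (ρ δ : ℝ), 0 < δ →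
  (∀ ω : F m, ‖ω‖ ≤ ρ → ∀ q ∈ Q ω, ∀ q' ∈ Q ω, q ≠ q' → δ ≤ ‖q - q'‖) →
  (∀ ε : ℝ, 0 < ε → ∃ η : ℝ, 0 < η ∧ ∀ ω ω' : F m, ‖ω‖ ≤ ρ → ‖ω'‖ ≤ ρ → ‖ω - ω'‖ < η →
    ∀ q ∈ Q ω, ∃ q' ∈ Q ω', ‖q - q'‖ < ε) →
  ∀ ω₁ : F m, ‖ω₁‖ ≤ ρ → ∀ q₁ ∈ Q ω₁, ∃ q : F m → (F m →L[ℝ] F m),
    ContinuousOn q (Metric.closedBall 0 ρ) ∧ (∀ ω : F m, ‖ω‖ ≤ ρ → q ω ∈ Q ω) ∧ q ω₁ = q₁

/-- B6. -/
def SectStmt : Prop := ∀ (m : ℕ) (q : F m → (F m →L[ℝ] F m)) (ρ : ℝ), 0 ≤ ρ →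
  ContinuousOn q (Metric.closedBall 0 ρ) → (∀ ω : F m, ‖ω‖ ≤ ρ → (q ω).comp (q ω) = q ω) →
  (∃ x : F m, x ≠ 0 ∧ q 0 x = 0) →
  ∃ s : F m → F m, ContinuousOn s (Metric.closedBall 0 ρ) ∧
    ∀ ω : F m, ‖ω‖ ≤ ρ → s ω ≠ 0 ∧ q ω (s ω) = 0

/-- B7. -/
def BrouwerStmt : Prop := ∀ (m : ℕ) (w : F m → F m) (ρ : ℝ), 0 < ρ →
  ContinuousOn w (Metric.closedBall 0 ρ) → (∀ ω : F m, ‖ω‖ = ρ → inner ℝ ω (w ω) < 0) →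
  ∃ ω : F m, ‖ω‖ ≤ ρ ∧ w ω = 0

/-- B8. -/
def MainStmt : Prop := ∀ (m : ℕ) (N : ℝ × F m → ℝ) (N₀ : F m → ℝ), Data m N N₀ →
  ∀ x y : F m, ‖x‖ = ‖y‖ → N₀ x = N₀ y

/-! ### Reduction -/

/-- B9. -/
def InvStmt : Prop := ∀ (Y : Type) [NormedAddCommGroup Y] [NormedSpace ℝ Y]
  [FiniteDimensional ℝ Y], ∃ φ : Y ≃L[ℝ] F (finrank ℝ Y), ∀ g : Y ≃ₗᵢ[ℝ] Y, ∀ y,
    ‖φ (g y)‖ = ‖φ y‖

/-- B10. -/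
def JordanStmt : Prop := ∀ n : ℕ, 3 ≤ n → ∀ (E : Type) [NormedAddCommGroup E] [NormedSpace ℝ E],
  finrank ℝ E = n →
  (∀ V : Submodule ℝ E, finrank ℝ V = n - 1 → Nonempty (V ≃ₗᵢ[ℝ] F (n - 1))) →
  Nonempty (E ≃ₗᵢ[ℝ] F n)

/-- B11. -/
def CoordStmt : Prop := ∀ n : ℕ, 3 ≤ n → ∀ (E : Type) [NormedAddCommGroup E] [NormedSpace ℝ E],
  finrank ℝ E = n →
  (∀ V W : Submodule ℝ E, finrank ℝ V = n - 1 → finrank ℝ W = n - 1 → Nonempty (V ≃ₗᵢ[ℝ] W)) →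
  ∀ r : E ≃ₗᵢ[ℝ] E, (∃ x, r x ≠ x) →
  ∀ P : Submodule ℝ E, finrank ℝ P = n - 1 → (∀ x ∈ P, r x = x) →
  ∃ (N : ℝ × F (n - 1) → ℝ) (N₀ : F (n - 1) → ℝ) (φ : P ≃L[ℝ] F (n - 1)),
    Data (n - 1) N N₀ ∧ ∀ x, N₀ x = ‖φ.symm x‖

end Pool.Agent.Lib.MP_5c4da9_an
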