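import Pool.Agent.Lib.MP_5c4da9_an.UDefs

/-!
# U13: a point of differentiability of the gradient map
-/

set_option autoImplicit false

open Set Filter Topology Module

noncomputable section

namespace Pool.Agent.Lib.MP_5c4da9_an

theorem diffStmt : DiffStmt := by
  intro Z _ _ _ c J hdim hJ hplane
  have hprop : ProperSpace Z := FiniteDimensional.proper ℝ Z
  have hnt : Nontrivial Z := Module.nontrivial_of_finrank_pos (R := ℝ) (by omega)
  obtain ⟨K, hK⟩ := hJ.lip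
  -- a point of differentiability
  obtain ⟨x₀, hx₀, hd⟩ : ∃ x₀ : Z, x₀ ≠ 0 ∧ DifferentiableAt ℝ J x₀ := by
    borelize Z
    have h1 : ∀ᵐ x ∂(MeasureTheory.Measure.addHaar : MeasureTheory.Measure Z),
        DifferentiableAt ℝ J x := hK.ae_differentiableAt
    have h2 : ∀ᵐ x ∂(MeasureTheory.Measure.addHaar : MeasureTheory.Measure Z), x ≠ 0 := by
      rw [MeasureTheory.ae_iff]
      simp
    obtain ⟨x, hx1, hx2⟩ := (h1.and h2).exists
    exact ⟨x, hx2, hx1⟩
  set A₀ := fderiv ℝ J x₀ with hA₀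
  have hF : HasFDerivAt J A₀ x₀ := hd.hasFDerivAt
  have hlim : ∀ v : Z, Tendsto (fun t : ℝ => t⁻¹ • (J (x₀ + t • v) - J x₀)) (𝓝[≠] 0)
      (𝓝 (A₀ v)) := by
    intro v
    have h1 : HasDerivAt (fun t : ℝ => x₀ + t • v) v 0 := by
      have h2 : HasDerivAt (fun t : ℝ => t • v) ((1 : ℝ) • v) 0 :=
        (hasDerivAt_id (0 : ℝ)).smul_const v
      rw [one_smul] at h2
      exact h2.const_add x₀
    have h3 : HasDerivAt (fun t : ℝ => J (x₀ + t • v)) (A₀ v) 0 := by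
      have h4 : HasFDerivAt J A₀ (x₀ + (0 : ℝ) • v) := by
        rw [zero_smul, add_zero]
        exact hF
      exact h4.comp_hasDerivAt (0 : ℝ) h1
    have h5 := hasDerivAt_iff_tendsto_slope_zero.1 h3
    simpa using h5
  have hA0 : A₀ x₀ = J x₀ := by
    have h1 := hlim x₀
    have h2 : (fun t : ℝ => t⁻¹ • (J (x₀ + t • x₀) - J x₀)) =ᶠ[𝓝[≠] 0] fun _ => J x₀ := by
      filter_upwards [self_mem_nhdsWithin] with t ht
      have ht' : t ≠ 0 := ht
      have h3 : J (x₀ + t • x₀) = (1 + t) • J x₀ := by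
        rw [← hJ.smul, add_smul, one_smul]
      rw [h3, add_smul, one_smul, add_sub_cancel_left, smul_smul, inv_mul_cancel₀ ht', one_smul]
    exact tendsto_nhds_unique h1 (tendsto_const_nhds.congr' h2.symm)
  have hpos : ∀ v, c * ‖v‖ ^ 2 ≤ A₀ v v := by
    intro v
    have h1 : Tendsto (fun t : ℝ => (t⁻¹ • (J (x₀ + t • v) - J x₀)) v) (𝓝[≠] 0)
        (𝓝 (A₀ v v)) :=
      ((ContinuousLinearMap.apply ℝ ℝ v).continuous.tendsto (A₀ v)).comp (hlim v)
    refine ge_of_tendsto h1 ?_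
    filter_upwards [self_mem_nhdsWithin] with t ht
    have ht' : t ≠ 0 := ht
    have h2 := hJ.mono (x₀ + t • v) x₀
    rw [add_sub_cancel_left, norm_smul, mul_pow, map_smul, smul_eq_mul, Real.norm_eq_abs,
      sq_abs] at h2
    have h3 : (t⁻¹ • (J (x₀ + t • v) - J x₀)) v = t⁻¹ * ((J (x₀ + t • v) - J x₀) v) := rfl
    rw [h3]
    have ht2 : 0 < t ^ 2 := by positivity
    have h4 : t⁻¹ * ((J (x₀ + t • v) - J x₀) v) =
        (t * ((J (x₀ + t • v) - J x₀) v)) / t ^ 2 := by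
      field_simp
    rw [h4, le_div_iff₀ ht2]
    linarith
  have hinj : Function.Injective (A₀ : Z →ₗ[ℝ] (Z →L[ℝ] ℝ)) := by
    rw [injective_iff_map_eq_zero]
    intro v hv
    have h1 := hpos v
    have h2 : A₀ v = 0 := hv
    rw [h2] at h1
    have h3 : ‖v‖ ^ 2 ≤ 0 := by
      have h4 : c * ‖v‖ ^ 2 ≤ 0 := h1
      by_contra h5
      push Not at h5
      exact absurd h4 (not_le.2 (mul_pos hJ.hc h5))
    have h6 : ‖v‖ = 0 := by
      have := sq_nonneg ‖v‖
      have h7 : ‖v‖ ^ 2 = 0 := le_antisymm h3 this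
      exact pow_eq_zero_iff (two_ne_zero) |>.1 h7
    exact norm_eq_zero.1 h6
  have hfr : finrank ℝ Z = finrank ℝ (Z →L[ℝ] ℝ) := by
    rw [← LinearEquiv.finrank_eq (LinearMap.toContinuousLinearMap : (Z →ₗ[ℝ] ℝ) ≃ₗ[ℝ] Z →L[ℝ] ℝ)]
    exact (Subspace.dual_finrank_eq (K := ℝ) (V := Z)).symm
  set A : Z ≃L[ℝ] (Z →L[ℝ] ℝ) :=
    (LinearMap.linearEquivOfInjective (A₀ : Z →ₗ[ℝ] (Z →L[ℝ] ℝ)) hinj
      hfr).toContinuousLinearEquiv with hA
  have hAA : ∀ v, A v = A₀ v := fun v => rfl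
  refine ⟨x₀, hx₀, A, by rw [hAA, hA0], fun v => ?_⟩
  have hmem : A₀ v ∈ Submodule.span ℝ {J x₀, J v} := by
    have hcl : IsClosed (Submodule.span ℝ {J x₀, J v} : Set (Z →L[ℝ] ℝ)) :=
      Submodule.closed_of_finiteDimensional _
    refine hcl.mem_of_tendsto (hlim v) (Eventually.of_forall fun t => ?_)
    have h1 := hplane x₀ (t • v)
    rw [hJ.smul] at h1
    have h2 : Submodule.span ℝ {J x₀, t • J v} ≤ Submodule.span ℝ {J x₀, J v} := by
      rw [Submodule.span_le]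
      rintro y (rfl | rfl)
      · exact Submodule.subset_span (by simp)
      · exact Submodule.smul_mem _ _ (Submodule.subset_span (by simp))
    exact Submodule.smul_mem _ _ (Submodule.sub_mem _ (h2 h1) (Submodule.subset_span (by simp)))
  obtain ⟨α, β, hαβ⟩ := Submodule.mem_span_pair.1 hmem
  rw [← hAA v, ← hA0, ← hAA x₀] at hαβ
  rw [Submodule.mem_span_pair]
  by_cases hβ : β = 0
  · rw [hβ, zero_smul, add_zero, ← map_smul] at hαβ
    have h1 : v = α • x₀ := (A.injective hαβ).symm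
    refine ⟨α, 0, ?_⟩
    rw [zero_smul, add_zero, h1, hJ.smul, ← hA0, hAA]
  · refine ⟨-(β⁻¹ * α), β⁻¹, ?_⟩
    rw [← hαβ, smul_add, smul_smul, smul_smul, inv_mul_cancel₀ hβ, one_smul, ← add_assoc,
      ← add_smul, neg_add_cancel, zero_smul, zero_add]

end Pool.Agent.Lib.MP_5c4da9_an
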