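import Pool.Agent.Lib.MP_5c4da9_an.UDefs

set_option autoImplicit false

open Set Filter Topology Module

noncomputable section

namespace Pool.Agent.Lib.MP_5c4da9_an

namespace ExactAux

variable {Z : Type} [NormedAddCommGroup Z] [NormedSpace ℝ Z]

/-- the ellipse through `v` and `w` -/
def gam (v w : Z) (t : ℝ) : Z := Real.cos t • v + Real.sin t • w

/-- its velocity -/
def gam' (v w : Z) (t : ℝ) : Z := (-Real.sin t) • v + Real.cos t • w

theorem hasDeriv_gam (v w : Z) (t : ℝ) : HasDerivAt (gam v w) (gam' v w t) t :=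
  ((Real.hasDerivAt_cos t).smul_const v).add ((Real.hasDerivAt_sin t).smul_const w)

theorem key {J : Z → (Z →L[ℝ] ℝ)} {B : Z →ₗ[ℝ] Z →ₗ[ℝ] ℝ} {a : Z → ℝ}
    (h1 : ∀ x, HasFDerivAt (fun z : Z => ‖z‖ ^ 2) ((2 : ℝ) • J x) x)
    (h2 : ∀ x, J x x = ‖x‖ ^ 2) (h3 : ∀ x h, J x h = a x * B x h) {v w : Z}
    (hvw : LinearIndependent ℝ ![v, w]) : ‖v‖ ^ 2 / B v v = ‖w‖ ^ 2 / B w w := by
  have hne : ∀ t, gam v w t ≠ 0 := by
    intro t ht
    have h4 := (LinearIndependent.pair_iff.1 hvw) _ _ ht
    have h5 := Real.sin_sq_add_cos_sq t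
    rw [h4.1, h4.2] at h5
    norm_num at h5
  have hsq : ∀ x : Z, ‖x‖ ^ 2 = a x * B x x := fun x => by rw [← h2, h3]
  have hq0 : ∀ t, B (gam v w t) (gam v w t) ≠ 0 := by
    intro t h0
    have h4 := hsq (gam v w t)
    rw [h0, mul_zero] at h4
    exact hne t (norm_eq_zero.1 (pow_eq_zero_iff (two_ne_zero)|>.1 h4))
  have ha0 : ∀ t, a (gam v w t) ≠ 0 := by
    intro t h0
    have h4 := hsq (gam v w t)
    rw [h0, zero_mul] at h4
    exact hne t (norm_eq_zero.1 (pow_eq_zero_iff (two_ne_zero)|>.1 h4))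
  have hu : ∀ t, HasDerivAt (fun s => ‖gam v w s‖ ^ 2)
      (2 * (a (gam v w t) * B (gam v w t) (gam' v w t))) t := by
    intro t
    have h4 := (h1 (gam v w t)).comp_hasDerivAt t (hasDeriv_gam v w t)
    refine HasDerivAt.congr_deriv h4 ?_
    rw [smul_apply, h3, smul_eq_mul]
  have hBexp : ∀ t, B (gam v w t) (gam v w t) =
      Real.cos t ^ 2 * B v v + Real.cos t * Real.sin t * (B v w + B w v)
        + Real.sin t ^ 2 * B w w := by
    intro t
    unfold gam
    simp only [map_add, map_smul, LinearMap.add_apply, LinearMap.smul_apply, smul_eq_mul]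
    ring
  have hBexp' : ∀ t, B (gam v w t) (gam' v w t) =
      -(Real.cos t * Real.sin t) * B v v + Real.cos t ^ 2 * B v w - Real.sin t ^ 2 * B w v
        + Real.sin t * Real.cos t * B w w := by
    intro t
    unfold gam gam'
    simp only [map_add, map_smul, LinearMap.add_apply, LinearMap.smul_apply, smul_eq_mul]
    ring
  have hq : ∀ t, HasDerivAt (fun s => B (gam v w s) (gam v w s))
      (2 * B (gam v w t) (gam' v w t) - (B v w - B w v)) t := by
    intro t
    have hfun : (fun s => B (gam v w s) (gam v w s)) = fun s =>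
        Real.cos s * Real.cos s * B v v + Real.cos s * Real.sin s * (B v w + B w v)
        + Real.sin s * Real.sin s * B w w := by
      funext s
      rw [hBexp]
      ring
    rw [hfun]
    have hc := Real.hasDerivAt_cos t
    have hs := Real.hasDerivAt_sin t
    have h4 := (((hc.mul hc).mul_const (B v v)).add
      ((hc.mul hs).mul_const (B v w + B w v))).add ((hs.mul hs).mul_const (B w w))
    refine HasDerivAt.congr_deriv h4 ?_
    rw [hBexp']
    have h5 := Real.sin_sq_add_cos_sq t
    linear_combination (-(B v w - B w v)) * h5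
  have hg : ∀ t, HasDerivAt (fun s => ‖gam v w s‖ ^ 2 / B (gam v w s) (gam v w s))
      (a (gam v w t) * (B v w - B w v) / B (gam v w t) (gam v w t)) t := by
    intro t
    have h4 := (hu t).div (hq t) (hq0 t)
    refine HasDerivAt.congr_deriv h4 ?_
    rw [hsq (gam v w t)]
    have h5 := hq0 t
    field_simp
    ring
  have e0 : gam v w 0 = v := by
    unfold gam
    rw [Real.cos_zero, Real.sin_zero, one_smul, zero_smul, add_zero]
  have e1 : gam v w (2 * Real.pi) = v := by
    unfold gam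
    rw [Real.cos_two_pi, Real.sin_two_pi, one_smul, zero_smul, add_zero]
  have e2 : gam v w (Real.pi / 2) = w := by
    unfold gam
    rw [Real.cos_pi_div_two, Real.sin_pi_div_two, one_smul, zero_smul, zero_add]
  -- the form is symmetric on the plane
  have hD : B v w - B w v = 0 := by
    obtain ⟨t, -, ht⟩ := exists_hasDerivAt_eq_zero Real.two_pi_pos
      (fun t _ => (hg t).continuousAt.continuousWithinAt)
      (by rw [e0, e1]) (fun t _ => hg t)
    rcases div_eq_zero_iff.1 ht with h4 | h4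
    · rcases mul_eq_zero.1 h4 with h5 | h5
      · exact absurd h5 (ha0 t)
      · exact h5
    · exact absurd h4 (hq0 t)
  have hg0 : ∀ t, HasDerivAt (fun s => ‖gam v w s‖ ^ 2 / B (gam v w s) (gam v w s)) 0 t := by
    intro t
    have h4 := hg t
    rw [hD, mul_zero, zero_div] at h4
    exact h4
  have hconst := is_const_of_deriv_eq_zero (fun t => (hg0 t).differentiableAt)
    (fun t => (hg0 t).deriv) 0 (Real.pi / 2)
  simp only [e0, e2] at hconst
  exact hconst

end ExactAux

open ExactAux in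
theorem exactStmt : ExactStmt := by
  intro Z _ _ _ J B a _ h1 h2 h3 x y
  have hsq : ∀ x : Z, ‖x‖ ^ 2 = a x * B x x := fun x => by rw [← h2, h3]
  have hq0 : ∀ x : Z, x ≠ 0 → B x x ≠ 0 := by
    intro x hx h0
    have h4 := hsq x
    rw [h0, mul_zero] at h4
    exact hx (norm_eq_zero.1 (pow_eq_zero_iff (two_ne_zero)|>.1 h4))
  obtain ⟨c, hc⟩ : ∃ c : ℝ, ∀ v : Z, ‖v‖ ^ 2 = c * B v v := by
    by_cases hZ : ∃ v₀ : Z, v₀ ≠ 0
    · obtain ⟨v₀, hv₀⟩ := hZ
      refine ⟨‖v₀‖ ^ 2 / B v₀ v₀, fun v => ?_⟩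
      by_cases hli : LinearIndependent ℝ ![v₀, v]
      · rw [key h1 h2 h3 hli]
        have hv : v ≠ 0 := hli.ne_zero 1
        rw [div_mul_cancel₀ _ (hq0 v hv)]
      · rw [LinearIndependent.pair_iff' hv₀] at hli
        push Not at hli
        obtain ⟨t, rfl⟩ := hli
        have h5 := hq0 v₀ hv₀
        rw [norm_smul, mul_pow, Real.norm_eq_abs, sq_abs]
        simp only [map_smul, LinearMap.smul_apply, smul_eq_mul]
        field_simp
    · push Not at hZ
      refine ⟨0, fun v => ?_⟩
      rw [hZ v]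
      simp
  rw [hc, hc, hc, hc]
  simp only [map_add, map_sub, LinearMap.add_apply, LinearMap.sub_apply]
  ring

end Pool.Agent.Lib.MP_5c4da9_an
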