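import Pool.Agent.Lib.MP_5c4da9_an.UDefs

set_option autoImplicit false

open Set Filter Topology Module

noncomputable section

namespace Pool.Agent.Lib.MP_5c4da9_an

section General

variable {A : Type*} [NormedRing A] [NormedAlgebra ℝ A] [CompleteSpace A]

theorem ExpL_lim (X Y : A) (s : ℕ → ℝ) (hs0 : ∀ i, 0 < s i) (hst : Tendsto s atTop (𝓝 0)) :
    Tendsto (fun i => (s i)⁻¹ • (NormedSpace.exp (s i • X) * NormedSpace.exp (s i • Y) - 1))
      atTop (𝓝 (X + Y)) := by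
  have hd : HasDerivAt (fun t : ℝ => NormedSpace.exp (t • X) * NormedSpace.exp (t • Y))
      (X + Y) 0 := by
    have hdX := hasDerivAt_exp_smul_const X (0 : ℝ)
    have hdY := hasDerivAt_exp_smul_const Y (0 : ℝ)
    have := hdX.mul hdY
    simp only [zero_smul, NormedSpace.exp_zero, one_mul, mul_one] at this
    exact this
  rw [hasDerivAt_iff_tendsto_slope_zero] at hd
  have hst' : Tendsto s atTop (𝓝[≠] 0) :=
    tendsto_nhdsWithin_iff.2 ⟨hst, Eventually.of_forall fun i => (hs0 i).ne'⟩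
  have := hd.comp hst'
  simpa [Function.comp_def] using this

theorem ExpL_local [FiniteDimensional ℝ A] (g C : Submodule ℝ A) (hC : IsCompl g C) (ε η : ℝ)
    (hε : 0 < ε) (hη : 0 < η) : ∃ δ : ℝ, 0 < δ ∧ ∀ a : A, ‖a - 1‖ < δ → ∃ X ∈ g, ∃ Y ∈ C,
      ‖X‖ < ε ∧ ‖Y‖ < η ∧ NormedSpace.exp X * (1 + Y) = a := by
  set Ψ : g × C → A := fun p => NormedSpace.exp (p.1 : A) * (1 + (p.2 : A)) with hΨ
  set e : (g × C) ≃L[ℝ] A :=
    LinearEquiv.toContinuousLinearEquiv (Submodule.prodEquivOfIsCompl g C hC) with he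
  have hder : HasStrictFDerivAt Ψ (e : (g × C) →L[ℝ] A) 0 := by
    have hA : HasStrictFDerivAt (fun p : g × C => NormedSpace.exp (p.1 : A))
        ((1 : A →L[ℝ] A).comp (g.subtypeL.comp (ContinuousLinearMap.fst ℝ g C))) 0 := by
      have h0 : HasStrictFDerivAt (NormedSpace.exp : A → A) (1 : A →L[ℝ] A)
          ((g.subtypeL.comp (ContinuousLinearMap.fst ℝ g C)) 0) := by
        rw [map_zero]
        exact hasStrictFDerivAt_exp_zero
      exact h0.comp 0 ((g.subtypeL.comp (ContinuousLinearMap.fst ℝ g C)).hasStrictFDerivAt)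
    have hB : HasStrictFDerivAt (fun p : g × C => (1 : A) + (p.2 : A))
        (C.subtypeL.comp (ContinuousLinearMap.snd ℝ g C)) 0 :=
      (C.subtypeL.comp (ContinuousLinearMap.snd ℝ g C)).hasStrictFDerivAt.const_add 1
    have := hA.mul' hB
    refine this.congr_fderiv ?_
    refine ContinuousLinearMap.ext fun p => ?_
    have hep : e p = (p.1 : A) + (p.2 : A) := by
      simp [he]
    simp [hep, add_comm]
  have hmap := hder.map_nhds_eq_of_equiv
  have h01 : Ψ 0 = 1 := by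
    simp [hΨ]
  rw [h01] at hmap
  have hU : {p : g × C | ‖p.1‖ < ε ∧ ‖p.2‖ < η} ∈ 𝓝 (0 : g × C) := by
    have hc1 : Continuous fun p : g × C => ‖p.1‖ := by fun_prop
    have hc2 : Continuous fun p : g × C => ‖p.2‖ := by fun_prop
    exact ((isOpen_lt hc1 continuous_const).inter (isOpen_lt hc2 continuous_const)).mem_nhds
      (by simp [hε, hη])
  have himg : Ψ '' {p : g × C | ‖p.1‖ < ε ∧ ‖p.2‖ < η} ∈ 𝓝 (1 : A) := by
    rw [← hmap]
    exact image_mem_map hU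
  obtain ⟨δ, hδ, hball⟩ := Metric.mem_nhds_iff.1 himg
  refine ⟨δ, hδ, fun a ha => ?_⟩
  obtain ⟨p, ⟨hp1, hp2⟩, hpa⟩ := hball (show a ∈ Metric.ball 1 δ by
    rwa [mem_ball_iff_norm])
  exact ⟨p.1, p.1.2, p.2, p.2.2, hp1, hp2, hpa⟩

theorem ExpL_inv (X : A) : NormedSpace.exp ((-1 : ℝ) • X) * NormedSpace.exp X = 1 := by
  rw [neg_one_smul]
  let _ : NormedAlgebra ℚ A := NormedAlgebra.restrictScalars ℚ ℝ A
  have := NormedSpace.exp_add_of_commute (x := -X) (y := X) (Commute.neg_left (Commute.refl X))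
  rw [← this, neg_add_cancel, NormedSpace.exp_zero]

end General

variable {m : ℕ}

/-- The linear space of the generators of the one-parameter groups in `G`. -/
def ExpLg (h1 : PowStmt) (G : Set (F m →L[ℝ] F m)) (hG : IsOrthGroup G) :
    Submodule ℝ (F m →L[ℝ] F m) where
  carrier := {Z | ∀ t : ℝ, NormedSpace.exp (t • Z) ∈ G}
  zero_mem' := by
    intro t
    rw [smul_zero, NormedSpace.exp_zero]
    exact hG.one
  smul_mem' := by
    intro c Z hZ t
    rw [smul_smul]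
    exact hZ _
  add_mem' := by
    intro X Y hX hY
    set s : ℕ → ℝ := fun i => 1 / ((i : ℝ) + 1) with hs
    have hs0 : ∀ i, 0 < s i := fun i => by positivity
    have hst : Tendsto s atTop (𝓝 0) := tendsto_one_div_add_atTop_nhds_zero_nat
    exact h1 m G hG (fun i => NormedSpace.exp (s i • X) * NormedSpace.exp (s i • Y)) s (X + Y)
      (fun i => hG.mul _ (hX _) _ (hY _)) hs0 hst (ExpL_lim X Y s hs0 hst)

theorem ExpL_mem (h1 : PowStmt) (G : Set (F m →L[ℝ] F m)) (hG : IsOrthGroup G)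
    (Z : F m →L[ℝ] F m) : Z ∈ ExpLg h1 G hG ↔ ∀ t : ℝ, NormedSpace.exp (t • Z) ∈ G := Iff.rfl

theorem ExpL_isolated (h1 : PowStmt) (G : Set (F m →L[ℝ] F m)) (hG : IsOrthGroup G)
    (C : Submodule ℝ (F m →L[ℝ] F m)) (hC : IsCompl (ExpLg h1 G hG) C) :
    ∃ η : ℝ, 0 < η ∧ ∀ Y ∈ C, ‖Y‖ < η → 1 + Y ∈ G → Y = 0 := by
  by_contra hcon
  push Not at hcon
  have hseq : ∀ i : ℕ, ∃ Y ∈ C, ‖Y‖ < 1 / ((i : ℝ) + 1) ∧ 1 + Y ∈ G ∧ Y ≠ 0 :=
    fun i => hcon _ (by positivity)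
  choose Y hYC hYn hYG hY0 using hseq
  have hpos : ∀ i, 0 < ‖Y i‖ := fun i => norm_pos_iff.2 (hY0 i)
  have hlim : Tendsto (fun i => ‖Y i‖) atTop (𝓝 0) :=
    squeeze_zero (fun i => norm_nonneg _) (fun i => (hYn i).le)
      tendsto_one_div_add_atTop_nhds_zero_nat
  have _ : FiniteDimensional ℝ (F m →L[ℝ] F m) := inferInstance
  have _ : ProperSpace (F m →L[ℝ] F m) := FiniteDimensional.proper_real _
  have hcpt : IsCompact (Metric.sphere (0 : F m →L[ℝ] F m) 1) := isCompact_sphere _ _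
  have hmem : ∀ i, ‖Y i‖⁻¹ • Y i ∈ Metric.sphere (0 : F m →L[ℝ] F m) 1 := fun i => by
    rw [mem_sphere_zero_iff_norm, norm_smul, norm_inv, norm_norm,
      inv_mul_cancel₀ (hpos i).ne']
  obtain ⟨Z, hZ, φ, hφ, hφt⟩ := hcpt.tendsto_subseq hmem
  have hZC : Z ∈ C := by
    have hcl : IsClosed (C : Set (F m →L[ℝ] F m)) := C.closed_of_finiteDimensional
    exact hcl.mem_of_tendsto hφt (Eventually.of_forall fun i => C.smul_mem _ (hYC _))
  have hZg : Z ∈ ExpLg h1 G hG := by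
    rw [ExpL_mem]
    refine h1 m G hG (fun i => 1 + Y (φ i)) (fun i => ‖Y (φ i)‖) Z (fun i => hYG _)
      (fun i => hpos _) (hlim.comp hφ.tendsto_atTop) ?_
    simpa [Function.comp_def] using hφt
  have hZ0 : Z = 0 := by
    have := hC.disjoint.le_bot (show Z ∈ ExpLg h1 G hG ⊓ C from ⟨hZg, hZC⟩)
    simpa using this
  rw [hZ0, mem_sphere_zero_iff_norm, norm_zero] at hZ
  exact zero_ne_one hZ

theorem expStmt (h1 : PowStmt) : ExpStmt := by
  intro m G hG ε hε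
  obtain ⟨C, hC⟩ := Submodule.exists_isCompl (ExpLg h1 G hG)
  obtain ⟨η, hη, hiso⟩ := ExpL_isolated h1 G hG C hC
  obtain ⟨δ, hδ, hloc⟩ := ExpL_local (ExpLg h1 G hG) C hC ε η hε hη
  refine ⟨δ, hδ, fun h hh hhδ => ?_⟩
  obtain ⟨X, hX, Y, hY, hXε, hYη, hXY⟩ := hloc h hhδ
  have hYG : 1 + Y ∈ G := by
    have h2 := hG.mul _ ((ExpL_mem h1 G hG X).1 hX (-1)) _ hh
    have h4 : NormedSpace.exp ((-1 : ℝ) • X) * NormedSpace.exp X = 1 := ExpL_inv X
    rwa [← hXY, ← mul_assoc, h4, one_mul] at h2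
  have hY0 : Y = 0 := hiso Y hY hYη hYG
  refine ⟨X, (ExpL_mem h1 G hG X).1 hX, hXε, ?_⟩
  rw [← hXY, hY0, add_zero, mul_one]

end Pool.Agent.Lib.MP_5c4da9_an
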