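import Pool.Agent.Lib.MP_5c4da9_an.Defs
import Pool.Agent.Lib.BrouwerThm.Basic

/-!
# MP_5c4da9_an, B7: a continuous field on a closed ball pointing inwards on the sphere has a zero
-/

set_option autoImplicit false

noncomputable section

namespace Pool.Agent.Lib.MP_5c4da9_an

theorem brouwerStmt : BrouwerStmt := by
  intro m w ρ hρ hw hin
  -- the radial projection
  let r : F m → F m := fun x => (ρ / max ρ ‖x‖) • x
  have hmax : ∀ x : F m, 0 < max ρ ‖x‖ := fun x => hρ.trans_le (le_max_left _ _)
  have hr : Continuous r := by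
    have h1 : Continuous fun x : F m => ρ / max ρ ‖x‖ :=
      continuous_const.div (continuous_const.max continuous_norm) fun x => (hmax x).ne'
    exact h1.smul continuous_id
  have hrn : ∀ x, ‖r x‖ ≤ ρ := by
    intro x
    simp only [r, norm_smul, Real.norm_eq_abs, abs_of_pos (div_pos hρ (hmax x))]
    rw [div_mul_eq_mul_div, div_le_iff₀ (hmax x)]
    exact mul_le_mul_of_nonneg_left (le_max_right _ _) hρ.le
  have hrs : ∀ x : F m, ‖x‖ ≤ ρ → r x = x := by
    intro x hx
    simp only [r, max_eq_left hx, div_self hρ.ne', one_smul]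
  -- the cut-off
  let t : F m → ℝ := fun x => min 1 (max 0 ((‖x‖ - ρ) / ρ))
  have ht : Continuous t := by
    refine continuous_const.min (continuous_const.max ?_)
    exact (continuous_norm.sub continuous_const).div_const ρ
  have ht0 : ∀ x, 0 ≤ t x := fun x => le_min zero_le_one (le_max_left _ _)
  have ht1 : ∀ x, t x ≤ 1 := fun x => min_le_left _ _
  have hwr : Continuous fun x => w (r x) := by
    refine hw.comp_continuous hr fun x => ?_
    rw [mem_closedBall_zero_iff]
    exact hrn x
  let G : F m → F m := fun x => (1 - t x) • (-(w (r x))) + t x • x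
  have hG : Continuous G :=
    ((continuous_const.sub ht).smul hwr.neg).add (ht.smul continuous_id)
  have hGid : ∀ x : F m, 2 * ρ ≤ ‖x‖ → G x = x := by
    intro x hx
    have h1 : (1 : ℝ) ≤ (‖x‖ - ρ) / ρ := by
      rw [le_div_iff₀ hρ]
      linarith
    have h2 : t x = 1 := by
      simp only [t]
      exact min_eq_left (h1.trans (le_max_right _ _))
    simp only [G, h2, sub_self, zero_smul, one_smul, zero_add]
  obtain ⟨x, hx⟩ := BrouwerThm.exists_zero_of_eq_id G hG (2 * ρ) hGid
  rcases le_or_gt ‖x‖ ρ with hle | hgt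
  · refine ⟨x, hle, ?_⟩
    have h0 : t x = 0 := by
      simp only [t]
      have : (‖x‖ - ρ) / ρ ≤ 0 := div_nonpos_of_nonpos_of_nonneg (by linarith) hρ.le
      rw [max_eq_left this]
      exact min_eq_right zero_le_one
    simp only [G, h0, sub_zero, one_smul, zero_smul, add_zero, hrs x hle, neg_eq_zero] at hx
    exact hx
  · exfalso
    have hxpos : 0 < ‖x‖ := hρ.trans hgt
    have hmx : max ρ ‖x‖ = ‖x‖ := max_eq_right hgt.le
    have hrx : r x = (ρ / ‖x‖) • x := by simp only [r, hmx]
    have hrnx : ‖r x‖ = ρ := by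
      rw [hrx, norm_smul, Real.norm_eq_abs, abs_of_pos (div_pos hρ hxpos)]
      field_simp
    have hneg := hin (r x) hrnx
    have hinner : inner ℝ x (w (r x)) < 0 := by
      have h1 : inner ℝ (r x) (w (r x)) = (ρ / ‖x‖) * inner ℝ x (w (r x)) := by
        conv_lhs => rw [show inner ℝ (r x) (w (r x)) = inner ℝ ((ρ / ‖x‖) • x) (w (r x)) by
          rw [← hrx]]
        rw [real_inner_smul_left]
      rw [h1] at hneg
      by_contra hcon
      push Not at hcon
      have := mul_nonneg (div_pos hρ hxpos).le hcon
      linarith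
    have htpos : 0 < t x := by
      simp only [t]
      refine lt_min one_pos (lt_max_of_lt_right ?_)
      exact div_pos (by linarith) hρ
    have h0 : inner ℝ x (G x) = 0 := by rw [hx, inner_zero_right]
    have h1 : inner ℝ x (G x) = (1 - t x) * (-(inner ℝ x (w (r x)))) + t x * (‖x‖ * ‖x‖) := by
      simp only [G, inner_add_right, real_inner_smul_right, inner_neg_right]
      rw [real_inner_self_eq_norm_mul_norm]
    have h2 : 0 ≤ (1 - t x) * (-(inner ℝ x (w (r x)))) :=
      mul_nonneg (by linarith [ht1 x]) (by linarith)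
    have h3 : 0 < t x * (‖x‖ * ‖x‖) := by positivity
    linarith

end Pool.Agent.Lib.MP_5c4da9_an
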