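import Pool.Agent.Lib.MP_5c4da9_an.Base

set_option autoImplicit false

open Set Filter Topology Module

noncomputable section

namespace Pool.Agent.Lib.MP_5c4da9_an

theorem final (h8 : MainStmt) (h10 : JordanStmt) (h11 : CoordStmt) (n : ℕ) (hn : 3 ≤ n)
    (E : Type) [NormedAddCommGroup E] [NormedSpace ℝ E] (hE : finrank ℝ E = n)
    (hiso : ∀ V W : Submodule ℝ E, finrank ℝ V = n - 1 → finrank ℝ W = n - 1 →
      Nonempty (V ≃ₗᵢ[ℝ] W))
    (r : E ≃ₗᵢ[ℝ] E) (hr : ∃ x, r x ≠ x) (P : Submodule ℝ E) (hP : finrank ℝ P = n - 1)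
    (hrP : ∀ x ∈ P, r x = x) : Nonempty (E ≃ₗᵢ[ℝ] F n) := by
  obtain ⟨N, N₀, φ, hD, hN⟩ := h11 n hn E hE hiso r hr P hP hrP
  have hm := h8 (n - 1) N N₀ hD
  apply h10 n hn E hE
  intro V hV
  obtain ⟨T⟩ := hiso V P hV hP
  refine ⟨T.trans ?_⟩
  -- a unit vector
  have h2 : 2 ≤ n - 1 := hD.hm
  let u : F (n - 1) := EuclideanSpace.single ⟨0, by omega⟩ (1 : ℝ)
  have hu : ‖u‖ = 1 := by simp [u]
  have hu0 : u ≠ 0 := by
    intro h
    rw [h] at hu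
    simp at hu
  set c : ℝ := N₀ u with hc
  have hc0 : 0 < c := hD.norm₀.pos u hu0
  have hN₀ : ∀ x, N₀ x = c * ‖x‖ := by
    intro x
    have h1 : N₀ x = N₀ (‖x‖ • u) := by
      apply hm
      rw [norm_smul, norm_norm, hu, mul_one]
    rw [h1, hD.norm₀.smul, abs_of_nonneg (norm_nonneg _), mul_comm]
  let L : P ≃ₗ[ℝ] F (n - 1) :=
    φ.toLinearEquiv.trans (LinearEquiv.smulOfNeZero ℝ (F (n - 1)) c hc0.ne')
  refine ⟨L, fun x => ?_⟩
  have h3 : L x = c • φ x := rfl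
  rw [h3, norm_smul, Real.norm_eq_abs, abs_of_pos hc0, ← hN₀, hN, φ.symm_apply_apply]

end Pool.Agent.Lib.MP_5c4da9_an
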