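import Pool.Agent.Lib.MP_5c4da9_an.UDefs

/-!
# MP_5c4da9_an, U11: the gradient of the square of the norm
-/

set_option autoImplicit false

open Set Filter Topology Module

noncomputable section

namespace Pool.Agent.Lib.MP_5c4da9_an

namespace Gradaux

variable {Z : Type} [NormedAddCommGroup Z] [NormedSpace ℝ Z]

theorem exists_J (x : Z) : ∃ g : Z →L[ℝ] ℝ, ‖g‖ ≤ ‖x‖ ∧ g x = ‖x‖ ^ 2 := by
  obtain ⟨g, hg, hgx⟩ := exists_dual_vector'' ℝ x
  refine ⟨‖x‖ • g, ?_, ?_⟩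
  · rw [norm_smul, norm_norm]
    exact mul_le_of_le_one_right (norm_nonneg x) hg
  · have h1 : g x = ‖x‖ := by simpa using hgx
    change ‖x‖ * g x = ‖x‖ ^ 2
    rw [h1]
    ring

/-- The subgradient. -/
def J (x : Z) : Z →L[ℝ] ℝ := (exists_J x).choose

theorem norm_J (x : Z) : ‖J x‖ ≤ ‖x‖ := (exists_J x).choose_spec.1

theorem J_self (x : Z) : J x x = ‖x‖ ^ 2 := (exists_J x).choose_spec.2

theorem sub (x h : Z) : ‖x‖ ^ 2 + 2 * J x h ≤ ‖x + h‖ ^ 2 := by
  have h1 : J x (x + h) ≤ ‖x‖ * ‖x + h‖ := by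
    refine (le_abs_self _).trans (((J x).le_opNorm (x + h)).trans ?_)
    exact mul_le_mul_of_nonneg_right (norm_J x) (norm_nonneg _)
  rw [map_add, J_self] at h1
  nlinarith [sq_nonneg (‖x‖ - ‖x + h‖)]

theorem up {c C : ℝ} (hU : Unif Z c C) (x h : Z) :
    ‖x + h‖ ^ 2 ≤ ‖x‖ ^ 2 + 2 * J x h + 2 * C * ‖h‖ ^ 2 := by
  have h1 := (hU x h).2
  have h2 := sub x (-h)
  rw [map_neg, ← sub_eq_add_neg] at h2
  linarith

/-- Uniqueness of the subgradient. -/
theorem uniq {c C : ℝ} (hU : Unif Z c C) (x : Z) (L : Z →L[ℝ] ℝ)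
    (hL : ∀ h, ‖x‖ ^ 2 + 2 * L h ≤ ‖x + h‖ ^ 2) : L = J x := by
  have key : ∀ h, L h - J x h ≤ 0 := by
    intro h
    have h1 : ∀ s : ℝ, 0 < s → L h - J x h ≤ s * (C * ‖h‖ ^ 2) := by
      intro s hs
      have h2 := hL (s • h)
      have h3 := up hU x (s • h)
      rw [map_smul, smul_eq_mul] at h2 h3
      rw [norm_smul, Real.norm_of_nonneg hs.le] at h3
      have h4 : s * (L h - J x h) ≤ s * (s * (C * ‖h‖ ^ 2)) := by nlinarith
      exact le_of_mul_le_mul_left h4 hs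
    have h5 : Tendsto (fun s : ℝ => s * (C * ‖h‖ ^ 2)) (𝓝[>] 0) (𝓝 0) := by
      have h6 : Tendsto (fun s : ℝ => s * (C * ‖h‖ ^ 2)) (𝓝 0) (𝓝 (0 * (C * ‖h‖ ^ 2))) :=
        (continuous_id.mul continuous_const).tendsto 0
      rw [zero_mul] at h6
      exact h6.mono_left nhdsWithin_le_nhds
    refine ge_of_tendsto h5 ?_
    filter_upwards [self_mem_nhdsWithin] with s hs using h1 s hs
  ext h
  have h1 := key h
  have h2 := key (-h)
  rw [map_neg, map_neg] at h2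
  linarith

theorem hasFDerivAt {c C : ℝ} (hU : Unif Z c C) (x : Z) :
    HasFDerivAt (fun z : Z => ‖z‖ ^ 2) ((2 : ℝ) • J x) x := by
  rw [hasFDerivAt_iff_isLittleO_nhds_zero]
  have h1 : (fun h : Z => ‖x + h‖ ^ 2 - ‖x‖ ^ 2 - ((2 : ℝ) • J x) h) =O[𝓝 0]
      fun h : Z => ‖h‖ ^ 2 := by
    refine Asymptotics.IsBigO.of_bound (2 * C) (Eventually.of_forall fun h => ?_)
    have h2 := sub x h
    have h3 := up hU x h
    have h4 : ((2 : ℝ) • J x) h = 2 * J x h := rfl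
    rw [h4, Real.norm_eq_abs, Real.norm_of_nonneg (sq_nonneg ‖h‖), abs_le]
    constructor
    · have h5 : 0 ≤ ‖x + h‖ ^ 2 - ‖x‖ ^ 2 - 2 * J x h := by linarith
      linarith
    · linarith
  exact h1.trans_isLittleO (Asymptotics.isLittleO_norm_pow_id one_lt_two)

theorem smul {c C : ℝ} (hU : Unif Z c C) (t : ℝ) (x : Z) : J (t • x) = t • J x := by
  symm
  apply uniq hU
  intro h
  change ‖t • x‖ ^ 2 + 2 * (t * J x h) ≤ ‖t • x + h‖ ^ 2
  by_cases ht : t = 0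
  · subst ht
    rw [zero_smul, norm_zero, zero_mul]
    have := sq_nonneg ‖(0 : Z) + h‖
    linarith
  · have h1 := sub x (t⁻¹ • h)
    rw [map_smul, smul_eq_mul] at h1
    have h2 : t • x + h = t • (x + t⁻¹ • h) := by
      rw [smul_add, smul_smul, mul_inv_cancel₀ ht, one_smul]
    rw [h2, norm_smul, norm_smul, mul_pow, mul_pow, Real.norm_eq_abs, sq_abs]
    have h3 : t ^ 2 * (‖x‖ ^ 2 + 2 * (t⁻¹ * J x h)) = t ^ 2 * ‖x‖ ^ 2 + 2 * (t * J x h) := by
      field_simp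
    rw [← h3]
    exact mul_le_mul_of_nonneg_left h1 (sq_nonneg t)

theorem lip {c C : ℝ} (hC : 0 < C) (hU : Unif Z c C) (x y : Z) :
    ‖J y - J x‖ ≤ 4 * C * ‖y - x‖ := by
  have h1 : ∀ k : Z, (J y - J x) k ≤ C * (‖y - x‖ + ‖k‖) ^ 2 := by
    intro k
    have h2 := sub y k
    have h3 := up hU x (y - x + k)
    have h4 := sub x (y - x)
    have h5 : x + (y - x + k) = y + k := by abel
    have h6 : x + (y - x) = y := by abel
    rw [h5, map_add] at h3
    rw [h6] at h4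
    have h7 : ‖y - x + k‖ ^ 2 ≤ (‖y - x‖ + ‖k‖) ^ 2 := by
      apply pow_le_pow_left₀ (norm_nonneg _) (norm_add_le _ _)
    have h8 : C * ‖y - x + k‖ ^ 2 ≤ C * (‖y - x‖ + ‖k‖) ^ 2 := mul_le_mul_of_nonneg_left h7 hC.le
    change J y k - J x k ≤ _
    linarith
  have h9 : ∀ k : Z, (J y - J x) k ≤ 4 * C * ‖y - x‖ * ‖k‖ := by
    intro k
    rcases eq_or_ne y x with hyx | hyx
    · rw [hyx, sub_self, sub_self, norm_zero]
      simp
    rcases eq_or_ne k 0 with hk | hk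
    · rw [hk, map_zero, norm_zero, mul_zero]
    have hd : 0 < ‖y - x‖ := norm_pos_iff.2 (sub_ne_zero.2 hyx)
    have hk' : 0 < ‖k‖ := norm_pos_iff.2 hk
    have h10 := h1 ((‖y - x‖ / ‖k‖) • k)
    rw [map_smul, smul_eq_mul, norm_smul, Real.norm_of_nonneg (by positivity),
      div_mul_cancel₀ _ hk'.ne'] at h10
    have h11 : ‖y - x‖ / ‖k‖ * (J y - J x) k ≤
        ‖y - x‖ / ‖k‖ * (4 * C * ‖y - x‖ * ‖k‖) := by
      refine h10.trans (le_of_eq ?_)
      field_simp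
      ring
    exact le_of_mul_le_mul_left h11 (by positivity)
  refine ContinuousLinearMap.opNorm_le_bound _ (by positivity) fun k => ?_
  rw [Real.norm_eq_abs, abs_le]
  constructor
  · have h12 := h9 (-k)
    rw [map_neg, norm_neg] at h12
    linarith
  · exact h9 k

theorem strong {c C : ℝ} (hU : Unif Z c C) (y w : Z) :
    ‖y‖ ^ 2 + 2 * J y w + c * ‖w‖ ^ 2 ≤ ‖y + w‖ ^ 2 := by
  have key : ∀ (n : ℕ) (w : Z), c * ‖w‖ ^ 2 * (1 - (1 / 2) ^ n) ≤
      ‖y + w‖ ^ 2 - ‖y‖ ^ 2 - 2 * J y w := by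
    intro n
    induction n with
    | zero =>
      intro w
      have := sub y w
      rw [pow_zero, sub_self, mul_zero]
      linarith
    | succ n ih =>
      intro w
      have h1 := ih ((1 / 2 : ℝ) • w)
      have h2 := (hU (y + (1 / 2 : ℝ) • w) ((1 / 2 : ℝ) • w)).1
      have h3 : y + (1 / 2 : ℝ) • w + (1 / 2 : ℝ) • w = y + w := by
        rw [add_assoc, ← add_smul]
        norm_num
      have h4 : y + (1 / 2 : ℝ) • w - (1 / 2 : ℝ) • w = y := by abel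
      rw [h3, h4, norm_smul, Real.norm_of_nonneg (by norm_num)] at h2
      rw [map_smul, smul_eq_mul, norm_smul, Real.norm_of_nonneg (by norm_num)] at h1
      have h5 : (1 / 2 : ℝ) ^ (n + 1) = (1 / 2) ^ n * (1 / 2) := pow_succ _ _
      rw [h5]
      linarith
  have h5 : Tendsto (fun n : ℕ => c * ‖w‖ ^ 2 * (1 - (1 / 2 : ℝ) ^ n)) atTop
      (𝓝 (c * ‖w‖ ^ 2 * (1 - 0))) :=
    tendsto_const_nhds.mul (tendsto_const_nhds.sub
      (tendsto_pow_atTop_nhds_zero_of_lt_one (by norm_num) (by norm_num)))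
  have h6 := le_of_tendsto h5 (Eventually.of_forall fun n => key n w)
  linarith

theorem mono {c C : ℝ} (hU : Unif Z c C) (x y : Z) :
    c * ‖x - y‖ ^ 2 ≤ (J x - J y) (x - y) := by
  have h1 := strong hU y (x - y)
  have h2 := strong hU x (y - x)
  have h3 : y + (x - y) = x := by abel
  have h4 : x + (y - x) = y := by abel
  have h5 : y - x = -(x - y) := by abel
  rw [h3] at h1
  rw [h4, h5, map_neg, norm_neg] at h2
  change _ ≤ J x (x - y) - J y (x - y)
  linarith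

end Gradaux

/-- U11. -/
theorem gradStmt : GradStmt := by
  intro Z _ _ _ c C hc hC hU
  refine ⟨Gradaux.J, hc, Gradaux.hasFDerivAt hU, Gradaux.smul hU, Gradaux.J_self, ?_,
    Gradaux.mono hU⟩
  refine ⟨Real.toNNReal (4 * C), LipschitzWith.of_dist_le_mul fun y x => ?_⟩
  rw [Real.coe_toNNReal _ (by positivity), dist_eq_norm, dist_eq_norm]
  exact Gradaux.lip hC hU x y

end Pool.Agent.Lib.MP_5c4da9_an
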