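import Pool.Agent.Lib.MP_5c4da9_an.Defs

/-!
# Hyperplanes far away
-/

set_option autoImplicit false

open Set Filter Topology Module

noncomputable section

namespace Pool.Agent.Lib.MP_5c4da9_an

namespace InftyAux

section norm

variable {V : Type*} [NormedAddCommGroup V] [NormedSpace ℝ V] [FiniteDimensional ℝ V]
  {N : V → ℝ}

omit [FiniteDimensional ℝ V] in
theorem N_zero (h : IsNorm N) : N 0 = 0 := by
  have := h.smul 0 0
  simpa using this

omit [FiniteDimensional ℝ V] in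
theorem N_neg (h : IsNorm N) (x : V) : N (-x) = N x := by
  have := h.smul (-1) x
  simpa using this

omit [FiniteDimensional ℝ V] in
theorem N_nonneg (h : IsNorm N) (x : V) : 0 ≤ N x := by
  by_cases hx : x = 0
  · rw [hx, N_zero h]
  · exact (h.pos x hx).le

omit [FiniteDimensional ℝ V] in
theorem N_sum (h : IsNorm N) {ι : Type*} (s : Finset ι) (f : ι → V) :
    N (∑ i ∈ s, f i) ≤ ∑ i ∈ s, N (f i) := by
  classical
  induction s using Finset.induction_on with
  | empty => simp [N_zero h]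
  | insert a s ha ih =>
    rw [Finset.sum_insert ha, Finset.sum_insert ha]
    exact (h.add _ _).trans (by linarith)

theorem upper (h : IsNorm N) : ∃ C : ℝ, 0 < C ∧ ∀ x, N x ≤ C * ‖x‖ := by
  let b := Module.finBasis ℝ V
  refine ⟨(∑ i, ‖LinearMap.toContinuousLinearMap (b.coord i)‖ * N (b i)) + 1, ?_, fun x => ?_⟩
  · have : 0 ≤ ∑ i, ‖LinearMap.toContinuousLinearMap (b.coord i)‖ * N (b i) :=
      Finset.sum_nonneg fun i _ => mul_nonneg (norm_nonneg _) (N_nonneg h _)
    linarith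
  · calc N x = N (∑ i, b.repr x i • b i) := by rw [b.sum_repr]
      _ ≤ ∑ i, N (b.repr x i • b i) := N_sum h _ _
      _ = ∑ i, |b.repr x i| * N (b i) := Finset.sum_congr rfl fun i _ => h.smul _ _
      _ ≤ ∑ i, (‖LinearMap.toContinuousLinearMap (b.coord i)‖ * ‖x‖) * N (b i) := by
          refine Finset.sum_le_sum fun i _ => mul_le_mul_of_nonneg_right ?_ (N_nonneg h _)
          have := (LinearMap.toContinuousLinearMap (b.coord i)).le_opNorm x
          simpa using this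
      _ = (∑ i, ‖LinearMap.toContinuousLinearMap (b.coord i)‖ * N (b i)) * ‖x‖ := by
          rw [Finset.sum_mul]
          exact Finset.sum_congr rfl fun i _ => by ring
      _ ≤ _ := by nlinarith [norm_nonneg x]

theorem cont (h : IsNorm N) : Continuous N := by
  obtain ⟨C, hC, hN⟩ := upper h
  refine (LipschitzWith.of_dist_le_mul (K := ⟨C, hC.le⟩) fun x y => ?_).continuous
  rw [Real.dist_eq, dist_eq_norm]
  show |N x - N y| ≤ C * ‖x - y‖
  have h1 : N x ≤ N (x - y) + N y := by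
    have := h.add (x - y) y
    simpa using this
  have h2 : N y ≤ N (x - y) + N x := by
    have := h.add (-(x - y)) x
    rw [N_neg h] at this
    simpa using this
  have h3 := hN (x - y)
  rw [abs_le]
  constructor <;> linarith

theorem lower (h : IsNorm N) : ∃ c : ℝ, 0 < c ∧ ∀ x, c * ‖x‖ ≤ N x := by
  by_cases hne : (Metric.sphere (0 : V) 1).Nonempty
  · obtain ⟨x0, hx0, hmin⟩ := (isCompact_sphere (0 : V) 1).exists_isMinOn hne (cont h).continuousOn
    have hx0' : ‖x0‖ = 1 := by simpa using hx0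
    refine ⟨N x0, h.pos x0 (by intro h0; rw [h0, norm_zero] at hx0'; norm_num at hx0'),
      fun x => ?_⟩
    by_cases hx : x = 0
    · rw [hx, norm_zero, mul_zero, N_zero h]
    · have hx' : 0 < ‖x‖ := norm_pos_iff.2 hx
      have h1 : (‖x‖⁻¹ • x) ∈ Metric.sphere (0 : V) 1 := by
        simp [norm_smul, hx'.ne']
      have h2 : N x0 ≤ N (‖x‖⁻¹ • x) := hmin h1
      rw [h.smul, abs_of_pos (by positivity)] at h2
      calc N x0 * ‖x‖ ≤ (‖x‖⁻¹ * N x) * ‖x‖ := mul_le_mul_of_nonneg_right h2 hx'.le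
        _ = N x := by field_simp
  · refine ⟨1, one_pos, fun x => ?_⟩
    have hx : x = 0 := by
      by_contra hx
      have hx' : 0 < ‖x‖ := norm_pos_iff.2 hx
      exact hne ⟨‖x‖⁻¹ • x, by simp [norm_smul, hx'.ne']⟩
    rw [hx, norm_zero, mul_zero, N_zero h]

end norm

variable {m : ℕ} {N : ℝ × F m → ℝ} {N₀ : F m → ℝ}

/-! ### The set of axes -/

theorem rfl_norm {v : F m} (hv : ‖v‖ = 1) (x : F m) : ‖rfl' v x‖ = ‖x‖ := by
  have h1 : inner ℝ v v = (1 : ℝ) := by rw [real_inner_self_eq_norm_sq, hv]; norm_num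
  have h2 : ‖rfl' v x‖ ^ 2 = ‖x‖ ^ 2 := by
    unfold rfl'
    rw [norm_sub_sq_real, inner_smul_right, norm_smul, mul_pow, hv, real_inner_comm v x,
      Real.norm_eq_abs, sq_abs]
    ring
  exact (sq_eq_sq₀ (norm_nonneg _) (norm_nonneg _)).1 h2

theorem rfl_rfl {v w : F m} (hv : ‖v‖ = 1) (x : F m) :
    rfl' (rfl' v w) x = rfl' v (rfl' w (rfl' v x)) := by
  have h1 : inner ℝ v v = (1 : ℝ) := by rw [real_inner_self_eq_norm_sq, hv]; norm_num
  unfold rfl'
  simp only [inner_sub_left, inner_sub_right, inner_smul_left, inner_smul_right, h1,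
    RCLike.conj_to_real, real_inner_comm v w]
  module

theorem rs_isReflSet (h : Data m N N₀) : IsReflSet (RS N₀) := by
  have hc := cont h.norm₀
  refine ⟨?_, fun v hv => hv.1, fun v hv => ⟨by rw [norm_neg]; exact hv.1, fun x => ?_⟩,
    fun v hv w hw => ⟨?_, fun x => ?_⟩⟩
  · have h1 : IsClosed {v : F m | ‖v‖ = 1} := isClosed_eq continuous_norm continuous_const
    have h2 : IsClosed {v : F m | ∀ x, N₀ (rfl' v x) = N₀ x} := by
      rw [Set.ofPred_forall]
      refine isClosed_iInter fun x => isClosed_eq (hc.comp ?_) continuous_const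
      unfold rfl'
      fun_prop
    exact h1.inter h2
  · have : rfl' (-v) x = rfl' v x := by
      unfold rfl'
      rw [inner_neg_left]
      module
    rw [this, hv.2]
  · rw [rfl_norm hv.1, hw.1]
  · rw [rfl_rfl hv.1, hv.2, hw.2, hv.2]

/-! ### Isometries -/

theorem iso_inj (h : Data m N N₀) {ω : F m} {S : F m →L[ℝ] F m} (hS : S ∈ isoSet N N₀ ω)
    {x : F m} (hx : S x = 0) : x = 0 := by
  by_contra hne
  have h1 := h.norm₀.pos x hne
  have h2 := hS x
  rw [hx, inner_zero_right, neg_zero] at h2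
  have h3 := N_zero h.norm
  rw [Prod.mk_zero_zero] at h2
  linarith

/-- The inverse of an isometry. -/
theorem iso_inv (h : Data m N N₀) {ω : F m} {S : F m →L[ℝ] F m} (hS : S ∈ isoSet N N₀ ω) :
    ∃ S' : F m →L[ℝ] F m, (∀ x, S (S' x) = x) ∧ ∀ x, S' (S x) = x := by
  have hinj : Function.Injective (S : F m →ₗ[ℝ] F m) := by
    rw [injective_iff_map_eq_zero]
    intro x hx
    exact iso_inj h hS hx
  let e := LinearEquiv.ofInjectiveEndo (S : F m →ₗ[ℝ] F m) hinj
  refine ⟨LinearMap.toContinuousLinearMap (e.symm : F m →ₗ[ℝ] F m), fun x => ?_, fun x => ?_⟩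
  · exact e.apply_symm_apply x
  · exact e.symm_apply_apply x

/-- The limit argument: an isometry with `S y = 0`, `⟨a, y⟩ = -1` gives a reflection axis. -/
theorem limit_axis (h : Data m N N₀) {a y : F m} {S : F m →L[ℝ] F m}
    (hN : ∀ x, N (inner ℝ a x, S x) = N₀ x) (hay : inner ℝ a y = -1) (hSy : S y = 0) :
    ∃ v ∈ RS N₀, ∀ W : Submodule ℝ (F m),
      ‖W.starProjection v‖ ^ 2 = -inner ℝ a (W.starProjection y) := by
  -- the isometry `g`
  let g : F m →L[ℝ] F m := ContinuousLinearMap.id ℝ (F m) +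
    (2 : ℝ) • (innerSL ℝ a).smulRight y
  have hg : ∀ x, g x = x + (2 * inner ℝ a x) • y := by
    intro x
    simp [g, smul_smul]
  have hgN : ∀ x, N₀ (g x) = N₀ x := by
    intro x
    rw [← hN (g x), ← hN x, hg x]
    have h1 : inner ℝ a (x + (2 * inner ℝ a x) • y) = -(inner ℝ a x) := by
      rw [inner_add_right, inner_smul_right, hay]
      ring
    have h2 : S (x + (2 * inner ℝ a x) • y) = S x := by
      rw [map_add, map_smul, hSy, smul_zero, add_zero]
    rw [h1, h2, h.even]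
  have horth := h.orth g hgN
  have hQ : ∀ x, inner ℝ a x * (inner ℝ x y + inner ℝ a x * ‖y‖ ^ 2) = 0 := by
    intro x
    have h1 : ‖g x‖ ^ 2 = ‖x‖ ^ 2 := by rw [horth]
    rw [hg, norm_add_sq_real, inner_smul_right, norm_smul, mul_pow, Real.norm_eq_abs,
      sq_abs] at h1
    linarith
  have hxy : ∀ x, inner ℝ x y = -(inner ℝ a x * ‖y‖ ^ 2) := by
    intro x
    have h1 := hQ (x + y)
    have h2 := hQ x
    have h3 := hQ y
    rw [inner_add_right, inner_add_left, hay] at h1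
    rw [hay] at h3
    rw [real_inner_self_eq_norm_sq] at h1
    nlinarith
  have hay2 : ‖a‖ ^ 2 * ‖y‖ ^ 2 = 1 := by
    have h1 := hxy a
    rw [hay, real_inner_self_eq_norm_sq] at h1
    linarith
  have hy : y = -(‖y‖ ^ 2 • a) := by
    apply ext_inner_left ℝ
    intro x
    rw [hxy x, inner_neg_right, inner_smul_right, real_inner_comm a x]
    ring
  have ha0 : ‖a‖ ≠ 0 := by
    intro h0
    rw [h0] at hay2
    norm_num at hay2
  have hy2 : ‖y‖ ^ 2 = (‖a‖ ^ 2)⁻¹ := by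
    exact eq_inv_of_mul_eq_one_left (by linarith)
  have hv1 : ‖(‖a‖⁻¹ • a)‖ = 1 := by
    rw [norm_smul, norm_inv, norm_norm, inv_mul_cancel₀ ha0]
  refine ⟨‖a‖⁻¹ • a, ⟨hv1, fun x => ?_⟩, fun W => ?_⟩
  · have h1 : rfl' (‖a‖⁻¹ • a) x = g x := by
      rw [hg]
      unfold rfl'
      rw [inner_smul_left, RCLike.conj_to_real]
      conv_rhs => rw [hy, hy2]
      rw [sub_eq_add_neg]
      congr 1
      rw [smul_neg, smul_smul, smul_smul]
      congr 2
      field_simp
    rw [h1, hgN]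
  · have h1 : ‖W.starProjection (‖a‖⁻¹ • a)‖ ^ 2 = ‖y‖ ^ 2 * inner ℝ a (W.starProjection a) := by
      rw [map_smul, norm_smul, mul_pow, norm_inv, norm_norm, inv_pow, hy2,
        ← real_inner_self_eq_norm_sq (W.starProjection a),
        W.inner_starProjection_left_eq_right, W.starProjection_eq_self_iff.2
        (W.starProjection_apply_mem a)]
    rw [h1]
    conv_rhs => rw [hy]
    rw [map_neg, map_smul, inner_neg_right, inner_smul_right, neg_neg]

/-- The claim: far away the projections are close to those of a reflection axis. -/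
theorem claim (h : Data m N N₀) {ε : ℝ} (hε : 0 < ε) : ∃ ρ : ℝ, 0 < ρ ∧ ∀ ω : F m, ρ ≤ ‖ω‖ →
    ∀ S ∈ isoSet N N₀ ω, ∃ v ∈ RS N₀, ∀ (W : Submodule ℝ (F m)) (q : F m →L[ℝ] F m),
      q.comp S = S.comp W.starProjection →
      |inner ℝ ω (q ω) - ‖W.starProjection v‖ ^ 2 * ‖ω‖ ^ 2| < ε * ‖ω‖ ^ 2 := by
  by_contra hcon
  push Not at hcon
  have hseq : ∀ n : ℕ, ∃ (ω : F m) (S : F m →L[ℝ] F m), ((n : ℝ) + 1 ≤ ‖ω‖) ∧
      S ∈ isoSet N N₀ ω ∧ ∀ v ∈ RS N₀, ∃ (W : Submodule ℝ (F m)) (q : F m →L[ℝ] F m),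
      q.comp S = S.comp W.starProjection ∧
      ε * ‖ω‖ ^ 2 ≤ |inner ℝ ω (q ω) - ‖W.starProjection v‖ ^ 2 * ‖ω‖ ^ 2| := by
    intro n
    obtain ⟨ω, hω, S, hS, hv⟩ := hcon ((n : ℝ) + 1) (by positivity)
    exact ⟨ω, S, hω, hS, hv⟩
  choose ω S hω hS hbad using hseq
  have hω1 : ∀ n, 1 ≤ ‖ω n‖ := fun n => le_trans (by
    have : (0 : ℝ) ≤ n := Nat.cast_nonneg n
    linarith) (hω n)
  have hω0 : ∀ n, 0 < ‖ω n‖ := fun n => lt_of_lt_of_le one_pos (hω1 n)
  -- the vectors
  have hy : ∀ n, ∃ y : F m, S n y = (‖ω n‖ ^ 2)⁻¹ • ω n := by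
    intro n
    obtain ⟨S', hS', -⟩ := iso_inv h (hS n)
    exact ⟨S' ((‖ω n‖ ^ 2)⁻¹ • ω n), hS' _⟩
  choose y hy using hy
  set a : ℕ → F m := fun n => -(ContinuousLinearMap.adjoint (S n) (ω n)) with ha
  have hainner : ∀ n x, inner ℝ (a n) x = -(inner ℝ (ω n) (S n x)) := by
    intro n x
    rw [ha]
    simp only
    rw [inner_neg_left, ContinuousLinearMap.adjoint_inner_left]
  have hNa : ∀ n x, N (inner ℝ (a n) x, S n x) = N₀ x := by
    intro n x
    rw [hainner]
    exact hS n x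
  have hayn : ∀ n, inner ℝ (a n) (y n) = -1 := by
    intro n
    rw [hainner, hy, inner_smul_right, real_inner_self_eq_norm_sq,
      inv_mul_cancel₀ (pow_ne_zero 2 (hω0 n).ne')]
  obtain ⟨C, hC, hCN⟩ := upper h.norm
  obtain ⟨C₀, hC₀, hCN₀⟩ := upper h.norm₀
  obtain ⟨c, hc, hcN⟩ := lower h.norm
  obtain ⟨c₀, hc₀, hcN₀⟩ := lower h.norm₀
  set K := C₀ / c with hK
  have hK0 : 0 < K := by positivity
  have hpair : ∀ n x, ‖(inner ℝ (a n) x, S n x)‖ ≤ K * ‖x‖ := by
    intro n x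
    have h1 := hcN (inner ℝ (a n) x, S n x)
    rw [hNa] at h1
    have h2 := hCN₀ x
    rw [hK, div_mul_eq_mul_div, le_div_iff₀ hc]
    linarith
  have hSb : ∀ n, ‖S n‖ ≤ K := by
    intro n
    refine ContinuousLinearMap.opNorm_le_bound _ hK0.le fun x => ?_
    exact (norm_snd_le (inner ℝ (a n) x, S n x)).trans (hpair n x)
  have hab : ∀ n, ‖a n‖ ≤ K := by
    intro n
    by_cases h0 : ‖a n‖ = 0
    · rw [h0]
      exact hK0.le
    have h0' : 0 < ‖a n‖ := lt_of_le_of_ne (norm_nonneg _) (Ne.symm h0)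
    have h1 := (norm_fst_le (inner ℝ (a n) (a n), S n (a n))).trans (hpair n (a n))
    simp only at h1
    rw [real_inner_self_eq_norm_sq, Real.norm_eq_abs, abs_of_nonneg (by positivity)] at h1
    nlinarith
  have hyb : ∀ n, ‖y n‖ ≤ C / c₀ := by
    intro n
    have h1 : N₀ (y n) ≤ C := by
      rw [← hNa n, hayn, hy]
      refine (hCN _).trans ?_
      have h2 : ‖((-1 : ℝ), (‖ω n‖ ^ 2)⁻¹ • ω n)‖ ≤ 1 := by
        rw [Prod.norm_mk, max_le_iff]
        refine ⟨by norm_num, ?_⟩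
        rw [norm_smul, norm_inv, norm_pow, norm_norm, inv_mul_le_iff₀ (by have := hω0 n; positivity)]
        nlinarith [hω1 n]
      nlinarith
    rw [le_div_iff₀ hc₀]
    have := hcN₀ (y n)
    linarith
  -- a convergent subsequence
  obtain ⟨p, -, φ, hφ, hlim⟩ := tendsto_subseq_of_bounded
    (x := fun n => ((a n, S n, y n) : F m × (F m →L[ℝ] F m) × F m))
    (s := Metric.closedBall 0 (K + K + C / c₀)) Metric.isBounded_closedBall (fun n => by
      rw [mem_closedBall_zero_iff, Prod.norm_mk, Prod.norm_mk]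
      have h3 : 0 < C / c₀ := by positivity
      have h1 := hab n
      have h2 := hSb n
      have h4 := hyb n
      exact max_le (by linarith) (max_le (by linarith) (by linarith)))
  obtain ⟨a', S', y'⟩ := p
  have hla : Tendsto (fun n => a (φ n)) atTop (𝓝 a') := (continuous_fst.tendsto _).comp hlim
  have hlS : Tendsto (fun n => S (φ n)) atTop (𝓝 S') :=
    ((continuous_fst.comp continuous_snd).tendsto _).comp hlim
  have hly : Tendsto (fun n => y (φ n)) atTop (𝓝 y') :=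
    ((continuous_snd.comp continuous_snd).tendsto _).comp hlim
  have hlSx : ∀ x, Tendsto (fun n => S (φ n) x) atTop (𝓝 (S' x)) := fun x =>
    ((ContinuousLinearMap.apply ℝ (F m) x).continuous.tendsto S').comp hlS
  have hNlim : ∀ x, N (inner ℝ a' x, S' x) = N₀ x := by
    intro x
    have h1 : Tendsto (fun n => N (inner ℝ (a (φ n)) x, S (φ n) x)) atTop
        (𝓝 (N (inner ℝ a' x, S' x))) := by
      refine ((cont h.norm).tendsto _).comp ?_
      exact (hla.inner tendsto_const_nhds).prodMk_nhds (hlSx x)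
    have h2 : (fun n => N (inner ℝ (a (φ n)) x, S (φ n) x)) = fun _ => N₀ x := by
      funext n
      exact hNa _ _
    rw [h2] at h1
    exact tendsto_nhds_unique h1 tendsto_const_nhds
  have hay' : inner ℝ a' y' = -1 := by
    have h1 : Tendsto (fun n => inner ℝ (a (φ n)) (y (φ n))) atTop (𝓝 (inner ℝ a' y')) :=
      hla.inner hly
    have h2 : (fun n => inner ℝ (a (φ n)) (y (φ n))) = fun _ => (-1 : ℝ) := by
      funext n
      exact hayn _
    rw [h2] at h1
    exact tendsto_nhds_unique h1 tendsto_const_nhds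
  have hSy' : S' y' = 0 := by
    have h1 : Tendsto (fun n => S (φ n) (y (φ n))) atTop (𝓝 (S' y')) :=
      ((isBoundedBilinearMap_apply (𝕜 := ℝ) (E := F m) (F := F m)).continuous.tendsto
        (S', y')).comp (hlS.prodMk_nhds hly)
    have h2 : Tendsto (fun n => S (φ n) (y (φ n))) atTop (𝓝 0) := by
      rw [tendsto_zero_iff_norm_tendsto_zero]
      have h3 : Tendsto (fun n : ℕ => 1 / ((n : ℝ) + 1)) atTop (𝓝 0) :=
        tendsto_one_div_add_atTop_nhds_zero_nat
      refine squeeze_zero (fun n => norm_nonneg _) (fun n => ?_) (h3.comp hφ.tendsto_atTop)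
      rw [hy, norm_smul, norm_inv, norm_pow, norm_norm]
      have h4 := hω0 (φ n)
      have h5 := hω (φ n)
      have h6 : (‖ω (φ n)‖ ^ 2)⁻¹ * ‖ω (φ n)‖ = 1 / ‖ω (φ n)‖ := by
        field_simp
      rw [h6]
      exact one_div_le_one_div_of_le (by positivity) h5
    exact tendsto_nhds_unique h1 h2
  obtain ⟨v, hv, hvW⟩ := limit_axis h hNlim hay' hSy'
  -- the contradiction
  have hlast : ∀ n, ε ≤ ‖a'‖ * ‖y (φ n) - y'‖ + ‖a (φ n) - a'‖ * (C / c₀) := by
    intro n
    obtain ⟨W, q, hq, hge⟩ := hbad (φ n) v hv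
    have hω2 : 0 < ‖ω (φ n)‖ ^ 2 := by have := hω0 (φ n); positivity
    have hqω : inner ℝ (ω (φ n)) (q (ω (φ n))) =
        ‖ω (φ n)‖ ^ 2 * (-(inner ℝ (a (φ n)) (W.starProjection (y (φ n))))) := by
      have h1 : ω (φ n) = ‖ω (φ n)‖ ^ 2 • S (φ n) (y (φ n)) := by
        rw [hy, smul_smul, mul_inv_cancel₀ hω2.ne', one_smul]
      have h2 : q (S (φ n) (y (φ n))) = S (φ n) (W.starProjection (y (φ n))) :=
        congrArg (fun T : F m →L[ℝ] F m => T (y (φ n))) hq
      have h3 : q (ω (φ n)) = ‖ω (φ n)‖ ^ 2 • S (φ n) (W.starProjection (y (φ n))) := by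
        conv_lhs => rw [h1]
        rw [map_smul, h2]
      rw [h3, inner_smul_right, hainner, neg_neg]
    rw [hqω, hvW W] at hge
    have e : ‖ω (φ n)‖ ^ 2 * (-(inner ℝ (a (φ n)) (W.starProjection (y (φ n))))) -
        -inner ℝ a' (W.starProjection y') * ‖ω (φ n)‖ ^ 2 =
        ‖ω (φ n)‖ ^ 2 * (-(inner ℝ a' (W.starProjection (y (φ n) - y')) +
          inner ℝ (a (φ n) - a') (W.starProjection (y (φ n))))) := by
      rw [map_sub, inner_sub_right, inner_sub_left]
      ring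
    rw [e, abs_mul, abs_of_pos hω2, abs_neg, mul_comm ε] at hge
    have h4 := le_of_mul_le_mul_left hge hω2
    refine h4.trans ((abs_add_le _ _).trans (add_le_add ?_ ?_))
    · refine (abs_real_inner_le_norm _ _).trans (mul_le_mul_of_nonneg_left ?_ (norm_nonneg _))
      exact W.norm_starProjection_apply_le _
    · refine (abs_real_inner_le_norm _ _).trans (mul_le_mul_of_nonneg_left ?_ (norm_nonneg _))
      exact (W.norm_starProjection_apply_le _).trans (hyb _)
  have hzero : Tendsto (fun n => ‖a'‖ * ‖y (φ n) - y'‖ + ‖a (φ n) - a'‖ * (C / c₀)) atTop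
      (𝓝 (‖a'‖ * 0 + 0 * (C / c₀))) :=
    (tendsto_const_nhds.mul (tendsto_iff_norm_sub_tendsto_zero.1 hly)).add
      ((tendsto_iff_norm_sub_tendsto_zero.1 hla).mul tendsto_const_nhds)
  rw [mul_zero, zero_mul, add_zero] at hzero
  have := ge_of_tendsto' hzero hlast
  linarith

/-- The gap for one pair of subspaces. -/
theorem pair_gap (W W' : Submodule ℝ (F m)) (h : W ⊓ W' = ⊥) :
    ∃ c : ℝ, 0 < c ∧ ∀ v ∈ W', ‖v‖ = 1 → ‖W.starProjection v‖ ^ 2 ≤ 1 - c := by
  by_cases hne : ((W' : Set (F m)) ∩ Metric.sphere 0 1).Nonempty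
  · have hcomp : IsCompact ((W' : Set (F m)) ∩ Metric.sphere 0 1) :=
      (isCompact_sphere (0 : F m) 1).inter_left (Submodule.closed_of_finiteDimensional W')
    obtain ⟨v0, hv0, hmax⟩ := hcomp.exists_isMaxOn hne
      (f := fun v => ‖W.starProjection v‖ ^ 2) (by fun_prop)
    have hv01 : ‖v0‖ = 1 := by simpa using hv0.2
    have hlt : ‖W.starProjection v0‖ ^ 2 < 1 := by
      have h1 := Submodule.norm_sq_eq_add_norm_sq_starProjection v0 W
      rw [hv01] at h1
      have h2 : 0 < ‖Wᗮ.starProjection v0‖ ^ 2 := by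
        have h3 : Wᗮ.starProjection v0 ≠ 0 := by
          intro h0
          have h4 : v0 ∈ W := by
            rw [← W.orthogonal_orthogonal]
            exact (Submodule.starProjection_apply_eq_zero_iff _).1 h0
          have h5 : v0 ∈ W ⊓ W' := ⟨h4, hv0.1⟩
          rw [h, Submodule.mem_bot] at h5
          rw [h5, norm_zero] at hv01
          norm_num at hv01
        positivity
      linarith
    refine ⟨1 - ‖W.starProjection v0‖ ^ 2, by linarith, fun v hv hv1 => ?_⟩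
    have := hmax (show v ∈ (W' : Set (F m)) ∩ Metric.sphere 0 1 from ⟨hv, by simpa using hv1⟩)
    simp only [mem_ofPred_eq] at this
    linarith
  · refine ⟨1, one_pos, fun v hv hv1 => ?_⟩
    exact absurd ⟨v, hv, by simpa using hv1⟩ hne

theorem gap (h2 : StructStmt) (h : Data m N N₀) : ∃ c₀ : ℝ, 0 < c₀ ∧ c₀ ≤ 1 ∧
    ∀ W ∈ MaxSub (RS N₀), ∀ v ∈ RS N₀, v ∉ W → ‖W.starProjection v‖ ^ 2 ≤ 1 - c₀ := by
  obtain ⟨hfin, hdisj, hcov⟩ := h2 m (RS N₀) (rs_isReflSet h)
  have hev : ∀ᶠ c in 𝓝[>] (0 : ℝ), ∀ W ∈ MaxSub (RS N₀), ∀ W' ∈ MaxSub (RS N₀), W ≠ W' →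
      ∀ v ∈ W', ‖v‖ = 1 → ‖W.starProjection v‖ ^ 2 ≤ 1 - c := by
    rw [eventually_all_finite hfin]
    intro W hW
    rw [eventually_all_finite hfin]
    intro W' hW'
    by_cases hne : W = W'
    · exact Eventually.of_forall fun c hc => absurd hne hc
    obtain ⟨c1, hc1, hb⟩ := pair_gap W W' (hdisj W hW W' hW' hne)
    have : ∀ᶠ c in 𝓝[>] (0 : ℝ), c ≤ c1 :=
      mem_nhdsWithin_of_mem_nhds (Iic_mem_nhds hc1)
    filter_upwards [this] with c hc _ v hv hv1
    have := hb v hv hv1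
    linarith
  have h1 : ∀ᶠ c in 𝓝[>] (0 : ℝ), c ≤ 1 := mem_nhdsWithin_of_mem_nhds (Iic_mem_nhds one_pos)
  obtain ⟨c, ⟨hc, hc1⟩, hc0⟩ := ((hev.and h1).and self_mem_nhdsWithin).exists
  refine ⟨c, hc0, hc1, fun W hW v hv hvW => ?_⟩
  obtain ⟨W', hW', hvW'⟩ := hcov v hv
  exact hc W hW W' hW' (fun hh => hvW (hh ▸ hvW')) v hvW' hv.1

end InftyAux

open InftyAux

theorem infStmt (h2 : StructStmt) : InfStmt := by
  intro m N N₀ h
  obtain ⟨c₀, hc₀, hc₀1, hgap⟩ := gap h2 h
  obtain ⟨-, -, hcov⟩ := h2 m (RS N₀) (rs_isReflSet h)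
  obtain ⟨ρ, hρ, hclaim⟩ := claim h (ε := c₀ / 3) (by positivity)
  have key : ∀ ω : F m, ρ ≤ ‖ω‖ → ∀ (v : F m), ‖v‖ = 1 → ∀ (W : Submodule ℝ (F m))
      (q : F m →L[ℝ] F m), v ∈ W →
      |inner ℝ ω (q ω) - ‖W.starProjection v‖ ^ 2 * ‖ω‖ ^ 2| < c₀ / 3 * ‖ω‖ ^ 2 →
      (1 - c₀ / 3) * ‖ω‖ ^ 2 < inner ℝ ω (q ω) := by
    intro ω _ v hv W q hvW hlt
    rw [Submodule.starProjection_eq_self_iff.2 hvW, hv] at hlt
    have := (abs_lt.1 hlt).1
    nlinarith
  refine ⟨c₀ / 3, ρ, by positivity, by linarith, hρ, fun ω hω => ⟨?_, ?_⟩⟩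
  · obtain ⟨S, hS⟩ := h.iso ω
    obtain ⟨v, hv, hvq⟩ := hclaim ω hω S hS
    obtain ⟨W, hW, hvW⟩ := hcov v hv
    obtain ⟨S', hS1, hS2⟩ := iso_inv h hS
    have hcomp : ((S.comp W.starProjection).comp S').comp S = S.comp W.starProjection := by
      ext1 x
      simp only [ContinuousLinearMap.comp_apply, hS2]
    exact ⟨(S.comp W.starProjection).comp S', ⟨S, hS, W, hW, hcomp⟩,
      key ω hω v hv.1 W _ hvW (hvq W _ hcomp)⟩
  · rintro q ⟨S, hS, W, hW, hcomp⟩
    obtain ⟨v, hv, hvq⟩ := hclaim ω hω S hS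
    have hlt := hvq W q hcomp
    by_cases hvW : v ∈ W
    · left
      exact key ω hω v hv.1 W q hvW hlt
    · right
      have h1 := hgap W hW v hv hvW
      have h3 := (abs_lt.1 hlt).2
      have h4 : 0 ≤ ‖ω‖ ^ 2 := by positivity
      nlinarith

end Pool.Agent.Lib.MP_5c4da9_an
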