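import Pool.Agent.Lib.MP_5c4da9_an.Defs

/-!
# MP_5c4da9_an, B9: an inner product invariant under all linear isometries

`Y` is embedded into `L²` of the unit ball of the dual space.
-/

set_option autoImplicit false

open Set Filter Topology Module MeasureTheory

noncomputable section

namespace Pool.Agent.Lib.MP_5c4da9_an

namespace Invaux

variable {Y : Type} [NormedAddCommGroup Y] [NormedSpace ℝ Y] [FiniteDimensional ℝ Y]

/-- Composition with an isometry, on the dual space. -/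
def dualEquiv (g : Y ≃ₗᵢ[ℝ] Y) : (Y →L[ℝ] ℝ) ≃ₗ[ℝ] (Y →L[ℝ] ℝ) where
  toFun f := f.comp (g.toContinuousLinearEquiv : Y →L[ℝ] Y)
  invFun f := f.comp (g.symm.toContinuousLinearEquiv : Y →L[ℝ] Y)
  left_inv f := by
    ext y
    simp
  right_inv f := by
    ext y
    simp
  map_add' f h := by
    ext y
    simp
  map_smul' c f := by
    ext y
    simp

theorem dualEquiv_apply (g : Y ≃ₗᵢ[ℝ] Y) (f : Y →L[ℝ] ℝ) (y : Y) :
    dualEquiv g f y = f (g y) := rfl

theorem norm_dualEquiv (g : Y ≃ₗᵢ[ℝ] Y) (f : Y →L[ℝ] ℝ) : ‖dualEquiv g f‖ = ‖f‖ := by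
  have key : ∀ (g : Y ≃ₗᵢ[ℝ] Y) (f : Y →L[ℝ] ℝ), ‖dualEquiv g f‖ ≤ ‖f‖ := by
    intro g f
    refine ContinuousLinearMap.opNorm_le_bound _ (norm_nonneg f) fun y => ?_
    rw [dualEquiv_apply]
    refine (f.le_opNorm _).trans ?_
    rw [g.norm_map]
  refine le_antisymm (key g f) ?_
  have h1 := key g.symm (dualEquiv g f)
  have h2 : dualEquiv g.symm (dualEquiv g f) = f := by
    ext y
    rw [dualEquiv_apply, dualEquiv_apply, g.apply_symm_apply]
  rwa [h2] at h1

section Meas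

variable [MeasurableSpace (Y →L[ℝ] ℝ)] [BorelSpace (Y →L[ℝ] ℝ)]

theorem preimage_ball (g : Y ≃ₗᵢ[ℝ] Y) :
    (dualEquiv g) ⁻¹' (Metric.closedBall (0 : Y →L[ℝ] ℝ) 1) = Metric.closedBall 0 1 := by
  ext f
  rw [mem_preimage, mem_closedBall_zero_iff, mem_closedBall_zero_iff, norm_dualEquiv]

theorem measurable_dualEquiv (g : Y ≃ₗᵢ[ℝ] Y) :
    Measurable (dualEquiv g : (Y →L[ℝ] ℝ) → (Y →L[ℝ] ℝ)) :=
  ((dualEquiv g).toLinearMap.continuous_of_finiteDimensional).measurable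

theorem map_dualEquiv (mu : Measure (Y →L[ℝ] ℝ)) [mu.IsAddHaarMeasure] (g : Y ≃ₗᵢ[ℝ] Y) :
    mu.map (dualEquiv g) = mu := by
  have hdet : LinearMap.det (dualEquiv g).toLinearMap ≠ 0 :=
    (dualEquiv g).isUnit_det'.ne_zero
  have h1 : mu.map (dualEquiv g) =
      ENNReal.ofReal |(LinearMap.det (dualEquiv g).toLinearMap)⁻¹| • mu :=
    Measure.map_linearMap_addHaar_eq_smul_addHaar mu hdet
  have h2 : mu.map (dualEquiv g) (Metric.closedBall 0 1) = mu (Metric.closedBall 0 1) := by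
    rw [Measure.map_apply (measurable_dualEquiv g) measurableSet_closedBall, preimage_ball]
  rw [h1, Measure.smul_apply, smul_eq_mul] at h2
  have h3 : mu (Metric.closedBall (0 : Y →L[ℝ] ℝ) 1) ≠ ⊤ :=
    (isCompact_closedBall _ _).measure_lt_top.ne
  have h4 : mu (Metric.closedBall (0 : Y →L[ℝ] ℝ) 1) ≠ 0 :=
    (Metric.measure_closedBall_pos mu _ one_pos).ne'
  have h5 : ENNReal.ofReal |(LinearMap.det (dualEquiv g).toLinearMap)⁻¹| = 1 := by
    have h6 : ENNReal.ofReal |(LinearMap.det (dualEquiv g).toLinearMap)⁻¹| *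
        mu (Metric.closedBall (0 : Y →L[ℝ] ℝ) 1) =
        1 * mu (Metric.closedBall (0 : Y →L[ℝ] ℝ) 1) := by rw [h2, one_mul]
    exact (ENNReal.mul_left_inj h4 h3).1 h6
  rw [h1, h5, one_smul]

theorem memLp_eval (mu : Measure (Y →L[ℝ] ℝ)) [mu.IsAddHaarMeasure] (y : Y) :
    MemLp (fun f : Y →L[ℝ] ℝ => f y) 2 (mu.restrict (Metric.closedBall 0 1)) := by
  haveI : IsFiniteMeasure (mu.restrict (Metric.closedBall (0 : Y →L[ℝ] ℝ) 1)) := ⟨by
    rw [Measure.restrict_apply_univ]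
    exact (isCompact_closedBall _ _).measure_lt_top⟩
  have hc : Continuous (fun f : Y →L[ℝ] ℝ => f y) :=
    (ContinuousLinearMap.apply ℝ ℝ y).continuous
  refine MemLp.of_bound hc.measurable.aestronglyMeasurable ‖y‖ ?_
  refine (ae_restrict_iff' measurableSet_closedBall).2 (Eventually.of_forall fun f hf => ?_)
  rw [mem_closedBall_zero_iff] at hf
  refine (f.le_opNorm y).trans ?_
  have := mul_le_mul_of_nonneg_right hf (norm_nonneg y)
  rwa [one_mul] at this

/-- The embedding. -/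
def emb (mu : Measure (Y →L[ℝ] ℝ)) [mu.IsAddHaarMeasure] :
    Y →ₗ[ℝ] Lp ℝ 2 (mu.restrict (Metric.closedBall (0 : Y →L[ℝ] ℝ) 1)) where
  toFun y := (memLp_eval mu y).toLp _
  map_add' x y := by
    rw [← MemLp.toLp_add]
    congr 1
    ext f
    simp
  map_smul' c y := by
    rw [RingHom.id_apply, ← MemLp.toLp_const_smul]
    congr 1
    ext f
    simp

theorem emb_injective (mu : Measure (Y →L[ℝ] ℝ)) [mu.IsAddHaarMeasure] :
    Function.Injective (emb mu) := by
  rw [injective_iff_map_eq_zero]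
  intro y hy
  have hy' : (memLp_eval mu y).toLp _ = 0 := hy
  have h1 : (fun f : Y →L[ℝ] ℝ => f y) =ᵐ[mu.restrict (Metric.closedBall 0 1)] 0 := by
    have h0 := (memLp_eval mu y).coeFn_toLp
    rw [hy'] at h0
    exact h0.symm.trans (Lp.coeFn_zero _ _ _)
  have h2 : (fun f : Y →L[ℝ] ℝ => f y) =ᵐ[mu.restrict (Metric.ball 0 1)] 0 :=
    ae_mono (Measure.restrict_mono Metric.ball_subset_closedBall le_rfl) h1
  have hc : Continuous (fun f : Y →L[ℝ] ℝ => f y) :=
    (ContinuousLinearMap.apply ℝ ℝ y).continuous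
  have h3 := Measure.eqOn_open_of_ae_eq h2 Metric.isOpen_ball hc.continuousOn
    continuousOn_const
  refine SeparatingDual.eq_zero_of_forall_dual_eq_zero (R := ℝ) fun f => ?_
  have hpos : 0 < ‖f‖ + 1 := by positivity
  have h4 : (‖f‖ + 1)⁻¹ • f ∈ Metric.ball (0 : Y →L[ℝ] ℝ) 1 := by
    rw [mem_ball_zero_iff, norm_smul, norm_inv, Real.norm_of_nonneg hpos.le,
      inv_mul_lt_iff₀ hpos]
    linarith
  have h5 : ((‖f‖ + 1)⁻¹ • f) y = 0 := h3 h4
  rw [smul_apply, smul_eq_mul, mul_eq_zero] at h5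
  rcases h5 with h5 | h5
  · exact absurd h5 (inv_ne_zero hpos.ne')
  · exact h5

theorem norm_emb (mu : Measure (Y →L[ℝ] ℝ)) [mu.IsAddHaarMeasure] (g : Y ≃ₗᵢ[ℝ] Y) (y : Y) :
    ‖emb mu (g y)‖ = ‖emb mu y‖ := by
  have hmp : MeasurePreserving (dualEquiv g) (mu.restrict (Metric.closedBall 0 1))
      (mu.restrict (Metric.closedBall 0 1)) := by
    have h1 : MeasurePreserving (dualEquiv g) mu mu :=
      ⟨measurable_dualEquiv g, map_dualEquiv mu g⟩
    have h2 := h1.restrict_preimage (s := Metric.closedBall (0 : Y →L[ℝ] ℝ) 1)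
      measurableSet_closedBall
    rwa [preimage_ball] at h2
  have h3 := eLpNorm_comp_measurePreserving (p := 2)
    (memLp_eval mu y).aestronglyMeasurable hmp
  have h4 : ((fun f : Y →L[ℝ] ℝ => f y) ∘ dualEquiv g) = fun f : Y →L[ℝ] ℝ => f (g y) := rfl
  rw [h4] at h3
  change ‖(memLp_eval mu (g y)).toLp _‖ = ‖(memLp_eval mu y).toLp _‖
  rw [Lp.norm_toLp, Lp.norm_toLp, h3]

end Meas

end Invaux

open Invaux in
/-- B9. An inner product invariant under all linear isometries. -/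
theorem invStmt : InvStmt := by
  intro Y _ _ _
  letI : MeasurableSpace (Y →L[ℝ] ℝ) := borel _
  haveI : BorelSpace (Y →L[ℝ] ℝ) := ⟨rfl⟩
  let mu : Measure (Y →L[ℝ] ℝ) := Measure.addHaar
  let V : Submodule ℝ (Lp ℝ 2 (mu.restrict (Metric.closedBall (0 : Y →L[ℝ] ℝ) 1))) :=
    LinearMap.range (emb mu)
  let ψ : Y ≃ₗ[ℝ] V := LinearEquiv.ofInjective (emb mu) (emb_injective mu)
  have hr : finrank ℝ V = finrank ℝ Y := ψ.finrank_eq.symm
  haveI : FiniteDimensional ℝ V := Module.Finite.equiv ψ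
  let b : OrthonormalBasis (Fin (finrank ℝ Y)) ℝ V :=
    (stdOrthonormalBasis ℝ V).reindex (finCongr hr)
  refine ⟨(ψ.trans b.repr.toLinearEquiv).toContinuousLinearEquiv, fun g y => ?_⟩
  have key : ∀ z : Y, ‖(ψ.trans b.repr.toLinearEquiv).toContinuousLinearEquiv z‖ = ‖emb mu z‖ := by
    intro z
    change ‖b.repr (ψ z)‖ = ‖emb mu z‖
    rw [LinearIsometryEquiv.norm_map]
    rfl
  rw [key, key, norm_emb]

end Pool.Agent.Lib.MP_5c4da9_an
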