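import Pool.Agent.Lib.MP_5c4da9_an.UDefs
import Pool.Agent.Lib.BrouwerThm.Basic

/-!
# MP_5c4da9_an, U7: a nonvanishing field on a ball points inward somewhere on the sphere
-/

set_option autoImplicit false

noncomputable section

namespace Pool.Agent.Lib.MP_5c4da9_an

theorem inwardStmt : InwardStmt := by
  intro m w ρ hρ hw hne
  by_contra hcon
  push Not at hcon
  -- the radial projection
  let r : F m → F m := fun x => (ρ / max ρ ‖x‖) • x
  have hmax : ∀ x : F m, 0 < max ρ ‖x‖ := fun x => hρ.trans_le (le_max_left _ _)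
  have hr : Continuous r := by
    have h1 : Continuous fun x : F m => ρ / max ρ ‖x‖ :=
      continuous_const.div (continuous_const.max continuous_norm) fun x => (hmax x).ne'
    exact h1.smul continuous_id
  have hrn : ∀ x, ‖r x‖ ≤ ρ := by
    intro x
    simp only [r, norm_smul, Real.norm_eq_abs, abs_of_pos (div_pos hρ (hmax x))]
    rw [div_mul_eq_mul_div, div_le_iff₀ (hmax x)]
    exact mul_le_mul_of_nonneg_left (le_max_right _ _) hρ.le
  have hrs : ∀ x : F m, ‖x‖ ≤ ρ → r x = x := by
    intro x hx
    simp only [r, max_eq_left hx, div_self hρ.ne', one_smul]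
  -- the cut-off
  let t : F m → ℝ := fun x => min 1 (max 0 ((‖x‖ - ρ) / ρ))
  have ht : Continuous t := by
    refine continuous_const.min (continuous_const.max ?_)
    exact (continuous_norm.sub continuous_const).div_const ρ
  have ht1 : ∀ x, t x ≤ 1 := fun x => min_le_left _ _
  have hwr : Continuous fun x => w (r x) := by
    refine hw.comp_continuous hr fun x => ?_
    rw [mem_closedBall_zero_iff]
    exact hrn x
  let G : F m → F m := fun x => (1 - t x) • w (r x) + t x • x
  have hG : Continuous G :=
    ((continuous_const.sub ht).smul hwr).add (ht.smul continuous_id)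
  have hGid : ∀ x : F m, 2 * ρ ≤ ‖x‖ → G x = x := by
    intro x hx
    have h1 : (1 : ℝ) ≤ (‖x‖ - ρ) / ρ := by
      rw [le_div_iff₀ hρ]
      linarith
    have h2 : t x = 1 := by
      simp only [t]
      exact min_eq_left (h1.trans (le_max_right _ _))
    simp only [G, h2, sub_self, zero_smul, one_smul, zero_add]
  obtain ⟨x, hx⟩ := BrouwerThm.exists_zero_of_eq_id G hG (2 * ρ) hGid
  rcases le_or_gt ‖x‖ ρ with hle | hgt
  · have h0 : t x = 0 := by
      simp only [t]
      have : (‖x‖ - ρ) / ρ ≤ 0 := div_nonpos_of_nonpos_of_nonneg (by linarith) hρ.le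
      rw [max_eq_left this]
      exact min_eq_right zero_le_one
    simp only [G, h0, sub_zero, one_smul, zero_smul, add_zero, hrs x hle] at hx
    exact hne x hle hx
  · have hxpos : 0 < ‖x‖ := hρ.trans hgt
    have hmx : max ρ ‖x‖ = ‖x‖ := max_eq_right hgt.le
    have hrx : r x = (ρ / ‖x‖) • x := by simp only [r, hmx]
    have hrnx : ‖r x‖ = ρ := by
      rw [hrx, norm_smul, Real.norm_eq_abs, abs_of_pos (div_pos hρ hxpos)]
      field_simp
    have htpos : 0 < t x := by
      simp only [t]
      refine lt_min one_pos (lt_max_of_lt_right ?_)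
      exact div_pos (by linarith) hρ
    have hx' : (1 - t x) • w (r x) = -(t x • x) := by
      have : (1 - t x) • w (r x) + t x • x = 0 := hx
      exact eq_neg_of_add_eq_zero_left this
    rcases eq_or_lt_of_le (ht1 x) with h1 | h1
    · rw [h1, sub_self, zero_smul, one_smul] at hx'
      have : x = 0 := by simpa using hx'.symm
      rw [this, norm_zero] at hxpos
      exact lt_irrefl _ hxpos
    · have h2 : 0 < 1 - t x := by linarith
      refine hcon (r x) hrnx (t x * ‖x‖ / (ρ * (1 - t x))) (by positivity) ?_
      have h3 : w (r x) = (1 - t x)⁻¹ • ((1 - t x) • w (r x)) := by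
        rw [smul_smul, inv_mul_cancel₀ h2.ne', one_smul]
      rw [h3, hx', hrx, smul_neg, smul_smul, smul_smul]
      congr 2
      field_simp

end Pool.Agent.Lib.MP_5c4da9_an
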