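import Pool.Agent.Lib.MP_5c4da9_an.UDefs
import Pool.Agent.Lib.MP_5c4da9_an.Base

/-! # U5: the sets `isoSet` vary continuously (MP_5c4da9_an). -/

set_option autoImplicit false

open Set Filter Topology Module

noncomputable section

namespace Pool.Agent.Lib.MP_5c4da9_an

variable {m : ℕ} {N : ℝ × F m → ℝ} {N₀ : F m → ℝ}

/-- A linear isometry of `N₀` is an orthogonal transformation. -/
theorem DataU.isom (h : DataU m N N₀) (g : F m →L[ℝ] F m) (hg : ∀ x, N₀ (g x) = N₀ x) :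
    ∃ G : F m ≃ₗᵢ[ℝ] F m, ∀ x, G x = g x := by
  have h1 := h.orth g hg
  let L : F m →ₗᵢ[ℝ] F m := ⟨g.toLinearMap, h1⟩
  exact ⟨L.toLinearIsometryEquiv rfl, fun x => rfl⟩

/-- Elements of `isoSet` are invertible, with bounds that are uniform for bounded `ω`. -/
theorem isoSet_boundsU (h : DataU m N N₀) (ρ : ℝ) : ∃ c C : ℝ, 0 < c ∧ 0 < C ∧
    ∀ ω : F m, ‖ω‖ ≤ ρ → ∀ S ∈ isoSet N N₀ ω, ∀ x, c * ‖x‖ ≤ ‖S x‖ ∧ ‖S x‖ ≤ C * ‖x‖ := by
  obtain ⟨c₁, C₁, hc₁, hC₁, hb₁⟩ := h.norm.bounds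
  obtain ⟨c₂, C₂, hc₂, hC₂, hb₂⟩ := h.norm₀.bounds
  refine ⟨c₂ / (C₁ * (1 + |ρ|)), C₂ / c₁, by positivity, by positivity, fun ω hω S hS x => ?_⟩
  have hSx := hS x
  constructor
  · have h1 : c₂ * ‖x‖ ≤ C₁ * ‖((-(inner ℝ ω (S x)), S x) : ℝ × F m)‖ :=
      ((hb₂ x).1.trans (le_of_eq hSx.symm)).trans (hb₁ _).2
    have h2 : ‖((-(inner ℝ ω (S x)), S x) : ℝ × F m)‖ ≤ (1 + |ρ|) * ‖S x‖ := by
      rw [Prod.norm_def]
      apply max_le
      · simp only [norm_neg]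
        calc ‖inner ℝ ω (S x)‖ ≤ ‖ω‖ * ‖S x‖ := norm_inner_le_norm _ _
          _ ≤ (1 + |ρ|) * ‖S x‖ := by
            apply mul_le_mul_of_nonneg_right _ (norm_nonneg _)
            have := le_abs_self ρ
            linarith
      · have := abs_nonneg ρ
        have := norm_nonneg (S x)
        nlinarith
    have h3 : c₂ * ‖x‖ ≤ C₁ * ((1 + |ρ|) * ‖S x‖) :=
      h1.trans (mul_le_mul_of_nonneg_left h2 hC₁.le)
    rw [div_mul_eq_mul_div, div_le_iff₀ (by positivity)]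
    calc c₂ * ‖x‖ ≤ C₁ * ((1 + |ρ|) * ‖S x‖) := h3
      _ = ‖S x‖ * (C₁ * (1 + |ρ|)) := by ring
  · have h1 : c₁ * ‖((-(inner ℝ ω (S x)), S x) : ℝ × F m)‖ ≤ C₂ * ‖x‖ :=
      ((hb₁ _).1.trans (le_of_eq hSx)).trans (hb₂ x).2
    have h2 : ‖S x‖ ≤ ‖((-(inner ℝ ω (S x)), S x) : ℝ × F m)‖ :=
      norm_snd_le ((-(inner ℝ ω (S x)), S x) : ℝ × F m)
    rw [div_mul_eq_mul_div, le_div_iff₀ hc₁]
    calc ‖S x‖ * c₁ = c₁ * ‖S x‖ := mul_comm _ _
      _ ≤ c₁ * ‖((-(inner ℝ ω (S x)), S x) : ℝ × F m)‖ := mul_le_mul_of_nonneg_left h2 hc₁.le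
      _ ≤ C₂ * ‖x‖ := h1

/-- Uniform bounds for all `ω`. -/
theorem isoSet_boundsU' (h : DataU m N N₀) : ∃ C : ℝ, 0 < C ∧
    ∀ ω : F m, ∀ S ∈ isoSet N N₀ ω, ∀ x, |inner ℝ ω (S x)| ≤ C * ‖x‖ ∧ ‖S x‖ ≤ C * ‖x‖ := by
  obtain ⟨c₁, C₁, hc₁, hC₁, hb₁⟩ := h.norm.bounds
  obtain ⟨c₂, C₂, hc₂, hC₂, hb₂⟩ := h.norm₀.bounds
  refine ⟨C₂ / c₁, by positivity, fun ω S hS x => ?_⟩
  have h1 : c₁ * ‖((-(inner ℝ ω (S x)), S x) : ℝ × F m)‖ ≤ C₂ * ‖x‖ :=
    ((hb₁ _).1.trans (le_of_eq (hS x))).trans (hb₂ x).2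
  have h4 : ‖((-(inner ℝ ω (S x)), S x) : ℝ × F m)‖ ≤ C₂ / c₁ * ‖x‖ := by
    rw [div_mul_eq_mul_div, le_div_iff₀ hc₁, mul_comm]
    exact h1
  constructor
  · have h2 := (norm_fst_le ((-(inner ℝ ω (S x)), S x) : ℝ × F m)).trans h4
    simpa using h2
  · exact (norm_snd_le ((-(inner ℝ ω (S x)), S x) : ℝ × F m)).trans h4

theorem isoSet_injectiveU (h : DataU m N N₀) {ω : F m} {S : F m →L[ℝ] F m}
    (hS : S ∈ isoSet N N₀ ω) : Function.Injective S := by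
  rw [injective_iff_map_eq_zero]
  intro x hx
  apply h.norm₀.eq_zero
  rw [← hS x, hx, inner_zero_right, neg_zero]
  exact h.norm.zero

theorem isoSet_equivU (h : DataU m N N₀) {ω : F m} {S : F m →L[ℝ] F m}
    (hS : S ∈ isoSet N N₀ ω) : ∃ e : F m ≃L[ℝ] F m, (e : F m →L[ℝ] F m) = S := by
  have h1 := isoSet_injectiveU h hS
  refine ⟨(LinearEquiv.ofInjectiveEndo S.toLinearMap h1).toContinuousLinearEquiv, ?_⟩
  ext x : 1
  rfl

theorem isoSet_compU {ω : F m} {S g : F m →L[ℝ] F m} (hS : S ∈ isoSet N N₀ ω)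
    (hg : ∀ x, N₀ (g x) = N₀ x) : S.comp g ∈ isoSet N N₀ ω :=
  isoSet_comp hS hg

/-- Two parametrizations of the same hyperplane differ by an isometry of `N₀`. -/
theorem isoSet_transU (h : DataU m N N₀) {ω : F m} {S S' : F m →L[ℝ] F m}
    (hS : S ∈ isoSet N N₀ ω) (hS' : S' ∈ isoSet N N₀ ω) :
    ∃ G : F m ≃ₗᵢ[ℝ] F m, (∀ x, N₀ (G x) = N₀ x) ∧ ∀ x, S' x = S (G x) := by
  obtain ⟨e, he⟩ := isoSet_equivU h hS
  have hg : ∀ x, N₀ (((e.symm : F m →L[ℝ] F m).comp S') x) = N₀ x := by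
    intro x
    have h1 := hS (e.symm (S' x))
    have h2 : S (e.symm (S' x)) = S' x := by
      rw [← he]
      exact e.apply_symm_apply _
    rw [h2, hS' x] at h1
    exact h1.symm
  obtain ⟨G, hG⟩ := h.isom _ hg
  refine ⟨G, fun x => by rw [hG]; exact hg x, fun x => ?_⟩
  rw [hG, ← he]
  exact (e.apply_symm_apply _).symm

/-- The same, in terms of continuous linear maps: `S' = S ∘ g`, `g` in the group of `N₀`. -/
theorem isoSet_transU' (h : DataU m N N₀) {ω : F m} {S S' : F m →L[ℝ] F m}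
    (hS : S ∈ isoSet N N₀ ω) (hS' : S' ∈ isoSet N N₀ ω) :
    ∃ g : F m →L[ℝ] F m, (∀ x, N₀ (g x) = N₀ x) ∧ S' = S.comp g := by
  obtain ⟨G, hG, hG'⟩ := isoSet_transU h hS hS'
  refine ⟨(G.toContinuousLinearEquiv : F m →L[ℝ] F m), hG, ?_⟩
  ext x : 1
  exact hG' x

/-- Limits of parametrizations. -/
theorem isoSet_limU (h : DataU m N N₀) {ω : ℕ → F m} {S : ℕ → F m →L[ℝ] F m} {ω₀ : F m}
    {S₀ : F m →L[ℝ] F m} (hS : ∀ n, S n ∈ isoSet N N₀ (ω n)) (hω : Tendsto ω atTop (𝓝 ω₀))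
    (hlim : Tendsto S atTop (𝓝 S₀)) : S₀ ∈ isoSet N N₀ ω₀ := by
  intro x
  have h1 : Tendsto (fun n => S n x) atTop (𝓝 (S₀ x)) :=
    ((ContinuousLinearMap.apply ℝ (F m) x).continuous.tendsto S₀).comp hlim
  have h2 : Tendsto (fun n => N (-(inner ℝ (ω n) (S n x)), S n x)) atTop
      (𝓝 (N (-(inner ℝ ω₀ (S₀ x)), S₀ x))) := by
    apply (h.norm.continuous.tendsto _).comp
    exact ((hω.inner h1).neg).prodMk_nhds h1
  have h3 : ∀ n, N (-(inner ℝ (ω n) (S n x)), S n x) = N₀ x := fun n => hS n x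
  simp only [h3] at h2
  exact tendsto_nhds_unique h2 tendsto_const_nhds

theorem isoSet_nonemptyU (h : DataU m N N₀) (ω : F m) : (isoSet N N₀ ω).Nonempty := h.iso ω

/-- All parametrizations are in one ball. -/
theorem isoSet_normU (h : DataU m N N₀) : ∃ C : ℝ, 0 < C ∧
    ∀ ω : F m, ∀ S ∈ isoSet N N₀ ω, ‖S‖ ≤ C := by
  obtain ⟨C, hC, hb⟩ := isoSet_boundsU' h
  exact ⟨C, hC, fun ω S hS => S.opNorm_le_bound hC.le fun x => (hb ω S hS x).2⟩

/-- The linear isometries of `N₀` are a closed group of orthogonal transformations. -/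
theorem isOrthGroupU (h : DataU m N N₀) :
    IsOrthGroup {g : F m →L[ℝ] F m | ∀ x, N₀ (g x) = N₀ x} := by
  refine ⟨?_, fun x => rfl, ?_, ?_, fun g hg => h.orth g hg⟩
  · have hc := h.norm₀.continuous
    have : {g : F m →L[ℝ] F m | ∀ x, N₀ (g x) = N₀ x} =
        ⋂ x, {g : F m →L[ℝ] F m | N₀ (g x) = N₀ x} := by
      ext g
      simp
    rw [this]
    refine isClosed_iInter fun x => isClosed_eq (hc.comp ?_) continuous_const
    exact (ContinuousLinearMap.apply ℝ (F m) x).continuous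
  · intro g hg k hk x
    change N₀ (g (k x)) = N₀ x
    rw [hg, hk]
  · intro g hg
    obtain ⟨G, hG⟩ := h.isom g hg
    refine ⟨(G.symm.toContinuousLinearEquiv : F m →L[ℝ] F m), ?_, ?_, ?_⟩
    · intro x
      have h1 := hg (G.symm x)
      rw [← hG, G.apply_symm_apply] at h1
      exact h1.symm
    · ext x : 1
      change G.symm (g x) = x
      rw [← hG, G.symm_apply_apply]
    · ext x : 1
      change g (G.symm x) = x
      rw [← hG, G.apply_symm_apply]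

theorem isoLocalStmt : IsoLocalStmt := by
  intro m N N₀ h ρ ε hε
  by_contra hcon
  push Not at hcon
  have hη : ∀ n : ℕ, (0 : ℝ) < 1 / ((n : ℝ) + 1) := fun n => by positivity
  choose ω ω' hω hω' hd S hS hfar using fun n : ℕ => hcon (1 / ((n : ℝ) + 1)) (hη n)
  choose S' hS' using fun n : ℕ => h.iso (ω' n)
  obtain ⟨C, hC, hb⟩ := isoSet_normU h
  -- compactness
  have hK : IsCompact (((Metric.closedBall (0 : F m) ρ) ×ˢ (Metric.closedBall (0 : F m →L[ℝ] F m) C))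
      ×ˢ (Metric.closedBall (0 : F m →L[ℝ] F m) C)) :=
    ((isCompact_closedBall _ _).prod (isCompact_closedBall _ _)).prod (isCompact_closedBall _ _)
  obtain ⟨⟨⟨ω₀, S₀⟩, S₀'⟩, -, φ, hφ, hlim⟩ := hK.tendsto_subseq
    (x := fun n => ((ω n, S n), S' n)) (fun n => by
      refine ⟨⟨?_, ?_⟩, ?_⟩
      · simpa using hω n
      · simpa using hb _ _ (hS n)
      · simpa using hb _ _ (hS' n))
  have hl1 : Tendsto (fun n => ω (φ n)) atTop (𝓝 ω₀) :=
    ((continuous_fst.comp continuous_fst).tendsto _).comp hlim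
  have hl2 : Tendsto (fun n => S (φ n)) atTop (𝓝 S₀) :=
    ((continuous_snd.comp continuous_fst).tendsto _).comp hlim
  have hl3 : Tendsto (fun n => S' (φ n)) atTop (𝓝 S₀') := (continuous_snd.tendsto _).comp hlim
  have hl4 : Tendsto (fun n => ω' (φ n)) atTop (𝓝 ω₀) := by
    have h0 : Tendsto (fun n : ℕ => (1 : ℝ) / ((n : ℝ) + 1)) atTop (𝓝 0) :=
      tendsto_one_div_add_atTop_nhds_zero_nat
    have h1 : Tendsto (fun n => ω (φ n) - ω' (φ n)) atTop (𝓝 0) := by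
      rw [tendsto_zero_iff_norm_tendsto_zero]
      exact squeeze_zero (fun n => norm_nonneg _) (fun n => (hd (φ n)).le)
        (h0.comp hφ.tendsto_atTop)
    have h2 := hl1.sub h1
    rw [sub_zero] at h2
    refine h2.congr fun n => ?_
    abel
  have hm1 : S₀ ∈ isoSet N N₀ ω₀ := isoSet_limU h (fun n => hS (φ n)) hl1 hl2
  have hm2 : S₀' ∈ isoSet N N₀ ω₀ := isoSet_limU h (fun n => hS' (φ n)) hl4 hl3
  obtain ⟨g, hg, hgS⟩ := isoSet_transU' h hm2 hm1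
  have hl5 : Tendsto (fun n => ‖S (φ n) - (S' (φ n)).comp g‖) atTop (𝓝 0) := by
    have h1 : Tendsto (fun n => (S' (φ n)).comp g) atTop (𝓝 (S₀'.comp g)) :=
      ((ContinuousLinearMap.compL ℝ (F m) (F m) (F m)).flip g).continuous.tendsto _ |>.comp hl3
    rw [← hgS] at h1
    have h2 := (hl2.sub h1).norm
    rwa [sub_self, norm_zero] at h2
  obtain ⟨n, hn⟩ := (hl5.eventually_lt_const hε).exists
  exact absurd hn (not_lt.2 (hfar (φ n) _ (isoSet_compU (hS' (φ n)) hg)))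

end Pool.Agent.Lib.MP_5c4da9_an
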