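import Pool.Agent.Lib.MP_5c4da9_an.Defs

set_option autoImplicit false

open Set Filter Topology Module

noncomputable section

namespace Pool.Agent.Lib.MP_5c4da9_an

theorem jordanStmt : JordanStmt := by
  intro n hn E _ _ hE hV
  have hfd : FiniteDimensional ℝ E := FiniteDimensional.of_finrank_pos (by omega)
  have hpar : ∀ x y : E, ‖x + y‖ * ‖x + y‖ + ‖x - y‖ * ‖x - y‖ =
      2 * (‖x‖ * ‖x‖ + ‖y‖ * ‖y‖) := by
    intro x y
    have hlt : Submodule.span ℝ {x, y} < (⊤ : Submodule ℝ E) := by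
      refine Submodule.lt_top_of_finrank_lt_finrank ?_
      have h1 : finrank ℝ (Submodule.span ℝ ({x, y} : Set E)) ≤ 2 := by
        classical
        have h2 : (({x, y} : Finset E) : Set E) = {x, y} := by simp
        rw [← h2]
        exact (finrank_span_finset_le_card _).trans Finset.card_le_two
      omega
    obtain ⟨f, hf0, hf⟩ := Submodule.exists_le_ker_of_lt_top _ hlt
    have hr : finrank ℝ (LinearMap.range f) = 1 := by
      rw [LinearMap.range_eq_top.2 (LinearMap.surjective hf0), finrank_top]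
      exact Module.finrank_self ℝ
    have hk : finrank ℝ (LinearMap.ker f) = n - 1 := by
      have := LinearMap.finrank_range_add_finrank_ker f
      omega
    obtain ⟨φ⟩ := hV (LinearMap.ker f) hk
    have hx : x ∈ LinearMap.ker f := hf (Submodule.subset_span (by simp))
    have hy : y ∈ LinearMap.ker f := hf (Submodule.subset_span (by simp))
    have h3 := parallelogram_law_with_norm ℝ (φ ⟨x, hx⟩) (φ ⟨y, hy⟩)
    rw [← map_add, ← map_sub, φ.norm_map, φ.norm_map, φ.norm_map, φ.norm_map] at h3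
    have h4 : ‖x + y‖ ^ 2 + ‖x - y‖ ^ 2 = 2 * (‖x‖ ^ 2 + ‖y‖ ^ 2) := h3
    linarith [sq ‖x + y‖, sq ‖x - y‖, sq ‖x‖, sq ‖y‖]
  subst hE
  let _ := InnerProductSpace.ofNorm ℝ hpar
  exact ⟨(stdOrthonormalBasis ℝ E).repr⟩

end Pool.Agent.Lib.MP_5c4da9_an
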