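import Pool.Agent.Lib.MP_5c4da9_an.UDefs
import Pool.Agent.Lib.MP_5c4da9_an.Base

set_option autoImplicit false

open Set Filter Topology Module

noncomputable section

namespace Pool.Agent.Lib.MP_5c4da9_an

section Lift

variable {m : ℕ} {N : ℝ × F m → ℝ} {N₀ : F m → ℝ}

private theorem lift_unit_of_inj (S : F m →L[ℝ] F m) (hS : ∀ x, S x = 0 → x = 0) :
    IsUnit S := by
  have h1 : Function.Injective S := (injective_iff_map_eq_zero S).2 hS
  let e : F m ≃L[ℝ] F m := (LinearEquiv.ofInjectiveEndo S.toLinearMap h1).toContinuousLinearEquiv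
  have he : ∀ x, e x = S x := fun x => rfl
  refine ⟨⟨S, (e.symm : F m →L[ℝ] F m), ?_, ?_⟩, rfl⟩
  · ext x : 1
    change S (e.symm x) = x
    rw [← he]
    exact e.apply_symm_apply x
  · ext x : 1
    change e.symm (S x) = x
    rw [← he]
    exact e.symm_apply_apply x

private theorem lift_inv_mul {S : F m →L[ℝ] F m} (hS : IsUnit S) : Ring.inverse S * S = 1 :=
  Ring.inverse_mul_cancel S hS

private theorem lift_mul_inv {S : F m →L[ℝ] F m} (hS : IsUnit S) : S * Ring.inverse S = 1 :=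
  Ring.mul_inverse_cancel S hS

/-- The isometries of `N₀`. -/
private def liftG (N₀ : F m → ℝ) : Set (F m →L[ℝ] F m) := {g | ∀ x, N₀ (g x) = N₀ x}

private theorem lift_group (h : DataU m N N₀) : IsOrthGroup (liftG N₀) := by
  have hu : ∀ g ∈ liftG N₀, IsUnit g := by
    intro g hg
    apply lift_unit_of_inj
    intro x hx
    apply h.norm₀.eq_zero
    rw [← hg x, hx, h.norm₀.zero]
  refine ⟨?_, fun x => rfl, ?_, ?_, fun g hg => h.orth g hg⟩
  · have : liftG N₀ = ⋂ x, {g : F m →L[ℝ] F m | N₀ (g x) = N₀ x} := by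
      ext g
      simp [liftG]
    rw [this]
    refine isClosed_iInter fun x => isClosed_eq (h.norm₀.continuous.comp ?_) continuous_const
    exact (ContinuousLinearMap.apply ℝ (F m) x).continuous
  · intro g hg k hk x
    change N₀ (g (k x)) = _
    rw [hg, hk]
  · intro g hg
    refine ⟨Ring.inverse g, ?_, lift_inv_mul (hu g hg), lift_mul_inv (hu g hg)⟩
    intro x
    rw [← hg (Ring.inverse g x)]
    have : g (Ring.inverse g x) = (g * Ring.inverse g) x := rfl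
    rw [this, lift_mul_inv (hu g hg)]
    rfl

private theorem lift_bounds (h : DataU m N N₀) (ρ : ℝ) : ∃ c C : ℝ, 0 < c ∧ 0 < C ∧
    ∀ ω : F m, ‖ω‖ ≤ ρ → ∀ S ∈ isoSet N N₀ ω, ∀ x, c * ‖x‖ ≤ ‖S x‖ ∧ ‖S x‖ ≤ C * ‖x‖ := by
  obtain ⟨c₁, C₁, hc₁, hC₁, hb₁⟩ := h.norm.bounds
  obtain ⟨c₂, C₂, hc₂, hC₂, hb₂⟩ := h.norm₀.bounds
  refine ⟨c₂ / (C₁ * (1 + |ρ|)), C₂ / c₁, by positivity, by positivity, fun ω hω S hS x => ?_⟩
  have hSx := hS x
  constructor
  · have h1 : c₂ * ‖x‖ ≤ C₁ * ‖((-(inner ℝ ω (S x)), S x) : ℝ × F m)‖ :=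
      ((hb₂ x).1.trans (le_of_eq hSx.symm)).trans (hb₁ _).2
    have h2 : ‖((-(inner ℝ ω (S x)), S x) : ℝ × F m)‖ ≤ (1 + |ρ|) * ‖S x‖ := by
      rw [Prod.norm_def]
      apply max_le
      · simp only [norm_neg]
        calc ‖inner ℝ ω (S x)‖ ≤ ‖ω‖ * ‖S x‖ := norm_inner_le_norm _ _
          _ ≤ (1 + |ρ|) * ‖S x‖ := by
            apply mul_le_mul_of_nonneg_right _ (norm_nonneg _)
            have := le_abs_self ρ
            linarith
      · have := abs_nonneg ρ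
        have := norm_nonneg (S x)
        nlinarith
    have h3 : c₂ * ‖x‖ ≤ C₁ * ((1 + |ρ|) * ‖S x‖) :=
      h1.trans (mul_le_mul_of_nonneg_left h2 hC₁.le)
    rw [div_mul_eq_mul_div, div_le_iff₀ (by positivity)]
    calc c₂ * ‖x‖ ≤ C₁ * ((1 + |ρ|) * ‖S x‖) := h3
      _ = ‖S x‖ * (C₁ * (1 + |ρ|)) := by ring
  · have h1 : c₁ * ‖((-(inner ℝ ω (S x)), S x) : ℝ × F m)‖ ≤ C₂ * ‖x‖ :=
      ((hb₁ _).1.trans (le_of_eq hSx)).trans (hb₂ x).2
    have h2 : ‖S x‖ ≤ ‖((-(inner ℝ ω (S x)), S x) : ℝ × F m)‖ :=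
      norm_snd_le ((-(inner ℝ ω (S x)), S x) : ℝ × F m)
    rw [div_mul_eq_mul_div, le_div_iff₀ hc₁]
    calc ‖S x‖ * c₁ = c₁ * ‖S x‖ := mul_comm _ _
      _ ≤ c₁ * ‖((-(inner ℝ ω (S x)), S x) : ℝ × F m)‖ := mul_le_mul_of_nonneg_left h2 hc₁.le
      _ ≤ C₂ * ‖x‖ := h1

private theorem lift_unit (h : DataU m N N₀) {ω : F m} {S : F m →L[ℝ] F m}
    (hS : S ∈ isoSet N N₀ ω) : IsUnit S := by
  apply lift_unit_of_inj
  intro x hx
  apply h.norm₀.eq_zero
  rw [← hS x, hx, inner_zero_right, neg_zero]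
  exact h.norm.zero

private theorem lift_comp {ω : F m} {S g : F m →L[ℝ] F m} (hS : S ∈ isoSet N N₀ ω)
    (hg : g ∈ liftG N₀) : S * g ∈ isoSet N N₀ ω := by
  intro x
  have := hS (g x)
  rw [hg] at this
  exact this

private theorem lift_trans (h : DataU m N N₀) {ω : F m} {S T : F m →L[ℝ] F m}
    (hS : S ∈ isoSet N N₀ ω) (hT : T ∈ isoSet N N₀ ω) :
    Ring.inverse S * T ∈ liftG N₀ := by
  intro x
  have h1 := hS ((Ring.inverse S * T) x)
  have h2 : S ((Ring.inverse S * T) x) = T x := by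
    change (S * (Ring.inverse S * T)) x = T x
    rw [← mul_assoc, lift_mul_inv (lift_unit h hS), one_mul]
  rw [h2, hT x] at h1
  exact h1.symm

private theorem lift_lim (h : DataU m N N₀) {ω : ℕ → F m} {S : ℕ → F m →L[ℝ] F m} {ω₀ : F m}
    {S₀ : F m →L[ℝ] F m} (hS : ∀ n, S n ∈ isoSet N N₀ (ω n)) (hω : Tendsto ω atTop (𝓝 ω₀))
    (hlim : Tendsto S atTop (𝓝 S₀)) : S₀ ∈ isoSet N N₀ ω₀ := by
  intro x
  have h1 : Tendsto (fun n => S n x) atTop (𝓝 (S₀ x)) :=
    ((ContinuousLinearMap.apply ℝ (F m) x).continuous.tendsto S₀).comp hlim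
  have h2 : Tendsto (fun n => N (-(inner ℝ (ω n) (S n x)), S n x)) atTop
      (𝓝 (N (-(inner ℝ ω₀ (S₀ x)), S₀ x))) := by
    apply (h.norm.continuous.tendsto _).comp
    exact ((hω.inner h1).neg).prodMk_nhds h1
  have h3 : ∀ n, N (-(inner ℝ (ω n) (S n x)), S n x) = N₀ x := fun n => hS n x
  simp only [h3] at h2
  exact tendsto_nhds_unique h2 tendsto_const_nhds

private theorem lift_inv_norm (h : DataU m N N₀) {ω : F m} {c : ℝ} (hc : 0 < c)
    {S : F m →L[ℝ] F m} (hS : S ∈ isoSet N N₀ ω) (hb : ∀ x, c * ‖x‖ ≤ ‖S x‖) :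
    ‖Ring.inverse S‖ ≤ 1 / c := by
  apply ContinuousLinearMap.opNorm_le_bound _ (by positivity)
  intro y
  have h1 := hb (Ring.inverse S y)
  have h2 : S (Ring.inverse S y) = y := by
    change (S * Ring.inverse S) y = y
    rw [lift_mul_inv (lift_unit h hS)]
    rfl
  rw [h2] at h1
  rw [one_div, inv_mul_eq_div, le_div_iff₀ hc, mul_comm]
  exact h1

private theorem lift_norm_mul {g : F m →L[ℝ] F m} (hg : ∀ x, ‖g x‖ = ‖x‖)
    (A : F m →L[ℝ] F m) : ‖g * A‖ = ‖A‖ := by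
  apply le_antisymm
  · apply ContinuousLinearMap.opNorm_le_bound _ (norm_nonneg _)
    intro x
    change ‖g (A x)‖ ≤ _
    rw [hg]
    exact A.le_opNorm x
  · apply ContinuousLinearMap.opNorm_le_bound _ (norm_nonneg _)
    intro x
    rw [← hg (A x)]
    exact (g * A).le_opNorm x

end Lift

theorem liftStmt (h4 : RetrStmt) (h5 : IsoLocalStmt) : LiftStmt := by
  intro m N N₀ h ρ
  have hG := lift_group h
  obtain ⟨δ, hδ, r, hrc, hr⟩ := h4 m (liftG N₀) hG
  obtain ⟨c, C, hc, hC, hb⟩ := lift_bounds h ρ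
  choose e he using h.iso
  have he' : ∀ ω, e ω ∈ isoSet N N₀ ω := he
  -- the domain
  let D : Set (F m →L[ℝ] F m) := {A | ∃ g ∈ liftG N₀, ‖A - g‖ < δ}
  have hD : ∀ g ∈ liftG N₀, ∀ A ∈ D, g * A ∈ D := by
    rintro g hg A ⟨k, hk, hk2⟩
    refine ⟨g * k, hG.mul g hg k hk, ?_⟩
    rw [← mul_sub, lift_norm_mul (hG.isom g hg)]
    exact hk2
  let R : F m → (F m →L[ℝ] F m) → (F m →L[ℝ] F m) := fun ω S => e ω * r (Ring.inverse (e ω) * S)
  have hR1 : ∀ ω S, Ring.inverse (e ω) * S ∈ D → R ω S ∈ isoSet N N₀ ω := by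
    intro ω S hS
    exact lift_comp (he' ω) (hr _ hS).1
  -- independence
  have hR2 : ∀ ω S T, T ∈ isoSet N N₀ ω → Ring.inverse (e ω) * S ∈ D →
      Ring.inverse T * S ∈ D ∧ R ω S = T * r (Ring.inverse T * S) := by
    intro ω S T hT hS
    have hu := lift_unit h hT
    have hue := lift_unit h (he' ω)
    have hg1 : Ring.inverse T * e ω ∈ liftG N₀ := lift_trans h hT (he' ω)
    have h1 : Ring.inverse T * S = (Ring.inverse T * e ω) * (Ring.inverse (e ω) * S) := by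
      rw [mul_assoc, ← mul_assoc (e ω), lift_mul_inv hue, one_mul]
    refine ⟨by rw [h1]; exact hD _ hg1 _ hS, ?_⟩
    rw [h1, (hr _ hS).2 _ hg1, ← mul_assoc, ← mul_assoc, lift_mul_inv hu, one_mul]
  -- continuity
  have hR3 : ∀ (p : F m → F m) (S : F m → (F m →L[ℝ] F m)), Continuous p →
      (∀ ω, ‖ω‖ ≤ ρ → ‖p ω‖ ≤ ρ) → ContinuousOn S (Metric.closedBall 0 ρ) →
      (∀ ω, ‖ω‖ ≤ ρ → Ring.inverse (e (p ω)) * S ω ∈ D) →
      ContinuousOn (fun ω => R (p ω) (S ω)) (Metric.closedBall 0 ρ) := by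
    intro p S hp hpρ hSc hSD ω hω
    have hω' : ‖ω‖ ≤ ρ := by simpa using hω
    apply tendsto_of_subseq_tendsto
    intro u hu
    rw [tendsto_nhdsWithin_iff] at hu
    obtain ⟨hu1, hu2⟩ := hu
    obtain ⟨n₀, hn₀⟩ := eventually_atTop.1 hu2
    let v : ℕ → F m := fun n => u (n + n₀)
    have hv1 : Tendsto v atTop (𝓝 ω) := hu1.comp (tendsto_add_atTop_nat n₀)
    have hv2 : ∀ n, v n ∈ Metric.closedBall (0 : F m) ρ := fun n => hn₀ _ (Nat.le_add_left _ _)
    have hv3 : ∀ n, ‖v n‖ ≤ ρ := fun n => by simpa using hv2 n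
    have hbd : ∀ n, e (p (v n)) ∈ Metric.closedBall (0 : F m →L[ℝ] F m) C := by
      intro n
      rw [mem_closedBall_zero_iff]
      apply ContinuousLinearMap.opNorm_le_bound _ hC.le
      intro x
      exact (hb (p (v n)) (hpρ _ (hv3 n)) _ (he' _) x).2
    obtain ⟨T, _, φ, hφ, hT⟩ := (isCompact_closedBall (0 : F m →L[ℝ] F m) C).tendsto_subseq hbd
    refine ⟨fun n => φ n + n₀, ?_⟩
    have hw1 : Tendsto (fun n => v (φ n)) atTop (𝓝 ω) := hv1.comp hφ.tendsto_atTop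
    have hTiso : T ∈ isoSet N N₀ (p ω) :=
      lift_lim h (fun n => he' (p (v (φ n)))) ((hp.tendsto ω).comp hw1) hT
    have hSl : Tendsto (fun n => S (v (φ n))) atTop (𝓝 (S ω)) := by
      have h1 := hSc ω hω
      exact h1.tendsto.comp (tendsto_nhdsWithin_iff.2 ⟨hw1, Eventually.of_forall fun n => hv2 _⟩)
    have hinv : Tendsto (fun n => Ring.inverse (e (p (v (φ n))))) atTop (𝓝 (Ring.inverse T)) := by
      obtain ⟨w, hw⟩ := lift_unit h hTiso
      have h1 := NormedRing.inverse_continuousAt w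
      rw [hw] at h1
      exact h1.tendsto.comp hT
    obtain ⟨h2, h3⟩ := hR2 (p ω) (S ω) T hTiso (hSD ω hω')
    have h4 : Tendsto (fun n => r (Ring.inverse (e (p (v (φ n)))) * S (v (φ n)))) atTop
        (𝓝 (r (Ring.inverse T * S ω))) :=
      (hrc _ h2).tendsto.comp (tendsto_nhdsWithin_iff.2
        ⟨hinv.mul hSl, Eventually.of_forall fun n => hSD _ (hv3 _)⟩)
    have h5 := hT.mul h4
    rw [← h3] at h5
    exact h5
  -- the chain
  obtain ⟨η, hη, hloc⟩ := h5 m N N₀ h ρ (c * δ / 2) (by positivity)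
  obtain ⟨K, hK⟩ := exists_nat_gt (|ρ| / η)
  have hK0 : (0 : ℝ) < K := lt_of_le_of_lt (by positivity) hK
  have hKη : |ρ| / K < η := by
    rw [div_lt_iff₀ hK0]
    rw [div_lt_iff₀ hη] at hK
    linarith
  have main : ∀ k : ℕ, k ≤ K → ∃ S : F m → (F m →L[ℝ] F m),
      ContinuousOn S (Metric.closedBall 0 ρ) ∧
      ∀ ω : F m, ‖ω‖ ≤ ρ → S ω ∈ isoSet N N₀ (((k : ℝ) / K) • ω) := by
    intro k
    induction k with
    | zero =>
      intro _
      refine ⟨fun _ => e 0, continuousOn_const, fun ω _ => ?_⟩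
      simpa using he' 0
    | succ k ih =>
      intro hk
      obtain ⟨S, hS1, hS2⟩ := ih (by omega)
      have hp : ∀ j : ℕ, j ≤ K → ∀ ω : F m, ‖ω‖ ≤ ρ → ‖((j : ℝ) / K) • ω‖ ≤ ρ := by
        intro j hj ω hω
        rw [norm_smul, Real.norm_eq_abs, abs_of_nonneg (by positivity)]
        have h1 : (j : ℝ) / K ≤ 1 := by
          rw [div_le_one hK0]
          exact_mod_cast hj
        calc (j : ℝ) / K * ‖ω‖ ≤ 1 * ‖ω‖ := mul_le_mul_of_nonneg_right h1 (norm_nonneg _)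
          _ ≤ ρ := by rw [one_mul]; exact hω
      have hSD : ∀ ω, ‖ω‖ ≤ ρ →
          Ring.inverse (e ((((k + 1 : ℕ) : ℝ) / K) • ω)) * S ω ∈ D := by
        intro ω hω
        obtain ⟨S', hS', hS''⟩ := hloc (((k : ℝ) / K) • ω) ((((k + 1 : ℕ) : ℝ) / K) • ω)
          (hp k (by omega) ω hω) (hp (k + 1) hk ω hω) (by
            rw [← sub_smul, norm_smul]
            have h1 : (k : ℝ) / K - ((k + 1 : ℕ) : ℝ) / K = - (1 / K) := by
              push_cast
              ring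
            rw [h1, norm_neg, Real.norm_eq_abs, abs_of_nonneg (by positivity)]
            have h2 : ‖ω‖ ≤ |ρ| := hω.trans (le_abs_self ρ)
            calc 1 / (K : ℝ) * ‖ω‖ ≤ 1 / (K : ℝ) * |ρ| :=
                  mul_le_mul_of_nonneg_left h2 (by positivity)
              _ = |ρ| / K := by ring
              _ < η := hKη) (S ω) (hS2 ω hω)
        refine ⟨_, lift_trans h (he' _) hS', ?_⟩
        rw [← mul_sub]
        have h1 := lift_inv_norm h hc (he' ((((k + 1 : ℕ) : ℝ) / K) • ω))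
          (fun x => (hb _ (hp (k + 1) hk ω hω) _ (he' _) x).1)
        calc _ ≤ ‖Ring.inverse (e ((((k + 1 : ℕ) : ℝ) / K) • ω))‖ * ‖S ω - S'‖ :=
              norm_mul_le _ _
          _ ≤ (1 / c) * (c * δ / 2) :=
              mul_le_mul h1 hS''.le (norm_nonneg _) (by positivity)
          _ = δ / 2 := by field_simp
          _ < δ := by linarith
      refine ⟨fun ω => R ((((k + 1 : ℕ) : ℝ) / K) • ω) (S ω), ?_, ?_⟩
      · exact hR3 (fun ω => (((k + 1 : ℕ) : ℝ) / K) • ω) S (continuous_const_smul _)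
          (fun ω hω => hp (k + 1) hk ω hω) hS1 hSD
      · intro ω hω
        exact hR1 _ _ (hSD ω hω)
  obtain ⟨S, hS1, hS2⟩ := main K le_rfl
  refine ⟨S, hS1, fun ω hω => ?_⟩
  have := hS2 ω hω
  rwa [div_self hK0.ne', one_smul] at this

end Pool.Agent.Lib.MP_5c4da9_an
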