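import Pool.Agent.Lib.MP_5c4da9_an.Defs

/-! # B3: the finite sets of projections vary continuously (MP_5c4da9_an). -/

set_option autoImplicit false

open Set Filter Topology Module

noncomputable section

namespace Pool.Agent.Lib.MP_5c4da9_an

namespace Localaux

/-! ### Norms on finite-dimensional spaces -/

section NormFacts

variable {V : Type*} [NormedAddCommGroup V] [NormedSpace ℝ V]

theorem isNorm_zero {N : V → ℝ} (h : IsNorm N) : N 0 = 0 := by
  have := h.smul 0 0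
  simpa using this

theorem isNorm_nonneg {N : V → ℝ} (h : IsNorm N) (x : V) : 0 ≤ N x := by
  by_cases hx : x = 0
  · rw [hx, isNorm_zero h]
  · exact (h.pos x hx).le

theorem isNorm_convexOn {N : V → ℝ} (h : IsNorm N) : ConvexOn ℝ Set.univ N := by
  refine ⟨convex_univ, ?_⟩
  intro x _ y _ a b ha hb _
  calc N (a • x + b • y) ≤ N (a • x) + N (b • y) := h.add _ _
    _ = a • N x + b • N y := by
      rw [h.smul, h.smul, abs_of_nonneg ha, abs_of_nonneg hb, smul_eq_mul, smul_eq_mul]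

theorem isNorm_continuous [FiniteDimensional ℝ V] {N : V → ℝ} (h : IsNorm N) :
    Continuous N := by
  rw [← continuousOn_univ]
  exact (isNorm_convexOn h).continuousOn isOpen_univ

theorem isNorm_bounds [FiniteDimensional ℝ V] {N : V → ℝ} (h : IsNorm N) :
    ∃ c C : ℝ, 0 < c ∧ 0 < C ∧ ∀ x, c * ‖x‖ ≤ N x ∧ N x ≤ C * ‖x‖ := by
  have hc := isNorm_continuous h
  by_cases hne : (Metric.sphere (0 : V) 1).Nonempty
  · have hcomp : IsCompact (Metric.sphere (0 : V) 1) := isCompact_sphere 0 1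
    obtain ⟨a, ha, hamin⟩ := hcomp.exists_isMinOn hne hc.continuousOn
    obtain ⟨b, hb, hbmax⟩ := hcomp.exists_isMaxOn hne hc.continuousOn
    have ha1 : ‖a‖ = 1 := by simpa using ha
    have hb1 : ‖b‖ = 1 := by simpa using hb
    have ha0 : a ≠ 0 := by intro h0; rw [h0, norm_zero] at ha1; exact zero_ne_one ha1
    have hb0 : b ≠ 0 := by intro h0; rw [h0, norm_zero] at hb1; exact zero_ne_one hb1
    refine ⟨N a, N b, h.pos a ha0, h.pos b hb0, ?_⟩
    intro x
    by_cases hx : x = 0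
    · rw [hx, isNorm_zero h, norm_zero, mul_zero, mul_zero]; exact ⟨le_refl _, le_refl _⟩
    · have hx0 : 0 < ‖x‖ := norm_pos_iff.2 hx
      have hmem : ‖x‖⁻¹ • x ∈ Metric.sphere (0 : V) 1 := by
        rw [mem_sphere_zero_iff_norm, norm_smul, norm_inv, norm_norm, inv_mul_cancel₀ hx0.ne']
      have h1 : N a ≤ N (‖x‖⁻¹ • x) := hamin hmem
      have h2 : N (‖x‖⁻¹ • x) ≤ N b := hbmax hmem
      rw [h.smul, abs_of_pos (inv_pos.2 hx0)] at h1 h2
      constructor
      · calc N a * ‖x‖ ≤ (‖x‖⁻¹ * N x) * ‖x‖ := mul_le_mul_of_nonneg_right h1 hx0.le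
          _ = N x := by field_simp
      · calc N x = (‖x‖⁻¹ * N x) * ‖x‖ := by field_simp
          _ ≤ N b * ‖x‖ := mul_le_mul_of_nonneg_right h2 hx0.le
  · refine ⟨1, 1, one_pos, one_pos, ?_⟩
    intro x
    have hx : x = 0 := by
      by_contra hx
      have hx0 : 0 < ‖x‖ := norm_pos_iff.2 hx
      exact hne ⟨‖x‖⁻¹ • x, by
        rw [mem_sphere_zero_iff_norm, norm_smul, norm_inv, norm_norm, inv_mul_cancel₀ hx0.ne']⟩
    rw [hx, isNorm_zero h, norm_zero, mul_zero]; exact ⟨le_refl _, le_refl _⟩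

end NormFacts

variable {m : ℕ} {N : ℝ × F m → ℝ} {N₀ : F m → ℝ}

/-! ### The parametrizations -/

theorem iso_upper (h : Data m N N₀) : ∃ C : ℝ, 0 < C ∧
    ∀ ω : F m, ∀ S ∈ isoSet N N₀ ω, ∀ x, ‖S x‖ ≤ C * ‖x‖ := by
  obtain ⟨c, C, hc, hC, hb⟩ := isNorm_bounds h.norm
  obtain ⟨c', C', hc', hC', hb'⟩ := isNorm_bounds h.norm₀
  refine ⟨C' / c, by positivity, ?_⟩
  intro ω S hS x
  have h1 := (hb (-(inner ℝ ω (S x)), S x)).1
  rw [hS x] at h1
  have h2 := (hb' x).2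
  have h3 : ‖S x‖ ≤ ‖((-(inner ℝ ω (S x)), S x) : ℝ × F m)‖ := norm_snd_le
    ((-(inner ℝ ω (S x)), S x) : ℝ × F m)
  have h4 : c * ‖S x‖ ≤ C' * ‖x‖ :=
    (mul_le_mul_of_nonneg_left h3 hc.le).trans (h1.trans h2)
  rw [div_mul_eq_mul_div, le_div_iff₀ hc]
  linarith

theorem iso_lower (h : Data m N N₀) (ρ : ℝ) : ∃ c : ℝ, 0 < c ∧
    ∀ ω : F m, ‖ω‖ ≤ ρ → ∀ S ∈ isoSet N N₀ ω, ∀ x, c * ‖x‖ ≤ ‖S x‖ := by
  obtain ⟨c, C, hc, hC, hb⟩ := isNorm_bounds h.norm
  obtain ⟨c', C', hc', hC', hb'⟩ := isNorm_bounds h.norm₀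
  refine ⟨c' / (C * (|ρ| + 1)), by positivity, ?_⟩
  intro ω hω S hS x
  have h1 := (hb (-(inner ℝ ω (S x)), S x)).2
  rw [hS x] at h1
  have h2 := (hb' x).1
  have h3 : ‖((-(inner ℝ ω (S x)), S x) : ℝ × F m)‖ ≤ (|ρ| + 1) * ‖S x‖ := by
    rw [Prod.norm_def]
    apply max_le
    · show ‖-(inner ℝ ω (S x))‖ ≤ _
      rw [norm_neg, Real.norm_eq_abs]
      calc |inner ℝ ω (S x)| ≤ ‖ω‖ * ‖S x‖ := abs_real_inner_le_norm _ _
        _ ≤ (|ρ| + 1) * ‖S x‖ := by
          apply mul_le_mul_of_nonneg_right _ (norm_nonneg _)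
          have := le_abs_self ρ
          linarith
    · show ‖S x‖ ≤ _
      have := norm_nonneg (S x)
      have := abs_nonneg ρ
      nlinarith
  have h4 : c' * ‖x‖ ≤ C * ((|ρ| + 1) * ‖S x‖) :=
    h2.trans (h1.trans (mul_le_mul_of_nonneg_left h3 hC.le))
  rw [div_mul_eq_mul_div, div_le_iff₀ (by positivity)]
  linarith

theorem iso_injective (h : Data m N N₀) {ω : F m} {S : F m →L[ℝ] F m}
    (hS : S ∈ isoSet N N₀ ω) : Function.Injective S := by
  obtain ⟨c, hc, hb⟩ := iso_lower h ‖ω‖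
  rw [injective_iff_map_eq_zero]
  intro x hx
  have h1 := hb ω le_rfl S hS x
  rw [hx, norm_zero] at h1
  have h2 : ‖x‖ ≤ 0 := by
    by_contra hcon
    push Not at hcon
    have := mul_pos hc hcon
    linarith
  exact norm_le_zero_iff.1 h2

theorem iso_surjective (h : Data m N N₀) {ω : F m} {S : F m →L[ℝ] F m}
    (hS : S ∈ isoSet N N₀ ω) : Function.Surjective S :=
  LinearMap.surjective_of_injective (f := (S : F m →ₗ[ℝ] F m)) (iso_injective h hS)

/-- The inverse of a parametrization. -/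
theorem exists_inv {S : F m →L[ℝ] F m} (hS : Function.Injective S) :
    ∃ T : F m →L[ℝ] F m, (∀ x, T (S x) = x) ∧ ∀ x, S (T x) = x := by
  let e : F m ≃ₗ[ℝ] F m := LinearEquiv.ofInjectiveEndo (S : F m →ₗ[ℝ] F m) hS
  refine ⟨(e.toContinuousLinearEquiv.symm : F m →L[ℝ] F m), ?_, ?_⟩
  · intro x
    have : e x = S x := rfl
    rw [← this]
    exact e.symm_apply_apply x
  · intro x
    have h1 : ∀ y, e y = S y := fun y => rfl
    rw [← h1]
    exact e.apply_symm_apply x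

theorem eq_of_comp_eq (h : Data m N N₀) {ω : F m} {S A B : F m →L[ℝ] F m}
    (hS : S ∈ isoSet N N₀ ω) (hAB : A.comp S = B.comp S) : A = B := by
  ext1 y
  obtain ⟨x, rfl⟩ := iso_surjective h hS y
  exact congrArg (fun T : F m →L[ℝ] F m => T x) hAB

/-- Two parametrizations differ by an isometry of `N₀`. -/
theorem exists_g (h : Data m N N₀) {ω : F m} {S S' : F m →L[ℝ] F m}
    (hS : S ∈ isoSet N N₀ ω) (hS' : S' ∈ isoSet N N₀ ω) :
    ∃ g : F m →L[ℝ] F m, (∀ x, N₀ (g x) = N₀ x) ∧ S' = S.comp g := by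
  obtain ⟨T, hT1, hT2⟩ := exists_inv (iso_injective h hS)
  refine ⟨T.comp S', ?_, ?_⟩
  · intro x
    have h1 := hS ((T.comp S') x)
    rw [← h1]
    have h2 : S ((T.comp S') x) = S' x := hT2 (S' x)
    rw [h2]
    exact hS' x
  · ext1 x
    exact (hT2 (S' x)).symm

theorem comp_mem {ω : F m} {S g : F m →L[ℝ] F m} (hS : S ∈ isoSet N N₀ ω)
    (hg : ∀ x, N₀ (g x) = N₀ x) : S.comp g ∈ isoSet N N₀ ω := by
  intro x
  exact (hS (g x)).trans (hg x)

/-! ### The reflection axes -/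

theorem inner_self_of_unit {v : F m} (hv : ‖v‖ = 1) : inner ℝ v v = (1 : ℝ) := by
  rw [real_inner_self_eq_norm_sq, hv]; norm_num

theorem inner_rfl_rfl {v : F m} (hv : ‖v‖ = 1) (x y : F m) :
    inner ℝ (rfl' v x) (rfl' v y) = inner ℝ x y := by
  unfold rfl'
  simp only [inner_sub_left, inner_sub_right, real_inner_smul_left, real_inner_smul_right,
    inner_self_of_unit hv]
  rw [real_inner_comm v x]
  ring

theorem rfl_rfl {v : F m} (hv : ‖v‖ = 1) (x : F m) : rfl' v (rfl' v x) = x := by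
  unfold rfl'
  simp only [inner_sub_right, real_inner_smul_right, inner_self_of_unit hv]
  module

theorem norm_rfl {v : F m} (hv : ‖v‖ = 1) (x : F m) : ‖rfl' v x‖ = ‖x‖ := by
  have h := inner_rfl_rfl hv x x
  rw [real_inner_self_eq_norm_sq, real_inner_self_eq_norm_sq] at h
  exact (sq_eq_sq₀ (norm_nonneg _) (norm_nonneg _)).1 h

theorem rfl_conj {v : F m} (hv : ‖v‖ = 1) (w x : F m) :
    rfl' (rfl' v w) x = rfl' v (rfl' w (rfl' v x)) := by
  have h1 : inner ℝ w (rfl' v x) = inner ℝ (rfl' v w) x := by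
    have := inner_rfl_rfl hv w (rfl' v x)
    rw [rfl_rfl hv] at this
    exact this.symm
  have h2 : rfl' v (rfl' w (rfl' v x)) =
      rfl' v (rfl' v x) - (2 * inner ℝ w (rfl' v x)) • rfl' v w := by
    unfold rfl'
    simp only [inner_sub_right, real_inner_smul_right]
    module
  rw [h2, rfl_rfl hv, h1]
  rfl

theorem continuous_rfl (x : F m) : Continuous fun v : F m => rfl' v x := by
  unfold rfl'
  fun_prop

theorem rs_isReflSet (h : Data m N N₀) : IsReflSet (RS N₀) := by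
  refine ⟨?_, fun v hv => hv.1, ?_, ?_⟩
  · have hc := isNorm_continuous h.norm₀
    have : RS N₀ = {v : F m | ‖v‖ = 1} ∩ ⋂ x : F m, {v : F m | N₀ (rfl' v x) = N₀ x} := by
      ext v; simp [RS]
    rw [this]
    refine (isClosed_eq continuous_norm continuous_const).inter (isClosed_iInter ?_)
    intro x
    exact isClosed_eq (hc.comp (continuous_rfl x)) continuous_const
  · intro v hv
    refine ⟨by rw [norm_neg]; exact hv.1, ?_⟩
    intro x
    have : rfl' (-v) x = rfl' v x := by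
      unfold rfl'
      rw [inner_neg_left]
      module
    rw [this]
    exact hv.2 x
  · intro v hv w hw
    refine ⟨by rw [norm_rfl hv.1]; exact hw.1, ?_⟩
    intro x
    rw [rfl_conj hv.1, hv.2, hw.2, hv.2]

/-! ### Isometries of `N₀` permute the maximal subspaces -/

/-- An isometry of `N₀` as a linear isometric equivalence. -/
theorem exists_lie (h : Data m N N₀) {g : F m →L[ℝ] F m} (hg : ∀ x, N₀ (g x) = N₀ x) :
    ∃ f : F m ≃ₗᵢ[ℝ] F m, ∀ x, f x = g x := by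
  have hn := h.orth g hg
  let l : F m →ₗᵢ[ℝ] F m := ⟨(g : F m →ₗ[ℝ] F m), hn⟩
  refine ⟨l.toLinearIsometryEquiv rfl, ?_⟩
  intro x
  rfl

theorem map_mem_rs {f : F m ≃ₗᵢ[ℝ] F m} (hf : ∀ x, N₀ (f x) = N₀ x) {v : F m}
    (hv : v ∈ RS N₀) : f v ∈ RS N₀ := by
  refine ⟨by rw [f.norm_map]; exact hv.1, ?_⟩
  intro y
  obtain ⟨x, rfl⟩ := f.surjective y
  have : rfl' (f v) (f x) = f (rfl' v x) := by
    unfold rfl'
    rw [f.inner_map_map, map_sub, map_smul]
  rw [this, hf, hf, hv.2]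

theorem symm_pres {f : F m ≃ₗᵢ[ℝ] F m} (hf : ∀ x, N₀ (f x) = N₀ x) (x : F m) :
    N₀ (f.symm x) = N₀ x := by
  have := hf (f.symm x)
  rw [f.apply_symm_apply] at this
  exact this.symm

theorem full_map {f : F m ≃ₗᵢ[ℝ] F m} (hf : ∀ x, N₀ (f x) = N₀ x)
    {W : Submodule ℝ (F m)} (hW : Full (RS N₀) W) :
    Full (RS N₀) (W.map (f.toLinearEquiv : F m →ₗ[ℝ] F m)) := by
  intro v hv hv1
  obtain ⟨w, hw, rfl⟩ := (Submodule.mem_map).1 hv
  have h1 : ‖w‖ = 1 := by
    have : ‖f w‖ = 1 := hv1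
    rwa [f.norm_map] at this
  exact map_mem_rs hf (hW w hw h1)

theorem map_map_symm (f : F m ≃ₗᵢ[ℝ] F m) (W : Submodule ℝ (F m)) :
    (W.map (f.symm.toLinearEquiv : F m →ₗ[ℝ] F m)).map (f.toLinearEquiv : F m →ₗ[ℝ] F m) = W := by
  rw [← Submodule.map_comp]
  have : ((f.toLinearEquiv : F m →ₗ[ℝ] F m)).comp (f.symm.toLinearEquiv : F m →ₗ[ℝ] F m) =
      LinearMap.id := by
    ext1 x
    exact f.apply_symm_apply x
  rw [this, Submodule.map_id]

theorem map_mem_maxSub {f : F m ≃ₗᵢ[ℝ] F m} (hf : ∀ x, N₀ (f x) = N₀ x)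
    {W : Submodule ℝ (F m)} (hW : W ∈ MaxSub (RS N₀)) :
    W.map (f.toLinearEquiv : F m →ₗ[ℝ] F m) ∈ MaxSub (RS N₀) := by
  obtain ⟨h0, h1, h2⟩ := hW
  refine ⟨?_, full_map hf h1, ?_⟩
  · intro hbot
    apply h0
    rw [Submodule.map_eq_bot_iff] at hbot
    exact hbot
  · intro W' hW' hle
    have h3 : Full (RS N₀) (W'.map (f.symm.toLinearEquiv : F m →ₗ[ℝ] F m)) :=
      full_map (f := f.symm) (symm_pres hf) hW'
    have h4 : W ≤ W'.map (f.symm.toLinearEquiv : F m →ₗ[ℝ] F m) := by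
      intro w hw
      have h5 : f w ∈ W' := hle (Submodule.mem_map_of_mem hw)
      have h6 := Submodule.mem_map_of_mem (f := (f.symm.toLinearEquiv : F m →ₗ[ℝ] F m)) h5
      have h7 : (f.symm.toLinearEquiv : F m →ₗ[ℝ] F m) (f w) = w := f.symm_apply_apply w
      rwa [h7] at h6
    have h8 := h2 _ h3 h4
    rw [← h8, map_map_symm]

/-- `P_{gW} g = g P_W`. -/
theorem starProjection_map (f : F m ≃ₗᵢ[ℝ] F m) (W : Submodule ℝ (F m)) (x : F m) :
    (W.map (f.toLinearEquiv : F m →ₗ[ℝ] F m)).starProjection (f x) = f (W.starProjection x) := by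
  rw [Submodule.starProjection_map_apply, f.symm_apply_apply]

/-- Transport of a member of `QQ` to another parametrization. -/
theorem transport (h : Data m N N₀) {ω : F m} {S S' q : F m →L[ℝ] F m}
    (hS : S ∈ isoSet N N₀ ω) (hS' : S' ∈ isoSet N N₀ ω) {W : Submodule ℝ (F m)}
    (hW : W ∈ MaxSub (RS N₀)) (hq : q.comp S' = S'.comp W.starProjection) :
    ∃ W' ∈ MaxSub (RS N₀), q.comp S = S.comp W'.starProjection := by
  obtain ⟨g, hg, rfl⟩ := exists_g h hS hS'
  obtain ⟨f, hf⟩ := exists_lie h hg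
  have hf0 : ∀ x, N₀ (f x) = N₀ x := fun x => by rw [hf]; exact hg x
  refine ⟨W.map (f.toLinearEquiv : F m →ₗ[ℝ] F m), map_mem_maxSub hf0 hW, ?_⟩
  ext1 y
  obtain ⟨x, rfl⟩ := f.surjective y
  have h1 : q (S (g x)) = S (g (W.starProjection x)) :=
    congrArg (fun T : F m →L[ℝ] F m => T x) hq
  show q (S (f x)) = S ((W.map (f.toLinearEquiv : F m →ₗ[ℝ] F m)).starProjection (f x))
  rw [starProjection_map, hf, hf]
  exact h1

/-! ### The three claims -/

theorem claim_one (h : Data m N N₀) (ω : F m) (q : F m →L[ℝ] F m) (hq : q ∈ QQ N N₀ ω) :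
    q.comp q = q := by
  obtain ⟨S, hS, W, _, hqS⟩ := hq
  apply eq_of_comp_eq h hS
  have hP : (W.starProjection).comp W.starProjection = W.starProjection := by
    ext1 x
    show W.starProjection (W.starProjection x) = W.starProjection x
    exact (Submodule.starProjection_eq_self_iff).2 (Submodule.starProjection_apply_mem W x)
  rw [ContinuousLinearMap.comp_assoc, hqS, ← ContinuousLinearMap.comp_assoc, hqS,
    ContinuousLinearMap.comp_assoc, hP]

theorem opNorm_le_of_comp {S A : F m →L[ℝ] F m} {c : ℝ} (hc : 0 < c)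
    (hlow : ∀ x, c * ‖x‖ ≤ ‖S x‖) (hsurj : Function.Surjective S) :
    ‖A‖ ≤ ‖A.comp S‖ / c := by
  apply ContinuousLinearMap.opNorm_le_bound _ (by positivity)
  intro y
  obtain ⟨x, rfl⟩ := hsurj y
  calc ‖A (S x)‖ = ‖(A.comp S) x‖ := rfl
    _ ≤ ‖A.comp S‖ * ‖x‖ := ContinuousLinearMap.le_opNorm _ _
    _ ≤ ‖A.comp S‖ * (‖S x‖ / c) := by
      apply mul_le_mul_of_nonneg_left _ (norm_nonneg _)
      rw [le_div_iff₀ hc]
      have := hlow x
      linarith
    _ = ‖A.comp S‖ / c * ‖S x‖ := by ring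

theorem claim_two (h : Data m N N₀) (hfin : (MaxSub (RS N₀)).Finite) (ρ : ℝ) :
    ∃ δ : ℝ, 0 < δ ∧ ∀ ω : F m, ‖ω‖ ≤ ρ → ∀ q ∈ QQ N N₀ ω, ∀ q' ∈ QQ N N₀ ω, q ≠ q' →
    δ ≤ ‖q - q'‖ := by
  obtain ⟨C, hC, hup⟩ := iso_upper h
  obtain ⟨c, hc, hlow⟩ := iso_lower h ρ
  -- the minimal distance of distinct projections
  have hmin : ∃ δ₀ : ℝ, 0 < δ₀ ∧ ∀ W ∈ MaxSub (RS N₀), ∀ W' ∈ MaxSub (RS N₀),
      W.starProjection ≠ W'.starProjection → δ₀ ≤ ‖W.starProjection - W'.starProjection‖ := by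
    let P : Set (Submodule ℝ (F m) × Submodule ℝ (F m)) :=
      {p | p ∈ MaxSub (RS N₀) ×ˢ MaxSub (RS N₀) ∧ p.1.starProjection ≠ p.2.starProjection}
    have hP : P.Finite := (hfin.prod hfin).subset fun p hp => hp.1
    by_cases hne : P.Nonempty
    · obtain ⟨p, hp, hpmin⟩ := Set.exists_min_image P
        (fun p => ‖p.1.starProjection - p.2.starProjection‖) hP hne
      refine ⟨‖p.1.starProjection - p.2.starProjection‖, ?_, ?_⟩
      · rw [norm_pos_iff, sub_ne_zero]; exact hp.2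
      · intro W hW W' hW' hne'
        exact hpmin (W, W') ⟨⟨hW, hW'⟩, hne'⟩
    · refine ⟨1, one_pos, ?_⟩
      intro W hW W' hW' hne'
      exact absurd ⟨(W, W'), ⟨hW, hW'⟩, hne'⟩ hne
  obtain ⟨δ₀, hδ₀, hmin⟩ := hmin
  refine ⟨δ₀ * c / C, by positivity, ?_⟩
  intro ω hω q hq q' hq' hqq
  obtain ⟨S, hS, W, hW, hqS⟩ := hq
  obtain ⟨S', hS', W', hW', hqS'⟩ := hq'
  obtain ⟨W'', hW'', hq''⟩ := transport h hS hS' hW' hqS'
  have hdiff : (q - q').comp S = S.comp (W.starProjection - W''.starProjection) := by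
    rw [ContinuousLinearMap.sub_comp, ContinuousLinearMap.comp_sub, hqS, hq'']
  have hPne : W.starProjection ≠ W''.starProjection := by
    intro heq
    apply hqq
    apply eq_of_comp_eq h hS
    rw [hqS, hq'', heq]
  have h1 : δ₀ ≤ ‖W.starProjection - W''.starProjection‖ := hmin W hW W'' hW'' hPne
  have h2 : ‖W.starProjection - W''.starProjection‖ ≤ ‖q - q'‖ * C / c := by
    apply ContinuousLinearMap.opNorm_le_bound _ (by positivity)
    intro x
    have h3 := hlow ω hω S hS ((W.starProjection - W''.starProjection) x)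
    have h4 : S ((W.starProjection - W''.starProjection) x) = (q - q') (S x) :=
      (congrArg (fun T : F m →L[ℝ] F m => T x) hdiff).symm
    rw [h4] at h3
    have h5 : ‖(q - q') (S x)‖ ≤ ‖q - q'‖ * (C * ‖x‖) :=
      ((q - q').le_opNorm (S x)).trans
        (mul_le_mul_of_nonneg_left (hup ω S hS x) (norm_nonneg _))
    rw [div_mul_eq_mul_div, le_div_iff₀ hc]
    linarith
  rw [div_le_iff₀ hC]
  have h6 := h1.trans h2
  rw [le_div_iff₀ hc] at h6
  linarith

theorem mem_isoSet_of_tendsto (h : Data m N N₀) {w : ℕ → F m} {T : ℕ → (F m →L[ℝ] F m)}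
    {ω : F m} {S : F m →L[ℝ] F m} (hw : Tendsto w atTop (𝓝 ω)) (hT : Tendsto T atTop (𝓝 S))
    (hmem : ∀ i, T i ∈ isoSet N N₀ (w i)) : S ∈ isoSet N N₀ ω := by
  intro x
  have hcont := isNorm_continuous h.norm
  have hTx : Tendsto (fun i => T i x) atTop (𝓝 (S x)) :=
    ((ContinuousLinearMap.apply ℝ (F m) x).continuous.tendsto S).comp hT
  have h1 : Tendsto (fun i => N (-(inner ℝ (w i) (T i x)), T i x)) atTop
      (𝓝 (N (-(inner ℝ ω (S x)), S x))) := by
    apply (hcont.tendsto _).comp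
    exact ((hw.inner hTx).neg).prodMk_nhds hTx
  have h2 : (fun i => N (-(inner ℝ (w i) (T i x)), T i x)) = fun _ => N₀ x := by
    funext i
    exact hmem i x
  rw [h2] at h1
  exact tendsto_nhds_unique h1 tendsto_const_nhds

/-- The space of the data of one step. -/
abbrev MM (m : ℕ) := F m × F m × (F m →L[ℝ] F m) × (F m →L[ℝ] F m) × (F m →L[ℝ] F m) ×
  (F m →L[ℝ] F m)

theorem claim_three (h : Data m N N₀) (ρ ε : ℝ) (hε : 0 < ε) :
    ∃ η : ℝ, 0 < η ∧ ∀ ω ω' : F m, ‖ω‖ ≤ ρ → ‖ω'‖ ≤ ρ → ‖ω - ω'‖ < η →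
    ∀ q ∈ QQ N N₀ ω, ∃ q' ∈ QQ N N₀ ω', ‖q - q'‖ < ε := by
  obtain ⟨C, hC, hup⟩ := iso_upper h
  obtain ⟨c, hc, hlow⟩ := iso_lower h ρ
  by_contra hcon
  push Not at hcon
  have hseq : ∀ i : ℕ, ∃ ω ω' : F m, ‖ω‖ ≤ ρ ∧ ‖ω'‖ ≤ ρ ∧ ‖ω - ω'‖ < 1 / ((i : ℝ) + 1) ∧
      ∃ q ∈ QQ N N₀ ω, ∀ q' ∈ QQ N N₀ ω', ε ≤ ‖q - q'‖ := by
    intro i
    obtain ⟨ω, ω', h1, h2, h3, q, hq, h4⟩ := hcon (1 / ((i : ℝ) + 1)) (by positivity)
    exact ⟨ω, ω', h1, h2, h3, q, hq, h4⟩
  choose w w' hw hw' hww q hq hqq using hseq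
  have hq2 : ∀ i, ∃ S ∈ isoSet N N₀ (w i), ∃ W ∈ MaxSub (RS N₀),
      (q i).comp S = S.comp W.starProjection := fun i => hq i
  choose S hS W hW hqS using hq2
  choose S' hS' using fun i => h.iso (w' i)
  have hS'mem : ∀ i, S' i ∈ isoSet N N₀ (w' i) := fun i => hS' i
  -- bounds
  have hSn : ∀ i, ‖S i‖ ≤ C := fun i =>
    ContinuousLinearMap.opNorm_le_bound _ hC.le (hup (w i) (S i) (hS i))
  have hS'n : ∀ i, ‖S' i‖ ≤ C := fun i =>
    ContinuousLinearMap.opNorm_le_bound _ hC.le (hup (w' i) (S' i) (hS'mem i))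
  have hPn : ∀ i, ‖(W i).starProjection‖ ≤ 1 := fun i => Submodule.starProjection_norm_le _
  have hqn : ∀ i, ‖q i‖ ≤ C * 1 / c := by
    intro i
    refine (opNorm_le_of_comp (A := q i) hc (hlow (w i) (hw i) (S i) (hS i))
      (iso_surjective h (hS i))).trans ?_
    apply div_le_div_of_nonneg_right _ hc.le
    rw [hqS i]
    refine (ContinuousLinearMap.opNorm_comp_le _ _).trans ?_
    exact mul_le_mul (hSn i) (hPn i) (norm_nonneg _) hC.le
  let a : ℕ → MM m := fun i => (w i, w' i, S i, S' i, (W i).starProjection, q i)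
  let R : ℝ := max ρ (max ρ (max C (max C (max 1 (C * 1 / c)))))
  have ha : ∀ i, a i ∈ Metric.closedBall (0 : MM m) R := by
    intro i
    rw [mem_closedBall_zero_iff]
    exact max_le_max (hw i) (max_le_max (hw' i) (max_le_max (hSn i) (max_le_max (hS'n i)
      (max_le_max (hPn i) (hqn i)))))
  have hproper : ProperSpace (MM m) := FiniteDimensional.proper_real _
  obtain ⟨b, _, φ, hφ, hlim⟩ := tendsto_subseq_of_bounded (Metric.isBounded_closedBall) ha
  have l1 : Tendsto (fun i => w (φ i)) atTop (𝓝 b.1) :=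
    (continuous_fst.tendsto b).comp hlim
  have l2 : Tendsto (fun i => w' (φ i)) atTop (𝓝 b.2.1) :=
    ((continuous_fst.comp continuous_snd).tendsto b).comp hlim
  have l3 : Tendsto (fun i => S (φ i)) atTop (𝓝 b.2.2.1) :=
    ((continuous_fst.comp (continuous_snd.comp continuous_snd)).tendsto b).comp hlim
  have l4 : Tendsto (fun i => S' (φ i)) atTop (𝓝 b.2.2.2.1) :=
    ((continuous_fst.comp (continuous_snd.comp (continuous_snd.comp
      continuous_snd))).tendsto b).comp hlim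
  have l5 : Tendsto (fun i => (W (φ i)).starProjection) atTop (𝓝 b.2.2.2.2.1) :=
    ((continuous_fst.comp (continuous_snd.comp (continuous_snd.comp (continuous_snd.comp
      continuous_snd)))).tendsto b).comp hlim
  have l6 : Tendsto (fun i => q (φ i)) atTop (𝓝 b.2.2.2.2.2) :=
    ((continuous_snd.comp (continuous_snd.comp (continuous_snd.comp (continuous_snd.comp
      continuous_snd)))).tendsto b).comp hlim
  -- the limits of w and w' agree
  have hww0 : Tendsto (fun i => w (φ i) - w' (φ i)) atTop (𝓝 0) := by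
    rw [tendsto_zero_iff_norm_tendsto_zero]
    have h1 : Tendsto (fun i : ℕ => 1 / ((φ i : ℝ) + 1)) atTop (𝓝 0) :=
      (tendsto_one_div_add_atTop_nhds_zero_nat).comp hφ.tendsto_atTop
    exact squeeze_zero (fun i => norm_nonneg _) (fun i => (hww (φ i)).le) h1
  have hbb : b.1 = b.2.1 := by
    have h1 := tendsto_nhds_unique (l1.sub l2) hww0
    exact sub_eq_zero.1 h1
  have hSlim : b.2.2.1 ∈ isoSet N N₀ b.1 :=
    mem_isoSet_of_tendsto h l1 l3 fun i => hS (φ i)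
  have hS'lim : b.2.2.2.1 ∈ isoSet N N₀ b.1 := by
    rw [hbb]
    exact mem_isoSet_of_tendsto h l2 l4 fun i => hS'mem (φ i)
  obtain ⟨g, hg, hSg⟩ := exists_g h hS'lim hSlim
  -- hSg : S = S' ∘ g
  have hTmem : ∀ i, (S' i).comp g ∈ isoSet N N₀ (w' i) := fun i => comp_mem (hS'mem i) hg
  have hTlim : Tendsto (fun i => (S' (φ i)).comp g) atTop (𝓝 b.2.2.1) := by
    rw [hSg]
    exact ((ContinuousLinearMap.compL ℝ (F m) (F m) (F m)).flip g).continuous.tendsto _ |>.comp l4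
  -- the candidates
  choose Ti hT1 hT2 using fun i => exists_inv (iso_injective h (hTmem i))
  let q' : ℕ → (F m →L[ℝ] F m) := fun i =>
    (((S' i).comp g).comp (W i).starProjection).comp (Ti i)
  have hq'comp : ∀ i, (q' i).comp ((S' i).comp g) = ((S' i).comp g).comp (W i).starProjection := by
    intro i
    ext1 x
    show ((S' i).comp g) ((W i).starProjection (Ti i (((S' i).comp g) x))) = _
    rw [hT1]
    rfl
  have hq'mem : ∀ i, q' i ∈ QQ N N₀ (w' i) := fun i =>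
    ⟨(S' i).comp g, hTmem i, W i, hW i, hq'comp i⟩
  have hge : ∀ i, ε ≤ ‖q i - q' i‖ := fun i => hqq i (q' i) (hq'mem i)
  have hle : ∀ i, ‖q i - q' i‖ ≤
      ‖(q i).comp ((S' i).comp g) - ((S' i).comp g).comp (W i).starProjection‖ / c := by
    intro i
    have h1 := opNorm_le_of_comp (A := q i - q' i) hc (hlow (w' i) (hw' i) _ (hTmem i))
      (iso_surjective h (hTmem i))
    rwa [ContinuousLinearMap.sub_comp, hq'comp] at h1
  -- limits of both sides
  have hcompc : Continuous fun p : (F m →L[ℝ] F m) × (F m →L[ℝ] F m) => p.1.comp p.2 :=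
    isBoundedBilinearMap_comp.continuous
  have hqSlim : (b.2.2.2.2.2).comp b.2.2.1 = (b.2.2.1).comp b.2.2.2.2.1 := by
    have h1 : Tendsto (fun i => (q (φ i)).comp (S (φ i))) atTop
        (𝓝 ((b.2.2.2.2.2).comp b.2.2.1)) :=
      (hcompc.tendsto (b.2.2.2.2.2, b.2.2.1)).comp (l6.prodMk_nhds l3)
    have h2 : Tendsto (fun i => (S (φ i)).comp (W (φ i)).starProjection) atTop
        (𝓝 ((b.2.2.1).comp b.2.2.2.2.1)) :=
      (hcompc.tendsto (b.2.2.1, b.2.2.2.2.1)).comp (l3.prodMk_nhds l5)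
    have h3 : (fun i => (q (φ i)).comp (S (φ i))) =
        fun i => (S (φ i)).comp (W (φ i)).starProjection := by
      funext i
      exact hqS (φ i)
    rw [h3] at h1
    exact tendsto_nhds_unique h1 h2
  have hlim0 : Tendsto (fun i => ‖(q (φ i)).comp ((S' (φ i)).comp g) -
      ((S' (φ i)).comp g).comp (W (φ i)).starProjection‖ / c) atTop (𝓝 0) := by
    have h1 : Tendsto (fun i => (q (φ i)).comp ((S' (φ i)).comp g)) atTop
        (𝓝 ((b.2.2.2.2.2).comp b.2.2.1)) :=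
      (hcompc.tendsto (b.2.2.2.2.2, b.2.2.1)).comp (l6.prodMk_nhds hTlim)
    have h2 : Tendsto (fun i => ((S' (φ i)).comp g).comp (W (φ i)).starProjection) atTop
        (𝓝 ((b.2.2.1).comp b.2.2.2.2.1)) :=
      (hcompc.tendsto (b.2.2.1, b.2.2.2.2.1)).comp (hTlim.prodMk_nhds l5)
    have h3 := (h1.sub h2).norm.div_const c
    rw [hqSlim, sub_self, norm_zero, zero_div] at h3
    exact h3
  have hfinal : ε ≤ 0 :=
    ge_of_tendsto' hlim0 fun i => (hge (φ i)).trans (hle (φ i))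
  exact absurd hε (not_lt.2 hfinal)

end Localaux

theorem localStmt (h2 : StructStmt) : LocalStmt := by
  intro m N N₀ h
  have hfin := (h2 m (RS N₀) (Localaux.rs_isReflSet h)).1
  exact ⟨fun ω q hq => Localaux.claim_one h ω q hq, fun ρ => Localaux.claim_two h hfin ρ,
    fun ρ ε hε => Localaux.claim_three h ρ ε hε⟩

end Pool.Agent.Lib.MP_5c4da9_an
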