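import Pool.Agent.Lib.MP_5c4da9_an.Defs

set_option autoImplicit false

open Set Filter Topology Module

noncomputable section

namespace Pool.Agent.Lib.MP_5c4da9_an

namespace MainCaux

theorem rfl_swap {m : ℕ} {x y : F m} (h : ‖x‖ = ‖y‖) (hne : x ≠ y) :
    ‖(‖x - y‖⁻¹) • (x - y)‖ = 1 ∧ rfl' ((‖x - y‖⁻¹) • (x - y)) x = y := by
  have h0 : ‖x - y‖ ≠ 0 := norm_ne_zero_iff.2 (sub_ne_zero.2 hne)
  constructor
  · rw [norm_smul, norm_inv, norm_norm, inv_mul_cancel₀ h0]
  · unfold rfl'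
    rw [real_inner_smul_left, smul_smul]
    have h1 : inner ℝ (x - y) x = ‖x - y‖ ^ 2 / 2 := by
      rw [norm_sub_sq_real, inner_sub_left, real_inner_self_eq_norm_sq, ← h,
        real_inner_comm x y]
      ring
    rw [h1]
    have h2 : 2 * (‖x - y‖⁻¹ * (‖x - y‖ ^ 2 / 2)) * ‖x - y‖⁻¹ = 1 := by
      field_simp
    rw [h2, one_smul]
    abel

theorem norm_zero' {V : Type*} [AddCommGroup V] [Module ℝ V] {N : V → ℝ} (h : IsNorm N) :
    N 0 = 0 := by
  have := h.smul 0 0
  simpa using this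

end MainCaux

open MainCaux in
theorem mainStmt (_h2 : StructStmt) (h3 : LocalStmt) (h4 : InfStmt) (h5 : SelStmt)
    (h6 : SectStmt) (h7 : BrouwerStmt) : MainStmt := by
  intro m N N₀ D x y hxy
  have hm := D.hm
  obtain ⟨c, ρ, hc0, hc2, hρ, hinf⟩ := h4 m N N₀ D
  obtain ⟨hid, hsep, hcont⟩ := h3 m N N₀ D
  obtain ⟨δ, hδ, hsepρ⟩ := hsep ρ
  -- the base point
  set ω₁ : F m := EuclideanSpace.single (⟨0, by omega⟩ : Fin m) ρ with hω₁
  have hn1 : ‖ω₁‖ = ρ := by
    rw [hω₁, PiLp.norm_single, Real.norm_eq_abs, abs_of_pos hρ]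
  obtain ⟨q₁, hq₁, hq₁'⟩ := (hinf ω₁ (le_of_eq hn1.symm)).1
  obtain ⟨q, hqc, hqQ, hq1⟩ := h5 m (QQ N N₀) ρ δ hδ hsepρ (hcont ρ) ω₁ (le_of_eq hn1) q₁ hq₁
  have hap : ContinuousOn (fun ω => q ω ω) (Metric.closedBall 0 ρ) :=
    hqc.clm_apply continuousOn_id
  have hsub : Metric.sphere (0 : F m) ρ ⊆ Metric.closedBall 0 ρ := Metric.sphere_subset_closedBall
  -- the sphere
  have hsph : ∀ ω : F m, ‖ω‖ = ρ → (1 - c) * ρ ^ 2 < inner ℝ ω (q ω ω) := by
    intro ω hω
    by_contra hlt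
    have h8 := (hinf ω (le_of_eq hω.symm)).2 (q ω) (hqQ ω (le_of_eq hω))
    rw [hω] at h8
    rcases h8 with h8 | h8
    · exact hlt h8
    have hrank : 1 < Module.rank ℝ (F m) := by
      apply Module.one_lt_rank_of_one_lt_finrank
      rw [finrank_euclideanSpace_fin]
      omega
    have hpre := isPreconnected_sphere hrank (0 : F m) ρ
    have hf : ContinuousOn (fun ω : F m => inner ℝ ω (q ω ω)) (Metric.sphere 0 ρ) :=
      continuousOn_id.inner (hap.mono hsub)
    have hmem : ω ∈ Metric.sphere (0 : F m) ρ := mem_sphere_zero_iff_norm.2 hω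
    have hmem1 : ω₁ ∈ Metric.sphere (0 : F m) ρ := mem_sphere_zero_iff_norm.2 hn1
    have hivt := hpre.intermediate_value hmem hmem1 hf
    have h9 : (1 - c) * ρ ^ 2 < inner ℝ ω₁ (q ω₁ ω₁) := by
      rw [hq1, ← hn1]
      exact hq₁'
    have hρ2 : 0 < c * ρ ^ 2 := by positivity
    have h10 : (1 - 3 / 2 * c) * ρ ^ 2 ∈ Icc (inner ℝ ω (q ω ω)) (inner ℝ ω₁ (q ω₁ ω₁)) := by
      constructor <;> nlinarith
    obtain ⟨ω₂, hω₂, he⟩ := hivt h10
    have hn2 : ‖ω₂‖ = ρ := mem_sphere_zero_iff_norm.1 hω₂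
    have h11 := (hinf ω₂ (le_of_eq hn2.symm)).2 (q ω₂) (hqQ ω₂ (le_of_eq hn2))
    rw [hn2] at h11
    simp only at he
    rw [he] at h11
    rcases h11 with h11 | h11 <;> nlinarith
  have hpos : ∀ ω : F m, ‖ω‖ = ρ → 0 < inner ℝ ω (q ω ω) := by
    intro ω hω
    have h8 := hsph ω hω
    have h9 : 0 < (1 - c) * ρ ^ 2 := by
      have : 0 < 1 - c := by linarith
      positivity
    linarith
  by_cases hA : ∃ x : F m, x ≠ 0 ∧ q 0 x = 0
  · exfalso
    obtain ⟨s, hs, hs'⟩ := h6 m q ρ hρ.le hqc (fun ω hω => hid ω _ (hqQ ω hω)) hA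
    obtain ⟨ω, hω, hw⟩ := h7 m (fun ω => -(q ω ω) + (ρ - ‖ω‖) • s ω) ρ hρ
      (hap.neg.add ((continuousOn_const.sub continuous_norm.continuousOn).smul hs)) (by
        intro ω hω
        rw [hω, sub_self, zero_smul, add_zero, inner_neg_right]
        have := hpos ω hω
        linarith)
    have e1 : q ω ω = (ρ - ‖ω‖) • s ω := by
      have := hw
      rw [neg_add_eq_zero] at this
      exact this
    have e2 : q ω (q ω ω) = q ω ω := by
      have := hid ω _ (hqQ ω hω)
      exact congrArg (fun T : F m →L[ℝ] F m => T ω) this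
    have e3 : q ω ω = 0 := by
      rw [← e2, e1, map_smul, (hs' ω hω).2, smul_zero]
    have e4 : ρ - ‖ω‖ = 0 := by
      rw [e3] at e1
      rcases smul_eq_zero.1 e1.symm with h | h
      · exact h
      · exact absurd h (hs' ω hω).1
    have h8 := hpos ω (by linarith)
    rw [e3, inner_zero_right] at h8
    exact lt_irrefl _ h8
  · push Not at hA
    have hq0 : ∀ x : F m, q 0 x = x := by
      intro x
      by_contra hne
      have h8 := hA (q 0 x - x) (sub_ne_zero.2 hne)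
      apply h8
      rw [map_sub]
      have := hid 0 _ (hqQ 0 (by simpa using hρ.le))
      have h9 := congrArg (fun T : F m →L[ℝ] F m => T x) this
      exact sub_eq_zero.2 h9
    obtain ⟨S, hS, W, hW, hqS⟩ := hqQ 0 (by simpa using hρ.le)
    have hinj : ∀ x : F m, S x = 0 → x = 0 := by
      intro x hx
      by_contra hne
      have h8 := hS x
      rw [hx, inner_zero_right, neg_zero] at h8
      have h9 : N (0, 0) = 0 := norm_zero' D.norm
      rw [h9] at h8
      have := D.norm₀.pos x hne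
      linarith
    have hPW : ∀ x : F m, W.starProjection x = x := by
      intro x
      have h8 := congrArg (fun T : F m →L[ℝ] F m => T x) hqS
      have h9 : q 0 (S x) = S (W.starProjection x) := h8
      rw [hq0] at h9
      have h10 : S (W.starProjection x - x) = 0 := by
        rw [map_sub, ← h9, sub_self]
      exact sub_eq_zero.1 (hinj _ h10)
    have hfull : ∀ v : F m, ‖v‖ = 1 → v ∈ RS N₀ := by
      intro v hv
      refine hW.2.1 v ?_ hv
      rw [← hPW v]
      exact Submodule.starProjection_apply_mem W v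
    by_cases hne : x = y
    · rw [hne]
    obtain ⟨hv1, hv2⟩ := rfl_swap hxy hne
    have h8 := (hfull _ hv1).2 x
    rw [hv2] at h8
    exact h8.symm

end Pool.Agent.Lib.MP_5c4da9_an
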