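import Pool.Agent.Lib.MP_5c4da9_an.Defs

/-!
# Subspaces of reflection axes grow
-/

set_option autoImplicit false

open Set Filter Topology Module

namespace Pool.Agent.Lib.MP_5c4da9_an

namespace PlaneAux

variable {m : ℕ}

lemma move {R : Set (F m)} (hR : IsReflSet R) {W : Submodule ℝ (F m)} (hW : Full R W) {b : F m}
    (hb : ∀ x ∈ W, inner ℝ x b = (0 : ℝ)) {x y : F m} (hx : x ∈ W) (hx1 : ‖x‖ = 1) (hy : y ∈ W)
    (hy1 : ‖y‖ = 1) (c s : ℝ) (h : c • x + s • b ∈ R) : c • y + s • b ∈ R := by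
  by_cases hxy : x = y
  · rw [← hxy]
    exact h
  have hn : ‖x - y‖ ≠ 0 := by
    rw [norm_ne_zero_iff]
    exact sub_ne_zero.2 hxy
  have hvW : (‖x - y‖⁻¹ • (x - y)) ∈ W := W.smul_mem _ (W.sub_mem hx hy)
  have hv1 : ‖(‖x - y‖⁻¹ • (x - y))‖ = 1 := by
    rw [norm_smul, norm_inv, norm_norm, inv_mul_cancel₀ hn]
  have h1 := hR.refl _ (hW _ hvW hv1) _ h
  have h2 : rfl' (‖x - y‖⁻¹ • (x - y)) (c • x + s • b) = c • y + s • b := by
    unfold rfl'
    have e0 : inner ℝ (x - y) x = ‖x - y‖ ^ 2 / 2 := by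
      rw [norm_sub_sq_real, inner_sub_left, real_inner_self_eq_norm_sq, hx1, hy1,
        real_inner_comm]
      ring
    have e1 : inner ℝ (‖x - y‖⁻¹ • (x - y)) (c • x + s • b) =
        c * (‖x - y‖⁻¹ * (‖x - y‖ ^ 2 / 2)) := by
      rw [inner_add_right, inner_smul_right, inner_smul_right, hb _ hvW, real_inner_smul_left, e0]
      ring
    have e2 : 2 * (c * (‖x - y‖⁻¹ * (‖x - y‖ ^ 2 / 2))) * ‖x - y‖⁻¹ = c := by
      field_simp
    rw [e1, smul_smul, e2, smul_sub]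
    abel
  rw [h2] at h1
  exact h1

lemma double {R : Set (F m)} (hR : IsReflSet R) {W : Submodule ℝ (F m)} (hW : Full R W) {b : F m}
    (hb : ∀ x ∈ W, inner ℝ x b = (0 : ℝ)) {x : F m} (hx : x ∈ W) (hx1 : ‖x‖ = 1)
    (β : ℝ) (h : Real.cos β • x + Real.sin β • b ∈ R) :
    Real.cos (2 * β) • x + Real.sin (2 * β) • b ∈ R := by
  have h1 := hR.neg _ (hR.refl _ h x (hW x hx hx1))
  have h2 : -rfl' (Real.cos β • x + Real.sin β • b) x =
      Real.cos (2 * β) • x + Real.sin (2 * β) • b := by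
    unfold rfl'
    have e1 : inner ℝ (Real.cos β • x + Real.sin β • b) x = Real.cos β := by
      rw [inner_add_left, real_inner_smul_left, real_inner_smul_left, real_inner_self_eq_norm_sq,
        hx1, real_inner_comm, hb x hx]
      ring
    rw [e1, Real.cos_two_mul, Real.sin_two_mul]
    module
  rw [h2] at h1
  exact h1

lemma exists_orth {W : Submodule ℝ (F m)} (hdim : 2 ≤ finrank ℝ W) {a : F m} (ha : a ∈ W)
    (ha1 : ‖a‖ = 1) : ∃ a₂ ∈ W, ‖a₂‖ = 1 ∧ inner ℝ a a₂ = (0 : ℝ) := by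
  have hnot : ¬ W ≤ Submodule.span ℝ {a} := by
    intro h
    have h1 := Submodule.finrank_mono h
    have h2 : finrank ℝ (Submodule.span ℝ {a}) ≤ 1 := by
      have := finrank_span_le_card (R := ℝ) ({a} : Set (F m))
      simpa using this
    omega
  obtain ⟨x, hxW, hx⟩ := SetLike.not_le_iff_exists.1 hnot
  have hne : x - (inner ℝ a x : ℝ) • a ≠ 0 := by
    intro h
    apply hx
    rw [sub_eq_zero.1 h]
    exact Submodule.smul_mem _ _ (Submodule.mem_span_singleton_self a)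
  have hn : ‖x - (inner ℝ a x : ℝ) • a‖ ≠ 0 := norm_ne_zero_iff.2 hne
  refine ⟨‖x - (inner ℝ a x : ℝ) • a‖⁻¹ • (x - (inner ℝ a x : ℝ) • a),
    W.smul_mem _ (W.sub_mem hxW (W.smul_mem _ ha)), ?_, ?_⟩
  · rw [norm_smul, norm_inv, norm_norm, inv_mul_cancel₀ hn]
  · rw [inner_smul_right, inner_sub_right, inner_smul_right, real_inner_self_eq_norm_sq, ha1]
    ring

lemma small {R : Set (F m)} (hR : IsReflSet R) {W : Submodule ℝ (F m)} (hW : Full R W)
    (hdim : 2 ≤ finrank ℝ W) {b : F m} (hb1 : ‖b‖ = 1)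
    (hb : ∀ x ∈ W, inner ℝ x b = (0 : ℝ)) {a : F m} (ha : a ∈ W) (ha1 : ‖a‖ = 1)
    (α : ℝ) (hα : 0 < Real.sin (2 * α)) (h : Real.cos α • a + Real.sin α • b ∈ R)
    (β : ℝ) (hβ : |Real.sin β| ≤ Real.sin (2 * α)) (hβ0 : 0 ≤ Real.cos β)
    {x : F m} (hx : x ∈ W) (hx1 : ‖x‖ = 1) : Real.cos β • x + Real.sin β • b ∈ R := by
  obtain ⟨a₂, ha₂, ha₂1, haa⟩ := exists_orth hdim ha ha1
  set t : ℝ := -(Real.sin β / Real.sin (2 * α)) with ht
  have ht1 : t ^ 2 ≤ 1 := by
    rw [ht, neg_sq, div_pow, div_le_one (by positivity), ← sq_abs (Real.sin β)]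
    exact pow_le_pow_left₀ (abs_nonneg _) hβ 2
  set r : ℝ := Real.sqrt (1 - t ^ 2) with hr
  have hr2 : r ^ 2 = 1 - t ^ 2 := Real.sq_sqrt (by linarith)
  have hin : inner ℝ (t • a + r • a₂) (t • a + r • a₂) = (1 : ℝ) := by
    rw [inner_add_left, inner_add_right, inner_add_right]
    simp only [real_inner_smul_left, inner_smul_right, real_inner_self_eq_norm_sq, ha1, ha₂1,
      haa, real_inner_comm a a₂]
    linear_combination hr2
  have ha'W : t • a + r • a₂ ∈ W := W.add_mem (W.smul_mem _ ha) (W.smul_mem _ ha₂)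
  have ha'1 : ‖t • a + r • a₂‖ = 1 := by
    rw [real_inner_self_eq_norm_sq] at hin
    nlinarith [norm_nonneg (t • a + r • a₂)]
  have h1 := hR.refl _ h _ (hW _ ha'W ha'1)
  set y : F m := (t • a + r • a₂) - (2 * t * Real.cos α ^ 2) • a with hy
  have hyW : y ∈ W := W.sub_mem ha'W (W.smul_mem _ ha)
  have h2 : rfl' (Real.cos α • a + Real.sin α • b) (t • a + r • a₂) = y + Real.sin β • b := by
    unfold rfl'
    have e1 : inner ℝ (Real.cos α • a + Real.sin α • b) (t • a + r • a₂) =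
        t * Real.cos α := by
      rw [inner_add_left, real_inner_smul_left, real_inner_smul_left, inner_add_right,
        inner_smul_right, inner_smul_right, haa, real_inner_self_eq_norm_sq, ha1,
        real_inner_comm, hb _ ha'W]
      ring
    have e2 : Real.sin β = -(2 * (t * Real.cos α) * Real.sin α) := by
      have e3 : t * Real.sin (2 * α) = -Real.sin β := by
        rw [ht]
        field_simp
      rw [Real.sin_two_mul] at e3
      linarith
    rw [e1, hy, e2]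
    module
  rw [h2] at h1
  have hy1 : ‖y‖ = Real.cos β := by
    have e1 := hR.unit _ h1
    have e2 : ‖y + Real.sin β • b‖ ^ 2 = ‖y‖ ^ 2 + Real.sin β ^ 2 := by
      rw [norm_add_sq_real, inner_smul_right, hb y hyW, norm_smul, hb1, Real.norm_eq_abs,
        mul_one, sq_abs]
      ring
    rw [e1] at e2
    have e3 : ‖y‖ ^ 2 = Real.cos β ^ 2 := by
      have := Real.sin_sq_add_cos_sq β
      linarith
    exact (pow_left_inj₀ (norm_nonneg y) hβ0 two_ne_zero).1 e3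
  rcases hβ0.eq_or_lt with h0 | h0
  · rw [← h0] at hy1 ⊢
    rw [norm_eq_zero.1 hy1, zero_add] at h1
    rw [zero_smul, zero_add]
    exact h1
  · have h3 : y = Real.cos β • ((Real.cos β)⁻¹ • y) := by
      rw [smul_smul, mul_inv_cancel₀ h0.ne', one_smul]
    rw [h3] at h1
    refine move hR hW hb (W.smul_mem _ hyW) ?_ hx hx1 _ _ h1
    rw [norm_smul, norm_inv, Real.norm_eq_abs, abs_of_pos h0, hy1, inv_mul_cancel₀ h0.ne']

end PlaneAux

open PlaneAux

theorem planeStmt : PlaneStmt := by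
  intro m R hR W hW hdim w hw hwW hex
  obtain ⟨v, hv, hvw⟩ := hex
  -- the decomposition of `w`
  obtain ⟨p, hp, r, hr, hpr⟩ := W.exists_add_mem_mem_orthogonal w
  have hr' : ∀ x ∈ W, inner ℝ x r = (0 : ℝ) := fun x hx => (Submodule.mem_orthogonal W r).1 hr x hx
  have hr0 : r ≠ 0 := by
    rintro rfl
    apply hwW
    rw [hpr, add_zero]
    exact hp
  have hp0 : p ≠ 0 := by
    rintro rfl
    apply hvw
    rw [hpr, zero_add]
    exact hr' v hv
  have hrn : 0 < ‖r‖ := norm_pos_iff.2 hr0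
  have hpn : 0 < ‖p‖ := norm_pos_iff.2 hp0
  set b : F m := ‖r‖⁻¹ • r with hbdef
  set a : F m := ‖p‖⁻¹ • p with hadef
  have hb1 : ‖b‖ = 1 := by
    rw [hbdef, norm_smul, norm_inv, norm_norm, inv_mul_cancel₀ hrn.ne']
  have ha1 : ‖a‖ = 1 := by
    rw [hadef, norm_smul, norm_inv, norm_norm, inv_mul_cancel₀ hpn.ne']
  have ha : a ∈ W := W.smul_mem _ hp
  have hb : ∀ x ∈ W, inner ℝ x b = (0 : ℝ) := by
    intro x hx
    rw [hbdef, inner_smul_right, hr' x hx, mul_zero]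
  have hsq : ‖p‖ ^ 2 + ‖r‖ ^ 2 = 1 := by
    have e1 := hR.unit w hw
    have e2 : ‖p + r‖ ^ 2 = ‖p‖ ^ 2 + ‖r‖ ^ 2 := by
      rw [norm_add_sq_real, hr' p hp]
      ring
    rw [← hpr, e1] at e2
    linarith
  have hp1 : ‖p‖ < 1 := by nlinarith
  set α : ℝ := Real.arccos ‖p‖ with hα
  have hcos : Real.cos α = ‖p‖ := Real.cos_arccos (by linarith) hp1.le
  have hsin : Real.sin α = ‖r‖ := by
    rw [hα, Real.sin_arccos]
    rw [show 1 - ‖p‖ ^ 2 = ‖r‖ ^ 2 by linarith, Real.sqrt_sq hrn.le]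
  have hwab : w = Real.cos α • a + Real.sin α • b := by
    rw [hcos, hsin, hadef, hbdef, smul_smul, smul_smul, mul_inv_cancel₀ hpn.ne',
      mul_inv_cancel₀ hrn.ne', one_smul, one_smul, hpr]
  have hs2 : 0 < Real.sin (2 * α) := by
    rw [Real.sin_two_mul, hcos, hsin]
    positivity
  rw [hwab] at hw
  set β₁ : ℝ := Real.arcsin (Real.sin (2 * α)) with hβ₁
  have hβ₁0 : 0 < β₁ := Real.arcsin_pos.2 hs2
  have hβ₁1 : β₁ ≤ Real.pi / 2 := Real.arcsin_le_pi_div_two _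
  have hsβ₁ : Real.sin β₁ = Real.sin (2 * α) :=
    Real.sin_arcsin (Real.neg_one_le_sin _) (Real.sin_le_one _)
  -- all angles
  have hall : ∀ n : ℕ, ∀ β : ℝ, |β| ≤ 2 ^ n * β₁ → ∀ x ∈ W, ‖x‖ = 1 →
      Real.cos β • x + Real.sin β • b ∈ R := by
    intro n
    induction n with
    | zero =>
      intro β hβ x hx hx1
      rw [pow_zero, one_mul] at hβ
      have hβ' := abs_le.1 hβ
      refine small hR hW hdim hb1 hb ha ha1 α hs2 hw β ?_ ?_ hx hx1
      · rw [← hsβ₁, abs_le]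
        constructor
        · rw [← Real.sin_neg]
          exact Real.sin_le_sin_of_le_of_le_pi_div_two (by linarith) (by linarith) (by linarith)
        · exact Real.sin_le_sin_of_le_of_le_pi_div_two (by linarith) (by linarith) (by linarith)
      · exact Real.cos_nonneg_of_mem_Icc ⟨by linarith, by linarith⟩
    | succ n ih =>
      intro β hβ x hx hx1
      have h1 := ih (β / 2) (by
        rw [abs_div, abs_of_pos (by norm_num : (0 : ℝ) < 2)]
        rw [pow_succ] at hβ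
        linarith) x hx hx1
      have h2 := double hR hW hb hx hx1 (β / 2) h1
      rwa [mul_div_cancel₀ β (two_ne_zero)] at h2
  have hall' : ∀ β : ℝ, ∀ x ∈ W, ‖x‖ = 1 → Real.cos β • x + Real.sin β • b ∈ R := by
    intro β
    obtain ⟨n, hn⟩ := pow_unbounded_of_one_lt (|β| / β₁) (by norm_num : (1 : ℝ) < 2)
    exact hall n β ((div_le_iff₀ hβ₁0).1 hn.le)
  -- the conclusion
  intro z hz hz1
  obtain ⟨x₀, hx₀, c, hc⟩ : ∃ x₀ ∈ W, ∃ c : ℝ, z = x₀ + c • w := by
    obtain ⟨x₀, hx₀, z', hz', h⟩ := Submodule.mem_sup.1 hz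
    obtain ⟨c, rfl⟩ := Submodule.mem_span_singleton.1 hz'
    exact ⟨x₀, hx₀, c, h.symm⟩
  set y : F m := x₀ + c • p with hy
  set s : ℝ := c * ‖r‖ with hs
  have hyW : y ∈ W := W.add_mem hx₀ (W.smul_mem _ hp)
  have hzy : z = y + s • b := by
    rw [hc, hy, hs, hpr, hbdef, smul_smul, mul_assoc, mul_inv_cancel₀ hrn.ne', mul_one]
    module
  have hys : ‖y‖ ^ 2 + s ^ 2 = 1 := by
    have e2 : ‖y + s • b‖ ^ 2 = ‖y‖ ^ 2 + s ^ 2 := by
      rw [norm_add_sq_real, inner_smul_right, hb y hyW, norm_smul, hb1, Real.norm_eq_abs,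
        mul_one, sq_abs]
      ring
    rw [← hzy, hz1] at e2
    linarith
  have hs1 : s ^ 2 ≤ 1 := by nlinarith [sq_nonneg ‖y‖]
  have hs1' := abs_le.1 ((sq_le_one_iff_abs_le_one s).1 hs1)
  have hc1 : Real.cos (Real.arcsin s) = ‖y‖ := by
    rw [Real.cos_arcsin, show 1 - s ^ 2 = ‖y‖ ^ 2 by linarith, Real.sqrt_sq (norm_nonneg y)]
  have hs2' : Real.sin (Real.arcsin s) = s := Real.sin_arcsin hs1'.1 hs1'.2
  rcases eq_or_ne y 0 with h0 | h0
  · have h1 := hall' (Real.arcsin s) a ha ha1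
    rw [hc1, hs2', h0, norm_zero, zero_smul, zero_add] at h1
    rw [hzy, h0, zero_add]
    exact h1
  · have hyn : ‖y‖ ≠ 0 := norm_ne_zero_iff.2 h0
    have h1 := hall' (Real.arcsin s) (‖y‖⁻¹ • y) (W.smul_mem _ hyW) (by
      rw [norm_smul, norm_inv, norm_norm, inv_mul_cancel₀ hyn])
    rw [hc1, hs2', smul_smul, mul_inv_cancel₀ hyn, one_smul] at h1
    rw [hzy]
    exact h1

end Pool.Agent.Lib.MP_5c4da9_an
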