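import Pool.Agent.Lib.MP_5c4da9_an.UDefs

/-!
# MP_5c4da9_an, U12: the gradient of the squared norm maps planes to planes
-/

set_option autoImplicit false

open Module

noncomputable section

namespace Pool.Agent.Lib.MP_5c4da9_an

/-- The derivative of `t ↦ ‖x + t y‖²`. -/
theorem GradData.hasDerivAt {Z : Type} [NormedAddCommGroup Z] [NormedSpace ℝ Z] {c : ℝ}
    {J : Z → (Z →L[ℝ] ℝ)} (h : GradData Z c J) (x y : Z) (t : ℝ) :
    HasDerivAt (fun s : ℝ => ‖x + s • y‖ ^ 2) (2 * J (x + t • y) y) t := by
  have h1 : HasDerivAt (fun s : ℝ => x + s • y) y t := by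
    have := ((hasDerivAt_id t).smul_const y).const_add x
    simpa using this
  have h2 := (h.deriv (x + t • y)).comp_hasDerivAt t h1
  exact h2

theorem planeJStmt : PlaneJStmt := by
  intro Z _ _ _ c J hJ hP
  -- the key claim
  have key : ∀ y : Z, ∀ x x' : Z, J x y = 0 → J x' y = 0 → J (x + x') y = 0 := by
    intro y x x' hx hx'
    by_cases hy : y = 0
    · rw [hy, map_zero]
    obtain ⟨Q, hQ1, hQy, hQ2⟩ := hP y hy
    have hback : ∀ z : Z, Q z = z → J z y = 0 := by
      intro z hz
      have hmin : IsLocalMin (fun s : ℝ => ‖z + s • y‖ ^ 2) 0 := by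
        refine Filter.Eventually.of_forall fun s => ?_
        simp only [zero_smul, add_zero]
        have h1 := hQ1 (z + s • y)
        rw [map_add, map_smul, hQy, smul_zero, add_zero, hz] at h1
        exact pow_le_pow_left₀ (norm_nonneg _) h1 2
      have h2 := hmin.hasDerivAt_eq_zero (hJ.hasDerivAt z y 0)
      simp only [zero_smul, add_zero] at h2
      linarith
    have hfwd : ∀ z : Z, J z y = 0 → Q z = z := by
      intro z hz
      obtain ⟨t, ht⟩ := hQ2 z
      have hQQ : Q (Q z) = Q z := by
        have h1 : Q (z - Q z) = 0 := by rw [ht, map_smul, hQy, smul_zero]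
        rw [map_sub, sub_eq_zero] at h1
        exact h1.symm
      have h2 := hback (Q z) hQQ
      have h3 := hJ.mono z (Q z)
      rw [ht, sub_apply, map_smul, map_smul, hz, h2, smul_zero, sub_zero] at h3
      have h4 : ‖t • y‖ ^ 2 ≤ 0 := by
        by_contra hcon
        push Not at hcon
        have := mul_pos hJ.hc hcon
        linarith
      have h5 : t • y = 0 := by
        have h6 := sq_nonneg ‖t • y‖
        exact norm_eq_zero.1 ((pow_eq_zero_iff two_ne_zero).1 (le_antisymm h4 h6))
      rw [h5, sub_eq_zero] at ht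
      exact ht.symm
    apply hback
    rw [map_add, hfwd x hx, hfwd x' hx']
  intro x x'
  have h1 : (J (x + x') : Z →ₗ[ℝ] ℝ) ∈ Submodule.span ℝ
      (Set.range ![(J x : Z →ₗ[ℝ] ℝ), (J x' : Z →ₗ[ℝ] ℝ)]) := by
    apply mem_span_of_iInf_ker_le_ker
    intro y hy
    rw [Submodule.mem_iInf] at hy
    exact key y x x' (hy 0) (hy 1)
  rw [Matrix.range_cons, Matrix.range_cons, Matrix.range_empty, Set.union_empty,
    Set.singleton_union, Submodule.mem_span_pair] at h1
  obtain ⟨a, b, hab⟩ := h1
  rw [Submodule.mem_span_pair]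
  refine ⟨a, b, ?_⟩
  ext z
  have := LinearMap.congr_fun hab z
  exact this

end Pool.Agent.Lib.MP_5c4da9_an
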