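import Pool.Agent.Lib.MP_5c4da9_an.UDefs
import Pool.Agent.Lib.MP_5c4da9_an.Base

set_option autoImplicit false

open Set Filter Topology Module

noncomputable section

namespace Pool.Agent.Lib.MP_5c4da9_an

/-- The isometry `x ↦ (-⟨ω, S x⟩, S x)` of a hyperplane. -/
def pointT {m : ℕ} (ω : F m) (S : F m →L[ℝ] F m) : F m →L[ℝ] (ℝ × F m) :=
  (-((innerSL ℝ ω).comp S)).prod S

theorem pointT_apply {m : ℕ} (ω : F m) (S : F m →L[ℝ] F m) (x : F m) :
    pointT ω S x = (-(inner ℝ ω (S x)), S x) := rfl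

/-- U8 from U6 and U7. -/
theorem pointStmt (h6 : LiftStmt) (h7 : InwardStmt) : PointStmt := by
  intro m N N₀ h y hy
  -- one step
  have hstep : ∀ i : ℕ, ∃ (ω : F m) (S : F m →L[ℝ] F m) (t : ℝ), ‖ω‖ = (i : ℝ) + 1 ∧
      S ∈ isoSet N N₀ ω ∧ 0 < t ∧ S y = -(t • ω) := by
    intro i
    obtain ⟨S, hSc, hS⟩ := h6 m N N₀ h ((i : ℝ) + 1)
    have hc : ContinuousOn (fun ω => S ω y) (Metric.closedBall 0 ((i : ℝ) + 1)) :=
      (ContinuousLinearMap.apply ℝ (F m) y).continuous.comp_continuousOn hSc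
    have hne : ∀ ω : F m, ‖ω‖ ≤ (i : ℝ) + 1 → S ω y ≠ 0 := by
      intro ω hω h0
      have h1 := hS ω hω y
      rw [h0, inner_zero_right, neg_zero] at h1
      have h2 : N ((0 : ℝ), (0 : F m)) = 0 := h.norm.zero
      rw [h2] at h1
      exact hy (h.norm₀.eq_zero h1.symm)
    obtain ⟨ω, hω, t, ht, hw⟩ := h7 m (fun ω => S ω y) ((i : ℝ) + 1) (by positivity) hc hne
    exact ⟨ω, S ω, t, hω, hS ω hω.le, ht, hw⟩
  choose ω S t hω hS ht hy' using hstep
  obtain ⟨c₁, C₁, hc₁, hC₁, hb₁⟩ := h.norm.bounds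
  obtain ⟨c₂, C₂, hc₂, hC₂, hb₂⟩ := h.norm₀.bounds
  have hN : ∀ i x, N (pointT (ω i) (S i) x) = N₀ x := fun i x => hS i x
  have hbd : ∀ i x, ‖pointT (ω i) (S i) x‖ ≤ C₂ / c₁ * ‖x‖ := by
    intro i x
    have h1 : c₁ * ‖pointT (ω i) (S i) x‖ ≤ C₂ * ‖x‖ :=
      ((hb₁ _).1.trans (le_of_eq (hN i x))).trans (hb₂ x).2
    rw [div_mul_eq_mul_div, le_div_iff₀ hc₁, mul_comm]
    exact h1
  have hmem : ∀ i, pointT (ω i) (S i) ∈ Metric.closedBall (0 : F m →L[ℝ] (ℝ × F m)) (C₂ / c₁) := by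
    intro i
    rw [mem_closedBall_zero_iff]
    exact ContinuousLinearMap.opNorm_le_bound _ (by positivity) (hbd i)
  haveI : ProperSpace (F m →L[ℝ] (ℝ × F m)) := FiniteDimensional.proper ℝ _
  obtain ⟨T, -, φ, hφ, hlim⟩ := (isCompact_closedBall (0 : F m →L[ℝ] (ℝ × F m))
    (C₂ / c₁)).tendsto_subseq hmem
  have hlimx : ∀ x, Tendsto (fun i => pointT (ω (φ i)) (S (φ i)) x) atTop (𝓝 (T x)) := by
    intro x
    exact ((ContinuousLinearMap.apply ℝ (ℝ × F m) x).continuous.tendsto T).comp hlim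
  have hNT : ∀ x, N (T x) = N₀ x := by
    intro x
    have h1 : Tendsto (fun i => N (pointT (ω (φ i)) (S (φ i)) x)) atTop (𝓝 (N (T x))) :=
      (h.norm.continuous.tendsto _).comp (hlimx x)
    simp only [hN] at h1
    exact tendsto_nhds_unique h1 tendsto_const_nhds
  -- the image of `y`
  have hfst : ∀ i, (pointT (ω i) (S i) y).1 = t i * ‖ω i‖ ^ 2 := by
    intro i
    rw [pointT_apply, hy' i, inner_neg_right, inner_smul_right, real_inner_self_eq_norm_sq,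
      neg_neg]
  have hsnd : ∀ i, ‖(pointT (ω i) (S i) y).2‖ = t i * ‖ω i‖ := by
    intro i
    rw [pointT_apply, hy' i, norm_neg, norm_smul, Real.norm_of_nonneg (ht i).le]
  have hωpos : ∀ i, 0 < ‖ω i‖ := fun i => by
    rw [hω]
    positivity
  have hsnd' : ∀ i, ‖(pointT (ω i) (S i) y).2‖ ≤ C₂ / c₁ * ‖y‖ * (1 / ((i : ℝ) + 1)) := by
    intro i
    rw [hsnd i]
    have h1 : t i * ‖ω i‖ ^ 2 ≤ C₂ / c₁ * ‖y‖ := by
      rw [← hfst i]
      calc (pointT (ω i) (S i) y).1 ≤ ‖(pointT (ω i) (S i) y).1‖ := Real.le_norm_self _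
        _ ≤ ‖pointT (ω i) (S i) y‖ := norm_fst_le _
        _ ≤ _ := hbd i y
    have h2 : t i * ‖ω i‖ = t i * ‖ω i‖ ^ 2 * (1 / ((i : ℝ) + 1)) := by
      rw [← hω i]
      have := (hωpos i).ne'
      field_simp
    rw [h2]
    exact mul_le_mul_of_nonneg_right h1 (by positivity)
  have hsnd0 : (T y).2 = 0 := by
    have h1 : Tendsto (fun i => (pointT (ω (φ i)) (S (φ i)) y).2) atTop (𝓝 (T y).2) :=
      (continuous_snd.tendsto _).comp (hlimx y)
    have h2 : Tendsto (fun i => (pointT (ω i) (S i) y).2) atTop (𝓝 0) := by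
      rw [tendsto_zero_iff_norm_tendsto_zero]
      refine squeeze_zero (fun i => norm_nonneg _) hsnd' ?_
      have := tendsto_one_div_add_atTop_nhds_zero_nat (𝕜 := ℝ)
      simpa using this.const_mul (C₂ / c₁ * ‖y‖)
    exact tendsto_nhds_unique h1 (h2.comp hφ.tendsto_atTop)
  have hfst0 : 0 ≤ (T y).1 := by
    have h1 : Tendsto (fun i => (pointT (ω (φ i)) (S (φ i)) y).1) atTop (𝓝 (T y).1) :=
      (continuous_fst.tendsto _).comp (hlimx y)
    refine ge_of_tendsto' h1 fun i => ?_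
    rw [hfst]
    have := (ht (φ i)).le
    positivity
  have hT : T y = ((T y).1, 0) := by
    rw [← hsnd0]
  have hne : (T y).1 ≠ 0 := by
    intro h0
    rw [h0] at hT
    have h1 := hNT y
    rw [hT] at h1
    have h2 : N ((0 : ℝ), (0 : F m)) = 0 := h.norm.zero
    rw [h2] at h1
    exact hy (h.norm₀.eq_zero h1.symm)
  exact ⟨T, hNT, (T y).1, lt_of_le_of_ne hfst0 (Ne.symm hne), hT⟩

end Pool.Agent.Lib.MP_5c4da9_an
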