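import Pool.Agent.Lib.MP_5c4da9_an.UDefs

/-!
# MP_5c4da9_an, U1: one-parameter groups in a closed group of orthogonal transformations
-/

set_option autoImplicit false

open Set Filter Topology Module

noncomputable section

namespace Pool.Agent.Lib.MP_5c4da9_an

private lemma pow_norm_le_one {m : ℕ} {G : Set (F m →L[ℝ] F m)} (hG : IsOrthGroup G)
    {g : F m →L[ℝ] F m} (hg : g ∈ G) : ‖g‖ ≤ 1 := by
  refine g.opNorm_le_bound zero_le_one fun x => ?_
  rw [hG.isom g hg x, one_mul]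

private lemma pow_pow_mem {m : ℕ} {G : Set (F m →L[ℝ] F m)} (hG : IsOrthGroup G)
    {g : F m →L[ℝ] F m} (hg : g ∈ G) (k : ℕ) : g ^ k ∈ G := by
  induction k with
  | zero => rw [pow_zero]; exact hG.one
  | succ k ih => rw [pow_succ]; exact hG.mul _ ih _ hg

private lemma pow_diff {m : ℕ} {a b : F m →L[ℝ] F m} {M : ℝ} (ha : ‖a‖ ≤ 1) (k : ℕ)
    (hb : ∀ j ≤ k, ‖b ^ j‖ ≤ M) : ‖a ^ k - b ^ k‖ ≤ k * (M * ‖a - b‖) := by
  induction k with
  | zero => simp
  | succ k ih =>
    have h1 := ih fun j hj => hb j (by omega)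
    have h2 : a ^ (k + 1) - b ^ (k + 1) = a * (a ^ k - b ^ k) + (a - b) * b ^ k := by
      rw [pow_succ' a, pow_succ' b, mul_sub, sub_mul]
      abel
    rw [h2]
    refine (norm_add_le _ _).trans ?_
    have h3 : ‖a * (a ^ k - b ^ k)‖ ≤ ‖a ^ k - b ^ k‖ := by
      refine (norm_mul_le _ _).trans ?_
      exact mul_le_of_le_one_left (norm_nonneg _) ha
    have h4 : ‖(a - b) * b ^ k‖ ≤ M * ‖a - b‖ := by
      refine (norm_mul_le _ _).trans ?_
      rw [mul_comm]
      exact mul_le_mul_of_nonneg_right (hb k (by omega)) (norm_nonneg _)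
    push_cast
    linarith

private lemma pow_slope {m : ℕ} (Z : F m →L[ℝ] F m) (s : ℕ → ℝ) (hs : ∀ i, 0 < s i)
    (hs0 : Tendsto s atTop (𝓝 0)) :
    Tendsto (fun i => (s i)⁻¹ • (NormedSpace.exp (s i • Z) - 1)) atTop (𝓝 Z) := by
  have h := hasDerivAt_exp_smul_const (𝕂 := ℝ) Z (0 : ℝ)
  have hz : (0 : ℝ) • Z = 0 := zero_smul ℝ Z
  have he : NormedSpace.exp ((0 : ℝ) • Z) = 1 := by rw [hz, NormedSpace.exp_zero]
  have h' : HasDerivAt (fun u : ℝ => NormedSpace.exp (u • Z)) Z 0 := by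
    have h0 : NormedSpace.exp ((0 : ℝ) • Z) * Z = Z := by rw [he, one_mul]
    have h1 := h
    generalize hf : (fun u : ℝ => NormedSpace.exp (u • Z)) = f at h1 ⊢
    rw [h0] at h1
    exact h1
  rw [hasDerivAt_iff_tendsto_slope] at h'
  have hs' : Tendsto s atTop (𝓝[≠] 0) := by
    rw [tendsto_nhdsWithin_iff]
    exact ⟨hs0, Eventually.of_forall fun i => (hs i).ne'⟩
  have h2 := h'.comp hs'
  refine h2.congr fun i => ?_
  simp only [Function.comp, slope, vsub_eq_sub, sub_zero]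
  rw [he]

private lemma pow_nonneg_case {m : ℕ} {G : Set (F m →L[ℝ] F m)} (hG : IsOrthGroup G)
    (h : ℕ → (F m →L[ℝ] F m)) (s : ℕ → ℝ) (Z : F m →L[ℝ] F m) (hh : ∀ i, h i ∈ G)
    (hs : ∀ i, 0 < s i) (hs0 : Tendsto s atTop (𝓝 0))
    (hZ : Tendsto (fun i => (s i)⁻¹ • (h i - 1)) atTop (𝓝 Z)) (t : ℝ) (ht : 0 ≤ t) :
    NormedSpace.exp (t • Z) ∈ G := by
  let _ : NormedAlgebra ℚ (F m →L[ℝ] F m) := NormedAlgebra.restrictScalars ℚ ℝ _
  have hcont : Continuous fun u : ℝ => NormedSpace.exp (u • Z) :=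
    NormedSpace.exp_continuous.comp (continuous_id.smul continuous_const)
  obtain ⟨M, hM⟩ := (isCompact_Icc (a := (0 : ℝ)) (b := t)).exists_bound_of_continuousOn
    hcont.continuousOn
  let k : ℕ → ℕ := fun i => ⌊t / s i⌋₊
  have hk1 : ∀ i, (k i : ℝ) * s i ≤ t := by
    intro i
    have := Nat.floor_le (div_nonneg ht (hs i).le)
    rwa [le_div_iff₀ (hs i)] at this
  have hk2 : ∀ i, t - s i ≤ (k i : ℝ) * s i := by
    intro i
    have := (Nat.lt_floor_add_one (t / s i)).le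
    rw [div_le_iff₀ (hs i)] at this
    have h3 : ((⌊t / s i⌋₊ : ℝ) + 1) * s i = (k i : ℝ) * s i + s i := by ring
    linarith
  have hkt : Tendsto (fun i => (k i : ℝ) * s i) atTop (𝓝 t) := by
    refine tendsto_of_tendsto_of_tendsto_of_le_of_le ?_ tendsto_const_nhds hk2 hk1
    have := (tendsto_const_nhds (x := t)).sub hs0
    rwa [sub_zero] at this
  have hepow : ∀ i (j : ℕ), NormedSpace.exp (s i • Z) ^ j = NormedSpace.exp (((j : ℝ) * s i) • Z) := by
    intro i j
    rw [← NormedSpace.exp_nsmul]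
    congr 1
    have h1 : ((j : ℝ) * s i) • Z = (j : ℝ) • s i • Z := mul_smul _ _ _
    have h2 : (j : ℝ) • s i • Z = j • s i • Z := Nat.cast_smul_eq_nsmul ℝ j (s i • Z)
    rw [h1, h2]
  have hlim : Tendsto (fun i => NormedSpace.exp (((k i : ℝ) * s i) • Z)) atTop
      (𝓝 (NormedSpace.exp (t • Z))) := (hcont.tendsto t).comp hkt
  have hdiff : Tendsto (fun i => h i ^ k i - NormedSpace.exp (((k i : ℝ) * s i) • Z)) atTop
      (𝓝 0) := by
    have hz : Tendsto (fun i => t * (M * ‖(s i)⁻¹ • (h i - 1) -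
        (s i)⁻¹ • (NormedSpace.exp (s i • Z) - 1)‖)) atTop (𝓝 0) := by
      have h1 := ((hZ.sub (pow_slope Z s hs hs0)).norm.const_mul M).const_mul t
      simpa using h1
    refine squeeze_zero_norm (fun i => ?_) hz
    have hM0 : ∀ j ≤ k i, ‖NormedSpace.exp (s i • Z) ^ j‖ ≤ M := by
      intro j hj
      rw [hepow]
      apply hM
      refine ⟨mul_nonneg (Nat.cast_nonneg _) (hs i).le, ?_⟩
      refine le_trans ?_ (hk1 i)
      exact mul_le_mul_of_nonneg_right (by exact_mod_cast hj) (hs i).le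
    have hMn : 0 ≤ M := (norm_nonneg _).trans (hM0 0 (Nat.zero_le _))
    have h1 := pow_diff (pow_norm_le_one hG (hh i)) (k i) hM0
    rw [hepow] at h1
    refine h1.trans ?_
    have h2 : ‖(s i)⁻¹ • (h i - 1) - (s i)⁻¹ • (NormedSpace.exp (s i • Z) - 1)‖ =
        (s i)⁻¹ * ‖h i - NormedSpace.exp (s i • Z)‖ := by
      have e1 : (s i)⁻¹ • (h i - 1) - (s i)⁻¹ • (NormedSpace.exp (s i • Z) - 1) =
          (s i)⁻¹ • (h i - NormedSpace.exp (s i • Z)) := by
        have e2 : h i - NormedSpace.exp (s i • Z) =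
            (h i - 1) - (NormedSpace.exp (s i • Z) - 1) := by abel
        rw [e2]
        exact (smul_sub _ _ _).symm
      rw [e1]
      have e3 : ‖(s i)⁻¹ • (h i - NormedSpace.exp (s i • Z))‖ =
          ‖(s i)⁻¹‖ * ‖h i - NormedSpace.exp (s i • Z)‖ := norm_smul _ _
      rw [e3, Real.norm_of_nonneg (inv_nonneg.mpr (hs i).le)]
    rw [h2]
    have h3 : (k i : ℝ) * (M * ‖h i - NormedSpace.exp (s i • Z)‖) =
        ((k i : ℝ) * s i) * (M * ((s i)⁻¹ * ‖h i - NormedSpace.exp (s i • Z)‖)) := by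
      have := (hs i).ne'
      field_simp
    rw [h3]
    apply mul_le_mul_of_nonneg_right (hk1 i)
    have := inv_nonneg.mpr (hs i).le
    positivity
  have hfin : Tendsto (fun i => h i ^ k i) atTop (𝓝 (NormedSpace.exp (t • Z))) := by
    have := hdiff.add hlim
    rw [zero_add] at this
    refine this.congr fun i => ?_
    abel
  exact hG.closed.mem_of_tendsto hfin (Eventually.of_forall fun i => pow_pow_mem hG (hh i) (k i))

theorem powStmt : PowStmt := by
  intro m G hG h s Z hh hs hs0 hZ t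
  rcases le_total 0 t with ht | ht
  · exact pow_nonneg_case hG h s Z hh hs hs0 hZ t ht
  · choose g hg hg1 hg2 using fun i => hG.inv (h i) (hh i)
    have hh1 : Tendsto (fun i => h i - 1) atTop (𝓝 0) := by
      have h1 : Tendsto (fun i => s i • ((s i)⁻¹ • (h i - 1))) atTop (𝓝 ((0 : ℝ) • Z)) :=
        hs0.smul hZ
      have hz : (0 : ℝ) • Z = 0 := zero_smul ℝ Z
      rw [hz] at h1
      refine h1.congr fun i => ?_
      have e1 : s i • ((s i)⁻¹ • (h i - 1)) = (s i * (s i)⁻¹) • (h i - 1) := smul_smul _ _ _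
      have e2 : (1 : ℝ) • (h i - 1) = h i - 1 := one_smul ℝ (h i - 1)
      rw [e1, mul_inv_cancel₀ (hs i).ne', e2]
    have hgd : ∀ i, g i - 1 = -(g i * (h i - 1)) := by
      intro i
      rw [mul_sub, hg1 i, mul_one]
      abel
    have hg0 : Tendsto (fun i => g i - 1) atTop (𝓝 0) := by
      have hn := hh1.norm
      rw [norm_zero] at hn
      refine squeeze_zero_norm (fun i => ?_) hn
      rw [hgd i, norm_neg]
      refine (norm_mul_le _ _).trans ?_
      exact mul_le_of_le_one_left (norm_nonneg _) (pow_norm_le_one hG (hg i))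
    have hg1' : Tendsto g atTop (𝓝 1) := by
      have := hg0.add_const 1
      rw [zero_add] at this
      refine this.congr fun i => ?_
      abel
    have hZ' : Tendsto (fun i => (s i)⁻¹ • (g i - 1)) atTop (𝓝 (-Z)) := by
      have h1 := (hg1'.mul hZ).neg
      rw [one_mul] at h1
      refine h1.congr fun i => ?_
      have e1 : g i * ((s i)⁻¹ • (h i - 1)) = (s i)⁻¹ • (g i * (h i - 1)) := by
        apply ContinuousLinearMap.ext
        intro x
        exact map_smul (g i) (s i)⁻¹ ((h i - 1) x)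
      have e2 : (s i)⁻¹ • (-(g i * (h i - 1))) = -((s i)⁻¹ • (g i * (h i - 1))) := smul_neg _ _
      rw [hgd i, e1, e2]
    have h2 := pow_nonneg_case hG g s (-Z) hg hs hs0 hZ' (-t) (by linarith)
    rwa [neg_smul_neg] at h2

end Pool.Agent.Lib.MP_5c4da9_an
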