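import Pool.Agent.Lib.MP_5c4da9_an.UDefs

set_option autoImplicit false

open Set Filter Topology Module

noncomputable section

namespace Pool.Agent.Lib.MP_5c4da9_an

/-- The vector of the images of the standard basis. -/
def retrL (m : ℕ) : (F m →L[ℝ] F m) →ₗ[ℝ] PiLp 2 (fun _ : Fin m => F m) where
  toFun A := WithLp.toLp 2 (fun i => A (EuclideanSpace.single i (1 : ℝ)))
  map_add' := by
    intro A B
    ext i
    simp
  map_smul' := by
    intro c A
    ext i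
    simp

theorem retrL_apply {m : ℕ} (A : F m →L[ℝ] F m) (i : Fin m) :
    retrL m A i = A (EuclideanSpace.single i (1 : ℝ)) := rfl

theorem retrL_ker (m : ℕ) : LinearMap.ker (retrL m) = ⊥ := by
  rw [LinearMap.ker_eq_bot']
  intro A hA
  have h : ∀ i, A (EuclideanSpace.single i (1 : ℝ)) = 0 := by
    intro i
    rw [← retrL_apply, hA]
    rfl
  have h2 : (A : F m →ₗ[ℝ] F m) = 0 := by
    refine (EuclideanSpace.basisFun (Fin m) ℝ).toBasis.ext fun i => ?_
    simpa using h i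
  ext x i
  have := congrArg (fun B : F m →ₗ[ℝ] F m => (B x) i) h2
  simpa using this

theorem retrL_mul {m : ℕ} {g : F m →L[ℝ] F m} (hg : ∀ x, ‖g x‖ = ‖x‖) (A : F m →L[ℝ] F m) :
    ‖retrL m (g * A)‖ = ‖retrL m A‖ := by
  rw [PiLp.norm_eq_of_L2, PiLp.norm_eq_of_L2]
  congr 1
  refine Finset.sum_congr rfl fun i _ => ?_
  rw [retrL_apply, retrL_apply]
  show ‖g (A _)‖ ^ 2 = _
  rw [hg]

theorem retr_compact {m : ℕ} {G : Set (F m →L[ℝ] F m)} (hG : IsOrthGroup G) : IsCompact G := by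
  have : ProperSpace (F m →L[ℝ] F m) := FiniteDimensional.proper ℝ _
  refine Metric.isCompact_of_isClosed_isBounded hG.closed ?_
  refine (Metric.isBounded_iff_subset_closedBall 0).mpr ⟨1, fun g hg => ?_⟩
  rw [mem_closedBall_zero_iff]
  refine ContinuousLinearMap.opNorm_le_bound _ zero_le_one fun x => ?_
  rw [one_mul, hG.isom g hg]

/-- The distance to the group. -/
def retrD {m : ℕ} (G : Set (F m →L[ℝ] F m)) (A : F m →L[ℝ] F m) : ℝ :=
  Metric.infDist (retrL m A) (retrL m '' G)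

theorem retrL_cont (m : ℕ) : Continuous (retrL m) := (retrL m).continuous_of_finiteDimensional

theorem retrD_cont {m : ℕ} (G : Set (F m →L[ℝ] F m)) : Continuous (retrD G) :=
  (Metric.continuous_infDist_pt _).comp (retrL_cont m)

theorem retrD_le {m : ℕ} {G : Set (F m →L[ℝ] F m)} (A g : F m →L[ℝ] F m) (hg : g ∈ G) :
    retrD G A ≤ ‖retrL m (A - g)‖ := by
  have h := Metric.infDist_le_dist_of_mem (x := retrL m A) (mem_image_of_mem (retrL m) hg)
  rwa [dist_eq_norm, ← map_sub] at h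

theorem retrD_exists {m : ℕ} {G : Set (F m →L[ℝ] F m)} (hG : IsOrthGroup G)
    (A : F m →L[ℝ] F m) : ∃ g ∈ G, ‖retrL m (A - g)‖ = retrD G A := by
  obtain ⟨y, ⟨g, hg, rfl⟩, hy⟩ := ((retr_compact hG).image (retrL_cont m)).exists_infDist_eq_dist
    ⟨retrL m 1, mem_image_of_mem _ hG.one⟩ (retrL m A)
  refine ⟨g, hg, ?_⟩
  rw [map_sub, ← dist_eq_norm]
  exact hy.symm

theorem retrD_nonneg {m : ℕ} (G : Set (F m →L[ℝ] F m)) (A : F m →L[ℝ] F m) : 0 ≤ retrD G A :=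
  Metric.infDist_nonneg

/-- Uniqueness of the nearest point. -/
theorem retr_unique (h3 : CartanStmt) {m : ℕ} {G : Set (F m →L[ℝ] F m)} (hG : IsOrthGroup G) :
    ∃ d₀ : ℝ, 0 < d₀ ∧ ∀ A, retrD G A < d₀ → ∀ g₁ ∈ G, ∀ g₂ ∈ G,
      ‖retrL m (A - g₁)‖ = retrD G A → ‖retrL m (A - g₂)‖ = retrD G A → g₁ = g₂ := by
  obtain ⟨δ, C, hδ, hC, H⟩ := h3 m G hG
  obtain ⟨c, hc, hanti⟩ := (retrL m).exists_antilipschitzWith (retrL_ker m)
  have hc' : (0 : ℝ) < c := hc
  have hle : ∀ A, ‖A‖ ≤ c * ‖retrL m A‖ := by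
    intro A
    have := hanti.le_mul_dist A 0
    rwa [map_zero, dist_zero_right, dist_zero_right] at this
  set L : (F m →L[ℝ] F m) →L[ℝ] PiLp 2 (fun _ : Fin m => F m) :=
    LinearMap.toContinuousLinearMap (retrL m) with hL
  have hLle : ∀ A, ‖retrL m A‖ ≤ (‖L‖ + 1) * ‖A‖ := by
    intro A
    have h1 : ‖retrL m A‖ ≤ ‖L‖ * ‖A‖ := L.le_opNorm A
    nlinarith [norm_nonneg A]
  set C' : ℝ := (‖L‖ + 1) * (C * (c : ℝ) ^ 2) with hC'
  have hC'0 : 0 < C' := by positivity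
  refine ⟨min (δ / (2 * c)) (1 / (8 * C')), by positivity, fun A hA g₁ hg₁ g₂ hg₂ e1 e2 => ?_⟩
  by_contra hne
  set d := retrD G A with hd
  have hd1 : d < δ / (2 * c) := hA.trans_le (min_le_left _ _)
  have hd2 : d < 1 / (8 * C') := hA.trans_le (min_le_right _ _)
  set s := ‖retrL m (g₂ - g₁)‖ with hs
  have hs0 : 0 < s := by
    rw [hs, norm_pos_iff]
    intro h0
    have h4 := (LinearMap.ker_eq_bot'.mp (retrL_ker m)) _ h0
    exact hne (sub_eq_zero.mp h4).symm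
  have hs2 : s ≤ 2 * d := by
    have h5 : g₂ - g₁ = (A - g₁) - (A - g₂) := by abel
    have h6 := norm_sub_le (retrL m (A - g₁)) (retrL m (A - g₂))
    rw [← map_sub, ← h5, e1, e2] at h6
    linarith
  have hd0 : 0 < d := by linarith
  obtain ⟨g', hg', hgg, hgg'⟩ := hG.inv g₁ hg₁
  have hiso := hG.isom g₁ hg₁
  have hh : g' * g₂ ∈ G := hG.mul _ hg' _ hg₂
  have e3 : g₁ * (g' * g₂ - 1) = g₂ - g₁ := by
    rw [mul_sub, ← mul_assoc, hgg', one_mul, mul_one]
  have hn1 : ‖g' * g₂ - 1‖ ≤ c * s := by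
    have h7 := hle (g' * g₂ - 1)
    rwa [← retrL_mul hiso, e3] at h7
  have hn2 : ‖g' * g₂ - 1‖ < δ := by
    have h8 : c * s ≤ c * (2 * d) := mul_le_mul_of_nonneg_left hs2 hc'.le
    have h9 : c * (2 * d) < δ := by
      rw [lt_div_iff₀ (by positivity)] at hd1
      linarith
    linarith
  obtain ⟨k, hk, hkn⟩ := H _ hh hn2
  have hkn' : ‖retrL m (g₁ * k - (1 / 2 : ℝ) • (g₁ + g₂))‖ ≤ C' * s ^ 2 := by
    have e4 : g₁ * k - (1 / 2 : ℝ) • (g₁ + g₂) = g₁ * (k - (1 / 2 : ℝ) • (1 + g' * g₂)) := by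
      have e41 : g₁ * ((1 / 2 : ℝ) • (1 + g' * g₂)) = (1 / 2 : ℝ) • (g₁ * (1 + g' * g₂)) := by
        ext x i
        simp
      rw [mul_sub, e41, mul_add, ← mul_assoc, hgg', one_mul, mul_one]
    rw [e4, retrL_mul hiso]
    have hsq : ‖g' * g₂ - 1‖ ^ 2 ≤ (c * s) ^ 2 := pow_le_pow_left₀ (norm_nonneg _) hn1 2
    calc _ ≤ (‖L‖ + 1) * ‖k - (1 / 2 : ℝ) • (1 + g' * g₂)‖ := hLle _
      _ ≤ (‖L‖ + 1) * (C * (c * s) ^ 2) := by
          gcongr
          exact hkn.trans (mul_le_mul_of_nonneg_left hsq hC.le)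
      _ = C' * s ^ 2 := by rw [hC']; ring
  set mm := ‖retrL m ((1 / 2 : ℝ) • (g₁ + g₂) - A)‖ with hmm
  have hpar : mm ^ 2 = d ^ 2 - s ^ 2 / 4 := by
    have h10 := parallelogram_law_with_norm ℝ (retrL m (A - g₁)) (retrL m (A - g₂))
    rw [← map_add, ← map_sub, e1, e2] at h10
    have e5 : A - g₁ - (A - g₂) = g₂ - g₁ := by abel
    have e6 : A - g₁ + (A - g₂) = (-2 : ℝ) • ((1 / 2 : ℝ) • (g₁ + g₂) - A) := by module
    rw [e5, e6, map_smul, norm_smul] at h10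
    have e7 : ‖(-2 : ℝ)‖ = 2 := by norm_num
    rw [e7, ← hmm, ← hs] at h10
    nlinarith
  have hfin : mm + C' * s ^ 2 < d := by
    have hCs : C' * s ^ 2 ≤ d / 2 := by
      rw [lt_div_iff₀ (by positivity)] at hd2
      nlinarith [mul_le_mul hs2 hs2 hs0.le (by positivity)]
    by_contra hcon
    have h11 : d - C' * s ^ 2 ≤ mm := by linarith
    have h12 : (d - C' * s ^ 2) ^ 2 ≤ mm ^ 2 := pow_le_pow_left₀ (by linarith) h11 2
    rw [hpar] at h12
    rw [lt_div_iff₀ (by positivity)] at hd2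
    have h13 : 0 < s ^ 2 := by positivity
    have h14 : d * (2 * C' * s ^ 2) < s ^ 2 / 4 := by nlinarith
    nlinarith [sq_nonneg (C' * s ^ 2)]
  have h15 := retrD_le A (g₁ * k) (hG.mul _ hg₁ _ hk)
  have h16 : ‖retrL m (A - g₁ * k)‖ ≤ mm + C' * s ^ 2 := by
    have e8 : A - g₁ * k = -((1 / 2 : ℝ) • (g₁ + g₂) - A) - (g₁ * k - (1 / 2 : ℝ) • (g₁ + g₂)) := by
      abel
    rw [e8, map_sub, map_neg]
    refine (norm_sub_le _ _).trans ?_
    rw [norm_neg, ← hmm]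
    linarith
  linarith

/-- U4. -/
theorem retrStmt (h3 : CartanStmt) : RetrStmt := by
  intro m G hG
  obtain ⟨d₀, hd₀, huniq⟩ := retr_unique h3 hG
  choose r hrG hr using fun A => retrD_exists hG A
  set L : (F m →L[ℝ] F m) →L[ℝ] PiLp 2 (fun _ : Fin m => F m) :=
    LinearMap.toContinuousLinearMap (retrL m) with hL
  have hU : ∀ A, (∃ g ∈ G, ‖A - g‖ < d₀ / (‖L‖ + 1)) → retrD G A < d₀ := by
    rintro A ⟨g, hg, hlt⟩
    have h1 := retrD_le A g hg
    have h2 : ‖retrL m (A - g)‖ ≤ ‖L‖ * ‖A - g‖ := L.le_opNorm _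
    rw [lt_div_iff₀ (by positivity)] at hlt
    nlinarith [norm_nonneg (A - g), norm_nonneg L]
  refine ⟨d₀ / (‖L‖ + 1), by positivity, r, ?_, ?_⟩
  · intro A₀ hA₀
    have hd := hU A₀ hA₀
    refine tendsto_of_subseq_tendsto fun ns hns => ?_
    obtain ⟨g, hg, φ, hφ, hlim⟩ := (retr_compact hG).tendsto_subseq (x := fun n => r (ns n))
      (fun n => hrG _)
    refine ⟨φ, ?_⟩
    have hA : Tendsto (fun n => ns (φ n)) atTop (𝓝 A₀) :=
      (hns.mono_right nhdsWithin_le_nhds).comp hφ.tendsto_atTop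
    have h1 : Tendsto (fun n => ‖retrL m (ns (φ n) - r (ns (φ n)))‖) atTop
        (𝓝 ‖retrL m (A₀ - g)‖) :=
      (((retrL_cont m).tendsto _).comp (hA.sub hlim)).norm
    have h2 : Tendsto (fun n => retrD G (ns (φ n))) atTop (𝓝 (retrD G A₀)) :=
      ((retrD_cont G).tendsto _).comp hA
    have h3 : ‖retrL m (A₀ - g)‖ = retrD G A₀ := by
      refine tendsto_nhds_unique h1 (h2.congr fun n => ?_)
      exact (hr _).symm
    have h4 : g = r A₀ := huniq A₀ hd g hg (r A₀) (hrG _) h3 (hr _)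
    rw [← h4]
    exact hlim
  · intro A hA
    have hd := hU A hA
    refine ⟨hrG A, fun g hg => ?_⟩
    obtain ⟨g', hg', hgg, hgg'⟩ := hG.inv g hg
    have hle : ∀ g ∈ G, ∀ B, retrD G (g * B) ≤ retrD G B := by
      intro g hg B
      have h1 := retrD_le (g * B) (g * r B) (hG.mul _ hg _ (hrG B))
      rw [← mul_sub, retrL_mul (hG.isom g hg), hr B] at h1
      exact h1
    have heq : retrD G (g * A) = retrD G A := by
      refine le_antisymm (hle g hg A) ?_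
      have := hle g' hg' (g * A)
      rwa [← mul_assoc, hgg, one_mul] at this
    refine huniq (g * A) (by rw [heq]; exact hd) _ (hrG _) _ (hG.mul _ hg _ (hrG A)) (hr _) ?_
    rw [← mul_sub, retrL_mul (hG.isom g hg), hr A, heq]

end Pool.Agent.Lib.MP_5c4da9_an
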