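import Mathlib
import Pool.Agent.Lib.MP_5c4da9_an.Defs

set_option autoImplicit false

open Set Filter Topology Module

noncomputable section

namespace Pool.Agent.Lib.MP_5c4da9_an

namespace Sect

/-- The iterated sections. -/
def sec {m : ℕ} (q : F m → (F m →L[ℝ] F m)) (K : ℕ) (x : F m) : ℕ → F m → F m
  | 0 => fun _ => x
  | k + 1 => fun ω => sec q K x k ω - q ((((k : ℝ) + 1) / K) • ω) (sec q K x k ω)

end Sect

open Sect in
theorem sectStmt : SectStmt := by
  intro m q ρ hρ hq hidem hx
  obtain ⟨x, hx0, hqx⟩ := hx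
  have huc := (isCompact_closedBall (0 : F m) ρ).uniformContinuousOn_of_continuous hq
  rw [Metric.uniformContinuousOn_iff] at huc
  obtain ⟨η, hη, hη'⟩ := huc (1 / 2) (by norm_num)
  obtain ⟨K, hK⟩ := exists_nat_gt (ρ / η)
  have hKpos : (0 : ℝ) < K := lt_of_le_of_lt (by positivity) hK
  have hKη : ρ / K < η := by
    rw [div_lt_iff₀ hη] at hK
    rw [div_lt_iff₀ hKpos]
    linarith
  have hmem : ∀ (k : ℕ), k ≤ K → ∀ ω : F m, ‖ω‖ ≤ ρ →
      (((k : ℝ) / K) • ω) ∈ Metric.closedBall (0 : F m) ρ := by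
    intro k hk ω hω
    rw [mem_closedBall_zero_iff, norm_smul, Real.norm_of_nonneg (by positivity)]
    have h1 : (k : ℝ) / K ≤ 1 := by
      rw [div_le_one hKpos]
      exact_mod_cast hk
    calc (k : ℝ) / K * ‖ω‖ ≤ 1 * ‖ω‖ := by gcongr
      _ ≤ ρ := by linarith
  have key : ∀ k : ℕ, k ≤ K → ContinuousOn (sec q K x k) (Metric.closedBall 0 ρ) ∧
      ∀ ω : F m, ‖ω‖ ≤ ρ → sec q K x k ω ≠ 0 ∧ q (((k : ℝ) / K) • ω) (sec q K x k ω) = 0 := by
    intro k
    induction k with
    | zero =>
      intro _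
      refine ⟨continuousOn_const, fun ω _ => ⟨hx0, ?_⟩⟩
      simpa [sec] using hqx
    | succ k ih =>
      intro hk
      obtain ⟨ihc, ihs⟩ := ih (by omega)
      have hcast : ((k + 1 : ℕ) : ℝ) / K = ((k : ℝ) + 1) / K := by push_cast; rfl
      refine ⟨?_, ?_⟩
      · have h1 : ContinuousOn (fun ω : F m => q ((((k : ℝ) + 1) / K) • ω))
            (Metric.closedBall 0 ρ) := by
          apply hq.comp (by fun_prop)
          intro ω hω
          rw [mem_closedBall_zero_iff] at hω
          have := hmem (k + 1) hk ω hω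
          rwa [hcast] at this
        exact ihc.sub (h1.clm_apply ihc)
      · intro ω hω
        obtain ⟨h0, h1⟩ := ihs ω hω
        have hb := hmem (k + 1) hk ω hω
        have ha := hmem k (by omega) ω hω
        have hdist : dist ((((k + 1 : ℕ) : ℝ) / K) • ω) (((k : ℝ) / K) • ω) < η := by
          rw [dist_eq_norm, ← sub_smul, norm_smul]
          have : ((k + 1 : ℕ) : ℝ) / K - (k : ℝ) / K = 1 / K := by
            push_cast; ring
          rw [this, Real.norm_of_nonneg (by positivity)]
          calc 1 / (K : ℝ) * ‖ω‖ ≤ 1 / K * ρ := by gcongr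
            _ = ρ / K := by ring
            _ < η := hKη
        have hlt := hη' _ hb _ ha hdist
        rw [dist_eq_norm] at hlt
        have hs0 : (0 : ℝ) < ‖sec q K x k ω‖ := norm_pos_iff.mpr h0
        have hle : ‖q ((((k + 1 : ℕ) : ℝ) / K) • ω) (sec q K x k ω)‖ < ‖sec q K x k ω‖ := by
          have h2 : q ((((k + 1 : ℕ) : ℝ) / K) • ω) (sec q K x k ω)
              = (q ((((k + 1 : ℕ) : ℝ) / K) • ω) - q (((k : ℝ) / K) • ω)) (sec q K x k ω) := by
            rw [sub_apply, h1, sub_zero]
          rw [h2]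
          calc _ ≤ ‖q ((((k + 1 : ℕ) : ℝ) / K) • ω) - q (((k : ℝ) / K) • ω)‖
                * ‖sec q K x k ω‖ := ContinuousLinearMap.le_opNorm _ _
            _ < 1 * ‖sec q K x k ω‖ := by
                apply mul_lt_mul_of_pos_right _ hs0
                linarith
            _ = _ := one_mul _
        have hsec : sec q K x (k + 1) ω
            = sec q K x k ω - q ((((k + 1 : ℕ) : ℝ) / K) • ω) (sec q K x k ω) := by
          rw [hcast]; rfl
        rw [hsec]
        refine ⟨?_, ?_⟩
        · intro h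
          rw [sub_eq_zero] at h
          rw [← h] at hle
          exact lt_irrefl _ hle
        · rw [map_sub]
          have h3 := hidem ((((k + 1 : ℕ) : ℝ) / K) • ω) (by simpa using hb)
          have h4 := congrArg (fun T : F m →L[ℝ] F m => T (sec q K x k ω)) h3
          simp only [ContinuousLinearMap.comp_apply] at h4
          rw [h4, sub_self]
  obtain ⟨hc, hs⟩ := key K le_rfl
  refine ⟨sec q K x K, hc, fun ω hω => ?_⟩
  obtain ⟨h0, h1⟩ := hs ω hω
  refine ⟨h0, ?_⟩
  rwa [div_self (ne_of_gt hKpos), one_smul] at h1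

end Pool.Agent.Lib.MP_5c4da9_an
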