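import Pool.Agent.Lib.MP_5c4da9_an.Defs

set_option autoImplicit false

/-!
# B5: continuous selection over a ball
-/

open Set Filter Topology Module

namespace Pool.Agent.Lib.MP_5c4da9_an

namespace Select

/-- One step of the continuation. -/
theorem step {m : ℕ} {Q : F m → Set (F m →L[ℝ] F m)} {ρ δ η : ℝ} (hδ : 0 < δ)
    (hsep : ∀ ω : F m, ‖ω‖ ≤ ρ → ∀ q ∈ Q ω, ∀ q' ∈ Q ω, q ≠ q' → δ ≤ ‖q - q'‖)
    (hloc : ∀ ε : ℝ, 0 < ε → ∃ η : ℝ, 0 < η ∧ ∀ ω ω' : F m, ‖ω‖ ≤ ρ → ‖ω'‖ ≤ ρ → ‖ω - ω'‖ < η →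
      ∀ q ∈ Q ω, ∃ q' ∈ Q ω', ‖q - q'‖ < ε)
    (hη : ∀ ω ω' : F m, ‖ω‖ ≤ ρ → ‖ω'‖ ≤ ρ → ‖ω - ω'‖ < η →
      ∀ q ∈ Q ω, ∃ q' ∈ Q ω', ‖q - q'‖ < δ / 6)
    (T T' : F m → F m) (hT : ∀ ω : F m, ‖ω‖ ≤ ρ → ‖T ω‖ ≤ ρ)
    (hT' : ∀ ω : F m, ‖ω‖ ≤ ρ → ‖T' ω‖ ≤ ρ) (hc : Continuous T')
    (hTT : ∀ ω : F m, ‖ω‖ ≤ ρ → ‖T ω - T' ω‖ < η)
    (q : F m → (F m →L[ℝ] F m)) (hq : ContinuousOn q (Metric.closedBall 0 ρ))
    (hqQ : ∀ ω : F m, ‖ω‖ ≤ ρ → q ω ∈ Q (T ω)) :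
    ∃ q' : F m → (F m →L[ℝ] F m), ContinuousOn q' (Metric.closedBall 0 ρ) ∧
      (∀ ω : F m, ‖ω‖ ≤ ρ → q' ω ∈ Q (T' ω)) ∧
      ∀ ω : F m, ‖ω‖ ≤ ρ → T ω = T' ω → q' ω = q ω := by
  have hex : ∀ ω : F m, ‖ω‖ ≤ ρ → ∃ r ∈ Q (T' ω), ‖q ω - r‖ < δ / 6 := fun ω hω =>
    hη (T ω) (T' ω) (hT ω hω) (hT' ω hω) (hTT ω hω) (q ω) (hqQ ω hω)
  classical
  let q' : F m → (F m →L[ℝ] F m) := fun ω => if h : ‖ω‖ ≤ ρ then (hex ω h).choose else 0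
  have hq'1 : ∀ ω : F m, ‖ω‖ ≤ ρ → q' ω ∈ Q (T' ω) := by
    intro ω h
    simp only [q', dif_pos h]
    exact (hex ω h).choose_spec.1
  have hq'2 : ∀ ω : F m, ‖ω‖ ≤ ρ → ‖q ω - q' ω‖ < δ / 6 := by
    intro ω h
    simp only [q', dif_pos h]
    exact (hex ω h).choose_spec.2
  refine ⟨q', ?_, hq'1, ?_⟩
  · rw [Metric.continuousOn_iff]
    intro ω hω ε hε
    have hωρ : ‖ω‖ ≤ ρ := by simpa using hω
    obtain ⟨η', hη', hl⟩ := hloc (min ε (δ / 6)) (lt_min hε (by linarith))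
    obtain ⟨κ₁, hκ₁, h1⟩ := (Metric.continuousOn_iff.mp hq) ω hω (δ / 6) (by linarith)
    obtain ⟨κ₂, hκ₂, h2⟩ := (Metric.continuous_iff.mp hc) ω η' hη'
    refine ⟨min κ₁ κ₂, lt_min hκ₁ hκ₂, ?_⟩
    intro ω' hω' hd
    have hωρ' : ‖ω'‖ ≤ ρ := by simpa using hω'
    have h3 : ‖q ω' - q ω‖ < δ / 6 := by
      have := h1 ω' hω' (lt_of_lt_of_le hd (min_le_left _ _))
      rwa [dist_eq_norm] at this
    have h4 : ‖T' ω - T' ω'‖ < η' := by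
      have := h2 ω' (lt_of_lt_of_le hd (min_le_right _ _))
      rwa [dist_eq_norm, norm_sub_rev] at this
    obtain ⟨r, hr, hr2⟩ := hl (T' ω) (T' ω') (hT' ω hωρ) (hT' ω' hωρ') h4 (q' ω) (hq'1 ω hωρ)
    have h5 : r = q' ω' := by
      by_contra hne
      have h6 := hsep (T' ω') (hT' ω' hωρ') r hr (q' ω') (hq'1 ω' hωρ') hne
      have h7 : ‖r - q' ω'‖ ≤ ‖q' ω - r‖ + ‖q ω - q' ω‖ + ‖q ω' - q ω‖ + ‖q ω' - q' ω'‖ := by
        have e : r - q' ω' = -(q' ω - r) + -(q ω - q' ω) + -(q ω' - q ω) + (q ω' - q' ω') := by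
          abel
        calc ‖r - q' ω'‖ = ‖-(q' ω - r) + -(q ω - q' ω) + -(q ω' - q ω) + (q ω' - q' ω')‖ := by
              rw [← e]
          _ ≤ ‖-(q' ω - r)‖ + ‖-(q ω - q' ω)‖ + ‖-(q ω' - q ω)‖ + ‖q ω' - q' ω'‖ :=
              norm_add₄_le
          _ = ‖q' ω - r‖ + ‖q ω - q' ω‖ + ‖q ω' - q ω‖ + ‖q ω' - q' ω'‖ := by
              rw [norm_neg, norm_neg, norm_neg]
      have h8 := hq'2 ω hωρ
      have h9 := hq'2 ω' hωρ'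
      have h10 := lt_of_lt_of_le hr2 (min_le_right ε (δ / 6))
      linarith
    rw [dist_eq_norm, norm_sub_rev, ← h5]
    exact lt_of_lt_of_le hr2 (min_le_left _ _)
  · intro ω hω hTe
    by_contra hne
    have h1 := hq'1 ω hω
    rw [← hTe] at h1
    have h2 := hsep (T ω) (hT ω hω) (q ω) (hqQ ω hω) (q' ω) h1 (Ne.symm hne)
    have h3 := hq'2 ω hω
    linarith

end Select

open Select in
theorem selStmt : SelStmt := by
  intro m Q ρ δ hδ hsep hloc ω₁ hω₁ q₁ hq₁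
  obtain ⟨η, hη, hl⟩ := hloc (δ / 6) (by linarith)
  have hρ : 0 ≤ ρ := (norm_nonneg ω₁).trans hω₁
  obtain ⟨K, hK⟩ := exists_nat_gt (2 * ρ / η)
  have hK0 : (0 : ℝ) < K := lt_of_le_of_lt (by positivity) hK
  have hKη : 2 * ρ / K < η := by
    rw [div_lt_iff₀ hη] at hK
    rw [div_lt_iff₀ hK0]
    linarith
  let T : ℕ → F m → F m := fun k ω => ω₁ + ((k : ℝ) / K) • (ω - ω₁)
  have hTball : ∀ k ≤ K, ∀ ω : F m, ‖ω‖ ≤ ρ → ‖T k ω‖ ≤ ρ := by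
    intro k hk ω hω
    have h0 : (0 : ℝ) ≤ (k : ℝ) / K := by positivity
    have h1 : (k : ℝ) / K ≤ 1 := by
      rw [div_le_one hK0]
      exact_mod_cast hk
    have e : T k ω = (1 - (k : ℝ) / K) • ω₁ + ((k : ℝ) / K) • ω := by
      simp only [T]
      rw [smul_sub, sub_smul, one_smul]
      abel
    rw [e]
    calc ‖(1 - (k : ℝ) / K) • ω₁ + ((k : ℝ) / K) • ω‖
        ≤ ‖(1 - (k : ℝ) / K) • ω₁‖ + ‖((k : ℝ) / K) • ω‖ := norm_add_le _ _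
      _ = (1 - (k : ℝ) / K) * ‖ω₁‖ + ((k : ℝ) / K) * ‖ω‖ := by
          rw [norm_smul, norm_smul, Real.norm_of_nonneg (by linarith), Real.norm_of_nonneg h0]
      _ ≤ (1 - (k : ℝ) / K) * ρ + ((k : ℝ) / K) * ρ := by
          gcongr
      _ = ρ := by ring
  have hTc : ∀ k, Continuous (T k) := by
    intro k
    simp only [T]
    fun_prop
  have hTT : ∀ k, ∀ ω : F m, ‖ω‖ ≤ ρ → ‖T k ω - T (k + 1) ω‖ < η := by
    intro k ω hω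
    have e : T k ω - T (k + 1) ω = (-(1 / (K : ℝ))) • (ω - ω₁) := by
      simp only [T]
      rw [add_sub_add_left_eq_sub, ← sub_smul]
      congr 1
      push_cast
      ring
    rw [e, norm_smul, norm_neg, Real.norm_of_nonneg (by positivity)]
    have h1 : ‖ω - ω₁‖ ≤ 2 * ρ := by
      have := norm_sub_le ω ω₁
      linarith
    calc 1 / (K : ℝ) * ‖ω - ω₁‖ ≤ 1 / (K : ℝ) * (2 * ρ) := by gcongr
      _ = 2 * ρ / K := by ring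
      _ < η := hKη
  have hT1 : ∀ k, T k ω₁ = ω₁ := by
    intro k
    simp only [T, sub_self, smul_zero, add_zero]
  have main : ∀ k ≤ K, ∃ q : F m → (F m →L[ℝ] F m), ContinuousOn q (Metric.closedBall 0 ρ) ∧
      (∀ ω : F m, ‖ω‖ ≤ ρ → q ω ∈ Q (T k ω)) ∧ q ω₁ = q₁ := by
    intro k
    induction k with
    | zero =>
      intro _
      refine ⟨fun _ => q₁, continuousOn_const, ?_, rfl⟩
      intro ω _
      have e : T 0 ω = ω₁ := by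
        simp only [T]
        simp
      rw [e]
      exact hq₁
    | succ k ih =>
      intro hk
      obtain ⟨q, hq1, hq2, hq3⟩ := ih (by omega)
      obtain ⟨q', h1, h2, h3⟩ := step hδ hsep hloc hl (T k) (T (k + 1)) (hTball k (by omega))
        (hTball (k + 1) hk) (hTc _) (hTT k) q hq1 hq2
      refine ⟨q', h1, h2, ?_⟩
      rw [h3 ω₁ hω₁ (by rw [hT1, hT1]), hq3]
  obtain ⟨q, h1, h2, h3⟩ := main K le_rfl
  refine ⟨q, h1, ?_, h3⟩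
  intro ω hω
  have e : T K ω = ω := by
    simp only [T]
    rw [div_self hK0.ne', one_smul]
    abel
  have := h2 ω hω
  rwa [e] at this

end Pool.Agent.Lib.MP_5c4da9_an
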