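import Mathlib
import Pool.Agent.Lib.MP_5c4da9_an.Defs

set_option autoImplicit false

open Set Filter Topology Module

noncomputable section

namespace Pool.Agent.Lib.MP_5c4da9_an

namespace Struct

variable {m : ℕ} {R : Set (F m)}

theorem ne_zero_of_unit {v : F m} (h : ‖v‖ = 1) : v ≠ 0 := by
  rintro rfl; simp at h

theorem full_span (hR : IsReflSet R) {v : F m} (hv : v ∈ R) :
    Full R (Submodule.span ℝ {v}) := by
  intro x hx hx1
  obtain ⟨c, rfl⟩ := Submodule.mem_span_singleton.1 hx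
  rw [norm_smul, hR.unit v hv, mul_one, Real.norm_eq_abs] at hx1
  rcases eq_or_eq_neg_of_abs_eq hx1 with h | h
  · rw [h, one_smul]; exact hv
  · rw [h, neg_one_smul]; exact hR.neg v hv

theorem exists_maxSub {W : Submodule ℝ (F m)} (hW : Full R W) (h0 : W ≠ ⊥) :
    ∃ W' ∈ MaxSub R, W ≤ W' := by
  obtain ⟨W', ⟨h1, h2⟩, h3⟩ := (wellFounded_gt (α := Submodule ℝ (F m))).has_min
    {W' | Full R W' ∧ W ≤ W'} ⟨W, hW, le_rfl⟩
  refine ⟨W', ⟨?_, h1, ?_⟩, h2⟩
  · rintro rfl; exact h0 (le_bot_iff.1 h2)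
  · intro W'' hW'' hle
    by_contra hne
    exact h3 W'' ⟨hW'', h2.trans hle⟩ (lt_of_le_of_ne hle (Ne.symm hne))

theorem orth_of_notMem (h1 : PlaneStmt) (hR : IsReflSet R) {W : Submodule ℝ (F m)}
    (hW : W ∈ MaxSub R) (h2 : 2 ≤ finrank ℝ W) {w : F m} (hw : w ∈ R) (hwW : w ∉ W) {v : F m}
    (hv : v ∈ W) : inner ℝ v w = 0 := by
  by_contra h
  have h3 := h1 m R hR W hW.2.1 h2 w hw hwW ⟨v, hv, h⟩
  have h4 := hW.2.2 _ h3 le_sup_left
  apply hwW
  rw [← h4]
  exact (le_sup_right : Submodule.span ℝ {w} ≤ W ⊔ _) (Submodule.mem_span_singleton_self w)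

theorem inf_aux (h1 : PlaneStmt) (hR : IsReflSet R) {W W' : Submodule ℝ (F m)}
    (hW : W ∈ MaxSub R) (hW' : W' ∈ MaxSub R) (hne : W ≠ W') (h2 : 2 ≤ finrank ℝ W) {v : F m}
    (hv : v ∈ W) (hv' : v ∈ W') (hv1 : ‖v‖ = 1) : False := by
  have hnle : ¬ W' ≤ W := fun hle => hne (hW'.2.2 W hW.2.1 hle)
  obtain ⟨w', hw', hw'W⟩ := SetLike.not_le_iff_exists.1 hnle
  have hvv : inner ℝ v v = (1 : ℝ) := by
    rw [real_inner_self_eq_norm_sq, hv1]; norm_num
  obtain ⟨t, ht0, ht⟩ : ∃ t : ℝ, t ≠ 0 ∧ 1 + t * inner ℝ v w' ≠ 0 := by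
    by_cases h : 1 + inner ℝ v w' = (0 : ℝ)
    · refine ⟨-1, by norm_num, fun h' => ?_⟩
      linarith
    · exact ⟨1, one_ne_zero, by rwa [one_mul]⟩
  set u := v + t • w' with hu
  have huW : u ∉ W := by
    intro h
    have h3 : t • w' ∈ W := by
      have := W.sub_mem h hv
      rwa [hu, add_sub_cancel_left] at this
    exact hw'W ((W.smul_mem_iff ht0).1 h3)
  have hu0 : u ≠ 0 := by
    intro h; apply huW; rw [h]; exact W.zero_mem
  have huW' : u ∈ W' := W'.add_mem hv' (W'.smul_mem _ hw')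
  have hn : ‖u‖ ≠ 0 := norm_ne_zero_iff.2 hu0
  have hw : ‖u‖⁻¹ • u ∈ R := by
    apply hW'.2.1 _ (W'.smul_mem _ huW')
    rw [norm_smul, norm_inv, norm_norm, inv_mul_cancel₀ hn]
  have hwW : ‖u‖⁻¹ • u ∉ W := fun h => huW ((W.smul_mem_iff (inv_ne_zero hn)).1 h)
  have h3 := orth_of_notMem h1 hR hW h2 hw hwW hv
  rw [inner_smul_right, mul_eq_zero, hu, inner_add_right, inner_smul_right, hvv] at h3
  rcases h3 with h3 | h3
  · exact inv_ne_zero hn h3
  · exact ht h3

theorem inf_eq_bot (h1 : PlaneStmt) (hR : IsReflSet R) {W W' : Submodule ℝ (F m)}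
    (hW : W ∈ MaxSub R) (hW' : W' ∈ MaxSub R) (hne : W ≠ W') : W ⊓ W' = ⊥ := by
  rw [Submodule.eq_bot_iff]
  rintro x ⟨hx, hx'⟩
  by_contra hx0
  have hn : ‖x‖ ≠ 0 := norm_ne_zero_iff.2 hx0
  have hv1 : ‖‖x‖⁻¹ • x‖ = 1 := by
    rw [norm_smul, norm_inv, norm_norm, inv_mul_cancel₀ hn]
  have hv : ‖x‖⁻¹ • x ∈ W := W.smul_mem _ hx
  have hv' : ‖x‖⁻¹ • x ∈ W' := W'.smul_mem _ hx'
  by_cases h2 : 2 ≤ finrank ℝ W
  · exact inf_aux h1 hR hW hW' hne h2 hv hv' hv1
  by_cases h3 : 2 ≤ finrank ℝ W'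
  · exact inf_aux h1 hR hW' hW (Ne.symm hne) h3 hv' hv hv1
  apply hne
  have h4 : Submodule.span ℝ {x} = W := by
    apply Submodule.eq_of_le_of_finrank_le
    · rw [Submodule.span_singleton_le_iff_mem]; exact hx
    · rw [finrank_span_singleton hx0]; omega
  have h5 : Submodule.span ℝ {x} = W' := by
    apply Submodule.eq_of_le_of_finrank_le
    · rw [Submodule.span_singleton_le_iff_mem]; exact hx'
    · rw [finrank_span_singleton hx0]; omega
  rw [← h4, ← h5]

theorem exists_unit {W : Submodule ℝ (F m)} (hW : W ≠ ⊥) : ∃ v ∈ W, ‖v‖ = 1 := by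
  obtain ⟨x, hx, hx0⟩ := (Submodule.ne_bot_iff W).1 hW
  have hn : ‖x‖ ≠ 0 := norm_ne_zero_iff.2 hx0
  exact ⟨‖x‖⁻¹ • x, W.smul_mem _ hx, by rw [norm_smul, norm_inv, norm_norm, inv_mul_cancel₀ hn]⟩

theorem finite_big (h1 : PlaneStmt) (hR : IsReflSet R) :
    {W | W ∈ MaxSub R ∧ 2 ≤ finrank ℝ W}.Finite := by
  have hch : ∀ W : {W | W ∈ MaxSub R ∧ 2 ≤ finrank ℝ W}, ∃ v ∈ W.1, ‖v‖ = 1 :=
    fun W => exists_unit W.2.1.1
  choose f hf hf1 using hch
  have hon : Orthonormal ℝ f := by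
    refine ⟨hf1, ?_⟩
    intro W W' hne
    have hne' : W'.1 ≠ W.1 := fun h => hne (Subtype.ext h.symm)
    have hin := inf_eq_bot h1 hR W.2.1 W'.2.1 (Ne.symm hne')
    apply orth_of_notMem h1 hR W.2.1 W.2.2 (W'.2.1.2.1 _ (hf W') (hf1 W')) _ (hf W)
    intro hmem
    have : f W' ∈ W.1 ⊓ W'.1 := ⟨hmem, hf W'⟩
    rw [hin, Submodule.mem_bot] at this
    exact ne_zero_of_unit (hf1 W') this
  have := hon.linearIndependent.finite
  exact Set.toFinite _

/-- The point of the unit circle of the plane of `v` and `u` at the angle `t`. -/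
def circ (v u : F m) (t : ℝ) : F m := Real.cos t • v + Real.sin t • u

theorem rfl_circ {v u : F m} (hv : ‖v‖ = 1) (hu : ‖u‖ = 1) (h : inner ℝ v u = (0 : ℝ))
    (a b : ℝ) : rfl' (circ v u a) (circ v u b) = - circ v u (2 * a - b) := by
  have hvv : inner ℝ v v = (1 : ℝ) := by rw [real_inner_self_eq_norm_sq, hv]; norm_num
  have huu : inner ℝ u u = (1 : ℝ) := by rw [real_inner_self_eq_norm_sq, hu]; norm_num
  have huv : inner ℝ u v = (0 : ℝ) := by rw [real_inner_comm]; exact h
  have hin : inner ℝ (circ v u a) (circ v u b) = Real.cos (a - b) := by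
    unfold circ
    rw [inner_add_left, inner_add_right, inner_add_right, inner_smul_left, inner_smul_left,
      inner_smul_left, inner_smul_left, inner_smul_right, inner_smul_right, inner_smul_right,
      inner_smul_right, hvv, huu, h, huv, Real.cos_sub]
    simp
  unfold rfl'
  rw [hin]
  unfold circ
  have h3 : Real.cos (2 * a - b) = 2 * Real.cos (a - b) * Real.cos a - Real.cos b := by
    have e1 : 2 * a - b = a + (a - b) := by ring
    have e2 : Real.cos b = Real.cos (a - (a - b)) := by congr 1; ring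
    rw [e2, e1, Real.cos_add, Real.cos_sub a (a - b)]
    ring
  have h4 : Real.sin (2 * a - b) = 2 * Real.cos (a - b) * Real.sin a - Real.sin b := by
    have e1 : 2 * a - b = a + (a - b) := by ring
    have e2 : Real.sin b = Real.sin (a - (a - b)) := by congr 1; ring
    rw [e2, e1, Real.sin_add, Real.sin_sub a (a - b)]
    ring
  rw [h3, h4]
  module

theorem circ_mem_of (hR : IsReflSet R) {v u : F m} (hv : ‖v‖ = 1) (hu : ‖u‖ = 1)
    (h : inner ℝ v u = (0 : ℝ)) {a b : ℝ} (ha : circ v u a ∈ R) (hb : circ v u b ∈ R) :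
    circ v u (2 * a - b) ∈ R := by
  have h1 := hR.neg _ (hR.refl _ ha _ hb)
  rwa [rfl_circ hv hu h, neg_neg] at h1

theorem circ_mul_mem (hR : IsReflSet R) {v u : F m} (hv : ‖v‖ = 1) (hu : ‖u‖ = 1)
    (h : inner ℝ v u = (0 : ℝ)) {a : ℝ} (h0 : v ∈ R) (ha : circ v u a ∈ R) (k : ℕ) :
    circ v u (k * a) ∈ R ∧ circ v u ((k + 1 : ℕ) * a) ∈ R := by
  induction k with
  | zero =>
    refine ⟨?_, by simpa using ha⟩
    simpa [circ] using h0
  | succ k ih =>
    refine ⟨ih.2, ?_⟩
    have h3 := circ_mem_of hR hv hu h ih.2 ih.1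
    have e : 2 * (((k + 1 : ℕ) : ℝ) * a) - (k : ℝ) * a = ((k + 1 + 1 : ℕ) : ℝ) * a := by
      push_cast; ring
    rwa [e] at h3

theorem full_plane {v u : F m} (hv : ‖v‖ = 1) (hu : ‖u‖ = 1)
    (h : inner ℝ v u = (0 : ℝ)) (hall : ∀ t : ℝ, 0 ≤ t → circ v u t ∈ R) :
    Full R (Submodule.span ℝ {v, u}) := by
  intro x hx hx1
  obtain ⟨a, b, rfl⟩ := Submodule.mem_span_pair.1 hx
  have hvv : inner ℝ v v = (1 : ℝ) := by rw [real_inner_self_eq_norm_sq, hv]; norm_num
  have huu : inner ℝ u u = (1 : ℝ) := by rw [real_inner_self_eq_norm_sq, hu]; norm_num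
  have huv : inner ℝ u v = (0 : ℝ) := by rw [real_inner_comm]; exact h
  have hab : a ^ 2 + b ^ 2 = 1 := by
    have h3 : ‖a • v + b • u‖ ^ 2 = 1 := by rw [hx1]; norm_num
    rw [← real_inner_self_eq_norm_sq, inner_add_left, inner_add_right, inner_add_right,
      inner_smul_left, inner_smul_left,
      inner_smul_left, inner_smul_left, inner_smul_right, inner_smul_right, inner_smul_right,
      inner_smul_right, hvv, huu, h, huv] at h3
    simp at h3
    nlinarith [h3]
  set z : ℂ := ⟨a, b⟩ with hz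
  have hz1 : ‖z‖ = 1 := by
    have h4 : ‖z‖ ^ 2 = 1 := by
      rw [← Complex.normSq_eq_norm_sq, Complex.normSq_apply]
      simp only [hz]; nlinarith [hab]
    have h5 : 0 ≤ ‖z‖ := norm_nonneg z
    nlinarith
  have hz0 : z ≠ 0 := by
    intro h0; rw [h0] at hz1; simp at hz1
  have hc : Real.cos z.arg = a := by
    rw [Complex.cos_arg hz0, hz1, div_one]
  have hs : Real.sin z.arg = b := by
    rw [Complex.sin_arg, hz1, div_one]
  by_cases ht : 0 ≤ z.arg
  · have := hall _ ht
    unfold circ at this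
    rwa [hc, hs] at this
  · have h5 : 0 ≤ z.arg + 2 * Real.pi := by
      have := Complex.neg_pi_lt_arg z
      have := Real.pi_pos
      linarith
    have := hall _ h5
    unfold circ at this
    rwa [Real.cos_add_two_pi, Real.sin_add_two_pi, hc, hs] at this

theorem notMem_closure (h1 : PlaneStmt) (hR : IsReflSet R) {v : F m} (hvR : v ∈ R) :
    v ∉ closure {x | x ∈ R ∧ x ∉ Submodule.span ℝ {v} ∧ Submodule.span ℝ {x} ∈ MaxSub R} := by
  intro hcl
  obtain ⟨U, hUS, hUv⟩ := mem_closure_iff_ultrafilter.1 hcl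
  have hv : ‖v‖ = 1 := hR.unit v hvR
  have hvv : inner ℝ v v = (1 : ℝ) := by rw [real_inner_self_eq_norm_sq, hv]; norm_num
  -- the component orthogonal to `v`
  set p : F m → F m := fun x => x - (inner ℝ v x : ℝ) • v with hp
  set w : F m → F m := fun x => ‖p x‖⁻¹ • p x with hw
  have hpv : ∀ x, inner ℝ v (p x) = (0 : ℝ) := by
    intro x
    simp only [hp]
    rw [inner_sub_right, inner_smul_right, hvv]; ring
  have hwv : ∀ x, inner ℝ v (w x) = (0 : ℝ) := by
    intro x
    simp only [hw]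
    rw [inner_smul_right, hpv]; ring
  have hp0 : ∀ x, x ∉ Submodule.span ℝ {v} → p x ≠ 0 := by
    intro x hx h0
    apply hx
    rw [Submodule.mem_span_singleton]
    exact ⟨inner ℝ v x, (sub_eq_zero.1 h0).symm⟩
  have hw1 : ∀ x, x ∉ Submodule.span ℝ {v} → ‖w x‖ = 1 := by
    intro x hx
    simp only [hw]
    rw [norm_smul, norm_inv, norm_norm, inv_mul_cancel₀ (norm_ne_zero_iff.2 (hp0 x hx))]
  -- the limit of the directions
  obtain ⟨u, hu, hUu⟩ := (isCompact_sphere (0 : F m) 1).ultrafilter_le_nhds (U.map w) (by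
    rw [le_principal_iff]
    show w ⁻¹' _ ∈ U
    refine mem_of_superset hUS ?_
    intro x hx
    simp only [mem_preimage, mem_sphere_iff_norm, sub_zero]
    exact hw1 x hx.2.1)
  have hu1 : ‖u‖ = 1 := by simpa using hu
  have hwu : Tendsto w U (𝓝 u) := hUu
  have hid : Tendsto (fun x : F m => x) U (𝓝 v) := hUv
  have hvu : inner ℝ v u = (0 : ℝ) := by
    have h3 : Tendsto (fun x => (inner ℝ v (w x) : ℝ)) U (𝓝 (inner ℝ v u)) :=
      tendsto_const_nhds.inner hwu
    have h4 : (fun x => (inner ℝ v (w x) : ℝ)) = fun _ => 0 := funext hwv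
    rw [h4] at h3
    exact (tendsto_nhds_unique h3 tendsto_const_nhds)
  -- the angles
  set th : F m → ℝ := fun x => Real.arccos (inner ℝ v x) with hth
  have hin : Tendsto (fun x : F m => (inner ℝ v x : ℝ)) U (𝓝 1) := by
    have h3 : Tendsto (fun x : F m => (inner ℝ v x : ℝ)) U (𝓝 (inner ℝ v v)) :=
      tendsto_const_nhds.inner hid
    rwa [hvv] at h3
  have hth0 : Tendsto th U (𝓝 0) := by
    have h3 := (Real.continuous_arccos.tendsto 1).comp hin
    rwa [Real.arccos_one] at h3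
  have hdec : ∀ x, x ∈ R → x ∉ Submodule.span ℝ {v} → 0 < th x ∧ circ v (w x) (th x) = x := by
    intro x hx hxv
    have hx1 : ‖x‖ = 1 := hR.unit x hx
    have habs : |(inner ℝ v x : ℝ)| ≤ 1 := by
      have := abs_real_inner_le_norm v x
      rwa [hv, hx1, mul_one] at this
    have hcos : Real.cos (th x) = inner ℝ v x :=
      Real.cos_arccos (abs_le.1 habs).1 (abs_le.1 habs).2
    have hpn : ‖p x‖ ^ 2 = 1 - (inner ℝ v x : ℝ) ^ 2 := by
      rw [← real_inner_self_eq_norm_sq]
      simp only [hp]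
      rw [inner_sub_left, inner_sub_right, inner_sub_right, inner_smul_left, inner_smul_left,
        inner_smul_right, inner_smul_right, hvv, real_inner_self_eq_norm_sq, hx1,
        real_inner_comm v x]
      simp
      ring
    have hsin : Real.sin (th x) = ‖p x‖ := by
      simp only [hth]
      rw [Real.sin_arccos, ← hpn, Real.sqrt_sq (norm_nonneg _)]
    have hpp : 0 < ‖p x‖ := norm_pos_iff.2 (hp0 x hxv)
    refine ⟨?_, ?_⟩
    · rcases (Real.arccos_nonneg (inner ℝ v x : ℝ)).lt_or_eq with h3 | h3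
      · exact h3
      · exfalso
        have h4 : th x = 0 := h3.symm
        rw [h4, Real.sin_zero] at hsin
        linarith
    · unfold circ
      rw [hcos, hsin]
      simp only [hw]
      rw [smul_smul, mul_inv_cancel₀ hpp.ne', one_smul]
      simp only [hp]
      abel
  have hall : ∀ t : ℝ, 0 ≤ t → circ v u t ∈ R := by
    intro t ht
    have hfl : Tendsto (fun x => (⌊t / th x⌋₊ : ℝ) * th x) U (𝓝 t) := by
      have h3 : Tendsto (fun x => t - th x) U (𝓝 t) := by
        simpa using (tendsto_const_nhds (x := t)).sub hth0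
      refine tendsto_of_tendsto_of_tendsto_of_le_of_le' h3 tendsto_const_nhds ?_ ?_
      · filter_upwards [hUS] with x hx
        have h4 := (hdec x hx.1 hx.2.1).1
        have h5 := Nat.lt_floor_add_one (t / th x)
        rw [div_lt_iff₀ h4] at h5
        nlinarith
      · filter_upwards [hUS] with x hx
        have h4 := (hdec x hx.1 hx.2.1).1
        have h5 := Nat.floor_le (div_nonneg ht h4.le)
        rwa [le_div_iff₀ h4] at h5
    have hlim : Tendsto (fun x => circ v (w x) ((⌊t / th x⌋₊ : ℝ) * th x)) U (𝓝 (circ v u t)) := by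
      unfold circ
      exact (((Real.continuous_cos.tendsto t).comp hfl).smul tendsto_const_nhds).add
        (((Real.continuous_sin.tendsto t).comp hfl).smul hwu)
    refine hR.closed.mem_of_tendsto hlim ?_
    filter_upwards [hUS] with x hx
    have h4 := hdec x hx.1 hx.2.1
    have h5 : circ v (w x) (th x) ∈ R := by rw [h4.2]; exact hx.1
    exact (circ_mul_mem hR hv (hw1 x hx.2.1) (hwv x) hvR h5 _).1
  have hfull := full_plane hv hu1 hvu hall
  have hne : (Submodule.span ℝ {v, u} : Submodule ℝ (F m)) ≠ ⊥ := by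
    intro h3
    have h4 : v ∈ (Submodule.span ℝ {v, u} : Submodule ℝ (F m)) :=
      Submodule.subset_span (by simp)
    rw [h3, Submodule.mem_bot] at h4
    exact ne_zero_of_unit hv h4
  obtain ⟨W, hW, hle⟩ := exists_maxSub hfull hne
  have hvW : v ∈ W := hle (Submodule.subset_span (by simp))
  have huW : u ∈ W := hle (Submodule.subset_span (by simp))
  have h2 : 2 ≤ finrank ℝ W := by
    by_contra hlt
    have h3 : Submodule.span ℝ {v} = W := by
      apply Submodule.eq_of_le_of_finrank_le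
      · rw [Submodule.span_singleton_le_iff_mem]; exact hvW
      · rw [finrank_span_singleton (ne_zero_of_unit hv)]; omega
    rw [← h3] at huW
    obtain ⟨c, hc⟩ := Submodule.mem_span_singleton.1 huW
    have h4 : inner ℝ v u = c := by
      rw [← hc, inner_smul_right, hvv, mul_one]
    rw [hvu] at h4
    rw [← h4, zero_smul] at hc
    exact ne_zero_of_unit hu1 hc.symm
  have hev : ∀ᶠ x in (U : Filter (F m)), (inner ℝ v x : ℝ) ≠ 0 :=
    hin.eventually_ne one_ne_zero
  obtain ⟨x, hx, hx'⟩ := (hev.and hUS).exists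
  have hxW : x ∉ W := by
    intro hmem
    have h3 : W = Submodule.span ℝ {x} :=
      hx'.2.2.2.2 W hW.2.1 (by rw [Submodule.span_singleton_le_iff_mem]; exact hmem)
    rw [h3, finrank_span_singleton (ne_zero_of_unit (hR.unit x hx'.1))] at h2
    omega
  exact hx (orth_of_notMem h1 hR hW h2 hx'.1 hxW hvW)

theorem finite_small (h1 : PlaneStmt) (hR : IsReflSet R) :
    {W | W ∈ MaxSub R ∧ ¬ 2 ≤ finrank ℝ W}.Finite := by
  have hcomp : IsCompact R := by
    apply (isCompact_sphere (0 : F m) 1).of_isClosed_subset hR.closed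
    intro x hx
    simpa using hR.unit x hx
  obtain ⟨T, hTR, hT⟩ := hcomp.elim_nhds_subcover
    (fun v => (closure {x | x ∈ R ∧ x ∉ Submodule.span ℝ {v} ∧
      Submodule.span ℝ {x} ∈ MaxSub R})ᶜ)
    (fun v hv => isClosed_closure.isOpen_compl.mem_nhds (notMem_closure h1 hR hv))
  refine ((T.finite_toSet).image (fun v => Submodule.span ℝ {v})).subset ?_
  rintro W ⟨hW, h2⟩
  obtain ⟨x, hxW, hx1⟩ := exists_unit hW.1
  have hx0 := ne_zero_of_unit hx1
  have hxR : x ∈ R := hW.2.1 x hxW hx1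
  have hspan : Submodule.span ℝ {x} = W := by
    apply Submodule.eq_of_le_of_finrank_le
    · rw [Submodule.span_singleton_le_iff_mem]; exact hxW
    · rw [finrank_span_singleton hx0]; omega
  obtain ⟨v, hvT, hxv⟩ := mem_iUnion₂.1 (hT hxR)
  have hxs : x ∈ Submodule.span ℝ {v} := by
    by_contra hcon
    apply hxv
    apply subset_closure
    exact ⟨hxR, hcon, by rw [hspan]; exact hW⟩
  refine ⟨v, hvT, ?_⟩
  show Submodule.span ℝ {v} = W
  rw [← hspan]
  symm
  apply Submodule.eq_of_le_of_finrank_le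
  · rw [Submodule.span_singleton_le_iff_mem]; exact hxs
  · rw [finrank_span_singleton hx0, finrank_span_singleton (ne_zero_of_unit (hR.unit v (hTR v hvT)))]

end Struct

open Struct in
theorem structStmt (h1 : PlaneStmt) : StructStmt := by
  intro m R hR
  refine ⟨?_, ?_, ?_⟩
  · refine ((finite_big h1 hR).union (finite_small h1 hR)).subset ?_
    intro W hW
    by_cases h2 : 2 ≤ finrank ℝ W
    · exact Or.inl ⟨hW, h2⟩
    · exact Or.inr ⟨hW, h2⟩
  · intro W hW W' hW' hne
    exact inf_eq_bot h1 hR hW hW' hne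
  · intro v hv
    have hv0 := ne_zero_of_unit (hR.unit v hv)
    obtain ⟨W, hW, hle⟩ := exists_maxSub (full_span hR hv) (by
      rw [Ne, Submodule.span_singleton_eq_bot]; exact hv0)
    exact ⟨W, hW, hle (Submodule.mem_span_singleton_self v)⟩

end Pool.Agent.Lib.MP_5c4da9_an
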