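import Pool.Agent.Lib.MP_5c4da9_an.VDefs

/-!
# A second order expansion of the square of a norm with Lipschitz gradient at some point
-/

set_option autoImplicit false

open Set Filter Topology Module MeasureTheory

noncomputable section

namespace Pool.Agent.Lib.MP_5c4da9_an

private theorem Taylor_exists_diff (Z : Type) [NormedAddCommGroup Z] [NormedSpace ℝ Z]
    [FiniteDimensional ℝ Z] (J : Z → (Z →L[ℝ] ℝ)) (hZ : 1 ≤ finrank ℝ Z)
    (hJ : ∃ K : NNReal, LipschitzWith K J) : ∃ x : Z, x ≠ 0 ∧ DifferentiableAt ℝ J x := by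
  obtain ⟨K, hK⟩ := hJ
  borelize Z
  haveI : Nontrivial Z := Module.nontrivial_of_finrank_pos (R := ℝ) (by omega)
  have h1 : ∀ᵐ x ∂(Measure.addHaar : Measure Z), DifferentiableAt ℝ J x :=
    hK.ae_differentiableAt
  have h2 : Dense {x : Z | DifferentiableAt ℝ J x} := Measure.dense_of_ae h1
  obtain ⟨x, hx1, hx2⟩ := h2.inter_open_nonempty {x : Z | x ≠ 0} isOpen_ne
    (exists_ne (0 : Z))
  exact ⟨x, hx1, hx2⟩

private theorem Taylor_diff_unit (Z : Type) [NormedAddCommGroup Z] [NormedSpace ℝ Z]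
    (J : Z → (Z →L[ℝ] ℝ)) (hs : ∀ (t : ℝ) x, J (t • x) = t • J x) {x : Z} (hx : x ≠ 0)
    (hd : DifferentiableAt ℝ J x) : DifferentiableAt ℝ J (‖x‖⁻¹ • x) := by
  have hn : ‖x‖ ≠ 0 := norm_ne_zero_iff.2 hx
  have e : J = fun z => ‖x‖⁻¹ • J (‖x‖ • z) := by
    funext z
    rw [hs, smul_smul, inv_mul_cancel₀ hn, one_smul]
  rw [e]
  have h1 : DifferentiableAt ℝ (fun z : Z => ‖x‖ • z) (‖x‖⁻¹ • x) :=
    differentiableAt_id.const_smul _
  have h2 : DifferentiableAt ℝ J (‖x‖ • ‖x‖⁻¹ • x) := by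
    rw [smul_smul, mul_inv_cancel₀ hn, one_smul]
    exact hd
  have h3 : DifferentiableAt ℝ (fun z => J (‖x‖ • z)) (‖x‖⁻¹ • x) :=
    DifferentiableAt.comp (g := J) _ h2 h1
  exact h3.const_smul ‖x‖⁻¹

/-- V1. -/
theorem taylorStmt : TaylorStmt := by
  intro Z _ _ _ c J hZ hJ
  obtain ⟨x, hx, hd⟩ := Taylor_exists_diff Z J hZ hJ.lip
  have hn : ‖x‖ ≠ 0 := norm_ne_zero_iff.2 hx
  set p : Z := ‖x‖⁻¹ • x with hp
  have hdp : DifferentiableAt ℝ J p := Taylor_diff_unit Z J hJ.smul hx hd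
  have hp1 : ‖p‖ = 1 := by
    rw [hp, norm_smul, norm_inv, norm_norm, inv_mul_cancel₀ hn]
  set B : Z →L[ℝ] (Z →L[ℝ] ℝ) := fderiv ℝ J p with hB
  have hJB : HasFDerivAt J B p := hdp.hasFDerivAt
  have hδ : ∀ ε : ℝ, ∃ δ : ℝ, 0 < ε → 0 < δ ∧ ∀ k : Z, ‖k‖ < δ →
      ‖J (p + k) - J p - B k‖ ≤ ε / 2 * ‖k‖ := by
    intro ε
    by_cases hε : 0 < ε
    · have h1 := (hasFDerivAt_iff_isLittleO_nhds_zero.1 hJB).def (half_pos hε)
      obtain ⟨δ, hδ, h2⟩ := Metric.eventually_nhds_iff.1 h1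
      refine ⟨δ, fun _ => ⟨hδ, fun k hk => h2 ?_⟩⟩
      rwa [dist_zero_right]
    · exact ⟨1, fun h => absurd h hε⟩
  choose δ hδ using hδ
  refine ⟨p, (1 / 2 : ℝ) • (B + B.flip), ‖B‖, δ, hp1, fun ε hε => (hδ ε hε).1, ?_, ?_, ?_⟩
  · intro h k
    simp only [_root_.smul_apply, _root_.add_apply, ContinuousLinearMap.flip_apply,
      smul_eq_mul]
    ring
  · intro h
    have e : ((1 / 2 : ℝ) • (B + B.flip)) h h = B h h := by
      simp only [_root_.smul_apply, _root_.add_apply,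
        ContinuousLinearMap.flip_apply, smul_eq_mul]
      ring
    rw [e, ← Real.norm_eq_abs]
    calc ‖B h h‖ ≤ ‖B‖ * ‖h‖ * ‖h‖ := B.le_opNorm₂ h h
      _ = ‖B‖ * ‖h‖ ^ 2 := by ring
  · intro ε hε h hh
    have e : ((1 / 2 : ℝ) • (B + B.flip)) h h = B h h := by
      simp only [_root_.smul_apply, _root_.add_apply,
        ContinuousLinearMap.flip_apply, smul_eq_mul]
      ring
    rw [e]
    set G : ℝ → ℝ := fun t => ‖p + t • h‖ ^ 2 - 2 * t * J p h - t ^ 2 * B h h with hG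
    have hder : ∀ t : ℝ, HasDerivAt G (2 * (J (p + t • h) h - J p h - B (t • h) h)) t := by
      intro t
      have h1 : HasDerivAt (fun s : ℝ => p + s • h) h t := by
        simpa using ((hasDerivAt_id t).smul_const h).const_add p
      have h2 : HasDerivAt (fun s : ℝ => ‖p + s • h‖ ^ 2) (((2 : ℝ) • J (p + t • h)) h) t :=
        HasFDerivAt.comp_hasDerivAt (l := fun z : Z => ‖z‖ ^ 2) t (hJ.deriv (p + t • h)) h1
      have h3 : HasDerivAt (fun s : ℝ => 2 * s * J p h) (2 * J p h) t := by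
        have := ((hasDerivAt_id t).const_mul (2 : ℝ)).mul_const (J p h)
        simpa using this
      have h4 : HasDerivAt (fun s : ℝ => s ^ 2 * B h h) (2 * t * B h h) t := by
        have := (hasDerivAt_pow 2 t).mul_const (B h h)
        simpa using this
      have h5 := (h2.sub h3).sub h4
      have e5 : ((2 : ℝ) • J (p + t • h)) h - 2 * J p h - 2 * t * B h h =
          2 * (J (p + t • h) h - J p h - B (t • h) h) := by
        rw [map_smul]
        simp only [_root_.smul_apply, smul_eq_mul]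
        ring
      rw [← e5]
      exact h5
    have hbd : ∀ t ∈ Icc (0 : ℝ) 1, ‖2 * (J (p + t • h) h - J p h - B (t • h) h)‖ ≤
        ε * ‖h‖ ^ 2 := by
      intro t ht
      have ht2 : ‖t • h‖ ≤ ‖h‖ := by
        rw [norm_smul, Real.norm_eq_abs, abs_of_nonneg ht.1]
        exact mul_le_of_le_one_left (norm_nonneg h) ht.2
      have h1 := (hδ ε hε).2 (t • h) (lt_of_le_of_lt ht2 hh)
      have h2 : ‖(J (p + t • h) - J p - B (t • h)) h‖ ≤ ε / 2 * ‖t • h‖ * ‖h‖ :=
        (ContinuousLinearMap.le_opNorm _ _).trans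
          (mul_le_mul_of_nonneg_right h1 (norm_nonneg h))
      have h3 : ε / 2 * ‖t • h‖ * ‖h‖ ≤ ε / 2 * ‖h‖ * ‖h‖ := by
        gcongr
      have e2 : (J (p + t • h) - J p - B (t • h)) h =
          J (p + t • h) h - J p h - B (t • h) h := rfl
      rw [e2] at h2
      rw [norm_mul, Real.norm_eq_abs 2, abs_two]
      calc 2 * ‖J (p + t • h) h - J p h - B (t • h) h‖ ≤ 2 * (ε / 2 * ‖h‖ * ‖h‖) := by
            linarith
        _ = ε * ‖h‖ ^ 2 := by ring
    have key := (convex_Icc (0 : ℝ) 1).norm_image_sub_le_of_norm_hasDerivWithin_le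
      (f := G) (f' := fun t => 2 * (J (p + t • h) h - J p h - B (t • h) h))
      (fun t _ => (hder t).hasDerivWithinAt) hbd (left_mem_Icc.2 zero_le_one)
      (right_mem_Icc.2 zero_le_one)
    have e3 : G 1 - G 0 = ‖p + h‖ ^ 2 - ‖p‖ ^ 2 - 2 * J p h - B h h := by
      simp only [hG, one_smul, zero_smul, add_zero]
      ring
    rw [e3] at key
    simpa using key

end Pool.Agent.Lib.MP_5c4da9_an
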