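import Pool.Agent.Lib.MP_5c4da9_an.VDefs

set_option autoImplicit false

open Set Filter Topology Module

noncomputable section

namespace Pool.Agent.Lib.MP_5c4da9_an

namespace Transfer

variable {E : Type} [NormedAddCommGroup E] [NormedSpace ℝ E]

theorem exists_sup [FiniteDimensional ℝ E] (m : ℕ) (hm : m ≤ finrank ℝ E) :
    ∀ (j : ℕ) (W : Submodule ℝ E), finrank ℝ W + j = m →
      ∃ V : Submodule ℝ E, W ≤ V ∧ finrank ℝ V = m := by
  intro j
  induction j with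
  | zero => intro W hW; exact ⟨W, le_rfl, by simpa using hW⟩
  | succ j ih =>
    intro W hW
    have hlt : finrank ℝ W < finrank ℝ E := by omega
    obtain ⟨x, hx⟩ := Submodule.exists_of_finrank_lt W hlt
    have hxW : x ∉ W := by
      intro h; exact hx 1 one_ne_zero (by simpa using h)
    have hfr : finrank ℝ (W ⊔ Submodule.span ℝ {x} : Submodule ℝ E) = finrank ℝ W + 1 := by
      have hinf : W ⊓ Submodule.span ℝ {x} = ⊥ := by
        rw [Submodule.eq_bot_iff]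
        rintro z ⟨hz1, hz2⟩
        obtain ⟨a, rfl⟩ := Submodule.mem_span_singleton.1 hz2
        by_cases ha : a = 0
        · simp [ha]
        · exact absurd hz1 (hx a ha)
      have h0 := Submodule.finrank_sup_add_finrank_inf_eq W (Submodule.span ℝ {x})
      have hx0 : x ≠ 0 := fun h => hxW (by simp [h])
      rw [hinf, finrank_bot, finrank_span_singleton hx0] at h0
      omega
    obtain ⟨V, hV, hV'⟩ := ih (W ⊔ Submodule.span ℝ {x}) (by omega)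
    exact ⟨V, le_sup_left.trans hV, hV'⟩

theorem exists_hyp [FiniteDimensional ℝ E] (n : ℕ) (hn : 4 ≤ n) (hE : finrank ℝ E = n)
    (a b c : E) : ∃ V : Submodule ℝ E, finrank ℝ V = n - 1 ∧ a ∈ V ∧ b ∈ V ∧ c ∈ V := by
  classical
  have h3 : finrank ℝ (Submodule.span ℝ (({a, b, c} : Finset E) : Set E)) ≤ 3 :=
    (finrank_span_finset_le_card _).trans Finset.card_le_three
  obtain ⟨V, hV, hV'⟩ := exists_sup (E := E) (n - 1) (by omega)
    (n - 1 - finrank ℝ (Submodule.span ℝ (({a, b, c} : Finset E) : Set E)))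
    (Submodule.span ℝ (({a, b, c} : Finset E) : Set E)) (by omega)
  refine ⟨V, hV', hV (Submodule.subset_span (by simp)), hV (Submodule.subset_span (by simp)),
    hV (Submodule.subset_span (by simp))⟩

/-- `T` is an isometry of a hyperplane `V ∋ y` taking `y` to `p`. -/
def Good (n : ℕ) (y p : E) (V : Submodule ℝ E) (T : V →ₗᵢ[ℝ] E) : Prop :=
  finrank ℝ V = n - 1 ∧ ∃ hy : y ∈ V, T ⟨y, hy⟩ = p

theorem deriv_eq {c : ℝ} {J : E → (E →L[ℝ] ℝ)} (hJ : GradData E c J) {n : ℕ} {y p : E}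
    {V : Submodule ℝ E} {T : V →ₗᵢ[ℝ] E} (hg : Good n y p V T) (h : V) :
    J y h = J p (T h) := by
  obtain ⟨-, hy, hT⟩ := hg
  have h1 : HasDerivAt (fun t : ℝ => ‖y + t • (h : E)‖ ^ 2) (2 * J y h) 0 := by
    have hf : HasFDerivAt (fun z : E => ‖z‖ ^ 2) ((2 : ℝ) • J y) (y + (0 : ℝ) • (h : E)) := by
      simpa using hJ.deriv y
    have hg : HasDerivAt (fun t : ℝ => y + t • (h : E)) ((1 : ℝ) • (h : E)) 0 :=
      ((hasDerivAt_id (0 : ℝ)).smul_const (h : E)).const_add y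
    have := hf.comp_hasDerivAt (0 : ℝ) hg
    simpa [Function.comp_def, smul_eq_mul] using this
  have h2 : HasDerivAt (fun t : ℝ => ‖p + t • T h‖ ^ 2) (2 * J p (T h)) 0 := by
    have hf : HasFDerivAt (fun z : E => ‖z‖ ^ 2) ((2 : ℝ) • J p) (p + (0 : ℝ) • T h) := by
      simpa using hJ.deriv p
    have hg : HasDerivAt (fun t : ℝ => p + t • T h) ((1 : ℝ) • T h) 0 :=
      ((hasDerivAt_id (0 : ℝ)).smul_const (T h)).const_add p
    have := hf.comp_hasDerivAt (0 : ℝ) hg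
    simpa [Function.comp_def, smul_eq_mul] using this
  have h3 : (fun t : ℝ => ‖y + t • (h : E)‖ ^ 2) = fun t : ℝ => ‖p + t • T h‖ ^ 2 := by
    funext t
    have : p + t • T h = T (⟨y, hy⟩ + t • h) := by rw [map_add, map_smul, hT]
    rw [this, T.norm_map]
    rfl
  rw [h3] at h1
  have := h1.unique h2
  linarith

theorem norm_eq {n : ℕ} {y p : E} {V : Submodule ℝ E} {T : V →ₗᵢ[ℝ] E}
    (hg : Good n y p V T) (h : V) : ‖y + (h : E)‖ = ‖p + T h‖ := by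
  obtain ⟨-, hy, hT⟩ := hg
  have : p + T h = T (⟨y, hy⟩ + h) := by rw [map_add, hT]
  rw [this, T.norm_map]
  rfl

theorem norm_y {n : ℕ} {y p : E} {V : Submodule ℝ E} {T : V →ₗᵢ[ℝ] E}
    (hg : Good n y p V T) : ‖y‖ = ‖p‖ := by
  have := norm_eq hg 0
  simpa using this

/-- The expansion at `y` along `V`. -/
theorem expand {c : ℝ} {J : E → (E →L[ℝ] ℝ)} (hJ : GradData E c J) {n : ℕ} {y p : E}
    {K : ℝ} {δ : ℝ → ℝ} {A : E →L[ℝ] E →L[ℝ] ℝ} (hA : TaylorAt J K δ p A)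
    {V : Submodule ℝ E} {T : V →ₗᵢ[ℝ] E} (hg : Good n y p V T) (ε : ℝ) (hε : 0 < ε) (h : V)
    (hh : ‖(h : E)‖ < δ ε) :
    |‖y + (h : E)‖ ^ 2 - ‖y‖ ^ 2 - 2 * J y h - A (T h) (T h)| ≤ ε * ‖(h : E)‖ ^ 2 := by
  have h1 := hA.2.2 ε hε (T h) (by rw [T.norm_map]; exact hh)
  rw [T.norm_map] at h1
  rw [norm_eq hg h, norm_y hg, deriv_eq hJ hg h]
  exact h1

/-- The quadratic form does not depend on the choice. -/
theorem indep {c : ℝ} {J : E → (E →L[ℝ] ℝ)} (hJ : GradData E c J) {n : ℕ} {y p : E}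
    {K : ℝ} {δ : ℝ → ℝ} {A : E →L[ℝ] E →L[ℝ] ℝ} (hA : TaylorAt J K δ p A)
    (hδ : ∀ ε : ℝ, 0 < ε → 0 < δ ε)
    {V : Submodule ℝ E} {T : V →ₗᵢ[ℝ] E} (hg : Good n y p V T)
    {V' : Submodule ℝ E} {T' : V' →ₗᵢ[ℝ] E} (hg' : Good n y p V' T')
    (h : E) (hV : h ∈ V) (hV' : h ∈ V') :
    A (T ⟨h, hV⟩) (T ⟨h, hV⟩) = A (T' ⟨h, hV'⟩) (T' ⟨h, hV'⟩) := by
  by_contra hne
  set a := A (T ⟨h, hV⟩) (T ⟨h, hV⟩) with ha
  set b := A (T' ⟨h, hV'⟩) (T' ⟨h, hV'⟩) with hb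
  have hpos : 0 < |a - b| := abs_pos.2 (sub_ne_zero.2 hne)
  set ε : ℝ := |a - b| / (4 * (‖h‖ ^ 2 + 1)) with hεd
  have hε : 0 < ε := by positivity
  obtain ⟨t, ht0, ht⟩ : ∃ t : ℝ, 0 < t ∧ t * ‖h‖ < δ ε := by
    refine ⟨δ ε / (2 * (‖h‖ + 1)), div_pos (hδ ε hε) (by positivity), ?_⟩
    have hd := hδ ε hε
    rw [div_mul_eq_mul_div, div_lt_iff₀ (by positivity)]
    nlinarith [norm_nonneg h, mul_nonneg hd.le (norm_nonneg h)]
  have hnt : ‖t • h‖ = t * ‖h‖ := by rw [norm_smul, Real.norm_eq_abs, abs_of_pos ht0]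
  have e1 := expand hJ hA hg ε hε (t • ⟨h, hV⟩) (by
    rw [Submodule.coe_smul]; rw [hnt]; exact ht)
  have e2 := expand hJ hA hg' ε hε (t • ⟨h, hV'⟩) (by
    rw [Submodule.coe_smul]; rw [hnt]; exact ht)
  have q1 : A (T (t • ⟨h, hV⟩)) (T (t • ⟨h, hV⟩)) = t * (t * a) := by
    simp only [map_smul, ContinuousLinearMap.smul_apply, smul_eq_mul, ha]
  have q2 : A (T' (t • ⟨h, hV'⟩)) (T' (t • ⟨h, hV'⟩)) = t * (t * b) := by
    simp only [map_smul, ContinuousLinearMap.smul_apply, smul_eq_mul, hb]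
  rw [q1] at e1
  rw [q2] at e2
  simp only [Submodule.coe_smul, hnt] at e1 e2
  have h3 : |t * (t * a) - t * (t * b)| ≤ 2 * (ε * (t * ‖h‖) ^ 2) := by
    rw [abs_le] at e1 e2 ⊢
    constructor <;> linarith [e1.1, e1.2, e2.1, e2.2]
  have h4 : |t * (t * a) - t * (t * b)| = t ^ 2 * |a - b| := by
    rw [show t * (t * a) - t * (t * b) = t ^ 2 * (a - b) by ring, abs_mul,
      abs_of_pos (by positivity : (0 : ℝ) < t ^ 2)]
  rw [h4] at h3
  have h5 : |a - b| ≤ 2 * ε * ‖h‖ ^ 2 := by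
    have : t ^ 2 * |a - b| ≤ t ^ 2 * (2 * ε * ‖h‖ ^ 2) := by
      calc t ^ 2 * |a - b| ≤ 2 * (ε * (t * ‖h‖) ^ 2) := h3
        _ = _ := by ring
    exact le_of_mul_le_mul_left this (by positivity)
  have h6 : 2 * ε * ‖h‖ ^ 2 ≤ |a - b| / 2 := by
    rw [hεd]
    have : ‖h‖ ^ 2 / (‖h‖ ^ 2 + 1) ≤ 1 := by
      rw [div_le_one (by positivity)]; linarith
    calc 2 * (|a - b| / (4 * (‖h‖ ^ 2 + 1))) * ‖h‖ ^ 2
        = |a - b| / 2 * (‖h‖ ^ 2 / (‖h‖ ^ 2 + 1)) := by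
          field_simp
          ring
      _ ≤ |a - b| / 2 * 1 := mul_le_mul_of_nonneg_left this (by positivity)
      _ = _ := by ring
  linarith

theorem main {n : ℕ} (hn : 4 ≤ n) [FiniteDimensional ℝ E] (hE : finrank ℝ E = n)
    {c : ℝ} {J : E → (E →L[ℝ] ℝ)} (hJ : GradData E c J) {y p : E}
    {K : ℝ} {δ : ℝ → ℝ} {A : E →L[ℝ] E →L[ℝ] ℝ} (hA : TaylorAt J K δ p A)
    (hδ : ∀ ε : ℝ, 0 < ε → 0 < δ ε)
    (hT : ∀ V : Submodule ℝ E, finrank ℝ V = n - 1 → y ∈ V → ∃ T : V →ₗᵢ[ℝ] E, Good n y p V T) :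
    ∃ B : E →L[ℝ] E →L[ℝ] ℝ, TaylorAt J K δ y B := by
  classical
  have hV : ∀ h k : E, ∃ V : Submodule ℝ E, y ∈ V ∧ h ∈ V ∧ k ∈ V ∧
      ∃ T : V →ₗᵢ[ℝ] E, Good n y p V T := by
    intro h k
    obtain ⟨V, hV, hy, hh, hk⟩ := exists_hyp n hn hE y h k
    obtain ⟨T, hT⟩ := hT V hV hy
    exact ⟨V, hy, hh, hk, T, hT⟩
  have hq : ∃ q : E → ℝ, ∀ (V : Submodule ℝ E) (T : V →ₗᵢ[ℝ] E), Good n y p V T →
      ∀ h : V, q h = A (T h) (T h) := by
    choose V0 hy0 hh0 hk0 T0 hT0 using hV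
    refine ⟨fun h => A (T0 h h ⟨h, hh0 h h⟩) (T0 h h ⟨h, hh0 h h⟩), ?_⟩
    intro V T hg h
    exact indep hJ hA hδ (hT0 h h) hg h (hh0 h h) h.2
  obtain ⟨q, hq⟩ := hq
  -- the parallelogram identity
  have hpar : ∀ u v : E, q (u + v) + q (u - v) = 2 * q u + 2 * q v := by
    intro u v
    obtain ⟨V, -, hu, hv, T, hg⟩ := hV u v
    have e1 := hq V T hg (⟨u, hu⟩ + ⟨v, hv⟩)
    have e2 := hq V T hg (⟨u, hu⟩ - ⟨v, hv⟩)
    have e3 := hq V T hg ⟨u, hu⟩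
    have e4 := hq V T hg ⟨v, hv⟩
    simp only [Submodule.coe_add, Submodule.coe_sub, map_add, map_sub,
      ContinuousLinearMap.add_apply, ContinuousLinearMap.sub_apply] at e1 e2 e3 e4
    rw [e1, e2, e3, e4]
    ring
  set a : E → E → ℝ := fun h k => (q (h + k) - q (h - k)) / 4 with ha
  have haV : ∀ (V : Submodule ℝ E) (T : V →ₗᵢ[ℝ] E), Good n y p V T →
      ∀ h k : V, a h k = A (T h) (T k) := by
    intro V T hg h k
    have e1 := hq V T hg (h + k)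
    have e2 := hq V T hg (h - k)
    have e3 := hA.1 (T k) (T h)
    simp only [Submodule.coe_add, Submodule.coe_sub, map_add, map_sub,
      ContinuousLinearMap.add_apply, ContinuousLinearMap.sub_apply] at e1 e2
    simp only [ha]
    rw [e1, e2, e3]
    ring
  have hsymm : ∀ h k : E, a h k = a k h := by
    intro h k
    obtain ⟨V, -, hh, hk, T, hg⟩ := hV h k
    have e1 := haV V T hg ⟨h, hh⟩ ⟨k, hk⟩
    have e2 := haV V T hg ⟨k, hk⟩ ⟨h, hh⟩
    simp only at e1 e2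
    rw [e1, e2]
    exact hA.1 _ _
  have hsmul : ∀ (t : ℝ) (h k : E), a (t • h) k = t * a h k := by
    intro t h k
    obtain ⟨V, -, hh, hk, T, hg⟩ := hV h k
    have e1 := haV V T hg ⟨h, hh⟩ ⟨k, hk⟩
    have e2 := haV V T hg (t • ⟨h, hh⟩) ⟨k, hk⟩
    simp only [Submodule.coe_smul, map_smul, ContinuousLinearMap.smul_apply, smul_eq_mul]
      at e1 e2
    rw [e1, e2]
  have hmid : ∀ h h' k : E, a (h + h') k + a (h - h') k = 2 * a h k := by
    intro h h' k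
    have p1 := hpar (h + k) h'
    have p2 := hpar (h - k) h'
    simp only [ha]
    rw [show h + h' + k = h + k + h' by abel, show h + h' - k = h - k + h' by abel,
      show h - h' + k = h + k - h' by abel, show h - h' - k = h - k - h' by abel]
    linarith
  have hadd : ∀ h h' k : E, a (h + h') k = a h k + a h' k := by
    intro h h' k
    have m1 := hmid ((1 / 2 : ℝ) • (h + h')) ((1 / 2 : ℝ) • (h - h')) k
    have s1 : (1 / 2 : ℝ) • (h + h') + (1 / 2 : ℝ) • (h - h') = h := by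
      module
    have s2 : (1 / 2 : ℝ) • (h + h') - (1 / 2 : ℝ) • (h - h') = h' := by
      module
    rw [s1, s2, hsmul] at m1
    linarith
  set f : E →ₗ[ℝ] E →ₗ[ℝ] ℝ := LinearMap.mk₂ ℝ a hadd
    (fun t h k => by rw [hsmul, smul_eq_mul])
    (fun h k k' => by rw [hsymm h, hadd, hsymm k, hsymm k'])
    (fun t h k => by rw [hsymm h, hsmul, hsymm k, smul_eq_mul]) with hf
  set B : E →L[ℝ] E →L[ℝ] ℝ := LinearMap.toContinuousLinearMap
    ((LinearMap.toContinuousLinearMap : (E →ₗ[ℝ] ℝ) ≃ₗ[ℝ] (E →L[ℝ] ℝ)).toLinearMap ∘ₗ f) with hB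
  have hBa : ∀ h k, B h k = a h k := by
    intro h k
    simp [hB, hf]
  refine ⟨B, ?_, ?_, ?_⟩
  · intro h k
    rw [hBa, hBa, hsymm]
  · intro h
    obtain ⟨V, -, hh, -, T, hg⟩ := hV h h
    have e1 := haV V T hg ⟨h, hh⟩ ⟨h, hh⟩
    simp only at e1
    rw [hBa, e1]
    have e2 := hA.2.1 (T ⟨h, hh⟩)
    rw [T.norm_map] at e2
    exact e2
  · intro ε hε h hh'
    obtain ⟨V, -, hh, -, T, hg⟩ := hV h h
    have e1 := haV V T hg ⟨h, hh⟩ ⟨h, hh⟩
    simp only at e1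
    rw [hBa, e1]
    exact expand hJ hA hg ε hε ⟨h, hh⟩ hh'

end Transfer

theorem transferStmt (h9 : UnivStmt) (hT : TaylorStmt) : TransferStmt := by
  intro n hn E _ _ hE hiso c J hJ
  haveI : FiniteDimensional ℝ E := Module.finite_of_finrank_pos (by omega)
  obtain ⟨p, A, K, δ, hp, hδ, hA⟩ := hT E c J (by omega) hJ
  refine ⟨K, δ, hδ, ?_⟩
  intro y hy
  refine Transfer.main hn hE hJ hA hδ (y := y) ?_
  intro V hV hyV
  obtain ⟨T, hT'⟩ := h9 n (by omega) E hE hiso V hV ⟨y, hyV⟩ p (by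
    rw [hp]; exact hy)
  exact ⟨T, hV, hyV, hT'⟩

end Pool.Agent.Lib.MP_5c4da9_an
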