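import Pool.Agent.Lib.MP_5c4da9_an.Defs

set_option autoImplicit false

open Set Filter Topology Module

noncomputable section

namespace Pool.Agent.Lib.MP_5c4da9_an

/-! ### Closed groups of orthogonal transformations -/

/-- A closed group of orthogonal transformations of `F m`. -/
structure IsOrthGroup {m : ℕ} (G : Set (F m →L[ℝ] F m)) : Prop where
  closed : IsClosed G
  one : 1 ∈ G
  mul : ∀ g ∈ G, ∀ h ∈ G, g * h ∈ G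
  inv : ∀ g ∈ G, ∃ g' ∈ G, g' * g = 1 ∧ g * g' = 1
  isom : ∀ g ∈ G, ∀ x, ‖g x‖ = ‖x‖

/-- U1. -/
def PowStmt : Prop := ∀ (m : ℕ) (G : Set (F m →L[ℝ] F m)), IsOrthGroup G →
  ∀ (h : ℕ → (F m →L[ℝ] F m)) (s : ℕ → ℝ) (Z : F m →L[ℝ] F m), (∀ i, h i ∈ G) → (∀ i, 0 < s i) →
    Tendsto s atTop (𝓝 0) → Tendsto (fun i => (s i)⁻¹ • (h i - 1)) atTop (𝓝 Z) →
    ∀ t : ℝ, NormedSpace.exp (t • Z) ∈ G

/-- U2. -/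
def ExpStmt : Prop := ∀ (m : ℕ) (G : Set (F m →L[ℝ] F m)), IsOrthGroup G →
  ∀ ε : ℝ, 0 < ε → ∃ δ : ℝ, 0 < δ ∧ ∀ h ∈ G, ‖h - 1‖ < δ →
    ∃ X : F m →L[ℝ] F m, (∀ t : ℝ, NormedSpace.exp (t • X) ∈ G) ∧ ‖X‖ < ε ∧
      NormedSpace.exp X = h

/-- U3: approximate midpoints. -/
def CartanStmt : Prop := ∀ (m : ℕ) (G : Set (F m →L[ℝ] F m)), IsOrthGroup G →
  ∃ δ C : ℝ, 0 < δ ∧ 0 < C ∧ ∀ h ∈ G, ‖h - 1‖ < δ →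
    ∃ k ∈ G, ‖k - (1 / 2 : ℝ) • (1 + h)‖ ≤ C * ‖h - 1‖ ^ 2

/-- U4: an equivariant retraction of a neighbourhood of `G` onto `G`. -/
def RetrStmt : Prop := ∀ (m : ℕ) (G : Set (F m →L[ℝ] F m)), IsOrthGroup G →
  ∃ δ : ℝ, 0 < δ ∧ ∃ r : (F m →L[ℝ] F m) → (F m →L[ℝ] F m),
    ContinuousOn r {A | ∃ g ∈ G, ‖A - g‖ < δ} ∧
    ∀ A, (∃ g ∈ G, ‖A - g‖ < δ) → r A ∈ G ∧ ∀ g ∈ G, r (g * A) = g * r A

/-! ### The coordinate form of the problem -/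

/-- `N` is a norm on `ℝ × ℝ^m`; `N₀` is a norm on `ℝ^m` all of whose linear isometries are
orthogonal; and each hyperplane `{(-⟨ω,x⟩, x)}` with the norm `N` is isometric to `N₀`. -/
structure DataU (m : ℕ) (N : ℝ × F m → ℝ) (N₀ : F m → ℝ) : Prop where
  norm : IsNorm N
  norm₀ : IsNorm N₀
  orth : ∀ g : F m →L[ℝ] F m, (∀ x, N₀ (g x) = N₀ x) → ∀ x, ‖g x‖ = ‖x‖
  iso : ∀ ω : F m, ∃ S : F m →L[ℝ] F m, ∀ x, N (-(inner ℝ ω (S x)), S x) = N₀ x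

/-- U5: the sets `isoSet` vary continuously. -/
def IsoLocalStmt : Prop := ∀ (m : ℕ) (N : ℝ × F m → ℝ) (N₀ : F m → ℝ), DataU m N N₀ →
  ∀ ρ ε : ℝ, 0 < ε → ∃ η : ℝ, 0 < η ∧ ∀ ω ω' : F m, ‖ω‖ ≤ ρ → ‖ω'‖ ≤ ρ → ‖ω - ω'‖ < η →
    ∀ S ∈ isoSet N N₀ ω, ∃ S' ∈ isoSet N N₀ ω', ‖S - S'‖ < ε

/-- U6: continuous families of isometries over balls. -/
def LiftStmt : Prop := ∀ (m : ℕ) (N : ℝ × F m → ℝ) (N₀ : F m → ℝ), DataU m N N₀ →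
  ∀ ρ : ℝ, ∃ S : F m → (F m →L[ℝ] F m), ContinuousOn S (Metric.closedBall 0 ρ) ∧
    ∀ ω : F m, ‖ω‖ ≤ ρ → S ω ∈ isoSet N N₀ ω

/-- U7: a nonvanishing field on a ball points inward somewhere on the sphere. -/
def InwardStmt : Prop := ∀ (m : ℕ) (w : F m → F m) (ρ : ℝ), 0 < ρ →
  ContinuousOn w (Metric.closedBall 0 ρ) → (∀ ω : F m, ‖ω‖ ≤ ρ → w ω ≠ 0) →
  ∃ ω : F m, ‖ω‖ = ρ ∧ ∃ t : ℝ, 0 < t ∧ w ω = -(t • ω)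

/-- U8: the coordinate form of point transitivity. -/
def PointStmt : Prop := ∀ (m : ℕ) (N : ℝ × F m → ℝ) (N₀ : F m → ℝ), DataU m N N₀ →
  ∀ y : F m, y ≠ 0 → ∃ T : F m →L[ℝ] (ℝ × F m), (∀ x, N (T x) = N₀ x) ∧
    ∃ t : ℝ, 0 < t ∧ T y = (t, 0)

/-! ### Statements about normed spaces -/

/-- Any two `(n-1)`-dimensional subspaces are linearly isometric. -/
def IsoHyp (n : ℕ) (E : Type) [NormedAddCommGroup E] [NormedSpace ℝ E] : Prop :=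
  ∀ V W : Submodule ℝ E, finrank ℝ V = n - 1 → finrank ℝ W = n - 1 → Nonempty (V ≃ₗᵢ[ℝ] W)

/-- U9: point transitivity. -/
def UnivStmt : Prop := ∀ n : ℕ, 3 ≤ n → ∀ (E : Type) [NormedAddCommGroup E] [NormedSpace ℝ E],
  finrank ℝ E = n → IsoHyp n E → ∀ V : Submodule ℝ E, finrank ℝ V = n - 1 →
  ∀ (y : V) (p : E), ‖y‖ = ‖p‖ → ∃ T : V →ₗᵢ[ℝ] E, T y = p

/-- The space is 2-uniformly convex and 2-uniformly smooth. -/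
def Unif (Z : Type) [NormedAddCommGroup Z] [NormedSpace ℝ Z] (c C : ℝ) : Prop :=
  ∀ x y : Z, 2 * ‖x‖ ^ 2 + 2 * c * ‖y‖ ^ 2 ≤ ‖x + y‖ ^ 2 + ‖x - y‖ ^ 2 ∧
    ‖x + y‖ ^ 2 + ‖x - y‖ ^ 2 ≤ 2 * ‖x‖ ^ 2 + 2 * C * ‖y‖ ^ 2

/-- U10. -/
def UniformStmt : Prop := ∀ n : ℕ, 3 ≤ n → ∀ (E : Type) [NormedAddCommGroup E]
  [NormedSpace ℝ E], finrank ℝ E = n → IsoHyp n E → ∃ c C : ℝ, 0 < c ∧ 0 < C ∧ Unif E c C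

/-- Through each direction there is a norm-one projection with that kernel. -/
def ProjHyp (Z : Type) [NormedAddCommGroup Z] [NormedSpace ℝ Z] : Prop :=
  ∀ y : Z, y ≠ 0 → ∃ Q : Z →ₗ[ℝ] Z, (∀ x, ‖Q x‖ ≤ ‖x‖) ∧ Q y = 0 ∧ ∀ x, ∃ t : ℝ, x - Q x = t • y

/-- The parallelogram law. -/
def Para (Z : Type) [NormedAddCommGroup Z] [NormedSpace ℝ Z] : Prop :=
  ∀ x y : Z, ‖x + y‖ ^ 2 + ‖x - y‖ ^ 2 = 2 * (‖x‖ ^ 2 + ‖y‖ ^ 2)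

/-- The gradient `J` of half of the square of the norm. -/
structure GradData (Z : Type) [NormedAddCommGroup Z] [NormedSpace ℝ Z] (c : ℝ)
    (J : Z → (Z →L[ℝ] ℝ)) : Prop where
  hc : 0 < c
  deriv : ∀ x, HasFDerivAt (fun z : Z => ‖z‖ ^ 2) ((2 : ℝ) • J x) x
  smul : ∀ (t : ℝ) x, J (t • x) = t • J x
  self : ∀ x, J x x = ‖x‖ ^ 2
  lip : ∃ K : NNReal, LipschitzWith K J
  mono : ∀ x y, c * ‖x - y‖ ^ 2 ≤ (J x - J y) (x - y)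

/-- U11. -/
def GradStmt : Prop := ∀ (Z : Type) [NormedAddCommGroup Z] [NormedSpace ℝ Z]
  [FiniteDimensional ℝ Z] (c C : ℝ), 0 < c → 0 < C → Unif Z c C →
  ∃ J : Z → (Z →L[ℝ] ℝ), GradData Z c J

/-- U12. -/
def PlaneJStmt : Prop := ∀ (Z : Type) [NormedAddCommGroup Z] [NormedSpace ℝ Z]
  [FiniteDimensional ℝ Z] (c : ℝ) (J : Z → (Z →L[ℝ] ℝ)), GradData Z c J → ProjHyp Z →
  ∀ x x' : Z, J (x + x') ∈ Submodule.span ℝ {J x, J x'}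

/-- U13. -/
def DiffStmt : Prop := ∀ (Z : Type) [NormedAddCommGroup Z] [NormedSpace ℝ Z]
  [FiniteDimensional ℝ Z] (c : ℝ) (J : Z → (Z →L[ℝ] ℝ)), 1 ≤ finrank ℝ Z → GradData Z c J →
  (∀ x x' : Z, J (x + x') ∈ Submodule.span ℝ {J x, J x'}) →
  ∃ x₀ : Z, x₀ ≠ 0 ∧ ∃ A : Z ≃L[ℝ] (Z →L[ℝ] ℝ), J x₀ = A x₀ ∧
    ∀ v, J v ∈ Submodule.span ℝ {A x₀, A v}

/-- U14. -/
def CollinStmt : Prop := ∀ (Z : Type) [NormedAddCommGroup Z] [NormedSpace ℝ Z]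
  [FiniteDimensional ℝ Z] (K : Z → Z) (x₀ : Z), 3 ≤ finrank ℝ Z → Continuous K →
  (∀ (t : ℝ) x, K (t • x) = t • K x) → x₀ ≠ 0 → K x₀ = x₀ →
  (∀ v, K v ∈ Submodule.span ℝ {x₀, v}) →
  (∀ x x' : Z, K (x + x') ∈ Submodule.span ℝ {K x, K x'}) →
  (∀ x x' : Z, LinearIndependent ℝ ![x, x'] → LinearIndependent ℝ ![K x, K x']) →
  ∃ (L : Z →ₗ[ℝ] Z) (a : Z → ℝ), ∀ v, K v = a v • L v

/-- U15. -/
def ExactStmt : Prop := ∀ (Z : Type) [NormedAddCommGroup Z] [NormedSpace ℝ Z]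
  [FiniteDimensional ℝ Z] (J : Z → (Z →L[ℝ] ℝ)) (B : Z →ₗ[ℝ] Z →ₗ[ℝ] ℝ) (a : Z → ℝ),
  2 ≤ finrank ℝ Z → (∀ x, HasFDerivAt (fun z : Z => ‖z‖ ^ 2) ((2 : ℝ) • J x) x) →
  (∀ x, J x x = ‖x‖ ^ 2) → (∀ x h, J x h = a x * B x h) → Para Z

/-- U16 (Blaschke, Kakutani). -/
def BlaschkeStmt : Prop := ∀ (Z : Type) [NormedAddCommGroup Z] [NormedSpace ℝ Z]
  [FiniteDimensional ℝ Z] (c C : ℝ), 3 ≤ finrank ℝ Z → 0 < c → 0 < C → Unif Z c C →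
  ProjHyp Z → Para Z

/-- U17. -/
def ComplStmt : Prop := ∀ n : ℕ, 4 ≤ n → ∀ (E : Type) [NormedAddCommGroup E]
  [NormedSpace ℝ E], finrank ℝ E = n → IsoHyp n E → ∀ P : E →ₗ[ℝ] E, (∀ x, P (P x) = P x) →
  (∀ x, ‖P x‖ ≤ ‖x‖) → finrank ℝ (LinearMap.range P) = n - 1 → Nonempty (E ≃ₗᵢ[ℝ] F n)

end Pool.Agent.Lib.MP_5c4da9_an
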