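import Pool.Agent.Lib.MP_5c4da9_an.UDefs

/-!
# U10: uniform convexity and smoothness
-/

set_option autoImplicit false

open Set Filter Topology Module

namespace Pool.Agent.Lib.MP_5c4da9_an

/-- Two vectors lie in a hyperplane. -/
theorem Uniform_hyp {n : ℕ} (hn : 3 ≤ n) {E : Type} [NormedAddCommGroup E] [NormedSpace ℝ E]
    (hE : finrank ℝ E = n) (x y : E) :
    ∃ V : Submodule ℝ E, finrank ℝ V = n - 1 ∧ x ∈ V ∧ y ∈ V := by
  classical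
  have hfd : FiniteDimensional ℝ E := Module.finite_of_finrank_pos (by omega)
  have h1 : finrank ℝ (Submodule.span ℝ ({x, y} : Set E)) ≤ 2 := by
    have h2 : (({x, y} : Finset E) : Set E) = {x, y} := by simp
    have h3 := finrank_span_finset_le_card (R := ℝ) ({x, y} : Finset E)
    unfold Set.finrank at h3
    rw [h2] at h3
    exact h3.trans Finset.card_le_two
  have hlt : Submodule.span ℝ ({x, y} : Set E) < ⊤ := by
    rw [lt_top_iff_ne_top]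
    intro h
    rw [h, finrank_top] at h1
    omega
  obtain ⟨f, hf, hle⟩ := Submodule.exists_le_ker_of_lt_top _ hlt
  refine ⟨LinearMap.ker f, ?_, hle (Submodule.subset_span (by simp)),
    hle (Submodule.subset_span (by simp))⟩
  have := Module.Dual.finrank_ker_add_one_of_ne_zero hf
  omega

/-- U10. -/
theorem uniformStmt (h : UnivStmt) : UniformStmt := by
  intro n hn E _ _ hE hiso
  have hfd : FiniteDimensional ℝ E := Module.finite_of_finrank_pos (by omega)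
  have hnt : Nontrivial E := Module.nontrivial_of_finrank_pos (R := ℝ) (by omega)
  have hprop : ProperSpace E := FiniteDimensional.proper_real E
  let φ : E ≃L[ℝ] F n := ContinuousLinearEquiv.ofFinrankEq (by rw [hE]; simp)
  have hcont : ContinuousOn (fun x : E => ‖φ x‖) (Metric.sphere (0 : E) 1) :=
    (φ.continuous.norm).continuousOn
  have hne : (Metric.sphere (0 : E) 1).Nonempty := NormedSpace.sphere_nonempty.mpr zero_le_one
  obtain ⟨p, hp, hpmax⟩ := (isCompact_sphere (0 : E) 1).exists_isMaxOn hne hcont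
  obtain ⟨q, hq, hqmin⟩ := (isCompact_sphere (0 : E) 1).exists_isMinOn hne hcont
  rw [mem_sphere_zero_iff_norm] at hp hq
  have hbd : ∀ x : E, ‖φ q‖ * ‖x‖ ≤ ‖φ x‖ ∧ ‖φ x‖ ≤ ‖φ p‖ * ‖x‖ := by
    intro x
    rcases eq_or_ne x 0 with rfl | hx
    · simp
    · have hx' : 0 < ‖x‖ := norm_pos_iff.2 hx
      have hu : ‖x‖⁻¹ • x ∈ Metric.sphere (0 : E) 1 := by
        rw [mem_sphere_zero_iff_norm, norm_smul, norm_inv, norm_norm]
        exact inv_mul_cancel₀ hx'.ne'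
      have h1 : ‖φ (‖x‖⁻¹ • x)‖ = ‖x‖⁻¹ * ‖φ x‖ := by
        rw [map_smul, norm_smul, norm_inv, norm_norm]
      have h2 : ‖φ q‖ ≤ ‖x‖⁻¹ * ‖φ x‖ := h1 ▸ hqmin hu
      have h3 : ‖x‖⁻¹ * ‖φ x‖ ≤ ‖φ p‖ := h1 ▸ hpmax hu
      constructor
      · rw [inv_mul_eq_div, le_div_iff₀ hx'] at h2
        exact h2
      · rw [inv_mul_eq_div, div_le_iff₀ hx'] at h3
        exact h3
  have hpos : ∀ u : E, ‖u‖ = 1 → 0 < ‖φ u‖ := by
    intro u hu
    rw [norm_pos_iff]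
    intro h0
    have : u = 0 := φ.injective (by rw [h0, map_zero])
    rw [this, norm_zero] at hu
    exact zero_ne_one hu
  have hR := hpos p hp
  have hr := hpos q hq
  set R := ‖φ p‖ with hRdef
  set r := ‖φ q‖ with hrdef
  refine ⟨(r / R) ^ 2, (R / r) ^ 2, by positivity, by positivity, ?_⟩
  intro x y
  obtain ⟨V, hV, hxV, hyV⟩ := Uniform_hyp hn hE x y
  have hnx : ∀ u : E, ‖u‖ = 1 → ‖(⟨x, hxV⟩ : V)‖ = ‖‖x‖ • u‖ := by
    intro u hu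
    rw [norm_smul, hu, norm_norm, mul_one]
    rfl
  have key : ∀ u : E, ‖u‖ = 1 → ∃ a b : F n, ‖a‖ = ‖x‖ * ‖φ u‖ ∧
      (r * ‖y‖ ≤ ‖b‖ ∧ ‖b‖ ≤ R * ‖y‖) ∧
      (r * ‖x + y‖ ≤ ‖a + b‖ ∧ ‖a + b‖ ≤ R * ‖x + y‖) ∧
      (r * ‖x - y‖ ≤ ‖a - b‖ ∧ ‖a - b‖ ≤ R * ‖x - y‖) := by
    intro u hu
    obtain ⟨T, hT⟩ := h n hn E hE hiso V hV ⟨x, hxV⟩ (‖x‖ • u) (hnx u hu)
    refine ⟨φ (T ⟨x, hxV⟩), φ (T ⟨y, hyV⟩), ?_, ?_, ?_, ?_⟩
    · rw [hT, map_smul, norm_smul, norm_norm]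
    · have := hbd (T ⟨y, hyV⟩)
      rw [T.norm_map] at this
      exact this
    · have := hbd (T (⟨x, hxV⟩ + ⟨y, hyV⟩))
      rw [T.norm_map, map_add, map_add] at this
      exact this
    · have := hbd (T (⟨x, hxV⟩ - ⟨y, hyV⟩))
      rw [T.norm_map, map_sub, map_sub] at this
      exact this
  constructor
  · obtain ⟨a, b, ha, hb, hab, hab'⟩ := key p hp
    have hpl := parallelogram_law_with_norm ℝ a b
    have h1 : ‖a + b‖ * ‖a + b‖ ≤ R ^ 2 * ‖x + y‖ ^ 2 := by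
      have := mul_le_mul hab.2 hab.2 (norm_nonneg _) (by positivity)
      linarith [this]
    have h2 : ‖a - b‖ * ‖a - b‖ ≤ R ^ 2 * ‖x - y‖ ^ 2 := by
      have := mul_le_mul hab'.2 hab'.2 (norm_nonneg _) (by positivity)
      linarith [this]
    have h3 : r ^ 2 * ‖y‖ ^ 2 ≤ ‖b‖ * ‖b‖ := by
      have := mul_le_mul hb.1 hb.1 (by positivity) (norm_nonneg _)
      linarith [this]
    have h4 : ‖a‖ * ‖a‖ = R ^ 2 * ‖x‖ ^ 2 := by rw [ha]; ring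
    have h5 : 2 * (R ^ 2 * ‖x‖ ^ 2 + r ^ 2 * ‖y‖ ^ 2) ≤
        R ^ 2 * (‖x + y‖ ^ 2 + ‖x - y‖ ^ 2) := by linarith
    have h6 : 2 * ‖x‖ ^ 2 + 2 * (r / R) ^ 2 * ‖y‖ ^ 2 =
        (2 * (R ^ 2 * ‖x‖ ^ 2 + r ^ 2 * ‖y‖ ^ 2)) / R ^ 2 := by
      field_simp
    rw [h6, div_le_iff₀ (by positivity)]
    linarith
  · obtain ⟨a, b, ha, hb, hab, hab'⟩ := key q hq
    have hpl := parallelogram_law_with_norm ℝ a b
    have h1 : r ^ 2 * ‖x + y‖ ^ 2 ≤ ‖a + b‖ * ‖a + b‖ := by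
      have := mul_le_mul hab.1 hab.1 (by positivity) (norm_nonneg _)
      linarith [this]
    have h2 : r ^ 2 * ‖x - y‖ ^ 2 ≤ ‖a - b‖ * ‖a - b‖ := by
      have := mul_le_mul hab'.1 hab'.1 (by positivity) (norm_nonneg _)
      linarith [this]
    have h3 : ‖b‖ * ‖b‖ ≤ R ^ 2 * ‖y‖ ^ 2 := by
      have := mul_le_mul hb.2 hb.2 (norm_nonneg _) (by positivity)
      linarith [this]
    have h4 : ‖a‖ * ‖a‖ = r ^ 2 * ‖x‖ ^ 2 := by rw [ha]; ring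
    have h5 : r ^ 2 * (‖x + y‖ ^ 2 + ‖x - y‖ ^ 2) ≤
        2 * (r ^ 2 * ‖x‖ ^ 2 + R ^ 2 * ‖y‖ ^ 2) := by linarith
    have h6 : 2 * ‖x‖ ^ 2 + 2 * (R / r) ^ 2 * ‖y‖ ^ 2 =
        (2 * (r ^ 2 * ‖x‖ ^ 2 + R ^ 2 * ‖y‖ ^ 2)) / r ^ 2 := by
      field_simp
    rw [h6, le_div_iff₀ (by positivity)]
    linarith

end Pool.Agent.Lib.MP_5c4da9_an
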