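import Pool.Agent.Lib.MP_5c4da9_an.UDefs

set_option autoImplicit false

open Set Filter Topology Module

noncomputable section

namespace Pool.Agent.Lib.MP_5c4da9_an

/-- Point transitivity for spaces with isometric hyperplanes, from its coordinate form. -/
theorem univStmt (h9 : InvStmt) (h8 : PointStmt) : UnivStmt := by
  intro n hn E _ _ hE hiso V hV y p hyp
  have hfd : FiniteDimensional ℝ E := Module.finite_of_finrank_pos (by omega)
  by_cases hy : y = 0
  · subst hy
    refine ⟨V.subtypeₗᵢ, ?_⟩
    rw [norm_zero] at hyp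
    rw [map_zero]
    exact (norm_eq_zero.mp hyp.symm).symm
  have hp : p ≠ 0 := by
    rintro rfl
    rw [norm_zero] at hyp
    exact hy (norm_eq_zero.mp hyp)
  have hcast : ∀ m : ℕ, finrank ℝ V = m → ∃ φ : V ≃L[ℝ] F m, ∀ g : V ≃ₗᵢ[ℝ] V, ∀ y,
      ‖φ (g y)‖ = ‖φ y‖ := by
    rintro m rfl
    exact h9 V
  obtain ⟨φ, hφ⟩ := hcast (n - 1) hV
  obtain ⟨W, hW⟩ := Submodule.exists_isCompl (Submodule.span ℝ {p})
  have hWr : finrank ℝ W = n - 1 := by
    have h1 := Submodule.finrank_add_eq_of_isCompl hW
    rw [finrank_span_singleton hp, hE] at h1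
    omega
  have hFW : finrank ℝ (F (n - 1)) = finrank ℝ W := by
    rw [finrank_euclideanSpace_fin, hWr]
  let ι : F (n - 1) ≃ₗ[ℝ] W := LinearEquiv.ofFinrankEq _ _ hFW
  -- the direct sum
  have hdir : ∀ (t : ℝ) (w : F (n - 1)), t • p + ((ι w : W) : E) = 0 → t = 0 ∧ w = 0 := by
    intro t w h
    have h1 : t • p = -((ι w : W) : E) := eq_neg_of_add_eq_zero_left h
    have h2 : t • p = 0 := by
      have h3 : t • p ∈ Submodule.span ℝ {p} :=
        Submodule.smul_mem _ _ (Submodule.mem_span_singleton_self p)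
      have h4 : t • p ∈ W := by
        rw [h1]
        exact W.neg_mem (ι w).2
      exact (Submodule.disjoint_def.mp hW.disjoint) _ h3 h4
    have ht : t = 0 := (smul_eq_zero.mp h2).resolve_right hp
    refine ⟨ht, ?_⟩
    rw [h2, zero_add] at h
    have h3 : ι w = 0 := Subtype.ext h
    exact (map_eq_zero_iff ι ι.injective).mp h3
  have hdata : DataU (n - 1) (fun z => ‖z.1 • p + ((ι z.2 : W) : E)‖)
      (fun w => ‖φ.symm w‖) := by
    refine ⟨⟨?_, ?_, ?_⟩, ⟨?_, ?_, ?_⟩, ?_, ?_⟩
    · intro x z
      have : (x + z).1 • p + ((ι (x + z).2 : W) : E) =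
          (x.1 • p + ((ι x.2 : W) : E)) + (z.1 • p + ((ι z.2 : W) : E)) := by
        rw [Prod.fst_add, Prod.snd_add, map_add, Submodule.coe_add]
        module
      simp only [this]
      exact norm_add_le _ _
    · intro c x
      have : (c • x).1 • p + ((ι (c • x).2 : W) : E) =
          c • (x.1 • p + ((ι x.2 : W) : E)) := by
        rw [Prod.smul_fst, Prod.smul_snd, map_smul, Submodule.coe_smul, smul_eq_mul]
        module
      simp only [this]
      rw [norm_smul, Real.norm_eq_abs]
    · intro x hx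
      refine norm_pos_iff.mpr fun h => hx ?_
      obtain ⟨h1, h2⟩ := hdir x.1 x.2 h
      exact Prod.ext h1 h2
    · intro x z
      simp only [map_add]
      exact norm_add_le _ _
    · intro c x
      simp only [map_smul]
      rw [norm_smul, Real.norm_eq_abs]
    · intro x hx
      refine norm_pos_iff.mpr fun h => hx ?_
      simpa using h
    · -- orth
      intro g hg x
      have hg' : ∀ x, ‖φ.symm (g x)‖ = ‖φ.symm x‖ := hg
      let li : V →ₗᵢ[ℝ] V :=
        { toLinearMap := (φ.symm : F (n - 1) →ₗ[ℝ] V) ∘ₗ (g : F (n - 1) →ₗ[ℝ] F (n - 1)) ∘ₗ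
            (φ : V →ₗ[ℝ] F (n - 1))
          norm_map' := by
            intro y
            show ‖φ.symm (g (φ y))‖ = ‖y‖
            rw [hg', φ.symm_apply_apply] }
      have h1 := hφ (li.toLinearIsometryEquiv rfl) (φ.symm x)
      have h2 : (li.toLinearIsometryEquiv rfl) (φ.symm x) = φ.symm (g (φ (φ.symm x))) := rfl
      rw [h2, φ.apply_symm_apply, φ.apply_symm_apply] at h1
      exact h1
    · -- iso
      intro ω
      let κ : F (n - 1) →ₗ[ℝ] E :=
        { toFun := fun w => (-(inner ℝ ω w)) • p + ((ι w : W) : E)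
          map_add' := by
            intro x z
            rw [inner_add_right, map_add, Submodule.coe_add]
            module
          map_smul' := by
            intro c x
            rw [inner_smul_right, map_smul, Submodule.coe_smul]
            simp only [RingHom.id_apply]
            module }
      have hκ : Function.Injective κ := by
        refine (injective_iff_map_eq_zero κ).mpr fun w hw => ?_
        exact (hdir _ w hw).2
      have hfr : finrank ℝ (LinearMap.range κ) = n - 1 := by
        rw [LinearMap.finrank_range_of_inj hκ, finrank_euclideanSpace_fin]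
      obtain ⟨T⟩ := hiso V (LinearMap.range κ) hV hfr
      let Sl : F (n - 1) →ₗ[ℝ] F (n - 1) :=
        ((LinearEquiv.ofInjective κ hκ).symm : LinearMap.range κ →ₗ[ℝ] F (n - 1)) ∘ₗ
          (T.toLinearEquiv : V →ₗ[ℝ] LinearMap.range κ) ∘ₗ (φ.symm : F (n - 1) →ₗ[ℝ] V)
      refine ⟨LinearMap.toContinuousLinearMap Sl, fun x => ?_⟩
      have h1 : κ (Sl x) = ((T (φ.symm x) : LinearMap.range κ) : E) := by
        have h2 : LinearEquiv.ofInjective κ hκ (Sl x) = T (φ.symm x) := by
          show LinearEquiv.ofInjective κ hκ ((LinearEquiv.ofInjective κ hκ).symm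
            (T (φ.symm x))) = _
          rw [LinearEquiv.apply_symm_apply]
        rw [← h2]
        rfl
      show ‖κ (Sl x)‖ = ‖φ.symm x‖
      rw [h1]
      exact T.norm_map (φ.symm x)
  have hφy : φ y ≠ 0 := fun h => hy ((map_eq_zero_iff φ φ.injective).mp h)
  obtain ⟨T₁, hT₁, t, ht, hTy⟩ := h8 (n - 1) _ _ hdata (φ y) hφy
  have hT₁' : ∀ x, ‖(T₁ x).1 • p + ((ι (T₁ x).2 : W) : E)‖ = ‖φ.symm x‖ := hT₁
  let T : V →ₗᵢ[ℝ] E :=
    { toFun := fun x => (T₁ (φ x)).1 • p + ((ι (T₁ (φ x)).2 : W) : E)
      map_add' := by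
        intro x z
        rw [map_add, map_add, Prod.fst_add, Prod.snd_add, map_add, Submodule.coe_add]
        module
      map_smul' := by
        intro c x
        rw [map_smul, map_smul, Prod.smul_fst, Prod.smul_snd, map_smul, Submodule.coe_smul,
          smul_eq_mul]
        simp only [RingHom.id_apply]
        module
      norm_map' := by
        intro x
        show ‖(T₁ (φ x)).1 • p + ((ι (T₁ (φ x)).2 : W) : E)‖ = ‖x‖
        rw [hT₁', φ.symm_apply_apply] }
  have hTyp : T y = t • p := by
    show (T₁ (φ y)).1 • p + ((ι (T₁ (φ y)).2 : W) : E) = t • p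
    rw [hTy]
    simp
  refine ⟨T, ?_⟩
  have h1 := T.norm_map y
  rw [hTyp, norm_smul, Real.norm_eq_abs, abs_of_pos ht, hyp] at h1
  have h2 : t = 1 := mul_right_cancel₀ (norm_ne_zero_iff.mpr hp) (h1.trans (one_mul _).symm)
  rw [hTyp, h2, one_smul]

end Pool.Agent.Lib.MP_5c4da9_an
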