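import Pool.Agent.Lib.MP_5c4da9_an.UDefs

set_option autoImplicit false

open Set Filter Topology Module

noncomputable section

namespace Pool.Agent.Lib.MP_5c4da9_an

/-- A second order Taylor expansion of the square of the norm at `y`, with a given modulus. -/
def TaylorAt {Z : Type} [NormedAddCommGroup Z] [NormedSpace ℝ Z] (J : Z → (Z →L[ℝ] ℝ))
    (K : ℝ) (δ : ℝ → ℝ) (y : Z) (A : Z →L[ℝ] Z →L[ℝ] ℝ) : Prop :=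
  (∀ h k, A h k = A k h) ∧ (∀ h, |A h h| ≤ K * ‖h‖ ^ 2) ∧
  ∀ ε : ℝ, 0 < ε → ∀ h : Z, ‖h‖ < δ ε →
    |‖y + h‖ ^ 2 - ‖y‖ ^ 2 - 2 * J y h - A h h| ≤ ε * ‖h‖ ^ 2

/-- V1: a second order expansion at some point of the unit sphere (Rademacher). -/
def TaylorStmt : Prop := ∀ (Z : Type) [NormedAddCommGroup Z] [NormedSpace ℝ Z]
  [FiniteDimensional ℝ Z] (c : ℝ) (J : Z → (Z →L[ℝ] ℝ)), 1 ≤ finrank ℝ Z → GradData Z c J →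
  ∃ (p : Z) (A : Z →L[ℝ] Z →L[ℝ] ℝ) (K : ℝ) (δ : ℝ → ℝ), ‖p‖ = 1 ∧
    (∀ ε : ℝ, 0 < ε → 0 < δ ε) ∧ TaylorAt J K δ p A

/-- V2: uniform second order expansions at all points of the unit sphere. -/
def TransferStmt : Prop := ∀ n : ℕ, 4 ≤ n → ∀ (E : Type) [NormedAddCommGroup E]
  [NormedSpace ℝ E], finrank ℝ E = n → IsoHyp n E → ∀ (c : ℝ) (J : E → (E →L[ℝ] ℝ)),
  GradData E c J → ∃ (K : ℝ) (δ : ℝ → ℝ), (∀ ε : ℝ, 0 < ε → 0 < δ ε) ∧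
    ∀ y : E, ‖y‖ = 1 → ∃ A : E →L[ℝ] E →L[ℝ] ℝ, TaylorAt J K δ y A

/-- V3: uniform second order expansions imply that the square of the norm is `C²`. -/
def CTwoStmt : Prop := ∀ (Z : Type) [NormedAddCommGroup Z] [NormedSpace ℝ Z]
  [FiniteDimensional ℝ Z] (c : ℝ) (J : Z → (Z →L[ℝ] ℝ)), GradData Z c J →
  ∀ (K : ℝ) (δ : ℝ → ℝ), (∀ ε : ℝ, 0 < ε → 0 < δ ε) →
  (∀ y : Z, ‖y‖ = 1 → ∃ A : Z →L[ℝ] Z →L[ℝ] ℝ, TaylorAt J K δ y A) →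
  ∀ x : Z, x ≠ 0 → ContDiffAt ℝ 2 (fun z : Z => ‖z‖) x

end Pool.Agent.Lib.MP_5c4da9_an
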