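import Pool.Agent.Lib.MP_5c4da9_an.WDefs
import Pool.Agent.Lib.MP_5c4da9_an.Base

/-! W14: if `N₀^(2a)` and `N₀^(2a+2)` are polynomials on all lines then the parallelogram law
holds. -/

set_option autoImplicit false

open Set Filter Topology Module MeasureTheory

noncomputable section

namespace Pool.Agent.Lib.MP_5c4da9_an

/-- Two continuous functions on the real line that agree off a finite set are equal. -/
theorem eq_of_eq_off_finite (f g : ℝ → ℝ) (hf : Continuous f) (hg : Continuous g) (s : Set ℝ)
    (hs : s.Finite) (h : ∀ t, t ∉ s → f t = g t) : ∀ t, f t = g t := by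
  have hd : Dense (sᶜ) := by
    have := hs.countable.dense_compl ℝ
    exact this
  intro t
  have := Continuous.ext_on hd hf hg (fun t ht => h t ht)
  rw [this]

theorem algStmt : AlgStmt := by
  intro m a D N₀ hN ha h1 h2 x y
  obtain ⟨P, -, hP⟩ := h1 x y
  obtain ⟨Q, -, hQ⟩ := h2 x y
  replace hP : ∀ t : ℝ, N₀ (x + t • y) ^ (2 * a) = P.eval t := hP
  replace hQ : ∀ t : ℝ, N₀ (x + t • y) ^ (2 * a + 2) = Q.eval t := hQ
  have hcont : Continuous N₀ := hN.continuous
  have hc1 : Continuous fun t : ℝ => N₀ (x + t • y) := hcont.comp (by fun_prop)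
  by_cases hP0 : P = 0
  · have hz : ∀ t : ℝ, N₀ (x + t • y) = 0 := by
      intro t
      have h := hP t
      rw [hP0, Polynomial.eval_zero] at h
      exact pow_eq_zero_iff (by omega) |>.1 h
    have hx0 : x = 0 := by
      have := hz 0
      rw [zero_smul, add_zero] at this
      exact hN.eq_zero this
    have hy0 : y = 0 := by
      have := hz 1
      rw [one_smul, hx0, zero_add] at this
      exact hN.eq_zero this
    subst hx0 hy0
    simp [hN.zero]
  · have hpow : P ^ (a + 1) = Q ^ a := by
      apply Polynomial.funext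
      intro t
      rw [Polynomial.eval_pow, Polynomial.eval_pow, ← hP, ← hQ, ← pow_mul, ← pow_mul]
      congr 1
      ring
    have hdvd : P ∣ Q := by
      have : P ^ a ∣ Q ^ a := by
        rw [← hpow]
        exact pow_dvd_pow _ (Nat.le_succ _)
      exact (IsIntegrallyClosed.pow_dvd_pow_iff (by omega)).1 this
    obtain ⟨R, hR⟩ := hdvd
    have hoff : ∀ t : ℝ, t ∉ {t | P.IsRoot t} → N₀ (x + t • y) ^ 2 = R.eval t := by
      intro t ht
      have hPt : P.eval t ≠ 0 := ht
      have h3 := hQ t
      rw [hR, Polynomial.eval_mul, ← hP t, pow_add] at h3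
      rw [← hP t] at hPt
      exact mul_left_cancel₀ hPt h3
    have hfR : ∀ t : ℝ, N₀ (x + t • y) ^ 2 = R.eval t :=
      eq_of_eq_off_finite _ _ (hc1.pow 2) R.continuous _
        (Polynomial.finite_setOfPred_isRoot hP0) hoff
    -- rescaling
    have hscale : ∀ s : ℝ, s ≠ 0 → N₀ (y + s • x) ^ 2 = s ^ 2 * R.eval s⁻¹ := by
      intro s hs
      rw [← hfR]
      have : y + s • x = s • (x + s⁻¹ • y) := by
        rw [smul_add, smul_smul, mul_inv_cancel₀ hs, one_smul, add_comm]
      rw [this, hN.smul, mul_pow, sq_abs]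
    have hc2 : Continuous fun s : ℝ => N₀ (y + s • x) ^ 2 := (hcont.comp (by fun_prop)).pow 2
    have hdeg : R.natDegree ≤ 2 := by
      by_contra hcon
      push Not at hcon
      have hX : (Polynomial.X ^ 2 : Polynomial ℝ).degree < R.degree := by
        rw [Polynomial.degree_X_pow]
        exact Polynomial.coe_lt_degree.2 hcon
      have hlim := Polynomial.abs_div_tendsto_atTop_atTop_of_degree_gt R (Polynomial.X ^ 2) hX
        (pow_ne_zero _ Polynomial.X_ne_zero)
      have hlim2 : Tendsto (fun t : ℝ => |Polynomial.eval t R / Polynomial.eval t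
          (Polynomial.X ^ 2)|) atTop (𝓝 |N₀ (y + (0 : ℝ) • x) ^ 2|) := by
        have h4 : Tendsto (fun t : ℝ => |N₀ (y + t⁻¹ • x) ^ 2|) atTop
            (𝓝 |N₀ (y + (0 : ℝ) • x) ^ 2|) :=
          ((hc2.abs).tendsto 0).comp tendsto_inv_atTop_zero
        refine h4.congr' ?_
        filter_upwards [eventually_gt_atTop (0 : ℝ)] with t ht
        rw [hscale t⁻¹ (inv_ne_zero ht.ne'), inv_inv, Polynomial.eval_pow, Polynomial.eval_X]
        congr 1
        field_simp
      exact not_tendsto_nhds_of_tendsto_atTop hlim _ hlim2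
    have hRe : ∀ t : ℝ, R.eval t = R.coeff 0 + R.coeff 1 * t + R.coeff 2 * t ^ 2 := by
      intro t
      rw [Polynomial.eval_eq_sum_range' (n := 3) (by omega)]
      simp [Finset.sum_range_succ]
    have hD : N₀ y ^ 2 = R.coeff 2 := by
      have h5 : ∀ s : ℝ, N₀ (y + s • x) ^ 2 = R.coeff 0 * s ^ 2 + R.coeff 1 * s + R.coeff 2 := by
        apply eq_of_eq_off_finite _ _ hc2 (by fun_prop) {0} (Set.finite_singleton 0)
        intro s hs
        have hs' : s ≠ 0 := hs
        rw [hscale s hs', hRe]
        field_simp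
      have := h5 0
      simpa using this
    have hA : N₀ x ^ 2 = R.coeff 0 := by
      have := hfR 0
      rw [hRe] at this
      simpa using this
    have hp := hfR 1
    have hm := hfR (-1)
    rw [hRe] at hp hm
    have e1 : x + (1 : ℝ) • y = x + y := by rw [one_smul]
    have e2 : x + (-1 : ℝ) • y = x - y := by rw [neg_smul, one_smul, sub_eq_add_neg]
    rw [e1] at hp
    rw [e2] at hm
    rw [hp, hm, hA, hD]
    ring

end Pool.Agent.Lib.MP_5c4da9_an
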