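import Pool.Agent.Lib.MP_5c4da9_an.WDefs
import Pool.Agent.Lib.MP_5c4da9_an.Base

/-! # W0: basic facts on the isometric embeddings onto hyperplanes (MP_5c4da9_an). -/

set_option autoImplicit false

open Set Filter Topology Module

noncomputable section

namespace Pool.Agent.Lib.MP_5c4da9_an

variable {m : ℕ} {N : X1 m → ℝ} {N₀ : F m → ℝ}

theorem wBase_bounds (h : DataB m N N₀) : ∃ c C : ℝ, 0 < c ∧ 0 < C ∧
    ∀ v, ∀ T ∈ isoP N N₀ v, ∀ x, c * ‖x‖ ≤ ‖T x‖ ∧ ‖T x‖ ≤ C * ‖x‖ := by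
  obtain ⟨c₁, C₁, hc₁, hC₁, hb₁⟩ := h.norm.bounds
  obtain ⟨c₂, C₂, hc₂, hC₂, hb₂⟩ := h.norm₀.bounds
  refine ⟨c₂ / C₁, C₂ / c₁, by positivity, by positivity, fun v T hT x => ?_⟩
  have hTx := hT.1 x
  constructor
  · rw [div_mul_eq_mul_div, div_le_iff₀ hC₁]
    calc c₂ * ‖x‖ ≤ N₀ x := (hb₂ x).1
      _ = N (T x) := hTx.symm
      _ ≤ C₁ * ‖T x‖ := (hb₁ _).2
      _ = ‖T x‖ * C₁ := mul_comm _ _
  · rw [div_mul_eq_mul_div, le_div_iff₀ hc₁]
    calc ‖T x‖ * c₁ = c₁ * ‖T x‖ := mul_comm _ _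
      _ ≤ N (T x) := (hb₁ _).1
      _ = N₀ x := hTx
      _ ≤ C₂ * ‖x‖ := (hb₂ x).2

theorem wBase_closed (h : DataB m N N₀) (v : X1 m) : IsClosed (isoP N N₀ v) := by
  have hc := h.norm.continuous
  have e : isoP N N₀ v = (⋂ x, {T : F m →L[ℝ] X1 m | N (T x) = N₀ x}) ∩
      ⋂ x, {T : F m →L[ℝ] X1 m | inner ℝ v (T x) = (0 : ℝ)} := by
    ext T
    simp [isoP]
  have happ : ∀ x : F m, Continuous fun T : F m →L[ℝ] X1 m => T x := fun x =>
    (ContinuousLinearMap.apply ℝ (X1 m) x).continuous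
  rw [e]
  refine IsClosed.inter ?_ ?_
  · exact isClosed_iInter fun x => isClosed_eq (hc.comp (happ x)) continuous_const
  · exact isClosed_iInter fun x => isClosed_eq (continuous_const.inner (happ x)) continuous_const

theorem wBase_compact (h : DataB m N N₀) (v : X1 m) : IsCompact (isoP N N₀ v) := by
  obtain ⟨c, C, hc, hC, hb⟩ := wBase_bounds h
  have : ProperSpace (F m →L[ℝ] X1 m) := FiniteDimensional.proper ℝ _
  refine Metric.isCompact_of_isClosed_isBounded (wBase_closed h v) ?_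
  refine (Metric.isBounded_iff_subset_closedBall 0).mpr ⟨C, fun T hT => ?_⟩
  rw [mem_closedBall_zero_iff]
  exact ContinuousLinearMap.opNorm_le_bound _ hC.le fun x => (hb v T hT x).2

theorem wBase_inj (h : DataB m N N₀) {v : X1 m} {T : F m →L[ℝ] X1 m} (hT : T ∈ isoP N N₀ v) :
    Function.Injective T := by
  rw [injective_iff_map_eq_zero]
  intro x hx
  apply h.norm₀.eq_zero
  rw [← hT.1 x, hx]
  exact h.norm.zero

theorem wBase_range (h : DataB m N N₀) {v : X1 m} (hv : v ≠ 0) {T : F m →L[ℝ] X1 m}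
    (hT : T ∈ isoP N N₀ v) (y : X1 m) (hy : inner ℝ v y = (0 : ℝ)) : ∃ x, T x = y := by
  have hfr : finrank ℝ (X1 m) = m + 1 := by
    rw [finrank_euclideanSpace, Fintype.card_option, Fintype.card_fin]
  haveI : Fact (finrank ℝ (X1 m) = m + 1) := ⟨hfr⟩
  have h1 : finrank ℝ (Submodule.span ℝ {v})ᗮ = m := Submodule.finrank_orthogonal_span_singleton hv
  have h2 : LinearMap.range T.toLinearMap ≤ (Submodule.span ℝ {v})ᗮ := by
    rintro _ ⟨x, rfl⟩
    rw [Submodule.mem_orthogonal_singleton_iff_inner_right]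
    exact hT.2 x
  have h3 : finrank ℝ (LinearMap.range T.toLinearMap) = m := by
    rw [LinearMap.finrank_range_of_inj (wBase_inj h hT), finrank_euclideanSpace, Fintype.card_fin]
  have h4 := Submodule.eq_of_le_of_finrank_eq h2 (h3.trans h1.symm)
  have h5 : y ∈ LinearMap.range T.toLinearMap := by
    rw [h4, Submodule.mem_orthogonal_singleton_iff_inner_right]
    exact hy
  obtain ⟨x, hx⟩ := h5
  exact ⟨x, hx⟩

theorem wBase_trans (h : DataB m N N₀) {v : X1 m} (hv : v ≠ 0) {T T' : F m →L[ℝ] X1 m}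
    (hT : T ∈ isoP N N₀ v) (hT' : T' ∈ isoP N N₀ v) : ∃ g : F m →L[ℝ] F m,
    (∀ x, N₀ (g x) = N₀ x) ∧ T' = T.comp g := by
  have hmem : ∀ x, T'.toLinearMap x ∈ LinearMap.range T.toLinearMap := by
    intro x
    obtain ⟨y, hy⟩ := wBase_range h hv hT (T' x) (hT'.2 x)
    exact ⟨y, hy⟩
  let e := LinearEquiv.ofInjective T.toLinearMap (wBase_inj h hT)
  let g₀ : F m →ₗ[ℝ] F m := e.symm.toLinearMap ∘ₗ
    (T'.toLinearMap.codRestrict (LinearMap.range T.toLinearMap) hmem)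
  have hTg : ∀ x, T (g₀ x) = T' x := by
    intro x
    have h1 : e (g₀ x) = T'.toLinearMap.codRestrict (LinearMap.range T.toLinearMap) hmem x :=
      e.apply_symm_apply _
    have h2 := congrArg (Subtype.val) h1
    exact h2
  refine ⟨LinearMap.toContinuousLinearMap g₀, fun x => ?_, ?_⟩
  · have h3 : N₀ (g₀ x) = N₀ x := by
      rw [← hT.1 (g₀ x), hTg, hT'.1 x]
    exact h3
  · refine ContinuousLinearMap.ext fun x => ?_
    exact (hTg x).symm

/-- A linear isometry of `N₀` is an orthogonal transformation. -/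
theorem wBase_isom (h : DataB m N N₀) (g : F m →L[ℝ] F m) (hg : ∀ x, N₀ (g x) = N₀ x) :
    ∃ G : F m ≃ₗᵢ[ℝ] F m, ∀ x, G x = g x := by
  have h1 := h.orth g hg
  let L : F m →ₗᵢ[ℝ] F m := ⟨g.toLinearMap, h1⟩
  exact ⟨L.toLinearIsometryEquiv rfl, fun x => rfl⟩

theorem wBase_group (h : DataB m N N₀) :
    IsOrthGroup {g : F m →L[ℝ] F m | ∀ x, N₀ (g x) = N₀ x} := by
  refine ⟨?_, fun x => rfl, ?_, ?_, fun g hg => h.orth g hg⟩
  · have hc := h.norm₀.continuous
    have : {g : F m →L[ℝ] F m | ∀ x, N₀ (g x) = N₀ x} =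
        ⋂ x, {g : F m →L[ℝ] F m | N₀ (g x) = N₀ x} := by
      ext g
      simp
    rw [this]
    refine isClosed_iInter fun x => isClosed_eq (hc.comp ?_) continuous_const
    exact (ContinuousLinearMap.apply ℝ (F m) x).continuous
  · intro g hg k hk x
    change N₀ (g (k x)) = N₀ x
    rw [hg, hk]
  · intro g hg
    obtain ⟨G, hG⟩ := wBase_isom h g hg
    refine ⟨(G.symm.toContinuousLinearEquiv : F m →L[ℝ] F m), ?_, ?_, ?_⟩
    · intro x
      have h1 := hg (G.symm x)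
      rw [← hG, G.apply_symm_apply] at h1
      exact h1.symm
    · ext x : 1
      change G.symm (g x) = x
      rw [← hG, G.symm_apply_apply]
    · ext x : 1
      change g (G.symm x) = x
      rw [← hG, G.apply_symm_apply]

/-- The rows of a linear map. -/
def wBase_row (A : F m →L[ℝ] X1 m) (o : Option (Fin m)) : F m :=
  (InnerProductSpace.toDual ℝ (F m)).symm
    ((EuclideanSpace.proj o : X1 m →L[ℝ] ℝ).comp A)

theorem wBase_row_inner (A : F m →L[ℝ] X1 m) (o : Option (Fin m)) (x : F m) :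
    inner ℝ (wBase_row A o) x = (A x) o := by
  unfold wBase_row
  rw [InnerProductSpace.toDual_symm_apply]
  rfl

/-- Parseval. -/
theorem wBase_hs (A : F m →L[ℝ] X1 m) (b : OrthonormalBasis (Fin m) ℝ (F m)) :
    ∑ i, ‖A (b i)‖ ^ 2 = ∑ o, ‖wBase_row A o‖ ^ 2 := by
  have h1 : ∀ i, ‖A (b i)‖ ^ 2 = ∑ o, (A (b i) o) ^ 2 := fun i => EuclideanSpace.real_norm_sq_eq _
  simp only [h1]
  rw [Finset.sum_comm]
  refine Finset.sum_congr rfl fun o _ => ?_
  rw [← b.sum_sq_norm_inner_right (wBase_row A o)]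
  refine Finset.sum_congr rfl fun i _ => ?_
  rw [real_inner_comm, wBase_row_inner, Real.norm_eq_abs, sq_abs]

theorem wBase_hsL (A : F m →L[ℝ] X1 m) (G : F m ≃ₗᵢ[ℝ] F m) (g : F m →L[ℝ] F m)
    (hG : ∀ x, G x = g x) : ‖hsL m (A.comp g)‖ = ‖hsL m A‖ := by
  rw [PiLp.norm_eq_of_L2, PiLp.norm_eq_of_L2]
  congr 1
  have h1 := wBase_hs A (EuclideanSpace.basisFun (Fin m) ℝ)
  have h2 := wBase_hs A ((EuclideanSpace.basisFun (Fin m) ℝ).map G)
  rw [← h1] at h2
  have e1 : ∀ i : Fin m, ((EuclideanSpace.basisFun (Fin m) ℝ).map G) i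
      = g (EuclideanSpace.single i (1 : ℝ)) := by
    intro i
    rw [OrthonormalBasis.map_apply, EuclideanSpace.basisFun_apply, hG]
  have e2 : ∀ i : Fin m, (EuclideanSpace.basisFun (Fin m) ℝ) i
      = EuclideanSpace.single i (1 : ℝ) := fun i => EuclideanSpace.basisFun_apply _ _ _
  simp only [e1, e2] at h2
  exact h2

theorem wBaseStmt : WBaseStmt := by
  intro m N N₀ h
  refine ⟨wBase_bounds h, wBase_compact h, ?_, ?_, ?_, ?_, wBase_group h, ?_⟩
  · intro v hv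
    obtain ⟨T, hT1, hT2⟩ := h.iso v hv
    exact ⟨T, hT1, hT2⟩
  · intro v T hT g hg
    refine ⟨fun x => ?_, fun x => hT.2 (g x)⟩
    change N (T (g x)) = N₀ x
    rw [hT.1, hg]
  · intro v hv T hT T' hT'
    exact wBase_trans h hv hT hT'
  · intro v hv T hT y hy
    exact wBase_range h hv hT y hy
  · intro g hg A
    obtain ⟨G, hG⟩ := wBase_isom h g hg
    exact wBase_hsL A G g hG

end Pool.Agent.Lib.MP_5c4da9_an
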