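import Pool.Agent.Lib.MP_5c4da9_an.WDefs
import Pool.Agent.Lib.MP_5c4da9_an.Compl

/-!
# MP_5c4da9_an, W15: the coordinate form of the problem
-/

set_option autoImplicit false

open Set Filter Topology Module

noncomputable section

namespace Pool.Agent.Lib.MP_5c4da9_an

/-- The coordinate form: the reduction to norms on `X1 (n-1)` and `F (n-1)`. -/
theorem coordBStmt (h1 : InvStmt) (h2 : UniformStmt) (h3 : GradStmt) : CoordBStmt := by
  intro n hn E _ _ hE hiso
  have hfd : FiniteDimensional ℝ E := Module.finite_of_finrank_pos (by omega)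
  obtain ⟨c, C, hc, hC, hU⟩ := h2 n hn E hE hiso
  obtain ⟨J, hJ⟩ := h3 E c C hc hC hU
  have hX : finrank ℝ (X1 (n - 1)) = n := by
    rw [finrank_euclideanSpace, Fintype.card_option, Fintype.card_fin]
    omega
  let Φl : X1 (n - 1) ≃ₗ[ℝ] E := LinearEquiv.ofFinrankEq _ _ (hX.trans hE.symm)
  let Φ : X1 (n - 1) ≃L[ℝ] E := Φl.toContinuousLinearEquiv
  obtain ⟨V, hV, -, -⟩ := exists_hyperplane hn hE (0 : E) 0
  have hcast : ∀ m : ℕ, finrank ℝ V = m → ∃ φ : V ≃L[ℝ] F m, ∀ g : V ≃ₗᵢ[ℝ] V, ∀ y,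
      ‖φ (g y)‖ = ‖φ y‖ := by
    rintro m rfl
    exact h1 V
  obtain ⟨φ, hφ⟩ := hcast (n - 1) hV
  refine ⟨fun x => ‖Φ x‖, fun w => ‖φ.symm w‖, ⟨⟨?_, ?_, ?_⟩, ⟨?_, ?_, ?_⟩, ?_, ?_, ?_⟩, ?_⟩
  · intro x z
    simp only [map_add]
    exact norm_add_le _ _
  · intro t x
    simp only [map_smul]
    rw [norm_smul, Real.norm_eq_abs]
  · intro x hx
    refine norm_pos_iff.mpr fun h => hx ?_
    exact (map_eq_zero_iff Φ Φ.injective).mp h
  · intro x z
    simp only [map_add]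
    exact norm_add_le _ _
  · intro t x
    simp only [map_smul]
    rw [norm_smul, Real.norm_eq_abs]
  · intro x hx
    refine norm_pos_iff.mpr fun h => hx ?_
    exact (map_eq_zero_iff φ.symm φ.symm.injective).mp h
  · -- smooth
    have hs : ContDiff ℝ 1 (fun z : E => ‖z‖ ^ 2) := by
      rw [contDiff_one_iff_hasFDerivAt]
      obtain ⟨K, hK⟩ := hJ.lip
      exact ⟨fun x => (2 : ℝ) • J x, hK.continuous.const_smul (2 : ℝ), hJ.deriv⟩
    exact hs.comp Φ.contDiff
  · -- orth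
    intro g hg x
    have hg' : ∀ x, ‖φ.symm (g x)‖ = ‖φ.symm x‖ := hg
    let li : V →ₗᵢ[ℝ] V :=
      { toLinearMap := (φ.symm : F (n - 1) →ₗ[ℝ] V) ∘ₗ (g : F (n - 1) →ₗ[ℝ] F (n - 1)) ∘ₗ
          (φ : V →ₗ[ℝ] F (n - 1))
        norm_map' := by
          intro y
          show ‖φ.symm (g (φ y))‖ = ‖y‖
          rw [hg', φ.symm_apply_apply] }
    have h4 := hφ (li.toLinearIsometryEquiv rfl) (φ.symm x)
    have h5 : (li.toLinearIsometryEquiv rfl) (φ.symm x) = φ.symm (g (φ (φ.symm x))) := rfl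
    rw [h5, φ.apply_symm_apply, φ.apply_symm_apply] at h4
    exact h4
  · -- iso
    intro v hv
    have hK : finrank ℝ ((Submodule.span ℝ {v})ᗮ : Submodule ℝ (X1 (n - 1))) = n - 1 := by
      have h4 := Submodule.finrank_add_finrank_orthogonal (𝕜 := ℝ)
        (Submodule.span ℝ {v} : Submodule ℝ (X1 (n - 1)))
      rw [finrank_span_singleton hv, hX] at h4
      omega
    have hW : finrank ℝ (((Submodule.span ℝ {v})ᗮ).map
        (Φl : X1 (n - 1) →ₗ[ℝ] E) : Submodule ℝ E) = n - 1 := by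
      rw [LinearEquiv.finrank_map_eq, hK]
    obtain ⟨T⟩ := hiso V _ hV hW
    let S : F (n - 1) →ₗ[ℝ] X1 (n - 1) :=
      (Φl.symm : E →ₗ[ℝ] X1 (n - 1)) ∘ₗ (Submodule.subtype (((Submodule.span ℝ {v})ᗮ).map
        (Φl : X1 (n - 1) →ₗ[ℝ] E))) ∘ₗ T.toLinearEquiv.toLinearMap ∘ₗ
        (φ.symm : F (n - 1) →ₗ[ℝ] V)
    have hS : ∀ x, Φl (S x) = ((T (φ.symm x) : _) : E) := by
      intro x
      show Φl (Φl.symm _) = _
      rw [LinearEquiv.apply_symm_apply]
      rfl
    refine ⟨LinearMap.toContinuousLinearMap S, ?_, ?_⟩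
    · intro x
      show ‖Φl (S x)‖ = ‖φ.symm x‖
      rw [hS]
      exact T.norm_map (φ.symm x)
    · intro x
      obtain ⟨y, hy, hy'⟩ := (T (φ.symm x)).2
      have h6 : S x = y := by
        apply Φl.injective
        rw [hS]
        exact hy'.symm
      show inner ℝ v (S x) = 0
      rw [h6]
      exact (Submodule.mem_orthogonal_singleton_iff_inner_right).1 hy
  · -- the parallelogram law
    intro hP
    have hPV : Para V := by
      intro x y
      have h4 := hP (φ x) (φ y)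
      simp only [← map_add, ← map_sub, φ.symm_apply_apply] at h4
      exact h4
    intro x y
    obtain ⟨W, hWr, hx, hy⟩ := exists_hyperplane hn hE x y
    obtain ⟨T⟩ := hiso W V hWr hV
    have h4 := hPV (T ⟨x, hx⟩) (T ⟨y, hy⟩)
    rw [← map_add, ← map_sub, T.norm_map, T.norm_map, T.norm_map, T.norm_map] at h4
    exact h4

end Pool.Agent.Lib.MP_5c4da9_an
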