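import Pool.Agent.Lib.MP_5c4da9_an.UDefs

/-!
# Banach's isometric subspace problem: the full proof (even dimension), statements

Let `X = ℝ × ℝ^m` with a norm `N`, all of whose hyperplanes are isometric to `(ℝ^m, N₀)`,
`m + 1` even.

1. (`LipStmt`, `ProjStmt`, `LSectStmt`) There is a Lipschitz family `S z : ℝ^m → X`, `z ∈ ℝ^m`, of
   isometric embeddings with `S z (ℝ^m) = (nu z)^⊥`, where `nu : ℝ^m → X ∖ {0}` is an explicit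
   smooth map that covers all directions once and is vertical for `‖z‖ ≥ 2`.
2. For a smooth approximation `S'` of `S` the integral
   `L(y) = ∫ (S' z y)₀ ^ j * det (S' z y, ∂₁ S' z y, …, ∂_m S' z y) dz` is a polynomial in `y` of
   degree `m + 1 + j`. (`PolIntStmt`)
3. (`StokesStmt`, `EqStmt`, `LimStmt`) By homotopy invariance `L(y)` tends to
   `κ * N₀ y ^ (m + 1 + j)` with a constant `κ ≠ 0`, `j = 2, 4`.
4. (`AlgStmt`) So `N₀ ^ (m+3)` and `N₀ ^ (m+5)` are polynomials on all lines, hence `N₀ ^ 2` is a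
   polynomial of degree `≤ 2` on all lines, i.e. the parallelogram law holds.
-/

set_option autoImplicit false

open Set Filter Topology Module MeasureTheory

noncomputable section

namespace Pool.Agent.Lib.MP_5c4da9_an

/-- `ℝ × ℝ^m` as a Euclidean space; the coordinate `none` is called the vertical one. -/
abbrev X1 (m : ℕ) := EuclideanSpace ℝ (Option (Fin m))

/-- The vertical unit vector. -/
def e0 (m : ℕ) : X1 m := EuclideanSpace.single none 1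

/-- The determinant of the vectors `v none, v (some i)`. -/
def dt {m : ℕ} (v : Option (Fin m) → X1 m) : ℝ := Matrix.det (Matrix.of fun i j => v j i)

/-- The partial derivatives. -/
def pd {m : ℕ} {V : Type} [NormedAddCommGroup V] [NormedSpace ℝ V] (C : F m → V) (z : F m)
    (i : Fin m) : V := fderiv ℝ C z (EuclideanSpace.single i 1)

/-- `det (C, ∂₁ C, …, ∂_m C)`. -/
def jac {m : ℕ} (C : F m → X1 m) (z : F m) : ℝ := dt fun o => o.elim (C z) (pd C z)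

/-- `N` is a norm on `X1 m` with `N²` of class `C¹`; `N₀` is a norm on `ℝ^m` all of whose linear
isometries are orthogonal; each hyperplane `v^⊥` with the norm `N` is isometric to `N₀`. -/
structure DataB (m : ℕ) (N : X1 m → ℝ) (N₀ : F m → ℝ) : Prop where
  norm : IsNorm N
  norm₀ : IsNorm N₀
  smooth : ContDiff ℝ 1 fun x => N x ^ 2
  orth : ∀ g : F m →L[ℝ] F m, (∀ x, N₀ (g x) = N₀ x) → ∀ x, ‖g x‖ = ‖x‖
  iso : ∀ v : X1 m, v ≠ 0 → ∃ T : F m →L[ℝ] X1 m, (∀ x, N (T x) = N₀ x) ∧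
    ∀ x, inner ℝ v (T x) = 0

/-- The isometric embeddings onto the hyperplane `v^⊥`. -/
def isoP {m : ℕ} (N : X1 m → ℝ) (N₀ : F m → ℝ) (v : X1 m) : Set (F m →L[ℝ] X1 m) :=
  {T | (∀ x, N (T x) = N₀ x) ∧ ∀ x, inner ℝ v (T x) = 0}

/-- The vector of the images of the standard basis (this defines the Hilbert-Schmidt norm
`‖hsL m A‖`). -/
def hsL (m : ℕ) : (F m →L[ℝ] X1 m) →ₗ[ℝ] PiLp 2 (fun _ : Fin m => X1 m) where
  toFun A := WithLp.toLp 2 (fun i => A (EuclideanSpace.single i (1 : ℝ)))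
  map_add' := by
    intro A B
    ext i
    simp
  map_smul' := by
    intro c A
    ext i
    simp

/-! ## Part 1: Lipschitz families of isometric embeddings -/

/-- W0 (file WBase.lean). Basic facts.

* bounds: `c * ‖x‖ ≤ ‖T x‖ ≤ C * ‖x‖` with constants independent of `v` (all norms on a finite
  dimensional space are equivalent, `IsNorm.bounds`);
* `isoP N N₀ v` is compact (closed and bounded) and nonempty for `v ≠ 0`;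
* right multiplication by an isometry `g` of `N₀` maps `isoP v` to itself; two elements of `isoP v`
  (`v ≠ 0`) differ by right multiplication by an isometry (`T, T'` are injective with range
  `v^⊥`, which has dimension `m`; `g = T⁻¹ T'`);
* the isometries of `N₀` form a closed orthogonal group (see `isOrthGroupU` in IsoLocal.lean);
* `‖hsL m (A ∘ g)‖ = ‖hsL m A‖` for orthogonal `g` (Parseval:
  `∑ᵢ ‖A (g eᵢ)‖² = ∑ᵢ ∑ₖ ⟨fₖ, A (g eᵢ)⟩² = ∑ₖ ‖A* fₖ‖²` for every orthonormal basis `g eᵢ`). -/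
def WBaseStmt : Prop := ∀ (m : ℕ) (N : X1 m → ℝ) (N₀ : F m → ℝ), DataB m N N₀ →
  (∃ c C : ℝ, 0 < c ∧ 0 < C ∧ ∀ v, ∀ T ∈ isoP N N₀ v, ∀ x, c * ‖x‖ ≤ ‖T x‖ ∧ ‖T x‖ ≤ C * ‖x‖) ∧
  (∀ v, IsCompact (isoP N N₀ v)) ∧ (∀ v, v ≠ 0 → (isoP N N₀ v).Nonempty) ∧
  (∀ v, ∀ T ∈ isoP N N₀ v, ∀ g : F m →L[ℝ] F m, (∀ x, N₀ (g x) = N₀ x) →
    T.comp g ∈ isoP N N₀ v) ∧
  (∀ v, v ≠ 0 → ∀ T ∈ isoP N N₀ v, ∀ T' ∈ isoP N N₀ v, ∃ g : F m →L[ℝ] F m,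
    (∀ x, N₀ (g x) = N₀ x) ∧ T' = T.comp g) ∧
  (∀ v, v ≠ 0 → ∀ T ∈ isoP N N₀ v, ∀ y, inner ℝ v y = 0 → ∃ x, T x = y) ∧
  IsOrthGroup {g : F m →L[ℝ] F m | ∀ x, N₀ (g x) = N₀ x} ∧
  (∀ g : F m →L[ℝ] F m, (∀ x, N₀ (g x) = N₀ x) → ∀ A : F m →L[ℝ] X1 m,
    ‖hsL m (A.comp g)‖ = ‖hsL m A‖)

/-- W1 (file WLip.lean, from `WBaseStmt`). The isometries depend on the hyperplane in a Lipschitz
way.

Proof. Suppose not: there are unit vectors `vᵢ, vᵢ'` and `Tᵢ ∈ isoP vᵢ` with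
`‖Tᵢ - T'‖ > i ‖vᵢ - vᵢ'‖` for all `T' ∈ isoP vᵢ'`. Let `Tᵢ'` be a nearest point to `Tᵢ` in
the compact set `isoP vᵢ'` for the norm `hs A = ‖hsL m A‖`. All `Tᵢ, Tᵢ'` are bounded, so
`‖vᵢ - vᵢ'‖ → 0`; pass to a subsequence: `vᵢ, vᵢ' → v`, `Tᵢ → T`, `Tᵢ' → T'`, both in
`isoP v`. `T' = T g` with an isometry `g` of `N₀`; `Tᵢ' g⁻¹ ∈ isoP vᵢ'` tends to `T`, so
`hs (Tᵢ - Tᵢ') ≤ hs (Tᵢ - Tᵢ' g⁻¹) → 0`. So `bᵢ := hs (Tᵢ' - Tᵢ) → 0`, and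
`‖vᵢ - vᵢ'‖ / bᵢ → 0` (`hs` and `‖·‖` are equivalent), in particular `bᵢ > 0`. Let
`Dᵢ = (Tᵢ' - Tᵢ)/bᵢ`, `hs Dᵢ = 1`; subsequence `Dᵢ → D`, `hs D = 1`.
* `⟨v, D y⟩ = lim ⟨vᵢ', (Tᵢ' - Tᵢ) y⟩ / bᵢ = lim ⟨vᵢ - vᵢ', Tᵢ y⟩ / bᵢ = 0`. As the range of `T` is
  `v^⊥`, `D = T ∘ B` for a linear `B : ℝ^m → ℝ^m`.
* Let `Q x = N x ^ 2` (`C¹`). `Q (Tᵢ y + bᵢ Dᵢ y) = N₀ y ^ 2 = Q (Tᵢ y)`, so by the mean value
  theorem `Q' (Tᵢ y + θᵢ bᵢ Dᵢ y) (Dᵢ y) = 0` for some `θᵢ ∈ (0,1)`; limit: `Q' (T y) (D y) = 0` for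
  all `y`. Hence `s ↦ Q (T (exp (s B) y))` has derivative `Q' (T u) (T (B u)) = Q' (T u) (D u) = 0`
  (`u = exp (s B) y`), so `N₀ (exp (s B) y) = N₀ y` for all `s, y`.
* So `Tᵢ' ∘ exp (s B) ∈ isoP vᵢ'`, and by minimality the function
  `s ↦ hs (Tᵢ - Tᵢ' ∘ exp (s B)) ^ 2` has a minimum at `s = 0`; its derivative there is
  `2 ⟪Tᵢ' - Tᵢ, Tᵢ' B⟫ = 0`. Divide by `bᵢ`, `i → ∞`: `0 = ⟪D, T B⟫ = ⟪D, D⟫ = 1`.
  Contradiction. (`⟪A, B⟫ = inner (hsL m A) (hsL m B)`.) -/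
def LipStmt : Prop := ∀ (m : ℕ) (N : X1 m → ℝ) (N₀ : F m → ℝ), DataB m N N₀ →
  ∃ C : ℝ, 0 < C ∧ ∀ v v' : X1 m, ‖v‖ = 1 → ‖v'‖ = 1 → ∀ T ∈ isoP N N₀ v,
    ∃ T' ∈ isoP N N₀ v', ‖T - T'‖ ≤ C * ‖v - v'‖

/-- W2 (file WProj.lean, from `WBaseStmt`, `LipStmt`, `CartanStmt`). The nearest point projection
(for `hs A = ‖hsL m A‖`) onto `isoP v` is Lipschitz near `isoP v`, jointly in the point and in `v`.

Proof. Write `|A| = hs A`, `⟪A,B⟫` for the inner product, constants: `|T| ≤ M`,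
`c₀ |a| ≤ |T a|`, `|T a| ≤ M |a|` for `T ∈ isoP`, `a ∈ End ℝ^m` (`|a|` any norm), `C₁` from
`LipStmt` (in terms of `|·|`), `δ₁, C₂` from `CartanStmt` for the group `G` of isometries of `N₀`.
Let `ε = |A - A'| + |v - v'|`. If `ε ≥ δ` then `|T - T'| ≤ 2M ≤ (2M/δ) ε`. Let `ε < δ`. Choose
`T'' ∈ isoP v'` with `|T'' - T| ≤ C₁ ε`, `T' = T'' h`, `h ∈ G`, `u := T' - T'' = T'' (h - 1)`.
`|u| ≤ |T' - A'| + |A' - A| + |A - T| + |T - T''| ≤ (3 + C₁) δ`, so `|h - 1| ≤ |u|/c₀` is small if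
`δ` is small. Take `k ∈ G` with `e := k - (1+h)/2`, `|e| ≤ C₂ |h - 1|²`; then
`|k - 1| ≤ |h - 1| ≤ |u|/c₀`.
Competitors: `T k ∈ isoP v` for `A`, and `T'' k ∈ isoP v'` for `A'`:
`|A - T|² ≤ |A - T k|²` gives `2⟪A - T, T(k-1)⟫ ≤ |T(k-1)|²`, and
`T (k-1) = T'' (k-1) + (T - T'') (k-1) = u/2 + r₁`, `|r₁| ≤ C |u|² + C ε |u|`;
`|A' - T'|² ≤ |A' - T'' k|²`, `T'' k - T' = T'' (k - h) = -u/2 + r₂`, `|r₂| ≤ C |u|²`, gives
`2⟪A' - T', -u/2 + r₂⟫ ≤ |-u/2 + r₂|²`. With `|A - T|, |A' - T'| ≤ δ`: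
`⟪A - T, u⟫ ≤ |u|²/4 + (|u| + |r₁| + 2δ)|r₁|`, `-⟪A' - T', u⟫ ≤ |u|²/4 + (|u| + |r₂| + 2δ)|r₂|`.
Sum, with `T' - T = u + (T'' - T)`:
`⟪A - A', u⟫ + |u|² + ⟪T'' - T, u⟫ ≤ |u|²/2 + C' δ (|u|² + ε |u|)`, so for `C' δ ≤ 1/4`:
`|u|²/4 ≤ (1 + C₁ + C' δ) ε |u|`. So `|u| ≤ C'' ε`, `|T - T'| ≤ |u| + C₁ ε`. -/
def ProjStmt : Prop := ∀ (m : ℕ) (N : X1 m → ℝ) (N₀ : F m → ℝ), DataB m N N₀ →
  ∃ δ L : ℝ, 0 < δ ∧ 0 < L ∧ ∀ v v' : X1 m, ‖v‖ = 1 → ‖v'‖ = 1 →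
    ∀ A A' T T' : F m →L[ℝ] X1 m, T ∈ isoP N N₀ v → T' ∈ isoP N N₀ v' →
    (∀ R ∈ isoP N N₀ v, ‖hsL m (A - T)‖ ≤ ‖hsL m (A - R)‖) →
    (∀ R ∈ isoP N N₀ v', ‖hsL m (A' - T')‖ ≤ ‖hsL m (A' - R)‖) →
    ‖hsL m (A - T)‖ ≤ δ → ‖hsL m (A' - T')‖ ≤ δ → ‖T - T'‖ ≤ L * (‖A - A'‖ + ‖v - v'‖)

/-- W3 (file WSect.lean, from `WBaseStmt`, `LipStmt`, `ProjStmt`). Lipschitz sections.

Proof. Let `P r z = (r / max r ‖z‖) • z` (radial projection onto the ball of radius `r ≥ 0`,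
Lipschitz; `P 0 z = 0`; `‖P (r + τ) z - P r z‖ ≤ τ`). Let `τ > 0` be small and prove by induction
on `k`: there is a Lipschitz `Sₖ : F m → _` with `Sₖ z ∈ isoP (v (P (k τ) z))` for all `z`.
`k = 0`: a constant. Step: `S_{k+1} z` := a nearest point (for `‖hsL m ·‖`) to `Sₖ z` in the
compact nonempty set `isoP (v (P ((k+1) τ) z))`. By `LipStmt` its distance to `Sₖ z` is at most
`C K τ ≤ δ`, so by `ProjStmt`
`‖S_{k+1} z - S_{k+1} z'‖ ≤ L (‖Sₖ z - Sₖ z'‖ + ‖v (P _ z) - v (P _ z')‖)`: Lipschitz. When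
`k τ ≥ 2`, `v (P (k τ) z) = v z` for all `z` (both are `e0` if `‖z‖ ≥ k τ`). -/
def LSectStmt : Prop := ∀ (m : ℕ) (N : X1 m → ℝ) (N₀ : F m → ℝ), DataB m N N₀ →
  ∀ (v : F m → X1 m) (K : NNReal), LipschitzWith K v → (∀ z, ‖v z‖ = 1) →
  (∀ z, 2 ≤ ‖z‖ → v z = e0 m) → ∃ (S : F m → (F m →L[ℝ] X1 m)) (K' : NNReal),
    LipschitzWith K' S ∧ ∀ z, S z ∈ isoP N N₀ (v z)

/-- W4 (file WMoll.lean). Smoothing of Lipschitz maps: convolution with a smooth bump function of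
integral one supported in the ball of radius `δ` (`ContDiffBump.normed`, `convolution`). The
convolution `S' z = ∫ ρ t • S (z - t) dt` is smooth, `‖S' z - S z‖ ≤ K δ`, it is `K`-Lipschitz,
so `‖fderiv ℝ S' z‖ ≤ K`; and if `⟨e0, S z x⟩ = 0` for `‖z‖ ≥ 2` then `⟨e0, S' z x⟩ = 0` for
`‖z‖ ≥ 2 + δ`. -/
def MollStmt : Prop := ∀ (m : ℕ) (S : F m → (F m →L[ℝ] X1 m)) (K : NNReal), LipschitzWith K S →
  (∀ z, 2 ≤ ‖z‖ → ∀ x, S z x none = 0) → ∀ δ : ℝ, 0 < δ → δ ≤ 1 →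
  ∃ S' : F m → (F m →L[ℝ] X1 m), ContDiff ℝ 2 S' ∧ (∀ z, ‖S' z - S z‖ ≤ K * δ) ∧
    (∀ z, ‖fderiv ℝ S' z‖ ≤ K) ∧ ∀ z, 3 ≤ ‖z‖ → ∀ x, S' z x none = 0

/-! ## Part 2: the map `nu` -/

/-- A smooth nonincreasing function, `1` for `t ≤ 1` and `0` for `t ≥ 2`. -/
def bcut (t : ℝ) : ℝ := 1 - Real.smoothTransition (t - 1)

/-- `nu z = (‖z‖² - 1, b(‖z‖²) z)`. -/
def nu {m : ℕ} (z : F m) : X1 m :=
  WithLp.toLp 2 fun o => o.elim (‖z‖ ^ 2 - 1) fun i => bcut (‖z‖ ^ 2) * z i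

/-- W5 (file WNu.lean). Facts on `nu`.

The normalized map `v = ‖nu‖⁻¹ • nu` is smooth and constant `= e0` for `‖z‖ ≥ 2` (even for
`‖z‖² ≥ 2`), so its derivative is continuous with compact support, hence bounded, so `v` is
Lipschitz. `nu z ≠ 0`: if all coordinates `some i` vanish then `z = 0` (then `nu z none = -1`) or
`bcut (‖z‖²) = 0`, then `‖z‖² > 1`.

Sign of `jac nu`: with `t = ‖z‖²`, `α = t - 1`, `β = bcut t ≥ 0`, `β' = deriv bcut t ≤ 0`, the matrix is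
`M none none = α`, `M (some i) none = β zᵢ`, `M none (some j) = 2 zⱼ`,
`M (some i) (some j) = β δᵢⱼ + 2 β' zᵢ zⱼ`. Subtract `∑ⱼ zⱼ •` column `some j` from the column
`none`, then `β' zᵢ •` row `none` from the rows `some i`: the matrix becomes
`[[α - 2t, 2 zᵀ], [-β' α z, β I]]`, whose determinant is
`β^(m-1) ((α - 2t) β + 2 t α β') = β^(m-1) (-(t+1) β + 2 t (t-1) β')` (if `m = 0`: `α = -1`). It is
`≤ 0`: for `t ≤ 1`, `β' = 0`; for `t ≥ 1`, `(t-1) β' ≤ 0`. At `z = 0` it is `-1`.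
(For the determinant of `[[a, uᵀ], [w, β I]]` = `β^(m-1) (a β - uᵀ w)`, or any other way to see
the sign.) -/
def NuStmt : Prop := ∀ m : ℕ, ContDiff ℝ 2 (nu (m := m)) ∧ (∀ z : F m, nu z ≠ 0) ∧
  (∃ K : NNReal, LipschitzWith K fun z : F m => ‖nu z‖⁻¹ • nu z) ∧
  (∀ z : F m, 2 ≤ ‖z‖ → ‖nu z‖⁻¹ • nu z = e0 m) ∧ (∀ z : F m, jac nu z ≤ 0) ∧
  jac (nu (m := m)) 0 < 0

/-! ## Part 3: homotopy invariance -/

/-- W6 (file WStokesId.lean). The pointwise identity behind Stokes' theorem.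

Let `C s z = (1-s) a z + s b z`, `W = b z - a z = ∂ₛ C`, `∂ᵢ C = pd (C s) z i`, `C = C s z ≠ 0`;
`ω = dt` is multilinear and alternating. Write `ω(x; w)` for `dt (o.elim x w)`.
`∂ₛ [φ(C) ω(C; ∂C)] = φ'(C)(W) ω(C; ∂C) + φ(C) [ω(W; ∂C) + ∑ᵢ ω(C; ∂C with i-th entry ∂ᵢ W)]`.
`∑ᵢ ∂ᵢ [φ(C) ω(C; ∂C with i-th entry W)] = ∑ᵢ φ'(C)(∂ᵢC) ω(C; .. W at i ..)
  + φ(C) ∑ᵢ [ω(∂ᵢC; .. W at i ..) + ω(C; .. ∂ᵢW at i ..) + ∑_{j ≠ i} ω(C; .. W at i, ∂ᵢ∂ⱼC at j ..)]`.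
The double sum over `i ≠ j` is `0` (symmetry of second derivatives, antisymmetry of `ω` under the
exchange of the entries `i` and `j`). `ω(∂ᵢC; .. W at i ..) = -ω(W; ∂C)` (exchange the entries
`none` and `some i`). Cramer's identity, for a linear form `ψ`, vectors `w` indexed by
`Option (Fin m)` and a vector `x` in `X1 m` (dimension `m + 1`):
`ψ x * dt w = ∑ₒ ψ (w o) * dt (w with o-th entry x)` (both sides are alternating multilinear in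
`w`, or: true if `w` is a basis, and both sides vanish ... by density; or `Matrix.cramer`,
`Matrix.mulVec_cramer`). With `w = (C; ∂C)`, `x = W`, `ψ = φ'(C)`, `ψ(C) = -(m+1) φ(C)`:
`∑ᵢ ψ(∂ᵢC) ω(C; .. W at i ..) = ψ(W) ω(C; ∂C) + (m+1) φ(C) ω(W; ∂C)`. So the second sum equals
`ψ(W) ω(C;∂C) + (m+1) φ ω(W;∂C) - m φ ω(W;∂C) + φ ∑ᵢ ω(C; .. ∂ᵢW at i ..)`, which is the first
expression. (Derivatives of multilinear expressions: `HasFDerivAt.multilinear_comp`, or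
`Matrix.det_apply` and products.) -/
def StokesIdStmt : Prop := ∀ (m : ℕ) (φ : X1 m → ℝ) (a b : F m → X1 m),
  ContDiffOn ℝ 1 φ {0}ᶜ → (∀ x, x ≠ 0 → fderiv ℝ φ x x = -((m : ℝ) + 1) * φ x) →
  ContDiff ℝ 2 a → ContDiff ℝ 2 b → ∀ (s : ℝ) (z : F m), (1 - s) • a z + s • b z ≠ 0 →
  HasDerivAt (fun s : ℝ => φ ((1 - s) • a z + s • b z) * jac (fun z => (1 - s) • a z + s • b z) z)
    (∑ i, pd (fun z => φ ((1 - s) • a z + s • b z) * dt fun o => o.elim ((1 - s) • a z + s • b z)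
      (Function.update (pd (fun z => (1 - s) • a z + s • b z) z) i (b z - a z))) z i) s

/-- W7 (file WStokes.lean, from `StokesIdStmt`). Homotopy invariance.

With `C s z = (1-s) a z + s b z`, `A s z = φ (C s z) * jac (C s) z` and
`Bᵢ s z = φ(C s z) * ω(C; .. b z - a z at i ..)`: for `s ∈ [0,1]`, `∂ₛ A = ∑ᵢ ∂ᵢ Bᵢ` by
`StokesIdStmt`; `A s` and `Bᵢ s` vanish for `‖z‖ ≥ R`; `Bᵢ s` is `C¹` (with compact support), so
`∫ ∂ᵢ Bᵢ s z dz = 0`; all functions are jointly continuous on `[0,1] × F m`. So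
`∫ A 1 - ∫ A 0 = ∫∫₀¹ ∂ₛ A ds dz = ∫₀¹ ∫ ∑ᵢ ∂ᵢ Bᵢ dz ds = 0` (Fubini on `[0,1] × closedBall 0 R`), or
differentiate under the integral sign. -/
def StokesStmt : Prop := ∀ (m : ℕ) (φ : X1 m → ℝ) (a b : F m → X1 m) (R : ℝ),
  ContDiffOn ℝ 1 φ {0}ᶜ → (∀ x, x ≠ 0 → fderiv ℝ φ x x = -((m : ℝ) + 1) * φ x) →
  ContDiff ℝ 2 a → ContDiff ℝ 2 b → (∀ s ∈ Icc (0 : ℝ) 1, ∀ z, (1 - s) • a z + s • b z ≠ 0) →
  (∀ s ∈ Icc (0 : ℝ) 1, ∀ z, R ≤ ‖z‖ → φ ((1 - s) • a z + s • b z) = 0) →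
  ∫ z, φ (a z) * jac a z = ∫ z, φ (b z) * jac b z

/-- The functions `φ₋` and `φ₊`. -/
def phiM {m : ℕ} (N : X1 m → ℝ) (j : ℕ) (x : X1 m) : ℝ :=
  max (-x none) 0 ^ j / (N x ^ 2) ^ ((m + 1 + j) / 2)

def phiP {m : ℕ} (N : X1 m → ℝ) (j : ℕ) (x : X1 m) : ℝ :=
  max (x none) 0 ^ j / (N x ^ 2) ^ ((m + 1 + j) / 2)

/-- W8 (file WPhi.lean). `φ₋` and `φ₊` are `C¹` off `0` (`t ↦ max t 0 ^ j` is `C¹` for `j ≥ 2`;
`N²` is `C¹` and positive off `0`) and positively homogeneous of degree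
`j - 2 ((m+1+j)/2) = -(m+1)` (`m + 1 + j` is even), whence Euler's identity. -/
def PhiStmt : Prop := ∀ (m : ℕ) (N : X1 m → ℝ), IsNorm N → (ContDiff ℝ 1 fun x => N x ^ 2) →
  Even (m + 1) → ∀ j : ℕ, 2 ≤ j → Even j →
  ContDiffOn ℝ 1 (phiM N j) {0}ᶜ ∧ ContDiffOn ℝ 1 (phiP N j) {0}ᶜ ∧
  (∀ x, x ≠ 0 → fderiv ℝ (phiM N j) x x = -((m : ℝ) + 1) * phiM N j x) ∧
  (∀ x, x ≠ 0 → fderiv ℝ (phiP N j) x x = -((m : ℝ) + 1) * phiP N j x)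

/-- W9 (file WKappa.lean, from `NuStmt`). The integrand is continuous, `≤ 0`, zero for `‖z‖ ≥ 1`
(there `nu z none ≥ 0`), and negative at `z = 0` (`nu 0 = -e0`, `jac nu 0 < 0`). -/
def KappaStmt : Prop := ∀ (m : ℕ) (N : X1 m → ℝ), IsNorm N → (ContDiff ℝ 1 fun x => N x ^ 2) →
  ∀ j : ℕ, 2 ≤ j → ∫ z : F m, phiM N j (nu z) * jac nu z < 0

/-- W10 (file WEq.lean, from `NuStmt`, `StokesStmt`, `PhiStmt`).

`StokesStmt` with `φ₋`, `b = nu`, `R = 3`: for `‖z‖ ≥ 3` the coordinate `none` of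
`(1-s) a z + s nu z` is `s (‖z‖² - 1) ≥ 0`, so `φ₋ = 0`. Hence
`∫ φ₋(a) jac a = ∫ φ₋(nu) jac nu =: κ`. `StokesStmt` with `φ₊`, `b = -nu`:
`∫ φ₊(a) jac a = ∫ φ₊(-nu) jac (-nu) = (-1)^(m+1) ∫ φ₋(nu) jac nu = κ` (`N` is even,
`jac (-nu) = (-1)^(m+1) jac nu`, `m + 1` even). Add (both integrands are continuous with
compact support): `φ₋ + φ₊ = (x none)^j / (N x ^ 2) ^ _` since `j` is even. -/
def EqStmt : Prop := ∀ (m : ℕ) (N : X1 m → ℝ), IsNorm N → (ContDiff ℝ 1 fun x => N x ^ 2) →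
  Even (m + 1) → ∀ j : ℕ, 2 ≤ j → Even j → ∀ a : F m → X1 m, ContDiff ℝ 2 a →
  (∀ s ∈ Icc (0 : ℝ) 1, ∀ z, (1 - s) • a z + s • nu z ≠ 0) →
  (∀ s ∈ Icc (0 : ℝ) 1, ∀ z, (1 - s) • a z - s • nu z ≠ 0) →
  (∀ z, 3 ≤ ‖z‖ → a z none = 0) →
  ∫ z, a z none ^ j / (N (a z) ^ 2) ^ ((m + 1 + j) / 2) * jac a z =
    2 * ∫ z : F m, phiM N j (nu z) * jac nu z

/-! ## Part 4: polynomials -/

/-- `g` is (given by) a real polynomial of degree at most `D`. -/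
def PolyD (D : ℕ) (g : ℝ → ℝ) : Prop := ∃ P : Polynomial ℝ, P.natDegree ≤ D ∧ ∀ t, g t = P.eval t

/-- W11 (file WPolyD.lean). Closure under pointwise limits, integrals, products. By Lagrange
interpolation at `0, …, D`: `g` is `PolyD D` iff `g t = ∑ᵢ g i * ℓᵢ(t)` with fixed polynomials
`ℓᵢ` (`Lagrange.basis`), a relation that is preserved by limits and integrals. -/
def PolyDStmt : Prop :=
  (∀ (D : ℕ) (g : ℕ → ℝ → ℝ) (g' : ℝ → ℝ), (∀ k, PolyD D (g k)) →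
    (∀ t, Tendsto (fun k => g k t) atTop (𝓝 (g' t))) → PolyD D g') ∧
  (∀ (D m : ℕ) (q : F m → ℝ → ℝ), (∀ z, PolyD D (q z)) →
    (∀ t, Integrable fun z => q z t) → PolyD D fun t => ∫ z, q z t) ∧
  (∀ (D D' : ℕ) (g g' : ℝ → ℝ), PolyD D g → PolyD D' g' → PolyD (D + D') fun t => g t * g' t) ∧
  (∀ (m : ℕ) (u w : Option (Fin m) → X1 m), PolyD (m + 1) fun t => dt fun o => u o + t • w o)

/-- The polynomial `L(y)`. -/
def polL {m : ℕ} (S : F m → (F m →L[ℝ] X1 m)) (j : ℕ) (y : F m) : ℝ :=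
  ∫ z, (S z y none) ^ j * jac (fun z => S z y) z

/-- W12 (file WPolInt.lean, from `PolyDStmt`). For each `z` the integrand is a polynomial in `t` of
degree `≤ m + 1 + j`: `S z (y + t w) = S z y + t S z w` and
`pd (fun z => S z y) z i = (fderiv ℝ S z eᵢ) y`; it is continuous in `z` with support in
`closedBall 0 3` (`1 ≤ j`). -/
def PolIntStmt : Prop := ∀ (m j : ℕ) (S : F m → (F m →L[ℝ] X1 m)), 1 ≤ j → ContDiff ℝ 2 S →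
  (∀ z, 3 ≤ ‖z‖ → ∀ y, S z y none = 0) → ∀ y w : F m,
  PolyD (m + 1 + j) fun t => polL S j (y + t • w)

/-- W13 (file WLim.lean, from `EqStmt`, `KappaStmt`, `NuStmt`). The limit.

`κ = 2 ∫ φ₋(nu) jac nu`. Let `y ≠ 0` (for `y = 0` both sides are `0`, `j ≥ 1`), `p = (m+1+j)/2`,
`a = fun z => Sk k z y`. There are `c, C > 0` with `c ‖x‖ ≤ N x ≤ C ‖x‖` (`IsNorm.bounds`), so
`‖S z y‖ ≥ N₀ y / C =: c₁ > 0` and `|N (a z) - N₀ y| = |N (a z) - N (S z y)| ≤ N (a z - S z y)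
≤ C δₖ ‖y‖`. For large `k`: `(1-s) a z ± s nu z ≠ 0`. Indeed if it is `0` then `s < 1` (as
`nu z ≠ 0`), and `(1-s) ‖a z‖ ‖nu z‖ = (1-s) |⟨nu z, a z⟩| = (1-s) |⟨nu z, a z - S z y⟩|
≤ (1-s) ‖nu z‖ δₖ ‖y‖`, so `‖a z‖ ≤ δₖ ‖y‖`, impossible when `2 δₖ ‖y‖ < c₁`. By `EqStmt`
`∫ (a z none)^j / (N (a z)^2)^p * jac a z = κ`. So
`polL (Sk k) j y - κ N₀ y ^ (2p) = ∫ (a z none)^j * jac a z * (1 - (N₀ y ^ 2)^p / (N (a z)^2)^p) dz`,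
the integrand vanishes for `‖z‖ ≥ 3`, `|a z none| ≤ C'`, `|jac a z| ≤ C'` (entries bounded by
`‖a z‖` and `K ‖y‖`), and the last factor tends to `0` uniformly. -/
def LimStmt : Prop := ∀ (m : ℕ) (N : X1 m → ℝ) (N₀ : F m → ℝ), DataB m N N₀ → Even (m + 1) →
  ∀ j : ℕ, 2 ≤ j → Even j → ∃ κ : ℝ, κ ≠ 0 ∧
  ∀ (S : F m → (F m →L[ℝ] X1 m)) (K : ℝ) (Sk : ℕ → F m → (F m →L[ℝ] X1 m)) (δ : ℕ → ℝ),
  (∀ z, S z ∈ isoP N N₀ (nu z)) → (∀ k, ContDiff ℝ 2 (Sk k)) →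
  (∀ k z, ‖Sk k z - S z‖ ≤ δ k) → (∀ k z, ‖fderiv ℝ (Sk k) z‖ ≤ K) →
  (∀ k z, 3 ≤ ‖z‖ → ∀ x, Sk k z x none = 0) → Tendsto δ atTop (𝓝 0) →
  ∀ y, Tendsto (fun k => polL (Sk k) j y) atTop (𝓝 (κ * N₀ y ^ (m + 1 + j)))

/-- W14 (file WAlg.lean). If `N₀^(2a)` and `N₀^(2a+2)` are polynomials on all lines then the
parallelogram law holds.

Fix `x, y`. `f t = N₀ (x + t y)^2`, `f^a = P`, `f^(a+1) = Q` (polynomials). `P^(a+1) = Q^a` as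
polynomials, so `P^a ∣ Q^a`, so `P ∣ Q` (`pow_dvd_pow_iff` in a UFD / normalized gcd monoid),
`Q = P R`. If `x, y` are linearly independent (or `f t ≠ 0`), `f t = R(t)` for all `t` with
`P(t) ≠ 0`, i.e. `f t ≠ 0`; in general (`P ≠ 0`) for all but finitely many `t`, and by continuity
for all `t` (`P = 0` only if `f = 0`, trivial). `f t ≤ (N₀ x + |t| N₀ y)^2`, so `R` has degree
`≤ 2`: `R = A + B t + D t²`. `A = f 0 = N₀ x ^2`, `D = lim f(t)/t² = N₀ y ^2`. So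
`f 1 + f (-1) = 2 A + 2 D`. -/
def AlgStmt : Prop := ∀ (m a D : ℕ) (N₀ : F m → ℝ), IsNorm N₀ → 1 ≤ a →
  (∀ y w, PolyD D fun t => N₀ (y + t • w) ^ (2 * a)) →
  (∀ y w, PolyD D fun t => N₀ (y + t • w) ^ (2 * a + 2)) →
  ∀ x y, N₀ (x + y) ^ 2 + N₀ (x - y) ^ 2 = 2 * (N₀ x ^ 2 + N₀ y ^ 2)

/-! ## Part 5: coordinates -/

/-- W15 (file WCoord.lean, from `InvStmt`, `UniformStmt`, `GradStmt`).

Let `Φ : X1 (n-1) ≃ E` be a linear isomorphism (equal dimensions), `N x = ‖Φ x‖`. Let `V` be a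
hyperplane of `E` and `φ : V ≃L[ℝ] F (n-1)` as in `InvStmt` (see the proof of `univStmt` in
Univ.lean), `N₀ w = ‖φ.symm w‖`. `N²` is `C¹`: `UniformStmt` and `GradStmt` give
`HasFDerivAt (‖·‖²) (2 • J x) x` with `J` Lipschitz. `orth`: as in Univ.lean. `iso`: the image
under `Φ` of `v^⊥` has dimension `n - 1`; compose `φ.symm`, the isometry onto it, `Φ⁻¹`. Last
claim: if `N₀` satisfies the parallelogram law, so does `V`, so does every hyperplane, and any two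
vectors of `E` lie in a hyperplane (`n ≥ 3`; see `exists_hyperplane` in Compl.lean). -/
def CoordBStmt : Prop := ∀ n : ℕ, 3 ≤ n → ∀ (E : Type) [NormedAddCommGroup E]
  [NormedSpace ℝ E], finrank ℝ E = n → IsoHyp n E →
  ∃ (N : X1 (n - 1) → ℝ) (N₀ : F (n - 1) → ℝ), DataB (n - 1) N N₀ ∧
    ((∀ x y, N₀ (x + y) ^ 2 + N₀ (x - y) ^ 2 = 2 * (N₀ x ^ 2 + N₀ y ^ 2)) → Para E)

end Pool.Agent.Lib.MP_5c4da9_an
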