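import Pool.Agent.Lib.MP_5c4da9_an.WDefs

set_option autoImplicit false

open Set Filter Topology Module MeasureTheory

noncomputable section

namespace Pool.Agent.Lib.MP_5c4da9_an

theorem WEq_dt_neg {m : ℕ} (v : Option (Fin m) → X1 m) :
    dt (fun o => -(v o)) = (-1) ^ (m + 1) * dt v := by
  have h : (Matrix.of fun i j => (-(v j)) i : Matrix (Option (Fin m)) (Option (Fin m)) ℝ) =
      -(Matrix.of fun i j => v j i) := by
    ext i j
    simp
  unfold dt
  rw [h, Matrix.det_neg]
  simp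

theorem WEq_jac_neg {m : ℕ} (C : F m → X1 m) (z : F m) :
    jac (fun z => -C z) z = (-1) ^ (m + 1) * jac C z := by
  unfold jac
  rw [← WEq_dt_neg]
  congr 1
  ext1 o
  cases o with
  | none => rfl
  | some i =>
    show pd (fun z => -C z) z i = -(pd C z i)
    unfold pd
    rw [fderiv_fun_neg]
    rfl

theorem WEq_phiP_neg {m : ℕ} {N : X1 m → ℝ} (hN : IsNorm N) (j : ℕ) (x : X1 m) :
    phiP N j (-x) = phiM N j x := by
  unfold phiP phiM
  have h : N (-x) = N x := by
    have := hN.smul (-1) x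
    simpa using this
  rw [h]
  simp

theorem WEq_sum {m : ℕ} (N : X1 m → ℝ) {j : ℕ} (hj : 2 ≤ j) (hje : Even j) (x : X1 m) :
    x none ^ j / (N x ^ 2) ^ ((m + 1 + j) / 2) = phiM N j x + phiP N j x := by
  unfold phiP phiM
  rw [← add_div]
  congr 1
  have hj0 : j ≠ 0 := by omega
  rcases le_total (x none) 0 with h | h
  · rw [max_eq_left (by linarith : (0 : ℝ) ≤ -x none), max_eq_right h, zero_pow hj0, add_zero,
      hje.neg_pow]
  · rw [max_eq_left h, max_eq_right (by linarith : -x none ≤ 0), zero_pow hj0, zero_add]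

theorem WEq_jac_cont {m : ℕ} {a : F m → X1 m} (ha : ContDiff ℝ 2 a) :
    Continuous fun z => jac a z := by
  unfold jac dt
  refine Continuous.matrix_det ?_
  refine continuous_matrix fun i o => ?_
  cases o with
  | none =>
    show Continuous fun z => a z i
    exact (EuclideanSpace.proj (𝕜 := ℝ) i).continuous.comp ha.continuous
  | some k =>
    show Continuous fun z => (fderiv ℝ a z (EuclideanSpace.single k 1)) i
    refine (EuclideanSpace.proj (𝕜 := ℝ) i).continuous.comp ?_
    exact (ha.continuous_fderiv (by norm_num)).clm_apply continuous_const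

theorem WEq_integrable {m : ℕ} {φ : X1 m → ℝ} {a : F m → X1 m} (hφ : ContDiffOn ℝ 1 φ {0}ᶜ)
    (ha : ContDiff ℝ 2 a) (hne : ∀ z, a z ≠ 0) (h0 : ∀ z, 3 ≤ ‖z‖ → φ (a z) = 0) :
    Integrable fun z => φ (a z) * jac a z := by
  have hc : Continuous fun z => φ (a z) * jac a z :=
    (hφ.continuousOn.comp_continuous ha.continuous fun z => hne z).mul (WEq_jac_cont ha)
  refine hc.integrable_of_hasCompactSupport ?_
  refine HasCompactSupport.intro (isCompact_closedBall (0 : F m) 3) fun z hz => ?_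
  rw [mem_closedBall_zero_iff, not_le] at hz
  rw [h0 z hz.le, zero_mul]

/-- W10. -/
theorem eqStmt (h1 : NuStmt) (h2 : StokesStmt) (h3 : PhiStmt) : EqStmt := by
  intro m N hN hN1 hm j hj hje a ha hne1 hne2 ha0
  obtain ⟨hP1, hP2, hE1, hE2⟩ := h3 m N hN hN1 hm j hj hje
  obtain ⟨hnu, -, -, -, -, -⟩ := h1 m
  have hj0 : j ≠ 0 := by omega
  have hsq : ∀ z : F m, 3 ≤ ‖z‖ → 0 ≤ ‖z‖ ^ 2 - 1 := by
    intro z hz
    nlinarith
  have hnn : ∀ z : F m, (nu z) none = ‖z‖ ^ 2 - 1 := fun z => rfl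
  have hnea : ∀ z, a z ≠ 0 := by
    intro z
    have := hne1 0 ⟨le_rfl, zero_le_one⟩ z
    simpa using this
  have A1 := h2 m (phiM N j) a nu 3 hP1 hE1 ha hnu hne1 (by
    intro s hs z hz
    have e : ((1 - s) • a z + s • nu z) none = s * (‖z‖ ^ 2 - 1) := by
      rw [PiLp.add_apply, PiLp.smul_apply, PiLp.smul_apply, ha0 z hz, hnn]
      simp
    unfold phiM
    rw [e, max_eq_right (by nlinarith [hs.1, hsq z hz, mul_nonneg hs.1 (hsq z hz)]),
      zero_pow hj0, zero_div])
  have A2 := h2 m (phiP N j) a (fun z => -nu z) 3 hP2 hE2 ha hnu.neg (by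
    intro s hs z
    have := hne2 s hs z
    rwa [smul_neg, ← sub_eq_add_neg]) (by
    intro s hs z hz
    have e : ((1 - s) • a z + s • -nu z) none = -(s * (‖z‖ ^ 2 - 1)) := by
      rw [PiLp.add_apply, PiLp.smul_apply, PiLp.smul_apply, PiLp.neg_apply, ha0 z hz, hnn]
      simp only [smul_eq_mul]
      ring
    unfold phiP
    rw [e, max_eq_right (by nlinarith [hs.1, hsq z hz, mul_nonneg hs.1 (hsq z hz)]),
      zero_pow hj0, zero_div])
  have A3 : ∀ z : F m, phiP N j (-nu z) * jac (fun z => -nu z) z = phiM N j (nu z) * jac nu z := by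
    intro z
    rw [WEq_phiP_neg hN, WEq_jac_neg, hm.neg_one_pow, one_mul]
  simp only [A3] at A2
  have I1 := WEq_integrable hP1 ha hnea (fun z hz => by
    unfold phiM
    rw [ha0 z hz]
    simp [hj0])
  have I2 := WEq_integrable hP2 ha hnea (fun z hz => by
    unfold phiP
    rw [ha0 z hz]
    simp [hj0])
  calc ∫ z, a z none ^ j / (N (a z) ^ 2) ^ ((m + 1 + j) / 2) * jac a z
      = ∫ z, (phiM N j (a z) * jac a z + phiP N j (a z) * jac a z) := by
        congr 1
        ext z
        rw [WEq_sum N hj hje, add_mul]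
    _ = (∫ z, phiM N j (a z) * jac a z) + ∫ z, phiP N j (a z) * jac a z :=
        integral_add I1 I2
    _ = 2 * ∫ z : F m, phiM N j (nu z) * jac nu z := by
        rw [A1, A2]
        ring

end Pool.Agent.Lib.MP_5c4da9_an
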