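import Pool.Agent.Lib.MP_5c4da9_an.WDefs
import Pool.Agent.Lib.MP_5c4da9_an.Base

/-!
# W9: the constant is negative
-/

set_option autoImplicit false

open Set Filter Topology Module MeasureTheory

noncomputable section

namespace Pool.Agent.Lib.MP_5c4da9_an

namespace WKappa

theorem cont_dt {m : ℕ} {Z : Type} [TopologicalSpace Z] {v : Z → Option (Fin m) → X1 m}
    (hv : ∀ o, Continuous fun z => v z o) : Continuous fun z => dt (v z) := by
  unfold dt
  apply Continuous.matrix_det
  apply continuous_matrix
  intro i j
  exact (EuclideanSpace.proj (𝕜 := ℝ) i).continuous.comp (hv j)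

theorem cont_jac {m : ℕ} {C : F m → X1 m} (hC : ContDiff ℝ 2 C) : Continuous (jac C) := by
  unfold jac
  apply cont_dt
  intro o
  cases o with
  | none => exact hC.continuous
  | some i =>
    exact (hC.continuous_fderiv (by norm_num)).clm_apply continuous_const

theorem nu_none {m : ℕ} (z : F m) : nu z none = ‖z‖ ^ 2 - 1 := rfl

end WKappa

open WKappa in
theorem kappaStmt (h : NuStmt) : KappaStmt := by
  intro m N hN _ j hj
  obtain ⟨h1, h2, -, -, h5, h6⟩ := h m
  have hpos : ∀ z : F m, 0 < N (nu z) := fun z => hN.pos _ (h2 z)
  have hphi : Continuous fun z : F m => phiM N j (nu z) := by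
    unfold phiM
    apply Continuous.div
    · apply Continuous.pow
      apply Continuous.max _ continuous_const
      exact ((EuclideanSpace.proj (𝕜 := ℝ) (none : Option (Fin m))).continuous.comp
        h1.continuous).neg
    · exact (((hN.continuous).comp h1.continuous).pow 2).pow _
    · intro z
      have := hpos z
      positivity
  have hnn : ∀ z : F m, 0 ≤ phiM N j (nu z) := by
    intro z
    unfold phiM
    have : 0 ≤ max (-nu z none) 0 := le_max_right _ _
    positivity
  have hzero : ∀ z : F m, 1 ≤ ‖z‖ → phiM N j (nu z) = 0 := by
    intro z hz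
    unfold phiM
    rw [nu_none]
    have e : max (-(‖z‖ ^ 2 - 1)) 0 = 0 := by
      apply max_eq_right
      nlinarith
    rw [e, zero_pow (by omega), zero_div]
  have hcont : Continuous fun z : F m => phiM N j (nu z) * - jac nu z :=
    hphi.mul (cont_jac h1).neg
  have key : 0 < ∫ z : F m, phiM N j (nu z) * - jac nu z := by
    apply Continuous.integral_pos_of_hasCompactSupport_nonneg_nonzero (x := 0) hcont
    · apply HasCompactSupport.of_support_subset_isCompact (isCompact_closedBall (0 : F m) 1)
      intro z hz
      by_contra hcon
      rw [mem_closedBall_zero_iff, not_le] at hcon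
      apply hz
      simp only [hzero z hcon.le, zero_mul]
    · intro z
      exact mul_nonneg (hnn z) (neg_nonneg.2 (h5 z))
    · apply mul_ne_zero
      · unfold phiM
        have e : max (-nu (0 : F m) none) 0 = 1 := by
          rw [nu_none]
          simp
        rw [e]
        have := hpos 0
        positivity
      · exact neg_ne_zero.2 h6.ne
  have e : ∫ z : F m, phiM N j (nu z) * - jac nu z = - ∫ z : F m, phiM N j (nu z) * jac nu z := by
    rw [← integral_neg]
    congr 1
    funext z
    ring
  rw [e] at key
  linarith

end Pool.Agent.Lib.MP_5c4da9_an
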