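import Pool.Agent.Lib.MP_5c4da9_an.WDefs
import Pool.Agent.Lib.MP_5c4da9_an.Base

/-!
# W13: the limit of the polynomials `polL (Sk k) j y`
-/

set_option autoImplicit false

open Set Filter Topology Module MeasureTheory

noncomputable section

namespace Pool.Agent.Lib.MP_5c4da9_an

theorem WLim_ne {m : ℕ} {a u v : X1 m} {d : ℝ} (hv : v ≠ 0) (hu : inner ℝ v u = 0)
    (hd : ‖a - u‖ ≤ d) (hda : d < ‖a‖) (s t : ℝ) (hst : s ≠ 0 ∨ t ≠ 0) : s • a + t • v ≠ 0 := by
  intro h0
  by_cases hs : s = 0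
  · subst hs
    have ht : t ≠ 0 := by simpa using hst
    rw [zero_smul, zero_add] at h0
    rcases smul_eq_zero.1 h0 with h | h
    · exact ht h
    · exact hv h
  · have ha : a = (-(s⁻¹ * t)) • v := by
      have h1 : s • a = -(t • v) := eq_neg_of_add_eq_zero_left h0
      calc a = s⁻¹ • (s • a) := by rw [smul_smul, inv_mul_cancel₀ hs, one_smul]
        _ = _ := by rw [h1, smul_neg, smul_smul, neg_smul]
    have h2 : inner ℝ a u = 0 := by
      rw [ha, inner_smul_left, hu, mul_zero]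
    have h3 : ‖a‖ ^ 2 ≤ ‖a‖ * d := by
      calc ‖a‖ ^ 2 = inner ℝ a a := (real_inner_self_eq_norm_sq a).symm
        _ = inner ℝ a (a - u) := by rw [inner_sub_right, h2, sub_zero]
        _ ≤ ‖a‖ * ‖a - u‖ := real_inner_le_norm _ _
        _ ≤ ‖a‖ * d := by gcongr
    have h4 : 0 < ‖a‖ := (norm_nonneg _).trans_lt (hd.trans_lt hda)
    nlinarith

theorem WLim_cont_jac {m : ℕ} {C : F m → X1 m} (hC : ContDiff ℝ 2 C) : Continuous (jac C) := by
  have hf : Continuous (fderiv ℝ C) := hC.continuous_fderiv (by norm_num)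
  unfold jac dt
  apply Continuous.matrix_det
  apply continuous_matrix
  intro i j
  cases j with
  | none =>
    show Continuous fun z => (C z) i
    exact (PiLp.continuous_apply 2 _ i).comp hC.continuous
  | some k =>
    show Continuous fun z => (fderiv ℝ C z (EuclideanSpace.single k 1)) i
    exact (PiLp.continuous_apply 2 _ i).comp (hf.clm_apply continuous_const)

theorem WLim_coord {m : ℕ} (x : X1 m) (o : Option (Fin m)) : |x o| ≤ ‖x‖ := by
  have := PiLp.norm_apply_le (p := 2) x o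
  simpa using this

theorem WLim_jac_le {m : ℕ} {C : F m → X1 m} {z : F m} {B : ℝ} (h0 : ‖C z‖ ≤ B)
    (h1 : ∀ i, ‖pd C z i‖ ≤ B) : |jac C z| ≤ (m + 1).factorial * B ^ (m + 1) := by
  have key := Matrix.det_le (A := Matrix.of fun i j =>
    (fun o : Option (Fin m) => o.elim (C z) (pd C z)) j i) (abv := (AbsoluteValue.abs : AbsoluteValue ℝ ℝ))
    (x := B) (by
      intro i j
      cases j with
      | none =>
        show |(C z) i| ≤ B
        exact (WLim_coord _ _).trans h0
      | some k =>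
        show |(pd C z k) i| ≤ B
        exact (WLim_coord _ _).trans (h1 k))
  have hc : Fintype.card (Option (Fin m)) = m + 1 := by simp
  rw [hc, nsmul_eq_mul] at key
  exact key

theorem WLim_pd {m : ℕ} {S : F m → (F m →L[ℝ] X1 m)} (hS : ContDiff ℝ 2 S) (y z : F m)
    (i : Fin m) : pd (fun z => S z y) z i = fderiv ℝ S z (EuclideanSpace.single i 1) y := by
  have h1 : HasFDerivAt S (fderiv ℝ S z) z :=
    ((hS.differentiable (by norm_num)) z).hasFDerivAt
  have h2 := ((ContinuousLinearMap.apply ℝ (X1 m) y).hasFDerivAt (x := S z)).comp z h1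
  have h3 : fderiv ℝ (fun z => S z y) z =
      (ContinuousLinearMap.apply ℝ (X1 m) y).comp (fderiv ℝ S z) := h2.fderiv
  rw [pd, h3]
  rfl

theorem WLim_pd_le {m : ℕ} {S : F m → (F m →L[ℝ] X1 m)} (hS : ContDiff ℝ 2 S) {K : ℝ}
    (y z : F m) (hK : ‖fderiv ℝ S z‖ ≤ K) (i : Fin m) :
    ‖pd (fun z => S z y) z i‖ ≤ K * ‖y‖ := by
  rw [WLim_pd hS]
  have h1 : ‖fderiv ℝ S z (EuclideanSpace.single i (1 : ℝ))‖ ≤ K := by
    have := (fderiv ℝ S z).le_opNorm (EuclideanSpace.single i (1 : ℝ))
    have hn : ‖(EuclideanSpace.single i (1 : ℝ) : F m)‖ = 1 := by simp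
    rw [hn, mul_one] at this
    exact this.trans hK
  exact (ContinuousLinearMap.le_opNorm _ y).trans (by gcongr)

theorem limStmt (h1 : EqStmt) (h2 : KappaStmt) (h3 : NuStmt) : LimStmt := by
  intro m N N₀ hD hev j hj hje
  set κ : ℝ := 2 * ∫ z : F m, phiM N j (nu z) * jac nu z with hκ
  have hκ0 : κ ≠ 0 := by
    have := h2 m N hD.norm hD.smooth j hj
    rw [hκ]
    linarith
  refine ⟨κ, hκ0, ?_⟩
  intro S K Sk δ hS hSk hδ hK hsupp hδ0 y
  obtain ⟨p, hp⟩ : ∃ p, m + 1 + j = 2 * p := by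
    obtain ⟨q, hq⟩ := hev.add hje
    exact ⟨q, by omega⟩
  have hp2 : (m + 1 + j) / 2 = p := by omega
  have hp0 : p ≠ 0 := by omega
  have hj0 : j ≠ 0 := by omega
  have hnu0 : ∀ z : F m, nu z ≠ 0 := (h3 m).2.1
  by_cases hy : y = 0
  · subst hy
    have e1 : N₀ (0 : F m) ^ (m + 1 + j) = 0 := by
      rw [hD.norm₀.zero, zero_pow (by omega)]
    have e2 : ∀ k, polL (Sk k) j 0 = 0 := by
      intro k
      unfold polL
      simp [zero_pow hj0]
    rw [e1, mul_zero]
    simp only [e2]
    exact tendsto_const_nhds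
  have hn0 : 0 < N₀ y := hD.norm₀.pos y hy
  have hyn : 0 < ‖y‖ := norm_pos_iff.2 hy
  obtain ⟨c, C, hc, hC, hb⟩ := hD.norm.bounds
  set n₀ := N₀ y with hn₀
  -- facts on `S z y`
  have hSz : ∀ z, N (S z y) = n₀ := fun z => (hS z).1 y
  have hSin : ∀ z, inner ℝ (nu z) (S z y) = 0 := fun z => (hS z).2 y
  have hdiff : ∀ k z, ‖Sk k z y - S z y‖ ≤ δ k * ‖y‖ := by
    intro k z
    have : Sk k z y - S z y = (Sk k z - S z) y := rfl
    rw [this]
    exact (ContinuousLinearMap.le_opNorm _ y).trans (by gcongr; exact hδ k z)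
  have hNd : ∀ k z, |N (Sk k z y) - n₀| ≤ C * (δ k * ‖y‖) := by
    intro k z
    have e1 : N (Sk k z y - S z y) ≤ C * (δ k * ‖y‖) :=
      ((hb _).2).trans (by gcongr; exact hdiff k z)
    have e2 : N (Sk k z y) ≤ N (Sk k z y - S z y) + n₀ := by
      have := hD.norm.add (Sk k z y - S z y) (S z y)
      rwa [sub_add_cancel, hSz] at this
    have e3 : n₀ ≤ N (Sk k z y - S z y) + N (Sk k z y) := by
      have := hD.norm.add (S z y - Sk k z y) (Sk k z y)
      rw [sub_add_cancel, hSz] at this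
      have e4 : N (S z y - Sk k z y) = N (Sk k z y - S z y) := by
        rw [← hD.norm.neg, neg_sub]
      rwa [e4] at this
    rw [abs_le]
    constructor <;> linarith
  -- constants
  set B : ℝ := max (2 * n₀ / c) (K * ‖y‖) with hBdef
  have hB0 : 0 ≤ B := le_max_of_le_left (by positivity)
  set Dc : ℝ := B ^ j * ((m + 1).factorial * B ^ (m + 1)) with hDc
  have hDc0 : 0 ≤ Dc := by positivity
  set V : ℝ := (volume : Measure (F m)).real (Metric.closedBall 0 3) with hV
  have hV0 : 0 ≤ V := measureReal_nonneg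
  -- the function h
  have hcont : Tendsto (fun u : ℝ => 1 - n₀ ^ (2 * p) / (u ^ 2) ^ p) (𝓝 n₀) (𝓝 0) := by
    have e : (1 : ℝ) - n₀ ^ (2 * p) / (n₀ ^ 2) ^ p = 0 := by
      rw [← pow_mul, div_self (by positivity), sub_self]
    have : ContinuousAt (fun u : ℝ => 1 - n₀ ^ (2 * p) / (u ^ 2) ^ p) n₀ := by
      apply ContinuousAt.sub continuousAt_const
      apply ContinuousAt.div continuousAt_const
      · fun_prop
      · positivity
    have h5 := this.tendsto
    simp only [e] at h5
    exact h5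
  rw [Metric.tendsto_atTop]
  intro ε hε
  have hε' : 0 < ε / (Dc * V + 1) := by positivity
  obtain ⟨η, hη, hηh⟩ := (Metric.tendsto_nhds_nhds.1 hcont) _ hε'
  have hδ1 : Tendsto (fun k => C * (δ k * ‖y‖)) atTop (𝓝 0) := by
    have := (hδ0.mul_const ‖y‖).const_mul C
    simpa using this
  have hev1 : ∀ᶠ k in atTop, C * (δ k * ‖y‖) < min η (n₀ / 2) :=
    hδ1.eventually (gt_mem_nhds (by positivity))
  obtain ⟨k₀, hk₀⟩ := eventually_atTop.1 hev1
  refine ⟨k₀, fun k hk => ?_⟩
  have hk1 : C * (δ k * ‖y‖) < η := (hk₀ k hk).trans_le (min_le_left _ _)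
  have hk2 : C * (δ k * ‖y‖) < n₀ / 2 := (hk₀ k hk).trans_le (min_le_right _ _)
  set a : F m → X1 m := fun z => Sk k z y with ha
  have ha2 : ContDiff ℝ 2 a := (hSk k).clm_apply contDiff_const
  have haN : ∀ z, |N (a z) - n₀| ≤ C * (δ k * ‖y‖) := hNd k
  have haNpos : ∀ z, 0 < N (a z) := by
    intro z
    have := (abs_le.1 (haN z)).1
    linarith
  have hanorm : ∀ z, δ k * ‖y‖ < ‖a z‖ := by
    intro z
    have e1 := (abs_le.1 (haN z)).1
    have e2 := (hb (a z)).2
    have e3 : C * (δ k * ‖y‖) < C * ‖a z‖ := by linarith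
    exact lt_of_mul_lt_mul_left e3 hC.le
  have hale : ∀ z, ‖a z‖ ≤ B := by
    intro z
    have e1 := (abs_le.1 (haN z)).2
    have e2 := (hb (a z)).1
    have e3 : ‖a z‖ ≤ 2 * n₀ / c := by
      rw [le_div_iff₀ hc]
      linarith
    exact e3.trans (le_max_left _ _)
  have hpd : ∀ z i, ‖pd a z i‖ ≤ B := by
    intro z i
    exact (WLim_pd_le (hSk k) y z (hK k z) i).trans (le_max_right _ _)
  have hne : ∀ z (s t : ℝ), (s ≠ 0 ∨ t ≠ 0) → s • a z + t • nu z ≠ 0 := by
    intro z s t hst
    exact WLim_ne (hnu0 z) (hSin z) (hdiff k z) (hanorm z) s t hst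
  have heq := h1 m N hD.norm hD.smooth hev j hj hje a ha2
    (by
      intro s hs z
      apply hne
      by_cases h0 : s = 0
      · left; rw [h0]; norm_num
      · right; exact h0)
    (by
      intro s hs z
      rw [sub_eq_add_neg, ← neg_smul]
      apply hne
      by_cases h0 : s = 0
      · left; rw [h0]; norm_num
      · right; exact neg_ne_zero.2 h0)
    (by
      intro z hz
      exact hsupp k z hz y)
  rw [← hκ, hp2] at heq
  -- continuity and support
  have hjc : Continuous (jac a) := WLim_cont_jac ha2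
  have hac : Continuous fun z => (a z) none :=
    (PiLp.continuous_apply 2 _ none).comp ha2.continuous
  have hNc : Continuous fun z => N (a z) := hD.norm.continuous.comp ha2.continuous
  have hf1 : Continuous fun z => (a z) none ^ j * jac a z := (hac.pow j).mul hjc
  have hf2 : Continuous fun z => (a z) none ^ j / (N (a z) ^ 2) ^ p * jac a z := by
    refine Continuous.mul ?_ hjc
    refine Continuous.div (hac.pow j) ((hNc.pow 2).pow p) ?_
    intro z
    have := haNpos z
    positivity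
  have hz1 : ∀ z, z ∉ Metric.closedBall (0 : F m) 3 → (a z) none ^ j = 0 := by
    intro z hz
    have hz' : 3 ≤ ‖z‖ := by
      rw [mem_closedBall_zero_iff, not_le] at hz
      exact hz.le
    have : (a z) none = 0 := hsupp k z hz' y
    rw [this, zero_pow hj0]
  have hcs : ∀ f : F m → ℝ, Continuous f → (∀ z, z ∉ Metric.closedBall (0 : F m) 3 → f z = 0) →
      Integrable f := by
    intro f hf hf0
    apply hf.integrable_of_hasCompactSupport
    exact HasCompactSupport.intro (isCompact_closedBall _ _) hf0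
  have hi1 : Integrable fun z => (a z) none ^ j * jac a z :=
    hcs _ hf1 (fun z hz => by rw [hz1 z hz, zero_mul])
  have hi2 : Integrable fun z => (a z) none ^ j / (N (a z) ^ 2) ^ p * jac a z :=
    hcs _ hf2 (fun z hz => by rw [hz1 z hz, zero_div, zero_mul])
  have hpol : polL (Sk k) j y = ∫ z, (a z) none ^ j * jac a z := rfl
  have hdifference : polL (Sk k) j y - κ * n₀ ^ (2 * p) =
      ∫ z, ((a z) none ^ j * jac a z) * (1 - n₀ ^ (2 * p) / (N (a z) ^ 2) ^ p) := by
    rw [hpol, ← heq, ← integral_mul_const, ← integral_sub hi1 (hi2.mul_const _)]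
    congr 1
    ext z
    ring
  rw [hp, Real.dist_eq, hdifference]
  have hset : ∫ z, ((a z) none ^ j * jac a z) * (1 - n₀ ^ (2 * p) / (N (a z) ^ 2) ^ p) =
      ∫ z in Metric.closedBall (0 : F m) 3,
        ((a z) none ^ j * jac a z) * (1 - n₀ ^ (2 * p) / (N (a z) ^ 2) ^ p) := by
    rw [setIntegral_eq_integral_of_forall_compl_eq_zero]
    intro z hz
    rw [hz1 z hz, zero_mul, zero_mul]
  rw [hset]
  have hbd : ∀ z ∈ Metric.closedBall (0 : F m) 3,
      ‖((a z) none ^ j * jac a z) * (1 - n₀ ^ (2 * p) / (N (a z) ^ 2) ^ p)‖ ≤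
        Dc * (ε / (Dc * V + 1)) := by
    intro z _
    rw [norm_mul]
    have e1 : ‖(a z) none ^ j * jac a z‖ ≤ Dc := by
      rw [norm_mul, norm_pow, hDc]
      have f1 : ‖(a z) none‖ ≤ B := (WLim_coord (a z) none).trans (hale z)
      have f2 : ‖jac a z‖ ≤ (m + 1).factorial * B ^ (m + 1) := WLim_jac_le (hale z) (hpd z)
      gcongr
    have e2 : ‖1 - n₀ ^ (2 * p) / (N (a z) ^ 2) ^ p‖ ≤ ε / (Dc * V + 1) := by
      have := hηh (x := N (a z)) (by
        rw [Real.dist_eq]
        exact (haN z).trans_lt hk1)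
      rw [dist_zero_right] at this
      exact this.le
    gcongr
  have hfin : volume (Metric.closedBall (0 : F m) 3) < ⊤ :=
    (isCompact_closedBall _ _).measure_lt_top
  have hint := norm_setIntegral_le_of_norm_le_const hfin hbd
  rw [Real.norm_eq_abs] at hint
  refine hint.trans_lt ?_
  have : Dc * (ε / (Dc * V + 1)) * V = ε * (Dc * V / (Dc * V + 1)) := by ring
  rw [← hV, this]
  have h6 : Dc * V / (Dc * V + 1) < 1 := by
    rw [div_lt_one (by positivity)]
    linarith
  nlinarith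

end Pool.Agent.Lib.MP_5c4da9_an
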