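import Pool.Agent.Lib.MP_5c4da9_an.WDefs
import Pool.Agent.Lib.MP_5c4da9_an.Base

/-! # MP_5c4da9_an, W1: the isometries depend on the hyperplane in a Lipschitz way -/

set_option autoImplicit false

open Set Filter Topology Module

noncomputable section

namespace Pool.Agent.Lib.MP_5c4da9_an

variable {m : ℕ} {N : X1 m → ℝ} {N₀ : F m → ℝ}

theorem WLip_hsL_continuous (m : ℕ) : Continuous (hsL m) := by
  have h1 : Continuous fun A : F m →L[ℝ] X1 m =>
      (fun i : Fin m => A (EuclideanSpace.single i (1 : ℝ))) :=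
    continuous_pi fun i => (ContinuousLinearMap.apply ℝ (X1 m) _).continuous
  exact (PiLp.continuous_toLp 2 (fun _ : Fin m => X1 m)).comp h1

theorem WLip_exp_zero (B : F m →L[ℝ] F m) : NormedSpace.exp ((0 : ℝ) • B) = 1 := by
  have hz : (0 : ℝ) • B = 0 := zero_smul ℝ B
  rw [hz, NormedSpace.exp_zero]

theorem WLip_hsL_inj (m : ℕ) : LinearMap.ker (hsL m) = ⊥ := by
  rw [LinearMap.ker_eq_bot']
  intro A hA
  have h1 : ∀ i : Fin m, A (EuclideanSpace.single i (1 : ℝ)) = 0 := by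
    intro i
    have h2 := congrArg (fun w : PiLp 2 (fun _ : Fin m => X1 m) => w i) hA
    simpa [hsL] using h2
  have h3 : A.toLinearMap = 0 := by
    apply (EuclideanSpace.basisFun (Fin m) ℝ).toBasis.ext
    intro i
    simpa using h1 i
  ext x : 1
  exact LinearMap.congr_fun h3 x

theorem WLip_hsL_anti (m : ℕ) : ∃ K : ℝ, 0 < K ∧ ∀ A, ‖A‖ ≤ K * ‖hsL m A‖ := by
  obtain ⟨K, hK, h⟩ := LinearMap.exists_antilipschitzWith (hsL m) (WLip_hsL_inj m)
  refine ⟨K, by exact_mod_cast hK, fun A => ?_⟩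
  have h1 := h.le_mul_dist A 0
  simpa using h1

/-- Limits of isometric embeddings. -/
theorem WLip_lim (hN : IsNorm N) {v : ℕ → X1 m} {T : ℕ → F m →L[ℝ] X1 m} {v₀ : X1 m}
    {T₀ : F m →L[ℝ] X1 m} (hT : ∀ n, T n ∈ isoP N N₀ (v n)) (hv : Tendsto v atTop (𝓝 v₀))
    (hlim : Tendsto T atTop (𝓝 T₀)) : T₀ ∈ isoP N N₀ v₀ := by
  have hx : ∀ x, Tendsto (fun n => T n x) atTop (𝓝 (T₀ x)) := fun x =>
    ((ContinuousLinearMap.apply ℝ (X1 m) x).continuous.tendsto T₀).comp hlim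
  constructor
  · intro x
    have h2 : Tendsto (fun n => N (T n x)) atTop (𝓝 (N (T₀ x))) :=
      (hN.continuous.tendsto _).comp (hx x)
    have h3 : ∀ n, N (T n x) = N₀ x := fun n => (hT n).1 x
    simp only [h3] at h2
    exact tendsto_nhds_unique h2 tendsto_const_nhds
  · intro x
    have h2 : Tendsto (fun n => inner ℝ (v n) (T n x)) atTop (𝓝 (inner ℝ v₀ (T₀ x))) :=
      hv.inner (hx x)
    have h3 : ∀ n, inner ℝ (v n) (T n x) = 0 := fun n => (hT n).2 x
    simp only [h3] at h2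
    exact tendsto_nhds_unique h2 tendsto_const_nhds

/-- A nearest point. -/
theorem WLip_near {s : Set (F m →L[ℝ] X1 m)} (hs : IsCompact s) (hne : s.Nonempty)
    (A : F m →L[ℝ] X1 m) : ∃ T ∈ s, ∀ R ∈ s, ‖hsL m (A - T)‖ ≤ ‖hsL m (A - R)‖ := by
  have hc : ContinuousOn (fun R : F m →L[ℝ] X1 m => ‖hsL m (A - R)‖) s :=
    ((WLip_hsL_continuous m).comp (continuous_const.sub continuous_id)).norm.continuousOn
  obtain ⟨T, hT, hmin⟩ := hs.exists_isMinOn hne hc
  exact ⟨T, hT, fun R hR => hmin hR⟩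

/-- The derivative of `exp (s B)` applied to a vector. -/
theorem WLip_exp_deriv (B : F m →L[ℝ] F m) (y : F m) (s : ℝ) :
    HasDerivAt (fun s : ℝ => NormedSpace.exp (s • B) y) (B (NormedSpace.exp (s • B) y)) s := by
  have h := hasDerivAt_exp_smul_const' (𝕂 := ℝ) B s
  have h1 := h.clm_apply (hasDerivAt_const s y)
  simpa using h1

/-- `exp (s B)` preserves `N₀`. -/
theorem WLip_exp_pres (h : DataB m N N₀) {T D : F m →L[ℝ] X1 m} (hT : ∀ x, N (T x) = N₀ x)
    (B : F m →L[ℝ] F m) (hB : ∀ x, T (B x) = D x)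
    (hQ : ∀ y, fderiv ℝ (fun x => N x ^ 2) (T y) (D y) = 0) (s : ℝ) (y : F m) :
    N₀ (NormedSpace.exp (s • B) y) = N₀ y := by
  have hd : ∀ t : ℝ, HasDerivAt (fun t : ℝ => N (T (NormedSpace.exp (t • B) y)) ^ 2) 0 t := by
    intro t
    have h1 := WLip_exp_deriv B y t
    have h2 : HasDerivAt (fun t : ℝ => T (NormedSpace.exp (t • B) y))
        (T (B (NormedSpace.exp (t • B) y))) t := T.hasFDerivAt.comp_hasDerivAt t h1
    have h3 : HasFDerivAt (fun x => N x ^ 2)
        (fderiv ℝ (fun x => N x ^ 2) (T (NormedSpace.exp (t • B) y)))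
        (T (NormedSpace.exp (t • B) y)) :=
      ((h.smooth.differentiable one_ne_zero) _).hasFDerivAt
    have h4 := h3.comp_hasDerivAt t h2
    rw [hB, hQ] at h4
    exact h4
  have h5 : N (T (NormedSpace.exp (s • B) y)) ^ 2 =
      N (T (NormedSpace.exp ((0 : ℝ) • B) y)) ^ 2 :=
    is_const_of_deriv_eq_zero (fun t => (hd t).differentiableAt) (fun t => (hd t).deriv) s 0
  rw [WLip_exp_zero] at h5
  have e1 : (1 : F m →L[ℝ] F m) y = y := rfl
  rw [e1, hT, hT] at h5
  exact (pow_left_inj₀ (h.norm₀.nonneg _) (h.norm₀.nonneg _) two_ne_zero).1 h5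

/-- The first order condition at a nearest point. -/
theorem WLip_min {V W : Type*} [NormedAddCommGroup V] [NormedSpace ℝ V] [NormedAddCommGroup W]
    [InnerProductSpace ℝ W] (Λ : V →L[ℝ] W) (w : W) (f : ℝ → V) (f' : V)
    (hf : HasDerivAt f f' 0) (hmin : ∀ s, ‖w - Λ (f 0)‖ ≤ ‖w - Λ (f s)‖) :
    inner ℝ (Λ (f 0) - w) (Λ f') = 0 := by
  have h3 : HasDerivAt (fun s : ℝ => w - Λ (f s)) (-(Λ f')) 0 :=
    (Λ.hasFDerivAt.comp_hasDerivAt (0 : ℝ) hf).const_sub _
  have h4 := h3.norm_sq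
  have h5 : IsLocalMin (fun s : ℝ => ‖w - Λ (f s)‖ ^ 2) 0 :=
    Eventually.of_forall fun s => pow_le_pow_left₀ (norm_nonneg _) (hmin s) 2
  have h7 := h5.hasDerivAt_eq_zero h4
  have h9 : (2 : ℝ) * inner ℝ (w - Λ (f 0)) (-(Λ f')) = 0 := h7
  rw [inner_neg_right, ← inner_neg_left, neg_sub] at h9
  linarith

theorem lipStmt (h0 : WBaseStmt) : LipStmt := by
  intro m N N₀ h
  obtain ⟨⟨c, C, hc, hC, hbd⟩, hcomp, hne, hmul, htrans, hrange, -, -⟩ := h0 m N N₀ h
  have hTn : ∀ v, ∀ T ∈ isoP N N₀ v, ‖T‖ ≤ C := fun v T hT =>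
    T.opNorm_le_bound hC.le fun x => (hbd v T hT x).2
  obtain ⟨K, hK, hanti⟩ := WLip_hsL_anti m
  by_contra hcon
  push Not at hcon
  have hpos : ∀ n : ℕ, (0 : ℝ) < (n : ℝ) + 1 := fun n => by positivity
  choose v v' hv hv' T hT hfar using fun n : ℕ => hcon ((n : ℝ) + 1) (hpos n)
  have hne' : ∀ n, v' n ≠ 0 := fun n h => by
    have := hv' n
    rw [h, norm_zero] at this
    exact zero_ne_one this
  choose T' hT' hmin using fun n : ℕ => WLip_near (hcomp (v' n)) (hne _ (hne' n)) (T n)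
  let HL : (F m →L[ℝ] X1 m) →L[ℝ] PiLp 2 (fun _ : Fin m => X1 m) :=
    ⟨hsL m, WLip_hsL_continuous m⟩
  -- the differences
  set b : ℕ → ℝ := fun n => ‖hsL m (T' n - T n)‖ with hb
  have hKb : ∀ n : ℕ, ((n : ℝ) + 1) * ‖v n - v' n‖ < K * b n := by
    intro n
    refine (hfar n _ (hT' n)).trans_le ?_
    rw [norm_sub_rev]
    exact hanti _
  have hbpos : ∀ n, 0 < b n := by
    intro n
    have h1 : 0 ≤ ((n : ℝ) + 1) * ‖v n - v' n‖ := by positivity
    have h2 := h1.trans_lt (hKb n)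
    exact (mul_pos_iff_of_pos_left hK).1 h2
  set D : ℕ → (F m →L[ℝ] X1 m) := fun n => (b n)⁻¹ • (T' n - T n) with hD
  have hDn : ∀ n, ‖hsL m (D n)‖ = 1 := by
    intro n
    rw [hD]
    simp only [map_smul, norm_smul, norm_inv]
    rw [Real.norm_of_nonneg (hbpos n).le]
    exact inv_mul_cancel₀ (hbpos n).ne'
  have hDK : ∀ n, ‖D n‖ ≤ K := fun n => by
    have := hanti (D n)
    rwa [hDn, mul_one] at this
  -- compactness
  have hcp : IsCompact ((((Metric.closedBall (0 : X1 m) 1) ×ˢ (Metric.closedBall (0 : X1 m) 1)) ×ˢ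
      ((Metric.closedBall (0 : F m →L[ℝ] X1 m) C) ×ˢ (Metric.closedBall (0 : F m →L[ℝ] X1 m) C))) ×ˢ
      (Metric.closedBall (0 : F m →L[ℝ] X1 m) K)) :=
    (((isCompact_closedBall _ _).prod (isCompact_closedBall _ _)).prod
      ((isCompact_closedBall _ _).prod (isCompact_closedBall _ _))).prod (isCompact_closedBall _ _)
  obtain ⟨⟨⟨⟨v₀, v₀'⟩, ⟨T₀, T₀'⟩⟩, D₀⟩, -, φ, hφ, hlim⟩ := hcp.tendsto_subseq
    (x := fun n => (((v n, v' n), (T n, T' n)), D n)) (fun n => by
      refine ⟨⟨⟨?_, ?_⟩, ⟨?_, ?_⟩⟩, ?_⟩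
      · simpa using (hv n).le
      · simpa using (hv' n).le
      · simpa using hTn _ _ (hT n)
      · simpa using hTn _ _ (hT' n)
      · simpa using hDK n)
  have hl1 : Tendsto (fun n => v (φ n)) atTop (𝓝 v₀) :=
    ((continuous_fst.comp (continuous_fst.comp continuous_fst)).tendsto _).comp hlim
  have hl2 : Tendsto (fun n => v' (φ n)) atTop (𝓝 v₀') :=
    ((continuous_snd.comp (continuous_fst.comp continuous_fst)).tendsto _).comp hlim
  have hl3 : Tendsto (fun n => T (φ n)) atTop (𝓝 T₀) :=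
    ((continuous_fst.comp (continuous_snd.comp continuous_fst)).tendsto _).comp hlim
  have hl4 : Tendsto (fun n => T' (φ n)) atTop (𝓝 T₀') :=
    ((continuous_snd.comp (continuous_snd.comp continuous_fst)).tendsto _).comp hlim
  have hl5 : Tendsto (fun n => D (φ n)) atTop (𝓝 D₀) := (continuous_snd.tendsto _).comp hlim
  clear hlim
  have hinv : Tendsto (fun n : ℕ => (1 : ℝ) / (((φ n : ℕ) : ℝ) + 1)) atTop (𝓝 0) :=
    tendsto_one_div_add_atTop_nhds_zero_nat.comp hφ.tendsto_atTop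
  -- `‖v - v'‖ / b → 0`
  have hvb : ∀ n : ℕ, (b n)⁻¹ * ‖v n - v' n‖ ≤ K * (1 / ((n : ℝ) + 1)) := by
    intro n
    have h1 := (hKb n).le
    rw [inv_mul_le_iff₀ (hbpos n), mul_one_div, mul_div_assoc', le_div_iff₀ (hpos n)]
    linarith
  -- `b` is bounded
  have hMb : ∃ M : ℝ, 0 < M ∧ ∀ n, b n ≤ M := by
    refine ⟨‖HL‖ * (C + C) + 1, by positivity, fun n => ?_⟩
    have h1 : b n ≤ ‖HL‖ * ‖T' n - T n‖ := HL.le_opNorm _
    have h2 : ‖T' n - T n‖ ≤ C + C :=
      (norm_sub_le _ _).trans (add_le_add (hTn _ _ (hT' n)) (hTn _ _ (hT n)))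
    have h3 := mul_le_mul_of_nonneg_left h2 (norm_nonneg HL)
    linarith
  obtain ⟨M, hM, hbM⟩ := hMb
  have hvv : v₀' = v₀ := by
    have h1 : Tendsto (fun n => v (φ n) - v' (φ n)) atTop (𝓝 0) := by
      rw [tendsto_zero_iff_norm_tendsto_zero]
      have h2 : Tendsto (fun n => M * (K * (1 / (((φ n : ℕ) : ℝ) + 1)))) atTop (𝓝 0) := by
        have := (hinv.const_mul K).const_mul M
        simpa using this
      refine squeeze_zero (fun n => norm_nonneg _) (fun n => ?_) h2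
      have h3 := hvb (φ n)
      rw [inv_mul_le_iff₀ (hbpos _)] at h3
      refine h3.trans (mul_le_mul_of_nonneg_right (hbM _) ?_)
      have := hpos (φ n)
      positivity
    have h4 := tendsto_nhds_unique h1 (hl1.sub hl2)
    exact (sub_eq_zero.1 h4.symm).symm
  rw [hvv] at hl2
  have hv₀ : ‖v₀‖ = 1 := by
    have h1 := hl1.norm
    simp only [hv] at h1
    exact tendsto_nhds_unique h1 tendsto_const_nhds |>.symm ▸ rfl
  have hv₀ne : v₀ ≠ 0 := fun h => by
    rw [h, norm_zero] at hv₀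
    exact zero_ne_one hv₀
  have hm1 : T₀ ∈ isoP N N₀ v₀ := WLip_lim h.norm (fun n => hT (φ n)) hl1 hl3
  have hm2 : T₀' ∈ isoP N N₀ v₀ := WLip_lim h.norm (fun n => hT' (φ n)) hl2 hl4
  have hsc := WLip_hsL_continuous m
  have hb0 : Tendsto (fun n => b (φ n)) atTop (𝓝 0) := by
    obtain ⟨g, hg, hgT⟩ := htrans v₀ hv₀ne T₀' hm2 T₀ hm1
    have h1 : Tendsto (fun n => (T' (φ n)).comp g) atTop (𝓝 (T₀'.comp g)) :=
      ((ContinuousLinearMap.compL ℝ (F m) (F m) (X1 m)).flip g).continuous.tendsto _ |>.comp hl4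
    rw [← hgT] at h1
    have h2 : Tendsto (fun n => ‖hsL m (T (φ n) - (T' (φ n)).comp g)‖) atTop (𝓝 0) := by
      have h3 := ((hsc.tendsto _).comp (hl3.sub h1)).norm
      simpa using h3
    refine squeeze_zero (fun n => norm_nonneg _) (fun n => ?_) h2
    have h4 := hmin (φ n) _ (hmul _ _ (hT' (φ n)) g hg)
    rw [map_sub, norm_sub_rev, ← map_sub] at h4
    exact h4
  have hTT : T₀' = T₀ := by
    have h1 : Tendsto (fun n => b (φ n)) atTop (𝓝 ‖hsL m (T₀' - T₀)‖) :=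
      ((hsc.tendsto _).comp (hl4.sub hl3)).norm
    have h2 := tendsto_nhds_unique h1 hb0
    have h3 := hanti (T₀' - T₀)
    rw [h2, mul_zero] at h3
    exact sub_eq_zero.1 (norm_le_zero_iff.1 h3)
  rw [hTT] at hl4
  have hD1 : ‖hsL m D₀‖ = 1 := by
    have h1 := ((hsc.tendsto _).comp hl5).norm
    have h2 : (fun n => ‖(hsL m ∘ fun n => D (φ n)) n‖) = fun _ => (1 : ℝ) := by
      ext n
      exact hDn _
    rw [h2] at h1
    exact tendsto_nhds_unique h1 tendsto_const_nhds |>.symm ▸ rfl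
  have happ : ∀ (S : ℕ → (F m →L[ℝ] X1 m)) (S₀ : F m →L[ℝ] X1 m), Tendsto S atTop (𝓝 S₀) →
      ∀ y, Tendsto (fun n => S n y) atTop (𝓝 (S₀ y)) := fun S S₀ hS y =>
    ((ContinuousLinearMap.apply ℝ (X1 m) y).continuous.tendsto S₀).comp hS
  -- `D₀` maps into the hyperplane
  have hDv : ∀ y, inner ℝ v₀ (D₀ y) = 0 := by
    intro y
    have h1 : Tendsto (fun n => inner ℝ (v' (φ n)) (D (φ n) y)) atTop (𝓝 (inner ℝ v₀ (D₀ y))) :=
      hl2.inner (happ _ _ hl5 y)
    have h2 : Tendsto (fun n => inner ℝ (v' (φ n)) (D (φ n) y)) atTop (𝓝 0) := by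
      have h3 : Tendsto (fun n => (K * (1 / (((φ n : ℕ) : ℝ) + 1))) * (C * ‖y‖)) atTop (𝓝 0) := by
        have := (hinv.const_mul K).mul_const (C * ‖y‖)
        simpa using this
      refine squeeze_zero_norm (fun n => ?_) h3
      have e1 : inner ℝ (v' (φ n)) (D (φ n) y) =
          (b (φ n))⁻¹ * inner ℝ (v (φ n) - v' (φ n)) (T (φ n) y) := by
        rw [hD]
        simp only [ContinuousLinearMap.smul_apply, ContinuousLinearMap.sub_apply, inner_smul_right,
          inner_sub_right, inner_sub_left]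
        rw [(hT' (φ n)).2 y, (hT (φ n)).2 y]
      rw [e1, norm_mul, norm_inv, Real.norm_of_nonneg (hbpos _).le]
      have h4 : ‖inner ℝ (v (φ n) - v' (φ n)) (T (φ n) y)‖ ≤ ‖v (φ n) - v' (φ n)‖ * (C * ‖y‖) :=
        (norm_inner_le_norm _ _).trans
          (mul_le_mul_of_nonneg_left (hbd _ _ (hT (φ n)) y).2 (norm_nonneg _))
      calc (b (φ n))⁻¹ * ‖inner ℝ (v (φ n) - v' (φ n)) (T (φ n) y)‖
          ≤ (b (φ n))⁻¹ * (‖v (φ n) - v' (φ n)‖ * (C * ‖y‖)) :=
            mul_le_mul_of_nonneg_left h4 (inv_nonneg.2 (hbpos _).le)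
        _ = ((b (φ n))⁻¹ * ‖v (φ n) - v' (φ n)‖) * (C * ‖y‖) := by ring
        _ ≤ _ := mul_le_mul_of_nonneg_right (hvb _) (by positivity)
    exact tendsto_nhds_unique h1 h2
  -- the linear map `B`
  have hinj : LinearMap.ker T₀.toLinearMap = ⊥ := by
    rw [LinearMap.ker_eq_bot']
    intro x hx
    have h1 := (hbd v₀ T₀ hm1 x).1
    have h2 : T₀ x = 0 := hx
    rw [h2, norm_zero] at h1
    have h3 : ‖x‖ ≤ 0 := by
      by_contra hlt
      push Not at hlt
      have := mul_pos hc hlt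
      linarith
    exact norm_le_zero_iff.1 h3
  obtain ⟨L, hL⟩ := LinearMap.exists_leftInverse_of_injective T₀.toLinearMap hinj
  let B : F m →L[ℝ] F m := LinearMap.toContinuousLinearMap (L ∘ₗ D₀.toLinearMap)
  have hB : ∀ x, T₀ (B x) = D₀ x := by
    intro x
    obtain ⟨z, hz⟩ := hrange v₀ hv₀ne T₀ hm1 (D₀ x) (hDv x)
    have h1 : L (T₀ z) = z := LinearMap.congr_fun hL z
    have h2 : B x = L (D₀ x) := rfl
    rw [h2, ← hz, h1]
  -- the derivative of `N²`
  have hQ : ∀ y, fderiv ℝ (fun x => N x ^ 2) (T₀ y) (D₀ y) = 0 := by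
    intro y
    have hst : HasStrictFDerivAt (fun x => N x ^ 2) (fderiv ℝ (fun x => N x ^ 2) (T₀ y)) (T₀ y) :=
      (h.smooth.contDiffAt).hasStrictFDerivAt one_ne_zero
    have h1 := hst.isLittleO
    have h2 : Tendsto (fun n => (T' (φ n) y, T (φ n) y)) atTop (𝓝 (T₀ y, T₀ y)) :=
      (happ _ _ hl4 y).prodMk_nhds (happ _ _ hl3 y)
    have h3 := h1.comp_tendsto h2
    have h4 : ∀ n, N (T' (φ n) y) ^ 2 - N (T (φ n) y) ^ 2 = 0 := by
      intro n
      rw [(hT' (φ n)).1, (hT (φ n)).1, sub_self]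
    have e1 : ∀ n, T' (φ n) y - T (φ n) y = b (φ n) • D (φ n) y := by
      intro n
      rw [hD]
      simp only [ContinuousLinearMap.smul_apply, ContinuousLinearMap.sub_apply]
      rw [smul_smul, mul_inv_cancel₀ (hbpos _).ne', one_smul]
    have h5 : (fun n => b (φ n) • fderiv ℝ (fun x => N x ^ 2) (T₀ y) (D (φ n) y)) =o[atTop]
        (fun n => b (φ n) • D (φ n) y) := by
      have h6 := h3.neg_left
      refine (h6.congr (fun n => ?_) (fun n => ?_))
      · simp only [Function.comp]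
        rw [h4, e1, map_smul]
        simp
      · simp only [Function.comp]
        rw [e1]
    have h7 : (fun n => fderiv ℝ (fun x => N x ^ 2) (T₀ y) (D (φ n) y)) =o[atTop]
        (fun n => D (φ n) y) := by
      rw [Asymptotics.isLittleO_iff] at h5 ⊢
      intro ε hε
      filter_upwards [h5 hε] with n hn
      rw [norm_smul, norm_smul, mul_left_comm] at hn
      exact le_of_mul_le_mul_left hn (norm_pos_iff.2 (hbpos _).ne')
    have h8 : Tendsto (fun n => fderiv ℝ (fun x => N x ^ 2) (T₀ y) (D (φ n) y)) atTop (𝓝 0) := by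
      have h9 : (fun n => D (φ n) y) =O[atTop] (fun _ => (1 : ℝ)) := by
        apply Asymptotics.IsBigO.of_bound (K * ‖y‖)
        refine Eventually.of_forall fun n => ?_
        rw [norm_one, mul_one]
        exact ((D (φ n)).le_opNorm y).trans (mul_le_mul_of_nonneg_right (hDK _) (norm_nonneg _))
      exact (Asymptotics.isLittleO_one_iff ℝ).1 (h7.trans_isBigO h9)
    have h10 : Tendsto (fun n => fderiv ℝ (fun x => N x ^ 2) (T₀ y) (D (φ n) y)) atTop
        (𝓝 (fderiv ℝ (fun x => N x ^ 2) (T₀ y) (D₀ y))) :=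
      ((fderiv ℝ (fun x => N x ^ 2) (T₀ y)).continuous.tendsto _).comp (happ _ _ hl5 y)
    exact tendsto_nhds_unique h10 h8
  have hpres := fun s y => WLip_exp_pres h hm1.1 B hB hQ s y
  -- minimality
  have hort : ∀ n, inner ℝ (hsL m (D n)) (hsL m ((T' n).comp B)) = 0 := by
    intro n
    have hmem : ∀ s : ℝ, (T' n).comp (NormedSpace.exp (s • B)) ∈ isoP N N₀ (v' n) := fun s =>
      hmul _ _ (hT' n) _ (hpres s)
    have h1 : HasDerivAt (fun s : ℝ => NormedSpace.exp (s • B)) B 0 := by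
      have h2 := hasDerivAt_exp_smul_const' (𝕂 := ℝ) B (0 : ℝ)
      have e : B * NormedSpace.exp ((0 : ℝ) • B) = B := by
        rw [WLip_exp_zero, mul_one]
      rw [e] at h2
      exact h2
    have h8 : inner ℝ (hsL m (T' n) - hsL m (T n)) (hsL m ((T' n).comp B)) = 0 := by
      have h6 := WLip_min (HL.comp (ContinuousLinearMap.compL ℝ (F m) (F m) (X1 m) (T' n)))
        (hsL m (T n)) (fun s : ℝ => NormedSpace.exp (s • B)) B h1 (fun s => by
          have h7 := hmin n _ (hmem s)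
          have e0 := WLip_exp_zero B
          rw [map_sub, map_sub] at h7
          simp only [e0]
          exact h7)
      simp only [WLip_exp_zero B] at h6
      exact h6
    rw [hD]
    simp only [map_smul, map_sub, inner_smul_left]
    rw [h8, mul_zero]
  -- the limit
  have h1 : Tendsto (fun n => inner ℝ (hsL m (D (φ n))) (hsL m ((T' (φ n)).comp B))) atTop
      (𝓝 (inner ℝ (hsL m D₀) (hsL m (T₀.comp B)))) := by
    have h2 : Tendsto (fun n => (T' (φ n)).comp B) atTop (𝓝 (T₀.comp B)) :=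
      ((ContinuousLinearMap.compL ℝ (F m) (F m) (X1 m)).flip B).continuous.tendsto _ |>.comp hl4
    exact ((hsc.tendsto _).comp hl5).inner ((hsc.tendsto _).comp h2)
  simp only [hort] at h1
  have h2 : T₀.comp B = D₀ := by
    ext x : 1
    exact hB x
  rw [h2, real_inner_self_eq_norm_sq, hD1] at h1
  have h3 := tendsto_nhds_unique h1 tendsto_const_nhds
  norm_num at h3

end Pool.Agent.Lib.MP_5c4da9_an
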