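import Pool.Agent.Lib.MP_5c4da9_an.WDefs
import Pool.Agent.Lib.MP_5c4da9_an.Compl

set_option autoImplicit false

open Set Filter Topology Module MeasureTheory

noncomputable section

namespace Pool.Agent.Lib.MP_5c4da9_an

/-- The parallelogram law for the model norm. -/
theorem wmain_para (hNu : NuStmt) (hSect : LSectStmt) (hMoll : MollStmt) (hPol : PolyDStmt)
    (hInt : PolIntStmt) (hLim : LimStmt) (hAlg : AlgStmt) {m : ℕ} {N : X1 m → ℝ}
    {N₀ : F m → ℝ} (hD : DataB m N N₀) (hm : Even (m + 1)) (x y : F m) :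
    N₀ (x + y) ^ 2 + N₀ (x - y) ^ 2 = 2 * (N₀ x ^ 2 + N₀ y ^ 2) := by
  obtain ⟨-, hne, ⟨K, hK⟩, he, -, -⟩ := hNu m
  have h1 : ∀ z : F m, ‖‖nu z‖⁻¹ • nu z‖ = 1 := by
    intro z
    rw [norm_smul, norm_inv, norm_norm, inv_mul_cancel₀ (norm_ne_zero_iff.mpr (hne z))]
  obtain ⟨S, K', hK', hS⟩ := hSect m N N₀ hD _ K hK h1 he
  have hSnu : ∀ z, S z ∈ isoP N N₀ (nu z) := by
    intro z
    refine ⟨(hS z).1, fun x => ?_⟩
    have h2 := (hS z).2 x
    rw [inner_smul_left] at h2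
    have h3 : (starRingEnd ℝ) ‖nu z‖⁻¹ ≠ 0 := by
      simpa using hne z
    exact (mul_eq_zero.mp h2).resolve_left h3
  have hS0 : ∀ z, 2 ≤ ‖z‖ → ∀ x, S z x none = 0 := by
    intro z hz x
    have h2 := (hS z).2 x
    rw [he z hz, e0, EuclideanSpace.inner_single_left] at h2
    simpa using h2
  have hex : ∀ k : ℕ, ∃ S' : F m → (F m →L[ℝ] X1 m), ContDiff ℝ 2 S' ∧
      (∀ z, ‖S' z - S z‖ ≤ K' * (1 / ((k : ℝ) + 1))) ∧
      (∀ z, ‖fderiv ℝ S' z‖ ≤ K') ∧ ∀ z, 3 ≤ ‖z‖ → ∀ x, S' z x none = 0 := by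
    intro k
    refine hMoll m S K' hK' hS0 _ (by positivity) ?_
    rw [div_le_one (by positivity)]
    linarith [(Nat.cast_nonneg k : (0 : ℝ) ≤ k)]
  choose Sk hSk1 hSk2 hSk3 hSk4 using hex
  have hδ : Tendsto (fun k : ℕ => (K' : ℝ) * (1 / ((k : ℝ) + 1))) atTop (𝓝 0) := by
    simpa using (tendsto_one_div_add_atTop_nhds_zero_nat (𝕜 := ℝ)).const_mul (K' : ℝ)
  have key : ∀ j : ℕ, 2 ≤ j → Even j → ∀ y w, PolyD (m + 1 + j)
      fun t => N₀ (y + t • w) ^ (m + 1 + j) := by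
    intro j hj hje y w
    obtain ⟨κ, hκ, hl⟩ := hLim m N N₀ hD hm j hj hje
    have hl' := hl S K' Sk _ hSnu hSk1 hSk2 hSk3 hSk4 hδ
    have h2 : PolyD (m + 1 + j) fun t => κ * N₀ (y + t • w) ^ (m + 1 + j) :=
      hPol.1 _ (fun k t => polL (Sk k) j (y + t • w)) _
        (fun k => hInt m j (Sk k) (by omega) (hSk1 k) (hSk4 k) y w) fun t => hl' _
    obtain ⟨P, hP1, hP2⟩ := h2
    refine ⟨Polynomial.C κ⁻¹ * P, ?_, fun t => ?_⟩
    · exact (Polynomial.natDegree_C_mul_le _ _).trans hP1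
    · have h3 : κ * N₀ (y + t • w) ^ (m + 1 + j) = P.eval t := hP2 t
      rw [Polynomial.eval_mul, Polynomial.eval_C, ← h3, ← mul_assoc, inv_mul_cancel₀ hκ, one_mul]
  obtain ⟨r, hr⟩ := hm
  have e1 : m + 1 + 2 = 2 * (r + 1) := by omega
  have e2 : m + 1 + 4 = 2 * (r + 1) + 2 := by omega
  refine hAlg m (r + 1) (m + 1 + 4) N₀ hD.norm₀ (by omega) ?_ ?_ x y
  · intro y w
    obtain ⟨P, hP1, hP2⟩ := key 2 le_rfl (by decide) y w
    rw [← e1]
    exact ⟨P, hP1.trans (by omega), hP2⟩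
  · intro y w
    rw [← e2]
    exact key 4 (by norm_num) (by decide) y w

theorem wmain (hNu : NuStmt) (hSect : LSectStmt) (hMoll : MollStmt) (hPol : PolyDStmt)
    (hInt : PolIntStmt) (hLim : LimStmt) (hAlg : AlgStmt) (hC : CoordBStmt) :
    ∀ n : ℕ, Even n → 4 ≤ n →
      ∀ (E : Type) [NormedAddCommGroup E] [NormedSpace ℝ E],
        Module.finrank ℝ E = n →
        (∀ V W : Submodule ℝ E,
            Module.finrank ℝ V = n - 1 → Module.finrank ℝ W = n - 1 →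
            Nonempty (V ≃ₗᵢ[ℝ] W)) →
        Nonempty (E ≃ₗᵢ[ℝ] EuclideanSpace ℝ (Fin n)) := by
  intro n hn h4 E _ _ hE hiso
  obtain ⟨N, N₀, hD, hP⟩ := hC n (by omega) E hE hiso
  have hm : Even (n - 1 + 1) := by
    have : n - 1 + 1 = n := by omega
    rw [this]
    exact hn
  exact nonempty_of_para (by omega) hE
    (hP (wmain_para hNu hSect hMoll hPol hInt hLim hAlg hD hm))

end Pool.Agent.Lib.MP_5c4da9_an
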