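import Pool.Agent.Lib.MP_5c4da9_an.WDefs

/-!
# Smoothing of Lipschitz maps
-/

set_option autoImplicit false

open Set Filter Topology Module MeasureTheory
open scoped Convolution

noncomputable section

namespace Pool.Agent.Lib.MP_5c4da9_an

theorem mollStmt : MollStmt := by
  intro m S K hS hvert δ hδ hδ1
  let φ : ContDiffBump (0 : F m) := ⟨δ / 2, δ, by linarith, by linarith⟩
  have hSc : Continuous S := hS.continuous
  have hφc : Continuous (φ.normed volume) := (φ.contDiff_normed (n := 0)).continuous
  have hφs : HasCompactSupport (φ.normed volume) := φ.hasCompactSupport_normed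
  have hφ0 : ∀ t, 0 ≤ φ.normed volume t := fun t => φ.nonneg_normed t
  have hφ1 : ∫ t, φ.normed volume t = 1 := φ.integral_normed
  let S' : F m → (F m →L[ℝ] X1 m) := fun z => ∫ t, φ.normed volume t • S (z - t)
  have hconv : S' = (φ.normed volume ⋆[ContinuousLinearMap.lsmul ℝ ℝ, volume] S) := rfl
  have hint : ∀ z, Integrable (fun t => φ.normed volume t • S (z - t)) volume := by
    intro z
    apply Continuous.integrable_of_hasCompactSupport
    · exact hφc.smul (hSc.comp (continuous_const.sub continuous_id))
    · refine HasCompactSupport.intro hφs.isCompact ?_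
      intro t ht
      have h0 : φ.normed volume t = 0 := image_eq_zero_of_notMem_tsupport ht
      show φ.normed volume t • S (z - t) = 0
      rw [h0]
      exact zero_smul ℝ (S (z - t))
  have hφint : Integrable (φ.normed volume) volume := hφc.integrable_of_hasCompactSupport hφs
  refine ⟨S', ?_, ?_, ?_, ?_⟩
  · rw [hconv]
    exact hφs.contDiff_convolution_left _ (φ.contDiff_normed (n := 2)) hSc.locallyIntegrable
  · intro z
    rw [← dist_eq_norm, hconv]
    apply ContDiffBump.dist_normed_convolution_le hSc.aestronglyMeasurable
    intro x hx
    refine (hS.dist_le_mul x z).trans ?_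
    exact mul_le_mul_of_nonneg_left (Metric.mem_ball.1 hx).le K.2
  · have hlip : LipschitzWith K S' := by
      apply LipschitzWith.of_dist_le_mul
      intro x y
      rw [dist_eq_norm]
      have e : S' x - S' y = ∫ t, (φ.normed volume t • S (x - t) - φ.normed volume t • S (y - t)) :=
        (integral_sub (hint x) (hint y)).symm
      rw [e]
      have hb : ∀ t, ‖φ.normed volume t • S (x - t) - φ.normed volume t • S (y - t)‖ ≤
          φ.normed volume t * (K * dist x y) := by
        intro t
        have e3 : φ.normed volume t • S (x - t) - φ.normed volume t • S (y - t) =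
          φ.normed volume t • (S (x - t) - S (y - t)) :=
          (smul_sub (φ.normed volume t) (S (x - t)) (S (y - t))).symm
        rw [e3, norm_smul, Real.norm_of_nonneg (hφ0 t)]
        apply mul_le_mul_of_nonneg_left _ (hφ0 t)
        rw [← dist_eq_norm]
        refine (hS.dist_le_mul _ _).trans ?_
        rw [dist_sub_right]
      calc ‖∫ t, (φ.normed volume t • S (x - t) - φ.normed volume t • S (y - t))‖
          ≤ ∫ t, φ.normed volume t * (K * dist x y) :=
            norm_integral_le_of_norm_le (hφint.mul_const _) (Eventually.of_forall hb)
        _ = K * dist x y := by rw [integral_mul_const, hφ1, one_mul]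
    intro z
    exact norm_fderiv_le_of_lipschitz ℝ hlip
  · intro z hz x
    let ev : (F m →L[ℝ] X1 m) →L[ℝ] ℝ :=
      (EuclideanSpace.proj (none : Option (Fin m)) : X1 m →L[ℝ] ℝ).comp
        (ContinuousLinearMap.apply ℝ (X1 m) x)
    have hev : ∀ T : F m →L[ℝ] X1 m, ev T = T x none := fun T => rfl
    rw [← hev]
    have e : ev (S' z) = ∫ t, ev (φ.normed volume t • S (z - t)) :=
      (ev.integral_comp_comm (hint z)).symm
    rw [e]
    apply integral_eq_zero_of_ae
    refine Eventually.of_forall fun t => ?_
    show ev (φ.normed volume t • S (z - t)) = 0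
    have e4 : ev (φ.normed volume t • S (z - t)) = φ.normed volume t * S (z - t) x none :=
      ev.map_smul (φ.normed volume t) (S (z - t))
    rw [e4]
    by_cases ht : t ∈ Function.support (φ.normed volume)
    · rw [φ.support_normed_eq] at ht
      have h1 : ‖t‖ < δ := by
        have := Metric.mem_ball.1 ht
        rwa [dist_zero_right] at this
      have h2 : 2 ≤ ‖z - t‖ := by
        have := norm_sub_norm_le z t
        linarith
      rw [hvert _ h2 x, mul_zero]
    · have h3 : φ.normed volume t = 0 := by
        by_contra h
        exact ht h
      rw [h3, zero_mul]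

end Pool.Agent.Lib.MP_5c4da9_an
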