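import Pool.Agent.Lib.MP_5c4da9_an.WDefs

/-!
# The map `nu`
-/

set_option autoImplicit false

open Set Filter Topology Module MeasureTheory

noncomputable section

namespace Pool.Agent.Lib.MP_5c4da9_an

theorem WNu_bcut : ContDiff ℝ 2 bcut := by
  unfold bcut
  exact contDiff_const.sub (Real.smoothTransition.contDiff.comp (contDiff_id.sub contDiff_const))

theorem WNu_none {m : ℕ} (z : F m) : nu z none = ‖z‖ ^ 2 - 1 := rfl

theorem WNu_some {m : ℕ} (z : F m) (i : Fin m) : nu z (some i) = bcut (‖z‖ ^ 2) * z i := rfl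

theorem nu_contDiff (m : ℕ) : ContDiff ℝ 2 (nu (m := m)) := by
  rw [contDiff_euclidean]
  intro o
  cases o with
  | none =>
    simp only [WNu_none]
    exact (contDiff_norm_sq ℝ).sub contDiff_const
  | some i =>
    simp only [WNu_some]
    exact (WNu_bcut.comp (contDiff_norm_sq ℝ)).mul (EuclideanSpace.proj i : F m →L[ℝ] ℝ).contDiff

theorem nu_ne_zero (m : ℕ) (z : F m) : nu z ≠ 0 := by
  intro h
  have h1 : ‖z‖ ^ 2 = 1 := by
    have := congrArg (fun w : X1 m => w none) h
    simp only [WNu_none] at this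
    have h0 : (0 : X1 m) none = 0 := rfl
    rw [h0] at this
    linarith
  have h2 : bcut (‖z‖ ^ 2) = 1 := by
    rw [h1, bcut, Real.smoothTransition.zero_of_nonpos (by norm_num)]
    norm_num
  have h3 : z = 0 := by
    ext i
    have := congrArg (fun w : X1 m => w (some i)) h
    simp only [WNu_some, h2, one_mul] at this
    exact this
  rw [h3] at h1
  simp at h1

theorem nu_const (m : ℕ) (z : F m) (hz : 2 ≤ ‖z‖) : ‖nu z‖⁻¹ • nu z = e0 m := by
  have h1 : bcut (‖z‖ ^ 2) = 0 := by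
    rw [bcut, Real.smoothTransition.one_of_one_le (by nlinarith)]
    norm_num
  have h2 : nu z = (‖z‖ ^ 2 - 1) • e0 m := by
    ext o
    cases o with
    | none => simp [WNu_none, e0]
    | some i => simp [WNu_some, h1, e0]
  have h3 : 0 < ‖z‖ ^ 2 - 1 := by nlinarith
  have h4 : ‖nu z‖ = ‖z‖ ^ 2 - 1 := by
    rw [h2, norm_smul, Real.norm_of_nonneg h3.le]
    simp [e0]
  rw [h4, h2, smul_smul, inv_mul_cancel₀ h3.ne', one_smul]

theorem nu_lipschitz (m : ℕ) : ∃ K : NNReal, LipschitzWith K fun z : F m => ‖nu z‖⁻¹ • nu z := by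
  have h1 : ContDiff ℝ 2 fun z : F m => ‖nu z‖⁻¹ • nu z - e0 m := by
    refine ContDiff.sub (ContDiff.smul (ContDiff.inv ((nu_contDiff m).norm ℝ (nu_ne_zero m))
      fun z => norm_ne_zero_iff.2 (nu_ne_zero m z)) (nu_contDiff m)) contDiff_const
  have h2 : HasCompactSupport fun z : F m => ‖nu z‖⁻¹ • nu z - e0 m := by
    refine HasCompactSupport.intro (isCompact_closedBall (0 : F m) 2) fun z hz => ?_
    rw [nu_const m z, sub_self]
    rw [mem_closedBall_zero_iff, not_le] at hz
    exact hz.le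
  obtain ⟨K, hK⟩ := h1.lipschitzWith_of_hasCompactSupport h2 (by norm_num)
  refine ⟨K, ?_⟩
  intro x y
  have := hK x y
  simpa [edist_eq_enorm_sub] using this

theorem nuStmt_of (h1 : ∀ (m : ℕ) (z : F m), jac nu z ≤ 0)
    (h2 : ∀ m : ℕ, jac (nu (m := m)) 0 < 0) : NuStmt := fun m =>
  ⟨nu_contDiff m, nu_ne_zero m, nu_lipschitz m, nu_const m, h1 m, h2 m⟩

end Pool.Agent.Lib.MP_5c4da9_an
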