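import Pool.Agent.Lib.MP_5c4da9_an.WDefs

/-!
# The sign of `jac nu`
-/

set_option autoImplicit false

open Set Filter Topology Module MeasureTheory

noncomputable section

namespace Pool.Agent.Lib.MP_5c4da9_an

open Matrix in
private theorem WNuDet_factor (m : ℕ) (z : Fin m → ℝ) (α β γ : ℝ) :
    Matrix.fromBlocks (β • (1 : Matrix (Fin m) (Fin m) ℝ) + Matrix.of fun i j => 2 * γ * z i * z j)
      (Matrix.of fun i (_ : Unit) => β * z i) (Matrix.of fun (_ : Unit) j => 2 * z j)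
      (Matrix.of fun (_ : Unit) (_ : Unit) => α) =
    Matrix.fromBlocks (1 : Matrix (Fin m) (Fin m) ℝ) (Matrix.of fun i (_ : Unit) => γ * z i) 0
      (1 : Matrix Unit Unit ℝ) *
    Matrix.fromBlocks (β • (1 : Matrix (Fin m) (Fin m) ℝ))
      (Matrix.of fun i (_ : Unit) => -(γ * α * z i)) (Matrix.of fun (_ : Unit) j => 2 * z j)
      (Matrix.of fun (_ : Unit) (_ : Unit) => α - 2 * ∑ i, z i ^ 2) *
    Matrix.fromBlocks (1 : Matrix (Fin m) (Fin m) ℝ) (Matrix.of fun i (_ : Unit) => z i) 0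
      (1 : Matrix Unit Unit ℝ) := by
  rw [Matrix.fromBlocks_multiply, Matrix.fromBlocks_multiply]
  simp only [Matrix.one_mul, Matrix.zero_mul, Matrix.mul_one, Matrix.mul_zero, zero_add, add_zero]
  congr 1
  · ext i j
    simp only [Matrix.add_apply, Matrix.of_apply, Matrix.mul_apply, Finset.univ_unique,
      Finset.sum_singleton]
    ring
  · ext i j
    simp only [Matrix.add_apply, Matrix.of_apply, Matrix.mul_apply, Finset.univ_unique,
      Finset.sum_singleton, add_mul, Finset.sum_add_distrib, Matrix.smul_apply, smul_eq_mul]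
    have h1 : ∑ x, β * (1 : Matrix (Fin m) (Fin m) ℝ) i x * z x = β * z i := by
      rw [Finset.sum_eq_single i]
      · simp
      · intro b _ hb
        rw [Matrix.one_apply_ne (Ne.symm hb)]; ring
      · simp
    have h2 : ∑ x, γ * z i * (2 * z x) * z x = 2 * γ * z i * ∑ x, z x ^ 2 := by
      rw [Finset.mul_sum]
      exact Finset.sum_congr rfl fun x _ => by ring
    rw [h1, h2]
    ring
  · ext i j
    simp only [Matrix.add_apply, Matrix.of_apply, Matrix.mul_apply]
    have h2 : ∑ x, 2 * z x * z x = 2 * ∑ x, z x ^ 2 := by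
      rw [Finset.mul_sum]
      exact Finset.sum_congr rfl fun x _ => by ring
    rw [h2]
    ring

open Matrix in
private theorem WNuDet_det (m : ℕ) (z : Fin m → ℝ) (α β γ : ℝ) (hβ : 0 < β) :
    (Matrix.fromBlocks (β • (1 : Matrix (Fin m) (Fin m) ℝ) +
      Matrix.of fun i j => 2 * γ * z i * z j)
      (Matrix.of fun i (_ : Unit) => β * z i) (Matrix.of fun (_ : Unit) j => 2 * z j)
      (Matrix.of fun (_ : Unit) (_ : Unit) => α)).det =
    β ^ m * (α - 2 * ∑ i, z i ^ 2 + 2 * β⁻¹ * γ * α * ∑ i, z i ^ 2) := by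
  rw [WNuDet_factor, Matrix.det_mul, Matrix.det_mul, Matrix.det_fromBlocks_zero₂₁,
    Matrix.det_fromBlocks_zero₂₁, Matrix.det_one, Matrix.det_one, one_mul, one_mul, mul_one]
  have hβ0 : β ≠ 0 := hβ.ne'
  let _ : Invertible (β • (1 : Matrix (Fin m) (Fin m) ℝ)) :=
    ⟨β⁻¹ • 1, by simp [hβ0, smul_smul], by simp [hβ0, smul_smul]⟩
  have hinv : ⅟(β • (1 : Matrix (Fin m) (Fin m) ℝ)) = β⁻¹ • 1 := rfl
  rw [Matrix.det_fromBlocks₁₁, hinv, Matrix.det_smul, Matrix.det_one, Fintype.card_fin, mul_one,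
    Matrix.det_unique]
  congr 1
  simp only [Matrix.sub_apply, Matrix.of_apply, Matrix.mul_apply, Matrix.smul_apply, smul_eq_mul]
  have h1 : ∀ x, ∑ y, 2 * z y * (β⁻¹ * (1 : Matrix (Fin m) (Fin m) ℝ) y x) = 2 * z x * β⁻¹ := by
    intro x
    rw [Finset.sum_eq_single x]
    · simp
    · intro b _ hb
      rw [Matrix.one_apply_ne hb]; ring
    · simp
  simp only [h1]
  have h2 : ∑ x, 2 * z x * β⁻¹ * -(γ * α * z x) = -(2 * β⁻¹ * γ * α * ∑ i, z i ^ 2) := by
    rw [Finset.mul_sum, ← Finset.sum_neg_distrib]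
    exact Finset.sum_congr rfl fun x _ => by ring
  rw [h2]
  ring

/-! ### the cut-off -/

private theorem WNuDet_bcut_diff : Differentiable ℝ bcut := by
  unfold bcut
  have h : Differentiable ℝ Real.smoothTransition :=
    (Real.smoothTransition.contDiff (n := 1)).differentiable (by simp)
  exact (differentiable_const 1).sub (h.comp (differentiable_id.sub_const 1))

private theorem WNuDet_bcut_nonneg (t : ℝ) : 0 ≤ bcut t :=
  sub_nonneg.2 (Real.smoothTransition.le_one _)

private theorem WNuDet_bcut_antitone : Antitone bcut := fun _ _ h =>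
  sub_le_sub_left (Real.smoothTransition.monotone (sub_le_sub_right h 1)) 1

private theorem WNuDet_deriv_nonpos (t : ℝ) : deriv bcut t ≤ 0 :=
  WNuDet_bcut_antitone.deriv_nonpos

private theorem WNuDet_deriv_zero {t : ℝ} (ht : t < 1) : deriv bcut t = 0 := by
  have h : bcut =ᶠ[𝓝 t] fun _ => 1 := by
    filter_upwards [gt_mem_nhds ht] with s hs
    unfold bcut
    rw [Real.smoothTransition.zero_of_nonpos (by linarith), sub_zero]
  rw [h.deriv_eq]
  simp

private theorem WNuDet_deriv_zero' {t : ℝ} (ht : bcut t = 0) : deriv bcut t = 0 := by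
  have h : IsLocalMin bcut t := Filter.Eventually.of_forall fun s => by
    rw [ht]; exact WNuDet_bcut_nonneg s
  exact h.deriv_eq_zero

private theorem WNuDet_bcut_zero {t : ℝ} (ht : bcut t = 0) : 2 ≤ t := by
  unfold bcut at ht
  have : Real.smoothTransition (t - 1) = 1 := by linarith
  have := Real.smoothTransition.eq_one_iff_one_le.1 this
  linarith

/-! ### the derivative of `nu` -/

private theorem WNuDet_hasFDeriv {m : ℕ} (z : F m) (o : Option (Fin m)) :
    HasFDerivAt (fun x : F m => nu x o)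
      (o.elim (2 • (innerSL ℝ z) : F m →L[ℝ] ℝ) fun i =>
        bcut (‖z‖ ^ 2) • (EuclideanSpace.proj i : F m →L[ℝ] ℝ) +
          z i • (deriv bcut (‖z‖ ^ 2) • (2 • (innerSL ℝ z) : F m →L[ℝ] ℝ))) z := by
  have hn : HasFDerivAt (fun x : F m => ‖x‖ ^ 2) (2 • (innerSL ℝ z) : F m →L[ℝ] ℝ) z :=
    (hasStrictFDerivAt_norm_sq z).hasFDerivAt
  cases o with
  | none => exact hn.sub_const 1
  | some i =>
    have hb : HasFDerivAt (fun x : F m => bcut (‖x‖ ^ 2))
        (deriv bcut (‖z‖ ^ 2) • (2 • (innerSL ℝ z) : F m →L[ℝ] ℝ)) z :=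
      (WNuDet_bcut_diff _).hasDerivAt.comp_hasFDerivAt z hn
    have hp : HasFDerivAt (fun x : F m => x i) (EuclideanSpace.proj i : F m →L[ℝ] ℝ) z :=
      (EuclideanSpace.proj i : F m →L[ℝ] ℝ).hasFDerivAt
    exact hb.mul hp

private theorem WNuDet_pd {m : ℕ} (z : F m) (j : Fin m) (o : Option (Fin m)) :
    pd nu z j o = o.elim (2 * z j) fun i =>
      bcut (‖z‖ ^ 2) * (if i = j then 1 else 0) + 2 * deriv bcut (‖z‖ ^ 2) * z i * z j := by
  have hd : DifferentiableAt ℝ (nu (m := m)) z := by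
    rw [differentiableAt_euclidean]
    intro o
    exact (WNuDet_hasFDeriv z o).differentiableAt
  have h1 : HasFDerivAt (fun x : F m => nu x o)
      ((EuclideanSpace.proj o : X1 m →L[ℝ] ℝ).comp (fderiv ℝ nu z)) z :=
    (EuclideanSpace.proj o : X1 m →L[ℝ] ℝ).hasFDerivAt.comp z hd.hasFDerivAt
  have h2 := h1.unique (WNuDet_hasFDeriv z o)
  have h3 := congrArg (fun L : F m →L[ℝ] ℝ => L (EuclideanSpace.single j 1)) h2
  change pd nu z j o = _ at h3
  rw [h3]
  have h4 : inner ℝ z (EuclideanSpace.single j (1 : ℝ)) = z j := by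
    rw [EuclideanSpace.inner_single_right]
    simp
  cases o with
  | none =>
    simp [h4]
  | some i =>
    simp [h4]
    ring

private theorem WNuDet_jac {m : ℕ} (z : F m) : jac nu z =
    (Matrix.fromBlocks (bcut (‖z‖ ^ 2) • (1 : Matrix (Fin m) (Fin m) ℝ) +
      Matrix.of fun i j => 2 * deriv bcut (‖z‖ ^ 2) * z i * z j)
      (Matrix.of fun i (_ : Unit) => bcut (‖z‖ ^ 2) * z i)
      (Matrix.of fun (_ : Unit) j => 2 * z j)
      (Matrix.of fun (_ : Unit) (_ : Unit) => ‖z‖ ^ 2 - 1)).det := by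
  unfold jac dt
  rw [← Matrix.det_submatrix_equiv_self (Equiv.optionEquivSumPUnit (Fin m)).symm]
  congr 1
  ext i j
  rcases i with i | i <;> rcases j with j | j
  · simp [WNuDet_pd, Matrix.one_apply]
  · simp [nu]
  · simp [WNuDet_pd]
  · simp [nu]

private theorem WNuDet_norm {m : ℕ} (z : F m) : ∑ i, z i ^ 2 = ‖z‖ ^ 2 := by
  rw [EuclideanSpace.norm_sq_eq]
  simp

private theorem WNuDet_neg {m : ℕ} (z : F m) (hβ : 0 < bcut (‖z‖ ^ 2)) : jac nu z < 0 := by
  rw [WNuDet_jac, WNuDet_det m (fun i => z i) _ _ _ hβ, WNuDet_norm]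
  obtain ⟨t, ht⟩ : ∃ t, t = ‖z‖ ^ 2 := ⟨_, rfl⟩
  rw [← ht] at hβ ⊢
  have ht0 : 0 ≤ t := by rw [ht]; positivity
  have h1 : deriv bcut t * (t - 1) ≤ 0 := by
    rcases lt_or_ge t 1 with h | h
    · rw [WNuDet_deriv_zero h]; simp
    · exact mul_nonpos_of_nonpos_of_nonneg (WNuDet_deriv_nonpos t) (by linarith)
  have h2 : 2 * (bcut t)⁻¹ * deriv bcut t * (t - 1) * t ≤ 0 := by
    have h3 : 2 * (bcut t)⁻¹ * deriv bcut t * (t - 1) * t =
        (2 * (bcut t)⁻¹ * t) * (deriv bcut t * (t - 1)) := by ring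
    rw [h3]
    exact mul_nonpos_of_nonneg_of_nonpos (by positivity) h1
  exact mul_neg_of_pos_of_neg (pow_pos hβ m) (by linarith)

theorem jac_nu_nonpos (m : ℕ) (z : F m) : jac nu z ≤ 0 := by
  rcases (WNuDet_bcut_nonneg (‖z‖ ^ 2)).lt_or_eq with h | h
  · exact (WNuDet_neg z h).le
  · have h0 := h.symm
    have h2 := WNuDet_bcut_zero h0
    have hm : ∃ i : Fin m, z i ≠ 0 := by
      by_contra hcon
      push Not at hcon
      have : ∑ i, z i ^ 2 = 0 := Finset.sum_eq_zero fun i _ => by rw [hcon i]; ring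
      rw [WNuDet_norm] at this
      linarith
    obtain ⟨i, _⟩ := hm
    have h3 : jac nu z = 0 := by
      rw [WNuDet_jac]
      refine Matrix.det_eq_zero_of_row_eq_zero (Sum.inl i) ?_
      intro j
      rcases j with j | j
      · simp [h0, WNuDet_deriv_zero' h0]
      · simp [h0]
    rw [h3]

theorem jac_nu_zero (m : ℕ) : jac (nu (m := m)) 0 < 0 := by
  apply WNuDet_neg
  unfold bcut
  rw [Real.smoothTransition.zero_of_nonpos (by simp)]
  norm_num

end Pool.Agent.Lib.MP_5c4da9_an
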