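import Pool.Agent.Lib.MP_5c4da9_an.WDefs

/-!
# W8: the functions `φ₋`, `φ₊`
-/

set_option autoImplicit false

open Set Filter Topology Module MeasureTheory

namespace Pool.Agent.Lib.MP_5c4da9_an

/-- `t ↦ max t 0 ^ j` has the derivative `j max t 0 ^ (j-1)` for `j ≥ 2`. -/
theorem WPhi_hasDerivAt {j : ℕ} (hj : 2 ≤ j) (t : ℝ) :
    HasDerivAt (fun t : ℝ => max t 0 ^ j) ((j : ℝ) * max t 0 ^ (j - 1)) t := by
  have hne : ∀ y : ℝ, y ≠ 0 → HasDerivAt (fun t : ℝ => max t 0 ^ j) ((j : ℝ) * max y 0 ^ (j - 1)) y := by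
    intro y hy
    rcases lt_or_gt_of_ne hy with h | h
    · have h1 : (fun t : ℝ => max t 0 ^ j) =ᶠ[𝓝 y] fun _ => (0 : ℝ) := by
        filter_upwards [Iio_mem_nhds h] with s hs
        rw [max_eq_right (le_of_lt hs), zero_pow (by omega)]
      rw [max_eq_right h.le, zero_pow (by omega), mul_zero]
      exact (hasDerivAt_const y (0 : ℝ)).congr_of_eventuallyEq h1
    · have h1 : (fun t : ℝ => max t 0 ^ j) =ᶠ[𝓝 y] fun t => t ^ j := by
        filter_upwards [Ioi_mem_nhds h] with s hs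
        rw [max_eq_left (le_of_lt hs)]
      rw [max_eq_left h.le]
      exact (hasDerivAt_pow j y).congr_of_eventuallyEq h1
  by_cases ht : t = 0
  · subst ht
    have hc : Continuous (fun t : ℝ => max t 0 ^ j) := (continuous_id.max continuous_const).pow j
    have hc' : Continuous (fun t : ℝ => (j : ℝ) * max t 0 ^ (j - 1)) :=
      continuous_const.mul ((continuous_id.max continuous_const).pow (j - 1))
    exact hasDerivAt_of_hasDerivAt_of_ne' hne hc.continuousAt hc'.continuousAt 0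
  · exact hne t ht

theorem WPhi_contDiff {j : ℕ} (hj : 2 ≤ j) : ContDiff ℝ 1 (fun t : ℝ => max t 0 ^ j) := by
  rw [contDiff_one_iff_deriv]
  refine ⟨fun t => (WPhi_hasDerivAt hj t).differentiableAt, ?_⟩
  have h1 : deriv (fun t : ℝ => max t 0 ^ j) = fun t => (j : ℝ) * max t 0 ^ (j - 1) := by
    funext t
    exact (WPhi_hasDerivAt hj t).deriv
  rw [h1]
  exact continuous_const.mul ((continuous_id.max continuous_const).pow (j - 1))

/-- the general statement, for a linear form `l` -/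
theorem WPhi_general {m : ℕ} {N : X1 m → ℝ} (hN : IsNorm N)
    (hs : ContDiff ℝ 1 fun x => N x ^ 2) (hm : Even (m + 1)) {j : ℕ} (hj : 2 ≤ j) (hje : Even j)
    (l : X1 m →L[ℝ] ℝ) (f : X1 m → ℝ)
    (hf : ∀ x, f x = max (l x) 0 ^ j / (N x ^ 2) ^ ((m + 1 + j) / 2)) :
    ContDiffOn ℝ 1 f {0}ᶜ ∧ ∀ x, x ≠ 0 → fderiv ℝ f x x = -((m : ℝ) + 1) * f x := by
  have hfe : f = fun x => max (l x) 0 ^ j / (N x ^ 2) ^ ((m + 1 + j) / 2) := funext hf
  have hp : 2 * ((m + 1 + j) / 2) = m + 1 + j := Nat.two_mul_div_two_of_even (hm.add hje)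
  have hcd : ContDiffOn ℝ 1 f {0}ᶜ := by
    rw [hfe]
    apply ContDiffOn.div
    · exact ((WPhi_contDiff hj).comp l.contDiff).contDiffOn
    · exact (hs.pow _).contDiffOn
    · intro x hx
      have hx' : x ≠ 0 := hx
      have := hN.pos x hx'
      positivity
  refine ⟨hcd, fun x hx => ?_⟩
  have hdiff : DifferentiableAt ℝ f x := by
    have h1 : ContDiffAt ℝ 1 f x := hcd.contDiffAt (isOpen_compl_singleton.mem_nhds hx)
    exact h1.differentiableAt (by norm_num)
  have hNx := hN.pos x hx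
  -- homogeneity
  have hhom : ∀ t : ℝ, 0 < t → f (t • x) * t ^ (m + 1) = f x := by
    intro t ht
    rw [hf, hf, hN.smul, abs_of_pos ht, map_smul, smul_eq_mul]
    have h1 : max (t * l x) 0 = t * max (l x) 0 := by
      rw [mul_max_of_nonneg _ _ ht.le, mul_zero]
    rw [h1, mul_pow, mul_pow, mul_pow, ← pow_mul, hp, pow_add]
    have h2 : (N x ^ 2) ^ ((m + 1 + j) / 2) ≠ 0 := by positivity
    have h3 : t ^ (m + 1) ≠ 0 := by positivity
    have h4 : t ^ j ≠ 0 := by positivity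
    field_simp
  -- the derivative of `t ↦ f (t x)` at `1`
  have hg : HasDerivAt (fun t : ℝ => f (t • x)) (fderiv ℝ f x x) 1 := by
    have h1 : HasDerivAt (fun t : ℝ => t • x) x 1 := by
      simpa using (hasDerivAt_id (1 : ℝ)).smul_const x
    have h2 : HasFDerivAt f (fderiv ℝ f x) ((1 : ℝ) • x) := by
      rw [one_smul]; exact hdiff.hasFDerivAt
    exact h2.comp_hasDerivAt 1 h1
  have hp1 : HasDerivAt (fun t : ℝ => t ^ (m + 1)) ((m : ℝ) + 1) 1 := by
    have := hasDerivAt_pow (m + 1) (1 : ℝ)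
    simpa using this
  have hprod := hg.mul hp1
  have heq : (fun t : ℝ => f (t • x) * t ^ (m + 1)) =ᶠ[𝓝 1] fun _ => f x := by
    filter_upwards [Ioi_mem_nhds (zero_lt_one' ℝ)] with t ht
    exact hhom t ht
  have hconst : HasDerivAt (fun t : ℝ => f (t • x) * t ^ (m + 1)) 0 1 :=
    (hasDerivAt_const (1 : ℝ) (f x)).congr_of_eventuallyEq heq
  have huniq := hprod.unique hconst
  simp only [one_smul, one_pow, mul_one] at huniq
  linarith

theorem phiStmt : PhiStmt := by
  intro m N hN hs hm j hj hje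
  have hM := WPhi_general hN hs hm hj hje (-(EuclideanSpace.proj (𝕜 := ℝ) none : X1 m →L[ℝ] ℝ))
    (phiM N j) (fun x => by simp [phiM])
  have hP := WPhi_general hN hs hm hj hje (EuclideanSpace.proj (𝕜 := ℝ) none : X1 m →L[ℝ] ℝ)
    (phiP N j) (fun x => by simp [phiP])
  exact ⟨hM.1, hP.1, hM.2, hP.2⟩

end Pool.Agent.Lib.MP_5c4da9_an
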