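import Pool.Agent.Lib.MP_5c4da9_an.WDefs

set_option autoImplicit false

open Set Filter Topology Module MeasureTheory

noncomputable section

namespace Pool.Agent.Lib.MP_5c4da9_an

theorem WPolInt_fderiv {m : ℕ} {S : F m → (F m →L[ℝ] X1 m)} (hS : ContDiff ℝ 2 S) (z y : F m)
    (i : Fin m) :
    pd (fun z => S z y) z i = (fderiv ℝ S z (EuclideanSpace.single i 1)) y := by
  unfold pd
  have h : HasFDerivAt S (fderiv ℝ S z) z :=
    ((hS.differentiable (by norm_num)) z).hasFDerivAt
  have h2 := h.clm_apply (hasFDerivAt_const y z)
  rw [h2.fderiv]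
  simp

theorem WPolInt_pow (h : PolyDStmt) {g : ℝ → ℝ} (hg : PolyD 1 g) (j : ℕ) :
    PolyD j fun t => g t ^ j := by
  induction j with
  | zero => exact ⟨1, by simp, fun t => by simp⟩
  | succ n ih =>
    have := h.2.2.1 n 1 _ _ ih hg
    simpa [pow_succ] using this

theorem WPolInt_affine (a b : ℝ) : PolyD 1 fun t => a + t * b := by
  refine ⟨Polynomial.C b * Polynomial.X + Polynomial.C a, Polynomial.natDegree_linear_le, ?_⟩
  intro t
  simp
  ring

theorem WPolInt_jac {m : ℕ} {S : F m → (F m →L[ℝ] X1 m)} (hS : ContDiff ℝ 2 S) (z y w : F m)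
    (t : ℝ) :
    jac (fun z => S z (y + t • w)) z =
      dt fun o : Option (Fin m) => (o.elim (S z y) (pd (fun z => S z y) z) : X1 m) +
        t • (o.elim (S z w) (pd (fun z => S z w) z) : X1 m) := by
  unfold jac
  congr 1
  funext o
  cases o with
  | none => simp
  | some i =>
    simp only [Option.elim_some, WPolInt_fderiv hS]
    simp

theorem WPolInt_integrable {m : ℕ} {S : F m → (F m →L[ℝ] X1 m)} (hS : ContDiff ℝ 2 S) {j : ℕ}
    (hj : 1 ≤ j) (h0 : ∀ z, 3 ≤ ‖z‖ → ∀ y, S z y none = 0) (y : F m) :
    Integrable fun z => (S z y none) ^ j * jac (fun z => S z y) z := by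
  apply Continuous.integrable_of_hasCompactSupport
  · have hc : Continuous S := hS.continuous
    have hc' : Continuous fun z => fderiv ℝ S z := hS.continuous_fderiv (by norm_num)
    have h1 : Continuous fun z => S z y := hc.clm_apply continuous_const
    have h1o : ∀ o, Continuous fun z => S z y o := fun o =>
      (PiLp.continuous_apply 2 (fun _ : Option (Fin m) => ℝ) o).comp h1
    refine ((h1o none).pow j).mul ?_
    unfold jac dt
    apply Continuous.matrix_det
    refine continuous_matrix ?_
    intro o o'
    cases o' with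
    | none => simpa using h1o o
    | some i =>
      have : Continuous fun z => (fderiv ℝ S z (EuclideanSpace.single i 1)) y :=
        (hc'.clm_apply continuous_const).clm_apply continuous_const
      have h2 := (PiLp.continuous_apply 2 (fun _ : Option (Fin m) => ℝ) o).comp this
      simpa [WPolInt_fderiv hS, Function.comp_def] using h2
  · refine HasCompactSupport.intro (isCompact_closedBall (0 : F m) 3) ?_
    intro z hz
    have hz' : 3 ≤ ‖z‖ := by
      have := hz
      simp only [Metric.mem_closedBall, dist_zero_right, not_le] at this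
      exact this.le
    rw [h0 z hz' y, zero_pow (by omega), zero_mul]

theorem polIntStmt (h : PolyDStmt) : PolIntStmt := by
  intro m j S hj hS h0 y w
  unfold polL
  refine h.2.1 (m + 1 + j) m
    (fun z t => (S z (y + t • w) none) ^ j * jac (fun z => S z (y + t • w)) z) ?_ ?_
  · intro z
    have h1 : PolyD 1 fun t => S z (y + t • w) none := by
      have := WPolInt_affine (S z y none) (S z w none)
      simpa using this
    have h2 := WPolInt_pow h h1 j
    have h3 := h.2.2.2 m (fun o : Option (Fin m) => (o.elim (S z y) (pd (fun z => S z y) z) : X1 m))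
      (fun o : Option (Fin m) => (o.elim (S z w) (pd (fun z => S z w) z) : X1 m))
    have h4 := h.2.2.1 j (m + 1) _ _ h2 h3
    rw [add_comm (m + 1) j]
    simpa only [WPolInt_jac hS] using h4
  · intro t
    exact WPolInt_integrable hS hj h0 (y + t • w)

end Pool.Agent.Lib.MP_5c4da9_an
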