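import Pool.Agent.Lib.MP_5c4da9_an.WDefs

/-!
# W11: closure properties of `PolyD`
-/

set_option autoImplicit false

open Set Filter Topology Module MeasureTheory

noncomputable section

namespace Pool.Agent.Lib.MP_5c4da9_an

/-- The Lagrange basis polynomials at the nodes `0, …, D`. -/
def WPolyD_b (D i : ℕ) : Polynomial ℝ :=
  Lagrange.basis (Finset.range (D + 1)) (fun k : ℕ => (k : ℝ)) i

theorem WPolyD_inj (D : ℕ) :
    Set.InjOn (fun k : ℕ => (k : ℝ)) (Finset.range (D + 1) : Finset ℕ) := by
  intro a _ b _ h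
  simpa using h

theorem WPolyD_iff (D : ℕ) (g : ℝ → ℝ) :
    PolyD D g ↔ ∀ t, g t = ∑ i ∈ Finset.range (D + 1), g i * (WPolyD_b D i).eval t := by
  constructor
  · rintro ⟨P, hP, hg⟩ t
    have hdeg : P.degree < (Finset.range (D + 1)).card := by
      rw [Finset.card_range]
      refine lt_of_le_of_lt Polynomial.degree_le_natDegree ?_
      exact_mod_cast Nat.lt_succ_of_le hP
    have h1 := Lagrange.eq_interpolate (v := fun k : ℕ => (k : ℝ)) (WPolyD_inj D) hdeg
    have h2 : P.eval t = (Lagrange.interpolate (Finset.range (D + 1)) (fun k : ℕ => (k : ℝ))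
        fun i => P.eval ((fun k : ℕ => (k : ℝ)) i)).eval t := by rw [← h1]
    rw [hg t, h2, Lagrange.interpolate_apply, Polynomial.eval_finsetSum]
    refine Finset.sum_congr rfl fun i _ => ?_
    rw [Polynomial.eval_mul, Polynomial.eval_C, hg]
    rfl
  · intro h
    refine ⟨Lagrange.interpolate (Finset.range (D + 1)) (fun k : ℕ => (k : ℝ))
      (fun i => g i), ?_, ?_⟩
    · have h1 := Lagrange.degree_interpolate_lt (v := fun k : ℕ => (k : ℝ))
        (fun i : ℕ => g i) (WPolyD_inj D)
      rw [Finset.card_range] at h1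
      by_cases h0 : (Lagrange.interpolate (Finset.range (D + 1)) (fun k : ℕ => (k : ℝ))
          (fun i => g i)) = 0
      · rw [h0]; simp
      · have h2 := (Polynomial.natDegree_lt_iff_degree_lt h0).mpr h1
        omega
    · intro t
      rw [h t, Lagrange.interpolate_apply, Polynomial.eval_finsetSum]
      refine Finset.sum_congr rfl fun i _ => ?_
      rw [Polynomial.eval_mul, Polynomial.eval_C]
      rfl

theorem WPolyD_lim (D : ℕ) (g : ℕ → ℝ → ℝ) (g' : ℝ → ℝ) (h : ∀ k, PolyD D (g k))
    (hl : ∀ t, Tendsto (fun k => g k t) atTop (𝓝 (g' t))) : PolyD D g' := by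
  rw [WPolyD_iff]
  intro t
  have h1 : Tendsto (fun k => ∑ i ∈ Finset.range (D + 1), g k i * (WPolyD_b D i).eval t) atTop
      (𝓝 (∑ i ∈ Finset.range (D + 1), g' i * (WPolyD_b D i).eval t)) :=
    tendsto_finsetSum _ fun i _ => (hl i).mul_const _
  have h2 : (fun k => ∑ i ∈ Finset.range (D + 1), g k i * (WPolyD_b D i).eval t)
      = fun k => g k t := by
    funext k
    exact ((WPolyD_iff D (g k)).mp (h k) t).symm
  rw [h2] at h1
  exact tendsto_nhds_unique (hl t) h1

theorem WPolyD_int (D m : ℕ) (q : F m → ℝ → ℝ) (h : ∀ z, PolyD D (q z))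
    (hi : ∀ t, Integrable fun z => q z t) : PolyD D fun t => ∫ z, q z t := by
  rw [WPolyD_iff]
  intro t
  have h1 : ∀ z, q z t = ∑ i ∈ Finset.range (D + 1), q z i * (WPolyD_b D i).eval t :=
    fun z => (WPolyD_iff D (q z)).mp (h z) t
  calc ∫ z, q z t = ∫ z, ∑ i ∈ Finset.range (D + 1), q z i * (WPolyD_b D i).eval t := by
        simp_rw [← h1]
    _ = ∑ i ∈ Finset.range (D + 1), ∫ z, q z i * (WPolyD_b D i).eval t := by
        rw [integral_finsetSum]
        intro i _
        exact (hi i).mul_const _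
    _ = ∑ i ∈ Finset.range (D + 1), (∫ z, q z i) * (WPolyD_b D i).eval t := by
        refine Finset.sum_congr rfl fun i _ => ?_
        rw [integral_mul_const]

theorem WPolyD_mul (D D' : ℕ) (g g' : ℝ → ℝ) (h : PolyD D g) (h' : PolyD D' g') :
    PolyD (D + D') fun t => g t * g' t := by
  obtain ⟨P, hP, hg⟩ := h
  obtain ⟨Q, hQ, hg'⟩ := h'
  refine ⟨P * Q, Polynomial.natDegree_mul_le.trans (add_le_add hP hQ), fun t => ?_⟩
  rw [Polynomial.eval_mul, ← hg, ← hg']

theorem WPolyD_det (m : ℕ) (u w : Option (Fin m) → X1 m) :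
    PolyD (m + 1) fun t => dt fun o => u o + t • w o := by
  classical
  refine ⟨Matrix.det (Matrix.of fun i j : Option (Fin m) =>
    (Polynomial.C (u j i) + Polynomial.X * Polynomial.C (w j i) : Polynomial ℝ)), ?_, ?_⟩
  · rw [Matrix.det_apply]
    refine Polynomial.natDegree_sum_le_of_forall_le _ _ fun σ _ => ?_
    have h1 : (∏ i : Option (Fin m), (Matrix.of fun i j : Option (Fin m) =>
        (Polynomial.C (u j i) + Polynomial.X * Polynomial.C (w j i) : Polynomial ℝ))
          (σ i) i).natDegree ≤ m + 1 := by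
      refine (Polynomial.natDegree_prod_le _ _).trans ?_
      refine (Finset.sum_le_card_nsmul _ _ 1 fun i _ => ?_).trans ?_
      · rw [Matrix.of_apply]
        refine (Polynomial.natDegree_add_le _ _).trans ?_
        rw [Polynomial.natDegree_C]
        refine max_le (Nat.zero_le _) ?_
        refine Polynomial.natDegree_mul_le.trans ?_
        rw [Polynomial.natDegree_C, add_zero]
        exact Polynomial.natDegree_X_le
      · simp
    exact (Polynomial.natDegree_smul_le _ _).trans h1
  · intro t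
    unfold dt
    rw [← Polynomial.coe_evalRingHom, RingHom.map_det]
    refine congrArg Matrix.det ?_
    ext i j
    simp [RingHom.mapMatrix_apply, Matrix.map_apply]
    ring

theorem polyDStmt : PolyDStmt :=
  ⟨WPolyD_lim, WPolyD_int, WPolyD_mul, WPolyD_det⟩

end Pool.Agent.Lib.MP_5c4da9_an
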