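import Pool.Agent.Lib.MP_5c4da9_an.WDefs

/-!
# The nearest point projections onto the sets of isometries are Lipschitz
-/

set_option autoImplicit false

open Set Filter Topology Module

noncomputable section

namespace Pool.Agent.Lib.MP_5c4da9_an

/-- The pure inequality. -/
theorem WProj_core {H : Type*} [NormedAddCommGroup H] [InnerProductSpace ℝ H]
    (A A' T T' T'' R R' u r₁ r₂ : H) (hu : u = T' - T'') (hR : R = T + (1 / 2 : ℝ) • u + r₁)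
    (hR' : R' = T' - (1 / 2 : ℝ) • u + r₂) (h1 : ‖A - T‖ ≤ ‖A - R‖) (h2 : ‖A' - T'‖ ≤ ‖A' - R'‖) :
    ‖u‖ ^ 2 / 2 ≤ (‖A - A'‖ + ‖T'' - T‖) * ‖u‖ + (‖u‖ + ‖r₁‖ + 2 * ‖A - T‖) * ‖r₁‖ +
      (‖u‖ + ‖r₂‖ + 2 * ‖A' - T'‖) * ‖r₂‖ := by
  obtain ⟨X, hX⟩ : ∃ X, X = A - T := ⟨_, rfl⟩
  obtain ⟨Y, hY⟩ : ∃ Y, Y = A' - T' := ⟨_, rfl⟩
  have e1 : A - R = X - ((1 / 2 : ℝ) • u + r₁) := by rw [hR, hX]; abel
  have e2 : A' - R' = Y - (r₂ - (1 / 2 : ℝ) • u) := by rw [hR', hY]; abel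
  have e3 : X - Y = (A - A') + u + (T'' - T) := by rw [hX, hY, hu]; abel
  rw [← hX] at h1 ⊢
  rw [← hY] at h2 ⊢
  have s1 : ‖X‖ ^ 2 ≤ ‖A - R‖ ^ 2 := pow_le_pow_left₀ (norm_nonneg _) h1 2
  have s2 : ‖Y‖ ^ 2 ≤ ‖A' - R'‖ ^ 2 := pow_le_pow_left₀ (norm_nonneg _) h2 2
  rw [e1, norm_sub_sq_real, inner_add_right, real_inner_smul_right, norm_add_sq_real,
    real_inner_smul_left, norm_smul, Real.norm_of_nonneg (show (0 : ℝ) ≤ 1 / 2 by norm_num)] at s1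
  rw [e2, norm_sub_sq_real, inner_sub_right, real_inner_smul_right, norm_sub_sq_real,
    real_inner_smul_right, norm_smul, Real.norm_of_nonneg (show (0 : ℝ) ≤ 1 / 2 by norm_num)] at s2
  have e4 : inner ℝ X u - inner ℝ Y u = inner ℝ (A - A') u + ‖u‖ ^ 2 + inner ℝ (T'' - T) u := by
    rw [← inner_sub_left, e3, inner_add_left, inner_add_left, real_inner_self_eq_norm_sq]
  have c1 := abs_le.mp (abs_real_inner_le_norm (A - A') u)
  have c2 := abs_le.mp (abs_real_inner_le_norm (T'' - T) u)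
  have c3 := abs_le.mp (abs_real_inner_le_norm X r₁)
  have c4 := abs_le.mp (abs_real_inner_le_norm u r₁)
  have c5 := abs_le.mp (abs_real_inner_le_norm Y r₂)
  have c6 := abs_le.mp (abs_real_inner_le_norm r₂ u)
  linarith [c1.1, c2.1, c3.1, c4.2, c5.1, c6.1]

theorem WProj_hsL_apply {m : ℕ} (A : F m →L[ℝ] X1 m) (i : Fin m) :
    hsL m A i = A (EuclideanSpace.single i (1 : ℝ)) := rfl

/-- Equivalence of the Hilbert-Schmidt norm and of the operator norm. -/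
theorem WProj_equiv (m : ℕ) : ∃ c C : ℝ, 0 < c ∧ 0 < C ∧ ∀ A : F m →L[ℝ] X1 m,
    ‖A‖ ≤ c * ‖hsL m A‖ ∧ ‖hsL m A‖ ≤ C * ‖A‖ := by
  refine ⟨m + 1, m + 1, by positivity, by positivity, fun A => ⟨?_, ?_⟩⟩
  · refine A.opNorm_le_bound (by positivity) fun x => ?_
    have h1 : A x = ∑ i, x i • A (EuclideanSpace.single i (1 : ℝ)) := by
      have h2 : x = ∑ i, x i • EuclideanSpace.single i (1 : ℝ) := by
        have := ((EuclideanSpace.basisFun (Fin m) ℝ).sum_repr x).symm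
        simpa using this
      conv_lhs => rw [h2]
      rw [map_sum]
      simp
    have h3 : ∀ i, ‖x i • A (EuclideanSpace.single i (1 : ℝ))‖ ≤ ‖x‖ * ‖hsL m A‖ := by
      intro i
      rw [norm_smul]
      refine mul_le_mul (PiLp.norm_apply_le x i) ?_ (norm_nonneg _) (norm_nonneg _)
      exact PiLp.norm_apply_le (hsL m A) i
    rw [h1]
    calc ‖∑ i, x i • A (EuclideanSpace.single i (1 : ℝ))‖
        ≤ ∑ i, ‖x i • A (EuclideanSpace.single i (1 : ℝ))‖ := norm_sum_le _ _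
      _ ≤ ∑ _i : Fin m, ‖x‖ * ‖hsL m A‖ := Finset.sum_le_sum fun i _ => h3 i
      _ = m * (‖x‖ * ‖hsL m A‖) := by simp
      _ ≤ (m + 1) * ‖hsL m A‖ * ‖x‖ := by
          have : 0 ≤ ‖x‖ * ‖hsL m A‖ := by positivity
          linarith
  · have h1 : ‖hsL m A‖ ^ 2 ≤ ((m + 1) * ‖A‖) ^ 2 := by
      rw [PiLp.norm_sq_eq_of_L2]
      calc ∑ i, ‖hsL m A i‖ ^ 2 ≤ ∑ _i : Fin m, ‖A‖ ^ 2 := by
            refine Finset.sum_le_sum fun i _ => ?_
            rw [WProj_hsL_apply]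
            have h2 := A.le_opNorm (EuclideanSpace.single i (1 : ℝ))
            rw [PiLp.norm_single, norm_one, mul_one] at h2
            exact pow_le_pow_left₀ (norm_nonneg _) h2 2
        _ = m * ‖A‖ ^ 2 := by simp
        _ ≤ ((m + 1) * ‖A‖) ^ 2 := by
            have h3 : (0 : ℝ) ≤ m := Nat.cast_nonneg m
            have h4 : 0 ≤ ‖A‖ ^ 2 := by positivity
            nlinarith [mul_nonneg h3 h4, mul_nonneg (mul_nonneg h3 h3) h4]
    exact le_of_sq_le_sq h1 (by positivity)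

/-- W2. -/
theorem projStmt (h0 : WBaseStmt) (h1 : LipStmt) (h3 : CartanStmt) : ProjStmt := by
  intro m N N₀ hD
  obtain ⟨⟨c, C, hc, hC, hb⟩, -, -, hmulg, hdiff, -, hG, -⟩ := h0 m N N₀ hD
  obtain ⟨C₁, hC₁, hlip⟩ := h1 m N N₀ hD
  obtain ⟨δ₁, C₂, hδ₁, hC₂, hcar⟩ := h3 m _ hG
  obtain ⟨a₀, b₀, ha₀, hb₀, heq⟩ := WProj_equiv m
  -- norms of the isometries
  have hTn : ∀ v, ∀ T ∈ isoP N N₀ v, ‖T‖ ≤ C := fun v T hT =>
    T.opNorm_le_bound hC.le fun x => (hb v T hT x).2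
  have hcomp : ∀ (B : F m →L[ℝ] X1 m) (e : F m →L[ℝ] F m),
      ‖hsL m (B.comp e)‖ ≤ b₀ * (‖B‖ * ‖e‖) := fun B e =>
    (heq _).2.trans (mul_le_mul_of_nonneg_left (B.opNorm_comp_le e) hb₀.le)
  have hlow : ∀ v, ∀ T ∈ isoP N N₀ v, ∀ e : F m →L[ℝ] F m,
      ‖e‖ ≤ a₀ / c * ‖hsL m (T.comp e)‖ := by
    intro v T hT e
    refine e.opNorm_le_bound (by positivity) fun x => ?_
    have q1 := (hb v T hT (e x)).1
    have q2 := (T.comp e).le_opNorm x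
    have q3 := (heq (T.comp e)).1
    have q4 : c * ‖e x‖ ≤ a₀ * ‖hsL m (T.comp e)‖ * ‖x‖ :=
      q1.trans (q2.trans (mul_le_mul_of_nonneg_right q3 (norm_nonneg _)))
    rw [div_mul_eq_mul_div, div_mul_eq_mul_div, le_div_iff₀ hc]
    linarith
  set K : ℝ := b₀ * (C * (C₂ * (a₀ / c) ^ 2)) + b₀ * (C₁ * ((1 / 2 + C₂ * δ₁) * (a₀ / c))) with hK
  have hK0 : 0 < K := by positivity
  set a : ℝ := 2 + b₀ + b₀ * C₁ with ha
  have ha0 : 0 < a := by positivity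
  set b : ℝ := a + K * a ^ 2 + K * a + 2 with hbdef
  have hb0 : 0 < b := by positivity
  set δ : ℝ := min 1 (min (δ₁ / (2 * (a₀ / c * a))) (1 / (8 * b * K))) with hδ
  have hδ0 : 0 < δ := by positivity
  have hδ1 : δ ≤ 1 := min_le_left _ _
  have hδ2 : δ ≤ δ₁ / (2 * (a₀ / c * a)) := (min_le_right _ _).trans (min_le_left _ _)
  have hδ3 : δ ≤ 1 / (8 * b * K) := (min_le_right _ _).trans (min_le_right _ _)
  refine ⟨δ, 2 * C / δ + C₁ + a₀ * (4 * (b₀ + b₀ * C₁ + 1)), hδ0, by positivity, ?_⟩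
  intro v v' hv hv' A A' T T' hT hT' hmin hmin' hd hd'
  set ε := ‖A - A'‖ + ‖v - v'‖ with hε
  have hεA : ‖A - A'‖ ≤ ε := by rw [hε]; linarith [norm_nonneg (v - v')]
  have hεv : ‖v - v'‖ ≤ ε := by rw [hε]; linarith [norm_nonneg (A - A')]
  have hε0 : 0 ≤ ε := by positivity
  rcases le_or_gt δ ε with hcase | hcase
  · have q1 : ‖T - T'‖ ≤ 2 * C := by
      have := norm_sub_le T T'
      have q2 := hTn v T hT
      have q3 := hTn v' T' hT'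
      linarith
    have q4 : 2 * C ≤ 2 * C / δ * ε := by
      rw [div_mul_eq_mul_div, le_div_iff₀ hδ0]
      exact mul_le_mul_of_nonneg_left hcase (by positivity)
    have q5 : 0 ≤ (C₁ + a₀ * (4 * (b₀ + b₀ * C₁ + 1))) * ε := by positivity
    calc ‖T - T'‖ ≤ 2 * C / δ * ε := q1.trans q4
      _ ≤ 2 * C / δ * ε + (C₁ + a₀ * (4 * (b₀ + b₀ * C₁ + 1))) * ε := by linarith
      _ = (2 * C / δ + C₁ + a₀ * (4 * (b₀ + b₀ * C₁ + 1))) * ε := by ring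
  -- the main case
  obtain ⟨T'', hT'', hTT⟩ := hlip v v' hv hv' T hT
  have hv'0 : v' ≠ 0 := by
    intro h
    rw [h, norm_zero] at hv'
    exact zero_ne_one hv'
  obtain ⟨h, hh, hTh⟩ := hdiff v' hv'0 T'' hT'' T' hT'
  have hTT2 : ‖T - T''‖ ≤ C₁ * ε := hTT.trans (mul_le_mul_of_nonneg_left hεv hC₁.le)
  set u : F m →L[ℝ] X1 m := T' - T'' with hu
  have hu2 : u = T''.comp (h - 1) := by
    rw [hu, hTh]
    ext x i
    simp
  set U : ℝ := ‖hsL m u‖ with hU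
  have hU0 : 0 ≤ U := norm_nonneg _
  have hUa : U ≤ a * δ := by
    have e1 : u = -(A' - T') - (A - A') + (A - T) + (T - T'') := by rw [hu]; abel
    have q1 : U ≤ ‖hsL m (A' - T')‖ + ‖hsL m (A - A')‖ + ‖hsL m (A - T)‖ + ‖hsL m (T - T'')‖ := by
      rw [hU, e1, map_add, map_add, map_sub, map_neg]
      refine (norm_add_le _ _).trans (add_le_add (((norm_add_le _ _).trans
        (add_le_add ((norm_sub_le _ _).trans ?_) le_rfl))) le_rfl)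
      rw [norm_neg]
    have q2 : ‖hsL m (A - A')‖ ≤ b₀ * δ :=
      (heq _).2.trans (mul_le_mul_of_nonneg_left (hεA.trans hcase.le) hb₀.le)
    have q3 : ‖hsL m (T - T'')‖ ≤ b₀ * (C₁ * δ) :=
      (heq _).2.trans (mul_le_mul_of_nonneg_left
        (hTT2.trans (mul_le_mul_of_nonneg_left hcase.le hC₁.le)) hb₀.le)
    rw [ha]
    linarith
  have hh1 : ‖h - 1‖ ≤ a₀ / c * U := by
    have := hlow v' T'' hT'' (h - 1)
    rwa [← hu2] at this
  have hh2 : ‖h - 1‖ < δ₁ := by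
    have q1 : a₀ / c * U ≤ a₀ / c * (a * δ) := mul_le_mul_of_nonneg_left hUa (by positivity)
    rw [le_div_iff₀ (by positivity)] at hδ2
    linarith
  obtain ⟨k, hk, hkn⟩ := hcar h hh hh2
  set e : F m →L[ℝ] F m := k - (1 / 2 : ℝ) • (1 + h) with he
  have hen : ‖e‖ ≤ C₂ * (a₀ / c) ^ 2 * U ^ 2 := by
    have q1 : ‖h - 1‖ ^ 2 ≤ (a₀ / c * U) ^ 2 := pow_le_pow_left₀ (norm_nonneg _) hh1 2
    calc ‖e‖ ≤ C₂ * ‖h - 1‖ ^ 2 := hkn
      _ ≤ C₂ * (a₀ / c * U) ^ 2 := mul_le_mul_of_nonneg_left q1 hC₂.le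
      _ = _ := by ring
  have hk1 : ‖k - 1‖ ≤ (1 / 2 + C₂ * δ₁) * (a₀ / c) * U := by
    have e1 : k - 1 = (1 / 2 : ℝ) • (h - 1) + e := by rw [he]; module
    have q1 : ‖k - 1‖ ≤ 1 / 2 * ‖h - 1‖ + C₂ * ‖h - 1‖ ^ 2 := by
      rw [e1]
      refine (norm_add_le _ _).trans (add_le_add (le_of_eq ?_) hkn)
      rw [norm_smul, Real.norm_of_nonneg (by norm_num)]
    have q2 : C₂ * ‖h - 1‖ ^ 2 ≤ C₂ * δ₁ * ‖h - 1‖ := by
      have : ‖h - 1‖ * ‖h - 1‖ ≤ δ₁ * ‖h - 1‖ :=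
        mul_le_mul_of_nonneg_right hh2.le (norm_nonneg _)
      have q3 := mul_le_mul_of_nonneg_left this hC₂.le
      linarith
    calc ‖k - 1‖ ≤ (1 / 2 + C₂ * δ₁) * ‖h - 1‖ := by linarith
      _ ≤ (1 / 2 + C₂ * δ₁) * (a₀ / c * U) := mul_le_mul_of_nonneg_left hh1 (by positivity)
      _ = _ := by ring
  -- competitors
  have hR : T.comp k ∈ isoP N N₀ v := hmulg v T hT k hk
  have hR' : T''.comp k ∈ isoP N N₀ v' := hmulg v' T'' hT'' k hk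
  set r₁ : F m →L[ℝ] X1 m := T''.comp e + (T - T'').comp (k - 1) with hr₁
  set r₂ : F m →L[ℝ] X1 m := T''.comp e with hr₂
  have eR : T.comp k = T + (1 / 2 : ℝ) • u + r₁ := by
    rw [hr₁, hr₂, he, hu2]
    ext x i
    simp
    ring
  have eR' : T''.comp k = T' - (1 / 2 : ℝ) • u + r₂ := by
    rw [hr₂, he, hu2, hTh]
    ext x i
    simp
    ring
  have hr₂n : ‖hsL m r₂‖ ≤ b₀ * (C * (C₂ * (a₀ / c) ^ 2)) * U ^ 2 := by
    calc ‖hsL m r₂‖ ≤ b₀ * (‖T''‖ * ‖e‖) := hcomp _ _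
      _ ≤ b₀ * (C * (C₂ * (a₀ / c) ^ 2 * U ^ 2)) := by
          refine mul_le_mul_of_nonneg_left ?_ hb₀.le
          exact mul_le_mul (hTn v' T'' hT'') hen (norm_nonneg _) hC.le
      _ = _ := by ring
  have hr₂K : ‖hsL m r₂‖ ≤ K * U ^ 2 := by
    refine hr₂n.trans (mul_le_mul_of_nonneg_right ?_ (by positivity))
    rw [hK]
    have : 0 ≤ b₀ * (C₁ * ((1 / 2 + C₂ * δ₁) * (a₀ / c))) := by positivity
    linarith
  have hr₁n : ‖hsL m r₁‖ ≤ K * U ^ 2 + K * ε * U := by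
    have q1 : ‖hsL m r₁‖ ≤ ‖hsL m r₂‖ + ‖hsL m ((T - T'').comp (k - 1))‖ := by
      rw [hr₁, map_add]
      exact norm_add_le _ _
    have q2 : ‖hsL m ((T - T'').comp (k - 1))‖ ≤
        b₀ * (C₁ * ((1 / 2 + C₂ * δ₁) * (a₀ / c))) * ε * U := by
      calc ‖hsL m ((T - T'').comp (k - 1))‖ ≤ b₀ * (‖T - T''‖ * ‖k - 1‖) := hcomp _ _
        _ ≤ b₀ * ((C₁ * ε) * ((1 / 2 + C₂ * δ₁) * (a₀ / c) * U)) := by
            refine mul_le_mul_of_nonneg_left ?_ hb₀.le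
            exact mul_le_mul hTT2 hk1 (norm_nonneg _) (by positivity)
        _ = _ := by ring
    have q3 : b₀ * (C₁ * ((1 / 2 + C₂ * δ₁) * (a₀ / c))) ≤ K := by
      rw [hK]
      have : 0 ≤ b₀ * (C * (C₂ * (a₀ / c) ^ 2)) := by positivity
      linarith
    have q4 : b₀ * (C₁ * ((1 / 2 + C₂ * δ₁) * (a₀ / c))) * ε * U ≤ K * ε * U :=
      mul_le_mul_of_nonneg_right (mul_le_mul_of_nonneg_right q3 hε0) hU0
    linarith
  have hcore := WProj_core (hsL m A) (hsL m A') (hsL m T) (hsL m T') (hsL m T'')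
    (hsL m (T.comp k)) (hsL m (T''.comp k)) (hsL m u) (hsL m r₁) (hsL m r₂)
    (by rw [hu, map_sub]) (by rw [eR, map_add, map_add, map_smul])
    (by rw [eR', map_add, map_sub, map_smul])
    (by rw [← map_sub, ← map_sub]; exact hmin _ hR)
    (by rw [← map_sub, ← map_sub]; exact hmin' _ hR')
  rw [← map_sub, ← map_sub, ← map_sub, ← map_sub, ← hU] at hcore
  have w1 : ‖hsL m (A - A')‖ ≤ b₀ * ε := (heq _).2.trans (mul_le_mul_of_nonneg_left hεA hb₀.le)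
  have w2 : ‖hsL m (T'' - T)‖ ≤ b₀ * (C₁ * ε) := by
    refine (heq _).2.trans (mul_le_mul_of_nonneg_left ?_ hb₀.le)
    rw [norm_sub_rev]
    exact hTT2
  -- smallness
  have hUU : U ^ 2 ≤ (a * δ) ^ 2 := pow_le_pow_left₀ hU0 hUa 2
  have hs0 : K * U ^ 2 + K * ε * U ≤ (K * a ^ 2 + K * a) * δ := by
    have q1 : K * U ^ 2 ≤ K * (a ^ 2 * δ) := by
      refine mul_le_mul_of_nonneg_left (hUU.trans ?_) hK0.le
      rw [mul_pow]
      exact mul_le_mul_of_nonneg_left (pow_le_of_le_one hδ0.le hδ1 two_ne_zero) (by positivity)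
    have q2 : ε * U ≤ δ * a := by
      have q3 : ε * U ≤ 1 * (a * δ) := mul_le_mul (hcase.le.trans hδ1) hUa hU0 zero_le_one
      linarith
    have q4 : K * ε * U ≤ K * (δ * a) := by
      rw [mul_assoc]
      exact mul_le_mul_of_nonneg_left q2 hK0.le
    linarith
  have hs1 : U + ‖hsL m r₁‖ + 2 * ‖hsL m (A - T)‖ ≤ b * δ := by
    rw [hbdef]; linarith
  have hs2 : U + ‖hsL m r₂‖ + 2 * ‖hsL m (A' - T')‖ ≤ b * δ := by
    have : 0 ≤ K * ε * U := by positivity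
    rw [hbdef]; linarith
  have hbδ : b * δ * K ≤ 1 / 8 := by
    rw [le_div_iff₀ (by positivity)] at hδ3
    linarith
  have t1 : (U + ‖hsL m r₁‖ + 2 * ‖hsL m (A - T)‖) * ‖hsL m r₁‖ ≤
      1 / 8 * (U ^ 2 + ε * U) := by
    have q1 : (U + ‖hsL m r₁‖ + 2 * ‖hsL m (A - T)‖) * ‖hsL m r₁‖ ≤
        (b * δ) * (K * U ^ 2 + K * ε * U) := mul_le_mul hs1 hr₁n (norm_nonneg _) (by positivity)
    have q2 : (b * δ) * (K * U ^ 2 + K * ε * U) = (b * δ * K) * (U ^ 2 + ε * U) := by ring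
    rw [q2] at q1
    exact q1.trans (mul_le_mul_of_nonneg_right hbδ (by positivity))
  have t2 : (U + ‖hsL m r₂‖ + 2 * ‖hsL m (A' - T')‖) * ‖hsL m r₂‖ ≤ 1 / 8 * U ^ 2 := by
    have q1 : (U + ‖hsL m r₂‖ + 2 * ‖hsL m (A' - T')‖) * ‖hsL m r₂‖ ≤
        (b * δ) * (K * U ^ 2) := mul_le_mul hs2 hr₂K (norm_nonneg _) (by positivity)
    have q2 : (b * δ) * (K * U ^ 2) = (b * δ * K) * U ^ 2 := by ring
    rw [q2] at q1
    exact q1.trans (mul_le_mul_of_nonneg_right hbδ (by positivity))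
  have t3 : (‖hsL m (A - A')‖ + ‖hsL m (T'' - T)‖) * U ≤ (b₀ * ε + b₀ * (C₁ * ε)) * U :=
    mul_le_mul_of_nonneg_right (add_le_add w1 w2) hU0
  have hUfin : U ≤ 4 * (b₀ + b₀ * C₁ + 1) * ε := by
    by_contra hcon
    push Not at hcon
    have hUpos : 0 < U := lt_of_le_of_lt (by positivity) hcon
    have q1 : U ^ 2 / 4 ≤ (b₀ + b₀ * C₁ + 1) * ε * U := by
      have q2 : 0 ≤ ε * U := by positivity
      linarith
    have q3 : U / 4 ≤ (b₀ + b₀ * C₁ + 1) * ε := by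
      have q4 : U * (U / 4) ≤ U * ((b₀ + b₀ * C₁ + 1) * ε) := by linarith
      exact le_of_mul_le_mul_left q4 hUpos
    linarith
  have hfin : ‖T - T'‖ ≤ C₁ * ε + a₀ * (4 * (b₀ + b₀ * C₁ + 1) * ε) := by
    have e1 : T - T' = (T - T'') - u := by rw [hu]; abel
    rw [e1]
    refine (norm_sub_le _ _).trans (add_le_add hTT2 ?_)
    exact (heq u).1.trans (mul_le_mul_of_nonneg_left hUfin ha₀.le)
  have q5 : 0 ≤ 2 * C / δ * ε := by positivity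
  calc ‖T - T'‖ ≤ C₁ * ε + a₀ * (4 * (b₀ + b₀ * C₁ + 1) * ε) := hfin
    _ ≤ 2 * C / δ * ε + (C₁ * ε + a₀ * (4 * (b₀ + b₀ * C₁ + 1) * ε)) := by linarith
    _ = (2 * C / δ + C₁ + a₀ * (4 * (b₀ + b₀ * C₁ + 1))) * ε := by ring

end Pool.Agent.Lib.MP_5c4da9_an
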