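import Pool.Agent.Lib.MP_5c4da9_an.WDefs

/-!
# W3: Lipschitz sections
-/

set_option autoImplicit false

open Set Filter Topology Module MeasureTheory

noncomputable section

namespace Pool.Agent.Lib.MP_5c4da9_an

/-- Radial projection onto the ball of radius `r`. -/
def WSectP {m : ℕ} (r : ℝ) (z : F m) : F m := (r / max r ‖z‖) • z

theorem WSectP_zero {m : ℕ} (z : F m) : WSectP 0 z = 0 := by
  simp [WSectP]

theorem WSectP_norm {m : ℕ} {r : ℝ} (hr : 0 < r) (z : F m) : ‖WSectP r z‖ = min r ‖z‖ := by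
  have hM : 0 < max r ‖z‖ := lt_max_of_lt_left hr
  rw [WSectP, norm_smul, Real.norm_of_nonneg (div_nonneg hr.le hM.le)]
  rcases le_total r ‖z‖ with h | h
  · rw [max_eq_right h, min_eq_left h]
    rw [max_eq_right h] at hM
    field_simp
  · rw [max_eq_left h, min_eq_right h, div_self hr.ne', one_mul]

theorem WSectP_lip {m : ℕ} {r : ℝ} (hr : 0 ≤ r) (z w : F m) :
    ‖WSectP r z - WSectP r w‖ ≤ 2 * ‖z - w‖ := by
  rcases hr.eq_or_lt with rfl | hr
  · rw [WSectP_zero, WSectP_zero, sub_self, norm_zero]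
    positivity
  set M := max r ‖z‖ with hM
  set M' := max r ‖w‖ with hM'
  have hMp : 0 < M := lt_max_of_lt_left hr
  have hMp' : 0 < M' := lt_max_of_lt_left hr
  have h1 : WSectP r z - WSectP r w = (r / M) • (z - w) + (r / M - r / M') • w := by
    rw [WSectP, WSectP, smul_sub, sub_smul]
    abel
  have h2 : r / M ≤ 1 := (div_le_one hMp).mpr (le_max_left _ _)
  have h3 : |M' - M| ≤ ‖z - w‖ := by
    rw [hM, hM']
    refine (abs_max_sub_max_le_max r ‖w‖ r ‖z‖).trans ?_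
    rw [sub_self, abs_zero, abs_sub_comm]
    exact max_le (norm_nonneg _) (abs_norm_sub_norm_le z w)
  have h4 : r / M - r / M' = r * (M' - M) / (M * M') := by
    field_simp
  have h5 : |r / M - r / M'| * ‖w‖ ≤ |M' - M| := by
    rw [h4, abs_div, abs_mul, abs_of_pos hr, abs_of_pos (mul_pos hMp hMp')]
    rw [div_mul_eq_mul_div, div_le_iff₀ (mul_pos hMp hMp')]
    have h6 : r ≤ M := le_max_left _ _
    have h7 : ‖w‖ ≤ M' := le_max_right _ _
    calc r * |M' - M| * ‖w‖ = |M' - M| * (r * ‖w‖) := by ring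
      _ ≤ |M' - M| * (M * M') := by gcongr
  calc ‖WSectP r z - WSectP r w‖ ≤ ‖(r / M) • (z - w)‖ + ‖(r / M - r / M') • w‖ := by
        rw [h1]; exact norm_add_le _ _
    _ = r / M * ‖z - w‖ + |r / M - r / M'| * ‖w‖ := by
        rw [norm_smul, norm_smul, Real.norm_of_nonneg (div_nonneg hr.le hMp.le),
          Real.norm_eq_abs]
    _ ≤ 1 * ‖z - w‖ + ‖z - w‖ := by
        have := h5.trans h3
        gcongr
    _ = 2 * ‖z - w‖ := by ring

theorem WSectP_step {m : ℕ} {r r' : ℝ} (hr : 0 ≤ r) (hr' : r ≤ r') (z : F m) :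
    ‖WSectP r z - WSectP r' z‖ ≤ r' - r := by
  by_cases hz : z = 0
  · subst hz
    simp [WSectP]
    linarith
  have hzp : 0 < ‖z‖ := norm_pos_iff.mpr hz
  have key : ∀ s : ℝ, 0 ≤ s → s / max s ‖z‖ * ‖z‖ = min s ‖z‖ := by
    intro s hs
    rcases le_total s ‖z‖ with h | h
    · rw [max_eq_right h, min_eq_left h]
      field_simp
    · have hs' : 0 < s := hzp.trans_le h
      rw [max_eq_left h, min_eq_right h, div_self hs'.ne', one_mul]
  rw [WSectP, WSectP, ← sub_smul, norm_smul, Real.norm_eq_abs]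
  have h1 : |r / max r ‖z‖ - r' / max r' ‖z‖| * ‖z‖ = |min r ‖z‖ - min r' ‖z‖| := by
    rw [← key r hr, ← key r' (hr.trans hr'), ← sub_mul, abs_mul, abs_of_pos hzp]
  rw [h1]
  refine (abs_min_sub_min_le_max _ _ _ _).trans ?_
  rw [sub_self, abs_zero, abs_sub_comm, abs_of_nonneg (by linarith)]
  exact max_le le_rfl (by linarith)

theorem WSectP_big {m : ℕ} {v : F m → X1 m} (hv : ∀ z, 2 ≤ ‖z‖ → v z = e0 m) {r : ℝ}
    (hr : 2 ≤ r) (z : F m) : v (WSectP r z) = v z := by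
  rcases le_total ‖z‖ r with h | h
  · rw [WSectP, max_eq_left h, div_self (by linarith), one_smul]
  · rw [hv z (hr.trans h), hv _ ?_]
    rw [WSectP_norm (by linarith), min_eq_left h]
    exact hr

theorem WSect_cont (m : ℕ) : Continuous (hsL m) := by
  have : ContinuousSMul ℝ (PiLp 2 (fun _ : Fin m => X1 m)) := IsBoundedSMul.continuousSMul
  exact LinearMap.continuous_of_finiteDimensional _

theorem WSect_hs (m : ℕ) : ∃ H : ℝ, 0 < H ∧ ∀ A : F m →L[ℝ] X1 m, ‖hsL m A‖ ≤ H * ‖A‖ := by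
  have hc : Continuous (hsL m) := WSect_cont m
  let h : (F m →L[ℝ] X1 m) →L[ℝ] PiLp 2 (fun _ : Fin m => X1 m) := ⟨hsL m, hc⟩
  refine ⟨‖h‖ + 1, by positivity, fun A => ?_⟩
  have h1 := h.le_opNorm A
  have h2 := norm_nonneg A
  calc ‖hsL m A‖ = ‖h A‖ := rfl
    _ ≤ ‖h‖ * ‖A‖ := h1
    _ ≤ (‖h‖ + 1) * ‖A‖ := by nlinarith

theorem lSectStmt (h0 : WBaseStmt) (h1 : LipStmt) (h2 : ProjStmt) : LSectStmt := by
  intro m N N₀ hD v K hvK hv1 hv2
  obtain ⟨-, hcpt, hne, -, -, -, -, -⟩ := h0 m N N₀ hD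
  obtain ⟨C, hC, hlip⟩ := h1 m N N₀ hD
  obtain ⟨δ, L, hδ, hL, hproj⟩ := h2 m N N₀ hD
  obtain ⟨H, hH, hhs⟩ := WSect_hs m
  have hhsc : Continuous (hsL m) := WSect_cont m
  have hv0 : ∀ z, v z ≠ 0 := by
    intro z hz
    have := hv1 z
    rw [hz, norm_zero] at this
    exact zero_ne_one this
  have hvl : ∀ z w, ‖v z - v w‖ ≤ K * ‖z - w‖ := by
    intro z w
    have := hvK.dist_le_mul z w
    rwa [dist_eq_norm, dist_eq_norm] at this
  set τ : ℝ := δ / (H * (C * K) + 1) with hτ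
  have hK0 : (0 : ℝ) ≤ K := K.2
  have hden : 0 < H * (C * K) + 1 := by positivity
  have hτp : 0 < τ := div_pos hδ hden
  have hτδ : H * (C * (K * τ)) ≤ δ := by
    have h3 : H * (C * (K * τ)) = (H * (C * K)) * τ := by ring
    rw [h3, hτ, mul_div_assoc', div_le_iff₀ hden]
    nlinarith
  have key : ∀ k : ℕ, ∃ (S : F m → (F m →L[ℝ] X1 m)) (K' : NNReal), LipschitzWith K' S ∧
      ∀ z, S z ∈ isoP N N₀ (v (WSectP (k * τ) z)) := by
    intro k
    induction k with
    | zero =>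
      obtain ⟨T, hT⟩ := hne (v 0) (hv0 0)
      refine ⟨fun _ => T, 0, LipschitzWith.const T, fun z => ?_⟩
      rw [Nat.cast_zero, zero_mul, WSectP_zero]
      exact hT
    | succ k ih =>
      obtain ⟨S, K', hS, hSi⟩ := ih
      set r : ℝ := ((k + 1 : ℕ) : ℝ) * τ with hr
      have hr0 : 0 ≤ r := by positivity
      have hmin : ∀ z, ∃ T ∈ isoP N N₀ (v (WSectP r z)), ∀ R ∈ isoP N N₀ (v (WSectP r z)),
          ‖hsL m (S z - T)‖ ≤ ‖hsL m (S z - R)‖ := by
        intro z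
        have hcont : ContinuousOn (fun R : F m →L[ℝ] X1 m => ‖hsL m (S z - R)‖)
            (isoP N N₀ (v (WSectP r z))) :=
          (hhsc.comp (continuous_const.sub continuous_id)).norm.continuousOn
        obtain ⟨T, hT, hTm⟩ := (hcpt (v (WSectP r z))).exists_isMinOn (hne _ (hv0 _)) hcont
        exact ⟨T, hT, fun R hR => hTm hR⟩
      choose S' hS'i hS'm using hmin
      have hclose : ∀ z, ‖hsL m (S z - S' z)‖ ≤ δ := by
        intro z
        obtain ⟨T', hT', hTT⟩ := hlip _ _ (hv1 _) (hv1 (WSectP r z)) (S z) (hSi z)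
        have h3 : ‖v (WSectP (k * τ) z) - v (WSectP r z)‖ ≤ K * τ := by
          refine (hvl _ _).trans ?_
          refine mul_le_mul_of_nonneg_left ?_ hK0
          have h4 : (k : ℝ) * τ ≤ r := by
            rw [hr]; push_cast; nlinarith
          refine (WSectP_step (by positivity) h4 z).trans (le_of_eq ?_)
          rw [hr]; push_cast; ring
        calc ‖hsL m (S z - S' z)‖ ≤ ‖hsL m (S z - T')‖ := hS'm z T' hT'
          _ ≤ H * ‖S z - T'‖ := hhs _
          _ ≤ H * (C * (K * τ)) := by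
              refine mul_le_mul_of_nonneg_left (hTT.trans ?_) hH.le
              exact mul_le_mul_of_nonneg_left h3 hC.le
          _ ≤ δ := hτδ
      have hLK : (0 : ℝ) ≤ L * (K' + K * 2) := by positivity
      refine ⟨S', ⟨L * (K' + K * 2), hLK⟩, ?_, hS'i⟩
      refine LipschitzWith.of_dist_le_mul fun z w => ?_
      rw [dist_eq_norm, dist_eq_norm]
      have h3 := hproj _ _ (hv1 (WSectP r z)) (hv1 (WSectP r w)) (S z) (S w) (S' z) (S' w)
        (hS'i z) (hS'i w) (hS'm z) (hS'm w) (hclose z) (hclose w)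
      refine h3.trans ?_
      have h4 : ‖S z - S w‖ ≤ K' * ‖z - w‖ := by
        have := hS.dist_le_mul z w
        rwa [dist_eq_norm, dist_eq_norm] at this
      have h5 : ‖v (WSectP r z) - v (WSectP r w)‖ ≤ K * (2 * ‖z - w‖) :=
        (hvl _ _).trans (mul_le_mul_of_nonneg_left (WSectP_lip hr0 z w) hK0)
      calc L * (‖S z - S w‖ + ‖v (WSectP r z) - v (WSectP r w)‖)
          ≤ L * (K' * ‖z - w‖ + K * (2 * ‖z - w‖)) :=
            mul_le_mul_of_nonneg_left (add_le_add h4 h5) hL.le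
        _ = L * (K' + K * 2) * ‖z - w‖ := by ring
  obtain ⟨k, hk⟩ := exists_nat_ge (2 / τ)
  obtain ⟨S, K', hS, hSi⟩ := key k
  refine ⟨S, K', hS, fun z => ?_⟩
  have h3 : 2 ≤ (k : ℝ) * τ := by rwa [div_le_iff₀ hτp] at hk
  have h4 := hSi z
  rwa [WSectP_big hv2 h3 z] at h4

end Pool.Agent.Lib.MP_5c4da9_an
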