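import Pool.Agent.Lib.MP_5c4da9_an.WDefs

/-!
# Banach's isometric subspace problem: homotopy invariance of the integral
-/

set_option autoImplicit false

open Set Filter Topology Module MeasureTheory

noncomputable section

namespace Pool.Agent.Lib.MP_5c4da9_an

/-- The homotopy. -/
def WStokesC {m : ℕ} (a b : F m → X1 m) (p : ℝ × F m) : X1 m := (1 - p.1) • a p.2 + p.1 • b p.2

/-- Its derivatives in the second variable. -/
def WStokesP {m : ℕ} (a b : F m → X1 m) (p : ℝ × F m) (i : Fin m) : X1 m :=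
  (1 - p.1) • pd a p.2 i + p.1 • pd b p.2 i

/-- The vector field. -/
def WStokesB {m : ℕ} (φ : X1 m → ℝ) (a b : F m → X1 m) (i : Fin m) (p : ℝ × F m) : ℝ :=
  φ (WStokesC a b p) * dt fun o => o.elim (WStokesC a b p)
    (Function.update (WStokesP a b p) i (b p.2 - a p.2))

lemma WStokes_dt {m : ℕ} {E : Type} [NormedAddCommGroup E] [NormedSpace ℝ E]
    (v : E → Option (Fin m) → X1 m) (x : E) (h : ∀ o, ContDiffAt ℝ 1 (fun p => v p o) x) :
    ContDiffAt ℝ 1 (fun p => dt (v p)) x := by
  unfold dt
  simp only [Matrix.det_apply]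
  refine ContDiffAt.sum fun σ _ => ?_
  refine ContDiffAt.const_smul _ ?_
  refine contDiffAt_prod fun i _ => ?_
  simp only [Matrix.of_apply]
  have hp : ContDiff ℝ 1 fun w : X1 m => w (σ i) :=
    (EuclideanSpace.proj (𝕜 := ℝ) (σ i) : X1 m →L[ℝ] ℝ).contDiff
  exact hp.contDiffAt.comp x (h i)

lemma WStokes_pd {m : ℕ} {a b : F m → X1 m} (ha : ContDiff ℝ 2 a) (hb : ContDiff ℝ 2 b) (s : ℝ)
    (z : F m) : pd (fun z => (1 - s) • a z + s • b z) z = WStokesP a b (s, z) := by
  funext i
  have h1 : DifferentiableAt ℝ a z := (ha.differentiable (by norm_num)) z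
  have h2 : DifferentiableAt ℝ b z := (hb.differentiable (by norm_num)) z
  unfold pd WStokesP
  have h3 : HasFDerivAt (fun z => (1 - s) • a z + s • b z)
      ((1 - s) • fderiv ℝ a z + s • fderiv ℝ b z) z :=
    (h1.hasFDerivAt.const_smul (1 - s)).add (h2.hasFDerivAt.const_smul s)
  rw [h3.fderiv]
  rfl

lemma WStokes_pdC {m : ℕ} {a : F m → X1 m} (ha : ContDiff ℝ 2 a) (i : Fin m) :
    ContDiff ℝ 1 fun z => pd a z i := by
  unfold pd
  exact (ha.fderiv_right (m := 1) (by norm_num)).clm_apply contDiff_const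

lemma WStokes_C {m : ℕ} {a b : F m → X1 m} (ha : ContDiff ℝ 2 a) (hb : ContDiff ℝ 2 b) :
    ContDiff ℝ 1 (WStokesC a b) := by
  unfold WStokesC
  have h1 : ContDiff ℝ 1 a := ha.of_le (by norm_num)
  have h2 : ContDiff ℝ 1 b := hb.of_le (by norm_num)
  exact ((contDiff_const.sub contDiff_fst).smul (h1.comp contDiff_snd)).add
    (contDiff_fst.smul (h2.comp contDiff_snd))

lemma WStokes_P {m : ℕ} {a b : F m → X1 m} (ha : ContDiff ℝ 2 a) (hb : ContDiff ℝ 2 b)
    (i : Fin m) : ContDiff ℝ 1 fun p => WStokesP a b p i := by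
  unfold WStokesP
  exact ((contDiff_const.sub contDiff_fst).smul ((WStokes_pdC ha i).comp contDiff_snd)).add
    (contDiff_fst.smul ((WStokes_pdC hb i).comp contDiff_snd))

lemma WStokes_B {m : ℕ} {φ : X1 m → ℝ} {a b : F m → X1 m} (hφ : ContDiffOn ℝ 1 φ {0}ᶜ)
    (ha : ContDiff ℝ 2 a) (hb : ContDiff ℝ 2 b) (i : Fin m) (p : ℝ × F m)
    (hp : WStokesC a b p ≠ 0) : ContDiffAt ℝ 1 (WStokesB φ a b i) p := by
  unfold WStokesB
  have h1 : ContDiffAt ℝ 1 φ (WStokesC a b p) :=
    hφ.contDiffAt (isOpen_compl_singleton.mem_nhds hp)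
  refine (h1.comp p (WStokes_C ha hb).contDiffAt).mul (WStokes_dt _ _ fun o => ?_)
  cases o with
  | none => exact (WStokes_C ha hb).contDiffAt
  | some j =>
    simp only [Option.elim_some]
    by_cases hj : j = i
    · subst hj
      simp only [Function.update_self]
      have h1 : ContDiff ℝ 1 a := ha.of_le (by norm_num)
      have h2 : ContDiff ℝ 1 b := hb.of_le (by norm_num)
      exact ((h2.comp contDiff_snd).sub (h1.comp contDiff_snd)).contDiffAt
    · simp only [Function.update_of_ne hj]
      exact (WStokes_P ha hb j).contDiffAt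

/-- The total derivative of the vector field. -/
def WStokesD {m : ℕ} (φ : X1 m → ℝ) (a b : F m → X1 m) (i : Fin m) (p : ℝ × F m) : ℝ :=
  fderiv ℝ (WStokesB φ a b i) p (0, EuclideanSpace.single i 1)

lemma WStokes_D {m : ℕ} {φ : X1 m → ℝ} {a b : F m → X1 m} (hφ : ContDiffOn ℝ 1 φ {0}ᶜ)
    (ha : ContDiff ℝ 2 a) (hb : ContDiff ℝ 2 b) (i : Fin m) (p : ℝ × F m)
    (hp : WStokesC a b p ≠ 0) : ContinuousAt (WStokesD φ a b i) p := by
  have h := (WStokes_B hφ ha hb i p hp).fderiv_right (m := 0) (by norm_num)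
  exact h.continuousAt.clm_apply continuousAt_const

lemma WStokes_slice {m : ℕ} {φ : X1 m → ℝ} {a b : F m → X1 m} (hφ : ContDiffOn ℝ 1 φ {0}ᶜ)
    (ha : ContDiff ℝ 2 a) (hb : ContDiff ℝ 2 b) (i : Fin m) (s : ℝ) (z : F m)
    (hp : WStokesC a b (s, z) ≠ 0) :
    pd (fun z => WStokesB φ a b i (s, z)) z i = WStokesD φ a b i (s, z) := by
  have h1 : HasFDerivAt (WStokesB φ a b i) (fderiv ℝ (WStokesB φ a b i) (s, z)) (s, z) :=
    ((WStokes_B hφ ha hb i (s, z) hp).differentiableAt (by norm_num)).hasFDerivAt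
  have h2 : HasFDerivAt (fun z : F m => ((s, z) : ℝ × F m)) (ContinuousLinearMap.inr ℝ ℝ (F m)) z :=
    hasFDerivAt_prodMk_right s z
  unfold pd WStokesD
  have h3 : HasFDerivAt (fun z => WStokesB φ a b i (s, z))
      ((fderiv ℝ (WStokesB φ a b i) (s, z)).comp (ContinuousLinearMap.inr ℝ ℝ (F m))) z :=
    h1.comp z h2
  rw [h3.fderiv]
  rfl

lemma WStokes_sliceC {m : ℕ} {φ : X1 m → ℝ} {a b : F m → X1 m} (hφ : ContDiffOn ℝ 1 φ {0}ᶜ)
    (ha : ContDiff ℝ 2 a) (hb : ContDiff ℝ 2 b) (i : Fin m) (s : ℝ)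
    (hp : ∀ z, WStokesC a b (s, z) ≠ 0) : ContDiff ℝ 1 fun z => WStokesB φ a b i (s, z) := by
  rw [contDiff_iff_contDiffAt]
  intro z
  exact (WStokes_B hφ ha hb i (s, z) (hp z)).comp z
    (contDiff_const.prodMk contDiff_id).contDiffAt

lemma WStokes_int {m : ℕ} (g : F m → ℝ) (hg : ContDiff ℝ 1 g) (R : ℝ)
    (hR : ∀ z, R ≤ ‖z‖ → g z = 0) (i : Fin m) : ∫ z, pd g z i = 0 := by
  have hs : HasCompactSupport g := by
    refine HasCompactSupport.of_support_subset_isCompact (isCompact_closedBall (0 : F m) R) ?_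
    intro z hz
    rw [mem_closedBall_zero_iff]
    by_contra h
    exact hz (hR z (not_le.mp h).le)
  have hi : Integrable g := hg.continuous.integrable_of_hasCompactSupport hs
  have hd : Integrable fun z => fderiv ℝ g z (EuclideanSpace.single i 1) := by
    refine Continuous.integrable_of_hasCompactSupport ?_ ?_
    · exact (hg.continuous_fderiv (by norm_num)).clm_apply continuous_const
    · exact hs.fderiv_apply ℝ _
  have h := integral_mul_fderiv_eq_neg_fderiv_mul_of_integrable (μ := (volume : Measure (F m)))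
    (f := fun _ : F m => (1 : ℝ)) (g := g) (v := EuclideanSpace.single i 1) (by simp)
    (by simpa using hd) (by simpa using hi) (fun x _ => differentiableAt_const _)
    (fun x _ => (hg.differentiable (by norm_num)) x)
  unfold pd
  simpa using h

/-- W7. -/
theorem stokesStmt (h : StokesIdStmt) : StokesStmt := by
  intro m φ a b R hφ hE ha hb hne hR
  have hne' : ∀ s ∈ Icc (0 : ℝ) 1, ∀ z, WStokesC a b (s, z) ≠ 0 := hne
  have hR' : ∀ s ∈ Icc (0 : ℝ) 1, ∀ z, R ≤ ‖z‖ → φ (WStokesC a b (s, z)) = 0 := hR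
  -- the sum of the derivatives
  set D : ℝ × F m → ℝ := fun p => ∑ i, WStokesD φ a b i p with hDdef
  have hDc : ∀ p : ℝ × F m, p.1 ∈ Icc (0 : ℝ) 1 → ContinuousAt D p := by
    intro p hp
    refine tendsto_finsetSum _ fun i _ => ?_
    exact WStokes_D hφ ha hb i p (hne' p.1 hp p.2)
  have hB0 : ∀ s ∈ Icc (0 : ℝ) 1, ∀ i z, R ≤ ‖z‖ → WStokesB φ a b i (s, z) = 0 := by
    intro s hs i z hz
    unfold WStokesB
    rw [hR' s hs z hz, zero_mul]
  have hD0 : ∀ s ∈ Icc (0 : ℝ) 1, ∀ z, R < ‖z‖ → D (s, z) = 0 := by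
    intro s hs z hz
    refine Finset.sum_eq_zero fun i _ => ?_
    rw [← WStokes_slice hφ ha hb i s z (hne' s hs z)]
    unfold pd
    have hev : (fun z => WStokesB φ a b i (s, z)) =ᶠ[𝓝 z] fun _ => 0 := by
      filter_upwards [(isOpen_lt continuous_const continuous_norm).mem_nhds hz] with y hy
      exact hB0 s hs i y hy.le
    rw [hev.fderiv_eq]
    simp
  have hDint : ∀ s ∈ Icc (0 : ℝ) 1, ∫ z, D (s, z) = 0 := by
    intro s hs
    have hc : ∀ i, ContDiff ℝ 1 fun z => WStokesB φ a b i (s, z) := fun i =>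
      WStokes_sliceC hφ ha hb i s (hne' s hs)
    have hsup : ∀ i, HasCompactSupport fun z => WStokesB φ a b i (s, z) := by
      intro i
      refine HasCompactSupport.of_support_subset_isCompact (isCompact_closedBall (0 : F m) R) ?_
      intro z hz
      rw [mem_closedBall_zero_iff]
      by_contra h
      exact hz (hB0 s hs i z (not_le.mp h).le)
    rw [hDdef]
    simp only
    rw [integral_finsetSum]
    · refine Finset.sum_eq_zero fun i _ => ?_
      rw [← WStokes_int _ (hc i) R (hB0 s hs i) i]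
      refine integral_congr_ae (Eventually.of_forall fun z => ?_)
      exact (WStokes_slice hφ ha hb i s z (hne' s hs z)).symm
    · intro i _
      have : (fun z => WStokesD φ a b i (s, z)) = fun z =>
          fderiv ℝ (fun z => WStokesB φ a b i (s, z)) z (EuclideanSpace.single i 1) := by
        funext z
        exact (WStokes_slice hφ ha hb i s z (hne' s hs z)).symm
      rw [this]
      refine Continuous.integrable_of_hasCompactSupport ?_ ?_
      · exact ((hc i).continuous_fderiv (by norm_num)).clm_apply continuous_const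
      · exact (hsup i).fderiv_apply ℝ _
  -- the derivative in `s`
  have hA : ∀ z, ∀ s ∈ Icc (0 : ℝ) 1,
      HasDerivAt (fun s : ℝ => φ ((1 - s) • a z + s • b z) *
        jac (fun z => (1 - s) • a z + s • b z) z) (D (s, z)) s := by
    intro z s hs
    have h1 := h m φ a b hφ hE ha hb s z (hne s hs z)
    convert h1 using 1
    rw [hDdef]
    refine Finset.sum_congr rfl fun i _ => ?_
    rw [← WStokes_slice hφ ha hb i s z (hne' s hs z)]
    congr 1
    funext y
    unfold WStokesB
    rw [WStokes_pd ha hb s y]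
    rfl
  have hFTC : ∀ z, ∫ s in (0 : ℝ)..1, D (s, z) = φ (b z) * jac b z - φ (a z) * jac a z := by
    intro z
    have hcont : ContinuousOn (fun s : ℝ => D (s, z)) (Icc 0 1) := by
      intro s hs
      refine ContinuousAt.continuousWithinAt ?_
      exact ContinuousAt.comp (f := fun s : ℝ => ((s, z) : ℝ × F m)) (hDc (s, z) hs)
        (by fun_prop)
    rw [intervalIntegral.integral_eq_sub_of_hasDerivAt (f := fun s : ℝ =>
      φ ((1 - s) • a z + s • b z) * jac (fun z => (1 - s) • a z + s • b z) z)]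
    · simp
    · intro s hs
      rw [uIcc_of_le zero_le_one] at hs
      exact hA z s hs
    · refine ContinuousOn.intervalIntegrable ?_
      rwa [uIcc_of_le zero_le_one]
  -- integrability
  have hmeas : ((volume : Measure ℝ).restrict (Ioc 0 1)).prod (volume : Measure (F m)) =
      ((volume : Measure ℝ).prod (volume : Measure (F m))).restrict (Ioc (0 : ℝ) 1 ×ˢ univ) := by
    rw [← Measure.prod_restrict, Measure.restrict_univ]
  have hint : Integrable D (((volume : Measure ℝ).restrict (Ioc 0 1)).prod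
      (volume : Measure (F m))) := by
    rw [hmeas]
    have hK : IsCompact (Icc (0 : ℝ) 1 ×ˢ Metric.closedBall (0 : F m) R) :=
      isCompact_Icc.prod (isCompact_closedBall _ _)
    have h1 : IntegrableOn D (Icc (0 : ℝ) 1 ×ˢ Metric.closedBall (0 : F m) R)
        ((volume : Measure ℝ).prod (volume : Measure (F m))) := by
      refine ContinuousOn.integrableOn_compact hK ?_
      intro p hp
      exact (hDc p hp.1).continuousWithinAt
    have h2 : IntegrableOn D (Icc (0 : ℝ) 1 ×ˢ (univ : Set (F m)))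
        ((volume : Measure ℝ).prod (volume : Measure (F m))) := by
      refine h1.of_forall_sdiff_eq_zero (measurableSet_Icc.prod MeasurableSet.univ) ?_
      rintro ⟨s, z⟩ ⟨⟨hs, _⟩, hz⟩
      refine hD0 s hs z ?_
      by_contra hcon
      exact hz ⟨hs, mem_closedBall_zero_iff.mpr (not_lt.mp hcon)⟩
    exact h2.mono_set (prod_mono Ioc_subset_Icc_self subset_rfl)
  -- Fubini
  have hF : ∫ z, (∫ s in Ioc (0 : ℝ) 1, D (s, z)) = 0 := by
    have hsw := integral_integral_swap (μ := (volume : Measure ℝ).restrict (Ioc 0 1))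
      (ν := (volume : Measure (F m))) (f := fun s z => D (s, z)) hint
    rw [← hsw]
    rw [setIntegral_congr_fun measurableSet_Ioc (g := fun _ => (0 : ℝ))
      (fun s hs => hDint s (Ioc_subset_Icc_self hs))]
    simp
  have hF2 : ∫ z, (φ (b z) * jac b z - φ (a z) * jac a z) = 0 := by
    rw [← hF]
    refine integral_congr_ae (Eventually.of_forall fun z => ?_)
    simp only
    rw [← hFTC z, intervalIntegral.integral_of_le zero_le_one]
  have hsuppi : ∀ (c : F m → X1 m), ContDiff ℝ 2 c → (∀ z, c z ≠ 0) →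
      (∀ z, R ≤ ‖z‖ → φ (c z) = 0) → Integrable fun z => φ (c z) * jac c z := by
    intro c hc hc0 hcR
    refine Continuous.integrable_of_hasCompactSupport ?_ ?_
    · refine Continuous.mul ?_ ?_
      · rw [continuous_iff_continuousAt]
        intro z
        have h1 : ContinuousAt φ (c z) :=
          (hφ.contDiffAt (isOpen_compl_singleton.mem_nhds (hc0 z))).continuousAt
        exact ContinuousAt.comp (f := c) h1 hc.continuous.continuousAt
      · rw [continuous_iff_continuousAt]
        intro z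
        refine (WStokes_dt (fun z o => o.elim (c z) (pd c z)) z fun o => ?_).continuousAt
        cases o with
        | none => exact (hc.of_le (by norm_num)).contDiffAt
        | some j => exact (WStokes_pdC hc j).contDiffAt
    · refine HasCompactSupport.of_support_subset_isCompact (isCompact_closedBall (0 : F m) R) ?_
      intro z hz
      rw [mem_closedBall_zero_iff]
      by_contra h
      exact hz (by simp [hcR z (not_le.mp h).le])
  have hia := hsuppi a ha (fun z => by simpa using hne 0 (by simp) z)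
    (fun z hz => by simpa using hR 0 (by simp) z hz)
  have hib := hsuppi b hb (fun z => by simpa using hne 1 (by simp) z)
    (fun z hz => by simpa using hR 1 (by simp) z hz)
  rw [integral_sub hib hia] at hF2
  linarith

end Pool.Agent.Lib.MP_5c4da9_an
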