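import Pool.Agent.Lib.MP_5c4da9_an.WDefs

/-!
# W6: the pointwise identity behind Stokes' theorem
-/

set_option autoImplicit false

open Set Filter Topology Module MeasureTheory

noncomputable section

namespace Pool.Agent.Lib.MP_5c4da9_an

/-- `dt` as a continuous alternating map. -/
def WStokesIdOm (m : ℕ) : (X1 m) [⋀^Option (Fin m)]→L[ℝ] ℝ where
  toMultilinearMap := ((Matrix.detRowAlternating (n := Option (Fin m)) (R := ℝ)).compLinearMap
    (WithLp.linearEquiv 2 ℝ (Option (Fin m) → ℝ)).toLinearMap).toMultilinearMap
  cont := by
    have h : Continuous fun v : Option (Fin m) → X1 m =>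
        Matrix.det (Matrix.of fun i j => v i j) := by
      apply Continuous.matrix_det
      refine continuous_matrix fun i j => ?_
      simp only [Matrix.of_apply]
      fun_prop
    exact h
  map_eq_zero_of_eq' := ((Matrix.detRowAlternating (n := Option (Fin m)) (R := ℝ)).compLinearMap
    (WithLp.linearEquiv 2 ℝ (Option (Fin m) → ℝ)).toLinearMap).map_eq_zero_of_eq'

lemma WStokesIdOm_apply {m : ℕ} (v : Option (Fin m) → X1 m) : WStokesIdOm m v = dt v := by
  have h : WStokesIdOm m v = Matrix.det (Matrix.of fun i j => v i j) := rfl
  rw [h, dt, ← Matrix.det_transpose]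
  rfl

lemma WStokesId_swap {m : ℕ} (v : Option (Fin m) → X1 m) {p q : Option (Fin m)} (h : p ≠ q) :
    dt (v ∘ Equiv.swap p q) = - dt v := by
  rw [← WStokesIdOm_apply, ← WStokesIdOm_apply]
  exact (WStokesIdOm m).toAlternatingMap.map_swap v h

/-- Cramer's identity. -/
lemma WStokesId_cramer {m : ℕ} (w : Option (Fin m) → X1 m) (x : X1 m) :
    ∑ o, dt (Function.update w o x) • w o = dt w • x := by
  let A : Matrix (Option (Fin m)) (Option (Fin m)) ℝ := Matrix.of fun i j => w j i
  have h1 := Matrix.mulVec_cramer A (fun i => x i)
  have h2 : ∀ o, Matrix.cramer A (fun i => x i) o = dt (Function.update w o x) := by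
    intro o
    rw [Matrix.cramer_apply, dt]
    congr 1
    ext i j
    simp only [Matrix.updateCol_apply, Matrix.of_apply, Function.update_apply, A]
    split_ifs <;> rfl
  ext i
  have h3 := congrFun h1 i
  simp only [Matrix.mulVec, dotProduct, h2, Pi.smul_apply, smul_eq_mul] at h3
  simp only [WithLp.ofLp_sum, WithLp.ofLp_smul, Finset.sum_apply, Pi.smul_apply, smul_eq_mul]
  rw [show dt w = A.det from rfl, ← h3]
  apply Finset.sum_congr rfl
  intro o _
  rw [mul_comm]
  rfl

lemma WStokesId_hasFDerivAt {m : ℕ} {E : Type} [NormedAddCommGroup E] [NormedSpace ℝ E]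
    (g : Option (Fin m) → E → X1 m) (g' : Option (Fin m) → E →L[ℝ] X1 m) (x : E)
    (hg : ∀ o, HasFDerivAt (g o) (g' o) x) :
    ∃ L : E →L[ℝ] ℝ, HasFDerivAt (fun x => dt (fun o => g o x)) L x ∧
      ∀ v, L v = ∑ o, dt (Function.update (fun o => g o x) o (g' o v)) := by
  have h := HasFDerivAt.multilinear_comp (f := (WStokesIdOm m).toContinuousMultilinearMap) hg
  refine ⟨∑ i, ((WStokesIdOm m).toContinuousMultilinearMap.toContinuousLinearMap
    (fun j => g j x) i).comp (g' i), ?_, ?_⟩
  · refine h.congr_of_eventuallyEq (Eventually.of_forall fun y => ?_)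
    exact (WStokesIdOm_apply (fun o => g o y)).symm
  · intro v
    simp only [_root_.sum_apply, ContinuousLinearMap.comp_apply]
    apply Finset.sum_congr rfl
    intro o _
    rw [← WStokesIdOm_apply]
    rfl

lemma WStokesId_pd_const_comb {m : ℕ} (a b : F m → X1 m) (ha : Differentiable ℝ a)
    (hb : Differentiable ℝ b) (s : ℝ) (z : F m) (i : Fin m) :
    pd (fun z => (1 - s) • a z + s • b z) z i = (1 - s) • pd a z i + s • pd b z i := by
  unfold pd
  have h1 : HasFDerivAt (fun z => (1 - s) • a z + s • b z)
      ((1 - s) • fderiv ℝ a z + s • fderiv ℝ b z) z :=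
    ((ha z).hasFDerivAt.const_smul (1 - s)).add ((hb z).hasFDerivAt.const_smul s)
  rw [h1.fderiv]
  rfl

theorem stokesIdStmt : StokesIdStmt := by
  classical
  intro m φ a b hφ hE ha hb s z hC
  set c : X1 m := (1 - s) • a z + s • b z with hc
  let Cs : F m → X1 m := fun z => (1 - s) • a z + s • b z
  have had : Differentiable ℝ a := ha.differentiable (by norm_num)
  have hbd : Differentiable ℝ b := hb.differentiable (by norm_num)
  have hCs2 : ContDiff ℝ 2 Cs := (ha.const_smul (1 - s)).add (hb.const_smul s)
  have hCsd : Differentiable ℝ Cs := hCs2.differentiable (by norm_num)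
  let e : Fin m → F m := fun i => EuclideanSpace.single i 1
  let ψ : X1 m →L[ℝ] ℝ := fderiv ℝ φ c
  let W : X1 m := b z - a z
  let P : Fin m → X1 m := fun i => pd Cs z i
  let Wd : Fin m → X1 m := fun i => pd b z i - pd a z i
  let w : Option (Fin m) → X1 m := fun o => o.elim c P
  have hφc : HasFDerivAt φ ψ c := by
    have h1 : ContDiffAt ℝ 1 φ c := hφ.contDiffAt (isOpen_compl_singleton.mem_nhds hC)
    exact (h1.differentiableAt (by norm_num)).hasFDerivAt
  have hψc : ψ c = -((m : ℝ) + 1) * φ c := hE c hC
  -- second derivatives
  let H : Fin m → Fin m → X1 m := fun i j => fderiv ℝ (fderiv ℝ Cs) z (e i) (e j)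
  have hHsymm : ∀ i j, H i j = H j i := by
    intro i j
    have h1 : IsSymmSndFDerivAt ℝ Cs z := hCs2.contDiffAt.isSymmSndFDerivAt (by simp)
    exact h1 (e i) (e j)
  have hpdC : ∀ j, HasFDerivAt (fun z => pd Cs z j)
      ((fderiv ℝ (fderiv ℝ Cs) z).flip (e j)) z := by
    intro j
    have h1 : DifferentiableAt ℝ (fderiv ℝ Cs) z :=
      (hCs2.fderiv_right (m := 1) (by norm_num)).differentiable (by norm_num) z
    have h2 := h1.hasFDerivAt.clm_apply (hasFDerivAt_const (e j) z)
    refine h2.congr_fderiv ?_
    ext1 v
    simp
  -- Cramer
  have hcr : ψ W * dt w = ψ c * dt (Function.update w none W) +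
      ∑ i, ψ (P i) * dt (Function.update w (some i) W) := by
    have h1 := congrArg ψ (WStokesId_cramer w W)
    rw [map_sum, map_smul] at h1
    simp only [map_smul, smul_eq_mul] at h1
    rw [Fintype.sum_option] at h1
    rw [mul_comm, ← h1]
    have e0 : w none = c := rfl
    have e1 : ∀ i, w (some i) = P i := fun i => rfl
    simp only [e0, e1]
    rw [mul_comm]
    congr 1
    exact Finset.sum_congr rfl fun i _ => mul_comm _ _
  -- the left side
  have hleft : HasDerivAt (fun s : ℝ => φ ((1 - s) • a z + s • b z) *
      jac (fun z => (1 - s) • a z + s • b z) z)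
      (ψ W * dt w + φ c * (dt (Function.update w none W) +
        ∑ i, dt (Function.update w (some i) (Wd i)))) s := by
    have hline : ∀ (p q : X1 m), HasDerivAt (fun s : ℝ => (1 - s) • p + s • q) (q - p) s := by
      intro p q
      have h1 : HasDerivAt (fun s : ℝ => (1 - s)) (-1) s := by
        simpa using (hasDerivAt_id s).const_sub 1
      have h2 := (h1.smul_const p).add ((hasDerivAt_id s).smul_const q)
      refine h2.congr_deriv ?_
      simp [sub_eq_add_neg, add_comm]
    let g : Option (Fin m) → ℝ → X1 m := fun o s =>
      o.elim ((1 - s) • a z + s • b z) (fun i => (1 - s) • pd a z i + s • pd b z i)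
    let g' : Option (Fin m) → X1 m := fun o => o.elim W Wd
    have hg : ∀ o, HasFDerivAt (g o) (ContinuousLinearMap.toSpanSingleton ℝ (g' o)) s := by
      intro o
      cases o with
      | none => exact (hline (a z) (b z)).hasFDerivAt
      | some i => exact (hline (pd a z i) (pd b z i)).hasFDerivAt
    obtain ⟨L, hL, hL2⟩ := WStokesId_hasFDerivAt g _ s hg
    have hgs : (fun o => g o s) = w := by
      funext o
      cases o with
      | none => rfl
      | some i => exact (WStokesId_pd_const_comb a b had hbd s z i).symm
    have hdt : HasDerivAt (fun s => dt (fun o => g o s)) (dt (Function.update w none W) +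
        ∑ i, dt (Function.update w (some i) (Wd i))) s := by
      have h1 := hL.hasDerivAt
      refine h1.congr_deriv ?_
      rw [hL2, hgs, Fintype.sum_option]
      simp [g']
    have hφs : HasDerivAt (fun s : ℝ => φ ((1 - s) • a z + s • b z)) (ψ W) s :=
      hφc.comp_hasDerivAt s (hline (a z) (b z))
    have h2 := hφs.mul hdt
    have hfun : (fun s : ℝ => φ ((1 - s) • a z + s • b z) *
        jac (fun z => (1 - s) • a z + s • b z) z) =
        (fun s : ℝ => φ ((1 - s) • a z + s • b z)) * fun s => dt (fun o => g o s) := by
      funext r
      simp only [Pi.mul_apply]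
      congr 1
      unfold jac
      congr 1
      funext o
      cases o with
      | none => rfl
      | some i => exact WStokesId_pd_const_comb a b had hbd r z i
    rw [hfun]
    refine h2.congr_deriv ?_
    rw [hgs]
  -- the right side
  have hright : ∀ i, pd (fun z => φ ((1 - s) • a z + s • b z) * dt fun o =>
      o.elim ((1 - s) • a z + s • b z)
        (Function.update (pd (fun z => (1 - s) • a z + s • b z) z) i (b z - a z))) z i =
      ψ (P i) * dt (Function.update w (some i) W) + φ c * (-dt (Function.update w none W) +
        (dt (Function.update w (some i) (Wd i)) + ∑ j, if j = i then 0 else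
          dt (Function.update (Function.update w (some i) W) (some j) (H i j)))) := by
    intro i
    let g : Option (Fin m) → F m → X1 m := fun o z =>
      o.elim (Cs z) (Function.update (pd Cs z) i (b z - a z))
    let g' : Option (Fin m) → F m →L[ℝ] X1 m := fun o =>
      o.elim (fderiv ℝ Cs z) (Function.update
        (fun j => (fderiv ℝ (fderiv ℝ Cs) z).flip (e j)) i (fderiv ℝ b z - fderiv ℝ a z))
    have hg : ∀ o, HasFDerivAt (g o) (g' o) z := by
      intro o
      cases o with
      | none => exact (hCsd z).hasFDerivAt
      | some j =>
        by_cases hj : j = i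
        · subst hj
          have h1 : HasFDerivAt (fun z => b z - a z) (fderiv ℝ b z - fderiv ℝ a z) z :=
            (hbd z).hasFDerivAt.sub (had z).hasFDerivAt
          have e1 : g (some j) = fun z => b z - a z := by
            funext y
            simp [g]
          have e2 : g' (some j) = fderiv ℝ b z - fderiv ℝ a z := by simp [g']
          rw [e1, e2]
          exact h1
        · have e1 : g (some j) = fun z => pd Cs z j := by
            funext y
            simp [g, Function.update_of_ne hj]
          have e2 : g' (some j) = (fderiv ℝ (fderiv ℝ Cs) z).flip (e j) := by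
            simp [g', Function.update_of_ne hj]
          rw [e1, e2]
          exact hpdC j
    obtain ⟨L, hL, hL2⟩ := WStokesId_hasFDerivAt g g' z hg
    have hgz : (fun o => g o z) = Function.update w (some i) W := by
      funext o
      cases o with
      | none => simp [g, w, Cs, hc]
      | some j =>
        by_cases hj : j = i
        · subst hj
          simp [g, W]
        · have : (some j : Option (Fin m)) ≠ some i := fun h => hj (Option.some.inj h)
          simp [g, w, P, Function.update_of_ne hj, Function.update_of_ne this]
    have hφz : HasFDerivAt (fun z => φ (Cs z)) (ψ.comp (fderiv ℝ Cs z)) z :=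
      HasFDerivAt.comp z hφc (hCsd z).hasFDerivAt
    have h3 := hφz.mul hL
    have h4 : pd (fun z => φ ((1 - s) • a z + s • b z) * dt fun o =>
      o.elim ((1 - s) • a z + s • b z)
        (Function.update (pd (fun z => (1 - s) • a z + s • b z) z) i (b z - a z))) z i =
        (φ (Cs z) • L + dt (fun o => g o z) • ψ.comp (fderiv ℝ Cs z)) (e i) := by
      unfold pd
      exact congrArg (fun T : F m →L[ℝ] ℝ => T (e i)) h3.fderiv
    rw [h4]
    simp only [_root_.add_apply, _root_.smul_apply, smul_eq_mul, hL2, hgz,
      ContinuousLinearMap.comp_apply]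
    rw [Fintype.sum_option]
    -- the entry none
    have t1 : dt (Function.update (Function.update w (some i) W) none (g' none (e i))) =
        -dt (Function.update w none W) := by
      have h5 := WStokesId_swap (Function.update w none W)
        (p := none) (q := some i) (by simp)
      rw [← h5]
      congr 1
      funext o
      cases o with
      | none =>
        simp [g', w, P, pd, e]
      | some j =>
        by_cases hj : j = i
        · subst hj
          simp
        · have h6 : (some j : Option (Fin m)) ≠ some i := fun h => hj (Option.some.inj h)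
          simp [Equiv.swap_apply_of_ne_of_ne (show (some j : Option (Fin m)) ≠ none by simp) h6,
            Function.update_of_ne h6]
    have t2 : ∑ j, dt (Function.update (Function.update w (some i) W) (some j)
        (g' (some j) (e i))) = dt (Function.update w (some i) (Wd i)) +
        ∑ j, if j = i then 0 else
          dt (Function.update (Function.update w (some i) W) (some j) (H i j)) := by
      rw [← Finset.add_sum_erase _ _ (Finset.mem_univ i)]
      congr 1
      · simp [g', Wd, pd, e]
      · rw [← Finset.add_sum_erase (Finset.univ : Finset (Fin m)) (fun j => if j = i then 0 else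
          dt (Function.update (Function.update w (some i) W) (some j) (H i j)))
          (Finset.mem_univ i), if_pos rfl, zero_add]
        apply Finset.sum_congr rfl
        intro j hj
        have hji : j ≠ i := Finset.ne_of_mem_erase hj
        rw [if_neg hji]
        simp [g', Function.update_of_ne hji, H]
    rw [t1, t2]
    have e5 : (fderiv ℝ Cs z) (e i) = P i := rfl
    have e6 : Cs z = c := rfl
    rw [e5, e6]
    ring
  -- the double sum vanishes
  have hzero : ∑ i, ∑ j, (if j = i then 0 else
      dt (Function.update (Function.update w (some i) W) (some j) (H i j))) = 0 := by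
    let f : Fin m → Fin m → ℝ := fun i j => if j = i then 0 else
      dt (Function.update (Function.update w (some i) W) (some j) (H i j))
    have hanti : ∀ i j, f i j = - f j i := by
      intro i j
      by_cases hij : j = i
      · subst hij
        simp [f]
      · have hij' : i ≠ j := fun h => hij h.symm
        simp only [f, if_neg hij, if_neg hij']
        have h7 : (some i : Option (Fin m)) ≠ some j := fun h => hij' (Option.some.inj h)
        rw [← WStokesId_swap _ h7]
        congr 1
        funext o
        by_cases hoi : o = some i
        · subst hoi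
          simp [Function.update_of_ne h7, Function.update_of_ne h7.symm]
        · by_cases hoj : o = some j
          · subst hoj
            simp [hHsymm i j]
          · simp only [Function.comp_apply, Equiv.swap_apply_of_ne_of_ne hoi hoj,
              Function.update_of_ne hoi, Function.update_of_ne hoj]
    have h8 : ∑ i, ∑ j, f i j = - ∑ i, ∑ j, f i j := by
      conv_lhs => rw [Finset.sum_comm]
      rw [← Finset.sum_neg_distrib]
      apply Finset.sum_congr rfl
      intro i _
      rw [← Finset.sum_neg_distrib]
      apply Finset.sum_congr rfl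
      intro j _
      exact hanti j i
    linarith
  refine hleft.congr_deriv ?_
  rw [Finset.sum_congr rfl fun i _ => hright i, Finset.sum_add_distrib, ← Finset.mul_sum,
    Finset.sum_add_distrib, Finset.sum_add_distrib, hzero, Finset.sum_const, Finset.card_univ,
    Fintype.card_fin, nsmul_eq_mul, hcr, hψc]
  ring

end Pool.Agent.Lib.MP_5c4da9_an
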